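import Pool.Agent.Lib.MP_5bde83_ag.Defs

namespace Pool.Agent.Lib.MP_5bde83_ag

open Polynomial

noncomputable section

/-! ### derivations -/

theorem Dx_coeff (f : R2) (j : ℕ) : (Dx f).coeff j = derivative (f.coeff j) := by
  unfold Dx
  rw [Polynomial.sum_def, Polynomial.finsetSum_coeff]
  simp only [Polynomial.coeff_monomial]
  rw [Finset.sum_ite_eq' f.support j]
  split_ifs with h
  · rfl
  · rw [Polynomial.notMem_support_iff.mp h]; simp

theorem Dy_coeff (f : R2) (j : ℕ) : (Dy f).coeff j = f.coeff (j + 1) * ((j : Polynomial ℂ) + 1) := by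
  unfold Dy
  exact Polynomial.coeff_derivative f j

theorem Dx_add (f g : R2) : Dx (f + g) = Dx f + Dx g := by
  ext1 j; simp [Dx_coeff]

theorem Dx_zero : Dx 0 = 0 := by
  ext1 j; simp [Dx_coeff]

theorem Dx_neg (f : R2) : Dx (-f) = -Dx f := by
  ext1 j; simp [Dx_coeff]

theorem Dx_sub (f g : R2) : Dx (f - g) = Dx f - Dx g := by
  ext1 j; simp [Dx_coeff]

theorem Dx_sum {ι : Type*} (s : Finset ι) (f : ι → R2) : Dx (∑ i ∈ s, f i) = ∑ i ∈ s, Dx (f i) := by
  ext1 j; simp [Dx_coeff, Polynomial.finsetSum_coeff]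

theorem Dx_mul (f g : R2) : Dx (f * g) = Dx f * g + f * Dx g := by
  ext1 j
  simp only [Dx_coeff, Polynomial.coeff_mul, Polynomial.coeff_add, derivative_sum, derivative_mul,
    Finset.sum_add_distrib]

theorem Dx_C (a : Polynomial ℂ) : Dx (C a) = C (derivative a) := by
  ext1 j
  rw [Dx_coeff, coeff_C, coeff_C]
  split_ifs <;> simp

theorem Dx_X : Dx (X : R2) = 0 := by
  ext1 j
  rw [Dx_coeff, coeff_X]
  split_ifs <;> simp

theorem Dx_CX : Dx (C X : R2) = 1 := by
  rw [Dx_C]; simp

theorem Dx_CC (c : ℂ) : Dx (C (C c) : R2) = 0 := by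
  rw [Dx_C]; simp

theorem Dx_one : Dx (1 : R2) = 0 := by
  have := Dx_CC 1
  simpa using this

theorem Dx_pow (f : R2) (k : ℕ) : Dx (f ^ (k+1)) = ((k : R2) + 1) * f ^ k * Dx f := by
  induction k with
  | zero => simp
  | succ k ih =>
    rw [pow_succ, Dx_mul, ih]
    push_cast
    ring

theorem Dx_map_C (f : Polynomial ℂ) : Dx (f.map C : R2) = 0 := by
  ext1 j
  rw [Dx_coeff, coeff_map]; simp

theorem Dx_C_mul (a : Polynomial ℂ) (f : R2) : Dx (C a * f) = C (derivative a) * f + C a * Dx f := by
  rw [Dx_mul, Dx_C]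

theorem Dx_CC_mul (c : ℂ) (f : R2) : Dx (C (C c) * f) = C (C c) * Dx f := by
  rw [Dx_mul, Dx_CC]; ring

theorem Dy_add (f g : R2) : Dy (f + g) = Dy f + Dy g := by
  unfold Dy; exact derivative_add

theorem Dy_zero : Dy 0 = 0 := by unfold Dy; exact derivative_zero

theorem Dy_neg (f : R2) : Dy (-f) = -Dy f := by unfold Dy; exact derivative_neg f

theorem Dy_sub (f g : R2) : Dy (f - g) = Dy f - Dy g := by unfold Dy; exact derivative_sub

theorem Dy_sum {ι : Type*} (s : Finset ι) (f : ι → R2) : Dy (∑ i ∈ s, f i) = ∑ i ∈ s, Dy (f i) := by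
  unfold Dy; exact derivative_sum

theorem Dy_mul (f g : R2) : Dy (f * g) = Dy f * g + f * Dy g := by
  unfold Dy; exact derivative_mul

theorem Dy_C (a : Polynomial ℂ) : Dy (C a) = 0 := by unfold Dy; exact derivative_C

theorem Dy_X : Dy (X : R2) = 1 := by unfold Dy; exact derivative_X

theorem Dy_one : Dy (1 : R2) = 0 := by unfold Dy; exact derivative_one

theorem Dy_C_mul (a : Polynomial ℂ) (f : R2) : Dy (C a * f) = C a * Dy f := by
  rw [Dy_mul, Dy_C]; ring

theorem Dy_pow (f : R2) (k : ℕ) : Dy (f ^ (k+1)) = ((k : R2) + 1) * f ^ k * Dy f := by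
  induction k with
  | zero => simp
  | succ k ih =>
    rw [pow_succ, Dy_mul, ih]
    push_cast
    ring

theorem Dy_map_C (f : Polynomial ℂ) : Dy (f.map C : R2) = (derivative f).map C := by
  unfold Dy; exact derivative_map f C

/-- the main shift identity -/
theorem Infl_shift (m A' B : R2) :
    Infl (A' - m * B) B = B ^ 3 * kap m - B * (Dx A' * B - A' * Dx B)
      - m * B * (Dy A' * B - A' * Dy B) - A' * Dy m * B ^ 2 + A' * (Dy A' * B - A' * Dy B) := by
  unfold Infl kap
  simp only [Dx_sub, Dy_sub, Dx_mul, Dy_mul]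
  ring

/-- multiplying with `x^2` -/
theorem Infl_radial (A B : R2) :
    (C X) ^ 2 * Infl A B =
      (C X * A + X * B) * (Dy (C X * A + X * B) * B - (C X * A + X * B) * Dy B)
      - B * ((C X * Dx (C X * A + X * B) + X * Dy (C X * A + X * B)) * B
          - (C X * A + X * B) * (C X * Dx B + X * Dy B)) := by
  unfold Infl
  simp only [Dx_add, Dy_add, Dx_mul, Dy_mul, Dx_CX, Dx_X, Dy_X, Dy_C]
  ring

/-! ### weighted order -/

theorem Ord_zero_poly (N D k : ℕ) : Ord N D k 0 := by
  intro i j h; simp at h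

theorem Ord_zero (N D : ℕ) (f : R2) : Ord N D 0 f := by
  intro i j _; exact Nat.zero_le _

theorem Ord.mono {N D k l : ℕ} {f : R2} (h : Ord N D k f) (hl : l ≤ k) : Ord N D l f :=
  fun i j hij => hl.trans (h i j hij)

theorem Ord.add {N D k : ℕ} {f g : R2} (hf : Ord N D k f) (hg : Ord N D k g) :
    Ord N D k (f + g) := by
  intro i j h
  by_cases h1 : (f.coeff j).coeff i = 0
  · by_cases h2 : (g.coeff j).coeff i = 0
    · exact absurd (by simp [h1, h2]) h
    · exact hg i j h2
  · exact hf i j h1

theorem Ord.neg {N D k : ℕ} {f : R2} (hf : Ord N D k f) : Ord N D k (-f) := by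
  intro i j h
  apply hf i j
  intro h1; apply h; simp [h1]

theorem Ord.sub {N D k : ℕ} {f g : R2} (hf : Ord N D k f) (hg : Ord N D k g) :
    Ord N D k (f - g) := by
  rw [sub_eq_add_neg]; exact hf.add hg.neg

theorem Ord.sum {N D k : ℕ} {ι : Type*} (s : Finset ι) (f : ι → R2)
    (h : ∀ i ∈ s, Ord N D k (f i)) : Ord N D k (∑ i ∈ s, f i) := by
  classical
  induction s using Finset.induction_on with
  | empty => simpa using Ord_zero_poly N D k
  | insert a s ha ih =>
    rw [Finset.sum_insert ha]
    exact (h a (Finset.mem_insert_self a s)).add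
      (ih (fun i hi => h i (Finset.mem_insert_of_mem hi)))

theorem Ord.mul {N D k l : ℕ} {f g : R2} (hf : Ord N D k f) (hg : Ord N D l g) :
    Ord N D (k + l) (f * g) := by
  intro i j h
  rw [Polynomial.coeff_mul, Polynomial.finsetSum_coeff] at h
  obtain ⟨p, hp, hp1⟩ := Finset.exists_ne_zero_of_sum_ne_zero h
  rw [Polynomial.coeff_mul] at hp1
  obtain ⟨q, hq, hq1⟩ := Finset.exists_ne_zero_of_sum_ne_zero hp1
  have h1 := hf _ _ (left_ne_zero_of_mul hq1)
  have h2 := hg _ _ (right_ne_zero_of_mul hq1)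
  rw [Finset.HasAntidiagonal.mem_antidiagonal] at hp hq
  rw [← hp, ← hq]
  nlinarith

theorem Ord.mul_left {N D l : ℕ} (f : R2) {g : R2} (hg : Ord N D l g) :
    Ord N D l (f * g) := by
  simpa using (Ord_zero N D f).mul hg

theorem Ord.mul_right {N D l : ℕ} {f : R2} (g : R2) (hf : Ord N D l f) :
    Ord N D l (f * g) := by
  simpa using hf.mul (Ord_zero N D g)

theorem Ord.pow {N D k : ℕ} {f : R2} (hf : Ord N D k f) (r : ℕ) : Ord N D (r * k) (f ^ r) := by
  induction r with
  | zero => simpa using Ord_zero N D _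
  | succ r ih =>
    rw [pow_succ, Nat.succ_mul]
    exact ih.mul hf

theorem Ord.dx {N D k : ℕ} {f : R2} (hf : Ord N D k f) : Ord N D (k - N) (Dx f) := by
  intro i j h
  rw [Dx_coeff, Polynomial.coeff_derivative] at h
  have := hf _ _ (left_ne_zero_of_mul h)
  rw [Nat.sub_le_iff_le_add]
  nlinarith

theorem Ord.dy {N D k : ℕ} {f : R2} (hf : Ord N D k f) : Ord N D (k - D) (Dy f) := by
  intro i j h
  rw [Dy_coeff] at h
  have h2 : (f.coeff (j+1)).coeff i ≠ 0 := by
    intro h3; apply h
    have : ((j : Polynomial ℂ) + 1) = C ((j : ℂ) + 1) := by simp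
    rw [this, Polynomial.coeff_mul_C, h3, zero_mul]
  have := hf _ _ h2
  rw [Nat.sub_le_iff_le_add]
  nlinarith

theorem Ord_X (N D : ℕ) : Ord N D D (X : R2) := by
  intro i j h
  rw [coeff_X] at h
  split_ifs at h with h1
  · subst h1; nlinarith
  · simp at h

theorem Ord_CX (N D : ℕ) : Ord N D N (C X : R2) := by
  intro i j h
  rw [coeff_C] at h
  split_ifs at h with h1
  · rw [coeff_X] at h
    split_ifs at h with h2
    · subst h2; nlinarith
    · simp at h
  · simp at h

theorem Ord_X_pow (N D k : ℕ) : Ord N D (D * k) (X ^ k : R2) := by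
  have := (Ord_X N D).pow k
  rwa [mul_comm] at this

theorem Ord_CX_pow (N D k : ℕ) : Ord N D (N * k) ((C X) ^ k : R2) := by
  have := (Ord_CX N D).pow k
  rwa [mul_comm] at this

theorem Ord_of_X_pow_dvd {N D k : ℕ} {f : R2} (h : X ^ k ∣ f) : Ord N D (D * k) f := by
  obtain ⟨g, rfl⟩ := h
  exact (Ord_X_pow N D k).mul_right g

theorem Ord_of_CX_pow_dvd {N D k : ℕ} {f : R2} (h : (C X) ^ k ∣ f) : Ord N D (N * k) f := by
  obtain ⟨g, rfl⟩ := h
  exact (Ord_CX_pow N D k).mul_right g

/-! ### weighted components -/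

theorem phi_C (N D : ℕ) (a : Polynomial ℂ) :
    phi N D (C a) = eval₂RingHom ((C : Polynomial ℂ →+* Polynomial (Polynomial ℂ)).comp C)
      (C X * X ^ N) a := by
  simp [phi]

theorem phi_X (N D : ℕ) : phi N D X = X ^ D := by simp [phi]

theorem phi_CX (N D : ℕ) : phi N D (C X) = C X * X ^ N := by simp [phi]

theorem phi_CC (N D : ℕ) (c : ℂ) : phi N D (C (C c)) = C (C c) := by simp [phi]

/-- coefficients of the image under `phi` of a monomial -/
theorem phi_monomial (N D j i : ℕ) (c : ℂ) :
    phi N D (monomial j (monomial i c)) = monomial (N * i + D * j) (monomial i c) := by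
  rw [← C_mul_X_pow_eq_monomial, ← C_mul_X_pow_eq_monomial, ← C_mul_X_pow_eq_monomial,
    map_mul, map_pow, phi_X, C_mul, map_mul, phi_CC, C_pow, map_pow, phi_CX]
  ring

theorem R2_ind {P : R2 → Prop} (hadd : ∀ f g, P f → P g → P (f + g))
    (hmon : ∀ j i c, P (monomial j (monomial i c))) (f : R2) : P f := by
  induction f using Polynomial.induction_on' with
  | add p q hp hq => exact hadd p q hp hq
  | monomial j a =>
    induction a using Polynomial.induction_on' with
    | add p q hp hq => rw [map_add]; exact hadd _ _ hp hq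
    | monomial i c => exact hmon j i c

theorem wc_add (N D k : ℕ) (f g : R2) : wc N D k (f + g) = wc N D k f + wc N D k g := by
  simp [wc]

theorem wc_sub (N D k : ℕ) (f g : R2) : wc N D k (f - g) = wc N D k f - wc N D k g := by
  simp [wc]

theorem wc_neg (N D k : ℕ) (f : R2) : wc N D k (-f) = - wc N D k f := by
  simp [wc]

theorem wc_zero (N D k : ℕ) : wc N D k 0 = 0 := by
  simp [wc]

theorem wc_sum {ι : Type*} (N D k : ℕ) (s : Finset ι) (f : ι → R2) :
    wc N D k (∑ i ∈ s, f i) = ∑ i ∈ s, wc N D k (f i) := by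
  simp [wc, Polynomial.finsetSum_coeff]

theorem wc_CC_mul (N D k : ℕ) (c : ℂ) (f : R2) : wc N D k (C (C c) * f) = C c * wc N D k f := by
  simp [wc, phi_CC]

theorem wc_monomial (N D k j i : ℕ) (c : ℂ) :
    wc N D k (monomial j (monomial i c)) = if N * i + D * j = k then monomial i c else 0 := by
  rw [wc, phi_monomial, coeff_monomial]

/-- the coefficients of weighted components -/
theorem wc_coeff_eq {N D : ℕ} (hD : 0 < D) (i j : ℕ) (f : R2) :
    (wc N D (N * i + D * j) f).coeff i = (f.coeff j).coeff i := by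
  induction f using R2_ind with
  | hadd f g hf hg => simp [wc_add, hf, hg]
  | hmon j' i' c =>
    rw [wc_monomial, coeff_monomial]
    by_cases hi : i' = i
    · subst hi
      by_cases hj : j' = j
      · subst hj; simp
      · have : ¬ (N * i' + D * j' = N * i' + D * j) := by
          intro h
          apply hj
          have h2 : D * j' = D * j := by omega
          exact Nat.eq_of_mul_eq_mul_left hD h2
        rw [if_neg this, if_neg hj]
    · by_cases hj : j' = j
      · subst hj
        rw [if_pos rfl, coeff_monomial, if_neg hi]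
        split_ifs
        · rw [coeff_monomial, if_neg hi]
        · simp
      · rw [if_neg hj]
        split_ifs
        · rw [coeff_monomial, if_neg hi]; simp
        · simp

theorem wc_coeff_ne {N D : ℕ} (k i : ℕ) (f : R2) (h : (wc N D k f).coeff i ≠ 0) :
    ∃ j, N * i + D * j = k ∧ (wc N D k f).coeff i = (wc N D (N * i + D * j) f).coeff i := by
  by_contra hcon
  apply h
  push Not at hcon
  have key : ∀ j, N * i + D * j ≠ k := by
    intro j hj
    exact hcon j hj (by rw [hj])
  clear hcon h
  induction f using R2_ind with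
  | hadd f g hf hg => simp [wc_add, hf, hg]
  | hmon j' i' c =>
    rw [wc_monomial]
    split_ifs with h1
    · rw [coeff_monomial]
      split_ifs with h2
      · subst h2; exact absurd h1 (key j')
      · rfl
    · simp

theorem wc_eq_zero_of_Ord {N D k l : ℕ} (hD : 0 < D) {f : R2} (hf : Ord N D k f) (hl : l < k) :
    wc N D l f = 0 := by
  ext i
  by_contra h
  obtain ⟨j, hj, hj2⟩ := wc_coeff_ne l i f (by simpa using h)
  rw [wc_coeff_eq hD] at hj2
  have := hf i j (by rw [← hj2]; simpa using h)
  omega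

theorem Ord_of_wc {N D k : ℕ} (hD : 0 < D) {f : R2} (h : ∀ l < k, wc N D l f = 0) :
    Ord N D k f := by
  intro i j hij
  by_contra hlt
  push Not at hlt
  have := h _ hlt
  apply hij
  rw [← wc_coeff_eq (N := N) hD i j f, this]
  simp

theorem Ord_succ {N D k : ℕ} (hD : 0 < D) {f : R2} (hf : Ord N D k f) (h : wc N D k f = 0) :
    Ord N D (k + 1) f := by
  apply Ord_of_wc hD
  intro l hl
  rcases Nat.lt_or_ge l k with h1 | h1
  · exact wc_eq_zero_of_Ord hD hf h1
  · have : l = k := by omega
    rw [this, h]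

theorem exists_Ord {N D : ℕ} (hD : 0 < D) {f : R2} (hf : f ≠ 0) :
    ∃ k, Ord N D k f ∧ wc N D k f ≠ 0 := by
  classical
  have hex : ∃ k, wc N D k f ≠ 0 := by
    by_contra hcon
    push Not at hcon
    apply hf
    ext j i
    rw [← wc_coeff_eq (N := N) hD i j f, hcon]
    simp
  refine ⟨Nat.find hex, ?_, Nat.find_spec hex⟩
  apply Ord_of_wc hD
  intro l hl
  have := Nat.find_min hex hl
  push Not at this
  exact this

/-- multiplicativity of lowest components -/
theorem coeff_mul_low {R : Type*} [CommRing R] {k l : ℕ} {f g : Polynomial R}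
    (hf : ∀ m < k, f.coeff m = 0) (hg : ∀ m < l, g.coeff m = 0) :
    (f * g).coeff (k + l) = f.coeff k * g.coeff l := by
  rw [Polynomial.coeff_mul]
  apply Finset.sum_eq_single_of_mem (k, l) (by simp)
  rintro ⟨a, b⟩ hab hne
  rw [Finset.HasAntidiagonal.mem_antidiagonal] at hab
  simp only at hab ⊢
  rcases Nat.lt_trichotomy a k with h | h | h
  · rw [hf a h, zero_mul]
  · exfalso; apply hne; rw [Prod.mk.injEq]; omega
  · rw [hg b (by omega), mul_zero]

theorem wc_mul {N D k l : ℕ} (hD : 0 < D) {f g : R2} (hf : Ord N D k f) (hg : Ord N D l g) :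
    wc N D (k + l) (f * g) = wc N D k f * wc N D l g := by
  unfold wc
  rw [map_mul]
  apply coeff_mul_low
  · intro m hm
    exact wc_eq_zero_of_Ord hD hf hm
  · intro m hm
    exact wc_eq_zero_of_Ord hD hg hm

theorem wc_Dx (N D k : ℕ) (f : R2) : wc N D k (Dx f) = derivative (wc N D (k + N) f) := by
  induction f using R2_ind with
  | hadd f g hf hg => simp [wc_add, Dx_add, hf, hg]
  | hmon j i c =>
    have h1 : Dx (monomial j (monomial i c)) = monomial j (monomial (i - 1) (c * i)) := by
      ext1 m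
      rw [Dx_coeff, coeff_monomial, coeff_monomial]
      split_ifs
      · exact derivative_monomial c i
      · simp
    rw [h1, wc_monomial, wc_monomial]
    rcases Nat.eq_zero_or_pos i with hi | hi
    · subst hi
      simp only [Nat.cast_zero, mul_zero, monomial_zero_right, ite_self]
      split_ifs
      · rw [derivative_monomial]; simp
      · simp
    · obtain ⟨i, rfl⟩ : ∃ i', i = i' + 1 := ⟨i - 1, by omega⟩
      simp only [Nat.add_sub_cancel]
      by_cases h : N * i + D * j = k
      · rw [if_pos h, if_pos (by rw [← h]; ring), derivative_monomial]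
        simp
      · rw [if_neg h, if_neg (by intro h2; apply h; rw [Nat.mul_add] at h2; omega)]
        simp

theorem wc_Dy {N D : ℕ} (k : ℕ) (f : R2) :
    C (D : ℂ) * wc N D k (Dy f) =
      C ((k + D : ℕ) : ℂ) * wc N D (k + D) f - C (N : ℂ) * (X * derivative (wc N D (k + D) f)) := by
  induction f using R2_ind with
  | hadd f g hf hg =>
    rw [Dy_add, wc_add, wc_add, mul_add, hf, hg, derivative_add]; ring
  | hmon j i c =>
    have h1 : Dy (monomial j (monomial i c)) = monomial (j - 1) (monomial i (c * j)) := by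
      unfold Dy
      rw [derivative_monomial]
      congr 1
      ext m
      simp only [coeff_monomial]
      have : (j : Polynomial ℂ) = C (j : ℂ) := by simp
      rw [this, coeff_mul_C, coeff_monomial]
      split_ifs <;> simp
    have hX : X * derivative (monomial i c) = C (i : ℂ) * monomial i c := by
      rw [derivative_monomial, X_mul_monomial, C_mul_monomial]
      rcases Nat.eq_zero_or_pos i with hi | hi
      · subst hi; simp
      · rw [Nat.sub_add_cancel hi, mul_comm]
    rw [h1, wc_monomial, wc_monomial]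
    rcases Nat.eq_zero_or_pos j with hj | hj
    · subst hj
      simp only [Nat.cast_zero, mul_zero, monomial_zero_right, ite_self, Nat.add_zero]
      split_ifs with h
      · rw [hX, ← h]
        push_cast
        rw [C_mul]
        ring
      · simp
    · obtain ⟨j, rfl⟩ : ∃ j', j = j' + 1 := ⟨j - 1, by omega⟩
      simp only [Nat.add_sub_cancel]
      by_cases h : N * i + D * j = k
      · rw [if_pos h, if_pos (by rw [← h]; ring), hX, ← h]
        have e1 : monomial i (c * ((j + 1 : ℕ) : ℂ)) = C ((j + 1 : ℕ) : ℂ) * monomial i c := by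
          rw [C_mul_monomial, mul_comm]
        rw [e1]
        push_cast
        simp only [C_add, C_mul, C_1]
        ring
      · rw [if_neg h, if_neg (by intro h2; apply h; rw [Nat.mul_add] at h2; omega)]
        simp

theorem wc_Dy_one (k : ℕ) (f : R2) :
    wc 1 1 k (Dy f) = C ((k + 1 : ℕ) : ℂ) * wc 1 1 (k + 1) f - X * derivative (wc 1 1 (k + 1) f) := by
  have := wc_Dy (N := 1) (D := 1) k f
  simpa using this

theorem wc_X (N D : ℕ) : wc N D D (X : R2) = 1 := by
  unfold wc; rw [phi_X]; simp

theorem wc_CX (N D : ℕ) : wc N D N (C X : R2) = X := by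
  unfold wc; rw [phi_CX]; simp

end

end Pool.Agent.Lib.MP_5bde83_ag
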