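import Pool.Agent.Lib.MP_5bde83_ag.Mg.G008

namespace Pool.Agent.Lib.MP_5bde83_ag

open Polynomial

variable {n : ℕ} {ω : Fin 3 → MvPolynomial (Fin 3) ℂ} {ℓ : Fin (3 * n) → Fin 3 → ℂ}

/-- cross product -/
def cr (u v : Fin 3 → ℂ) : Fin 3 → ℂ :=
  ![u 1 * v 2 - u 2 * v 1, u 2 * v 0 - u 0 * v 2, u 0 * v 1 - u 1 * v 0]

theorem tri_eq_dot_cr (u e v : Fin 3 → ℂ) : tri u e v = dot (cr v u) e := by
  simp [tri, dot, cr, Fin.sum_univ_three]; ring

theorem cr_swap (u v : Fin 3 → ℂ) : cr v u = - cr u v := by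
  funext j
  fin_cases j
  · simp [cr]; ring
  · simp [cr]; ring
  · simp [cr]; ring

theorem cr_swap_ne {u v : Fin 3 → ℂ} (h : cr u v ≠ 0) : cr v u ≠ 0 := by
  rw [cr_swap]; exact neg_ne_zero.mpr h

theorem exists_transversal {u v : Fin 3 → ℂ} (h : cr u v ≠ 0) : ∃ e, tri u e v ≠ 0 := by
  by_contra hcon
  push Not at hcon
  apply cr_swap_ne h
  funext j
  have := hcon (Pi.single j 1)
  rw [tri_eq_dot_cr] at this
  rw [dot, Finset.sum_eq_single j] at this
  · simpa using this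
  · intro b _ hb; simp [Pi.single_eq_of_ne hb]
  · intro h; exact absurd (Finset.mem_univ j) h

theorem tri_ne_of_line {l a e b : Fin 3 → ℂ} (ha : dot l a = 0) (hb : dot l b = 0)
    (hab : cr a b ≠ 0) (he : dot l e ≠ 0) : tri a e b ≠ 0 := by
  intro h
  -- cr b a is proportional to l
  obtain ⟨e', he'⟩ := exists_transversal hab
  obtain ⟨x, y, z, hxyz⟩ := frame_decomp he' e
  have h1 : dot l e = y * dot l e' := by
    rw [hxyz, dot_add, dot_add, dot_smul, dot_smul, dot_smul, ha, hb]; ring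
  have h2 : tri a e b = y * tri a e' b := by
    rw [hxyz]
    unfold tri
    simp only [Pi.add_apply, Pi.smul_apply, smul_eq_mul]
    ring
  rw [h2] at h
  rcases mul_eq_zero.mp h with h3 | h3
  · rw [h3, zero_mul] at h1; exact he h1
  · exact he' h3

theorem line_span {l a b p : Fin 3 → ℂ} (hl : l ≠ 0) (ha : dot l a = 0) (hb : dot l b = 0)
    (hab : cr a b ≠ 0) (hp : dot l p = 0) : ∃ x y : ℂ, p = x • a + y • b := by
  obtain ⟨e, he⟩ := exists_transversal hab
  obtain ⟨x, y, z, hxyz⟩ := frame_decomp he p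
  have hle : dot l e ≠ 0 := fun h => hl (eq_zero_of_dots he ha h hb)
  have h1 : dot l p = y * dot l e := by
    rw [hxyz, dot_add, dot_add, dot_smul, dot_smul, dot_smul, ha, hb]; ring
  rw [hp] at h1
  have hy : y = 0 := (mul_eq_zero.mp h1.symm).resolve_right hle
  exact ⟨x, z, by rw [hxyz, hy]; simp⟩

theorem ne_zero_of_cr_left {u v : Fin 3 → ℂ} (h : cr u v ≠ 0) : u ≠ 0 := by
  rintro rfl
  apply h
  funext j; fin_cases j <;> simp [cr]

theorem ne_zero_of_cr_right {u v : Fin 3 → ℂ} (h : cr u v ≠ 0) : v ≠ 0 := by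
  rintro rfl
  apply h
  funext j; fin_cases j <;> simp [cr]

theorem poly_zero_of_eval (P : Polynomial ℂ) (h : ∀ x, x ≠ 0 → P.eval x = 0) : P = 0 := by
  apply Polynomial.eq_zero_of_infinite_isRoot
  apply Set.Infinite.mono (s := {x : ℂ | x ≠ 0})
  · intro x hx; exact h x hx
  · have : ({x : ℂ | x ≠ 0}) = ({0} : Set ℂ)ᶜ := by ext; simp
    rw [this]
    exact (Set.finite_singleton 0).infinite_compl

theorem ev_zero_of_forall (e1 e2 s w : Fin 3 → ℂ)
    (h : ∀ x y : ℂ, dot (evv ω (x • e1 + y • e2 + s)) w = 0) : ev ω e1 e2 s w = 0 := by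
  have h2 : ∀ x : ℂ, (ev ω e1 e2 s w).map (evalRingHom x) = 0 := by
    intro x
    apply poly_zero_of_eval
    intro y _
    rw [map_evalRingHom_eval]
    show eval x (eval (C y) (ev ω e1 e2 s w)) = 0
    rw [ev_eval, h]
  apply Polynomial.ext
  intro j
  rw [coeff_zero]
  apply poly_zero_of_eval
  intro x _
  have h3 := congrArg (fun f => f.coeff j) (h2 x)
  simpa [coeff_map] using h3

/-- `w0` is the center of the line `l` -/
def IsCenter (ω : Fin 3 → MvPolynomial (Fin 3) ℂ) (l w0 : Fin 3 → ℂ) : Prop :=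
  w0 ≠ 0 ∧ dot l w0 = 0 ∧ ∀ p e, dot l p = 0 → db ω p e w0 = 0

theorem IsCenter.smul {l w0 : Fin 3 → ℂ} (h : IsCenter ω l w0) (c : ℂ) (hc : c ≠ 0) :
    IsCenter ω l (c • w0) := by
  refine ⟨smul_ne_zero hc h.1, ?_, ?_⟩
  · rw [dot_smul, h.2.1, mul_zero]
  · intro p e hp
    rw [db_smul_w, h.2.2 p e hp, mul_zero]

/-- in a frame with center at infinity, `y^2` divides `A` -/
theorem IsCenter.coeff (hE : ∑ j, MvPolynomial.X j * ω j = 0) {l w0 : Fin 3 → ℂ}
    (hl : InvLine ω l) (h : IsCenter ω l w0) (e2 s : Fin 3 → ℂ) (hs : dot l s = 0) :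
    (ev ω w0 e2 s w0).coeff 0 = 0 ∧ (ev ω w0 e2 s w0).coeff 1 = 0 := by
  refine ⟨ev_inv_y hE l w0 e2 s hl h.2.1 hs, ?_⟩
  apply poly_zero_of_eval
  intro x _
  rw [coeff_one_eval]
  apply h.2.2
  rw [dot_add, dot_smul, h.2.1, hs]; ring

theorem cen_ext (hhom : ∀ j, (ω j).IsHomogeneous (n + 1)) (a b e2 w : Fin 3 → ℂ)
    (h : ∀ x : ℂ, db ω (x • a + b) e2 w = 0) (x y : ℂ) : db ω (x • a + y • b) e2 w = 0 := by
  have hy : ∀ x y : ℂ, y ≠ 0 → db ω (x • a + y • b) e2 w = 0 := by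
    intro x y hy
    have : x • a + y • b = y • ((x / y) • a + b) := by
      rw [smul_add, smul_smul, mul_div_cancel₀ _ hy]
    rw [this, db_smul_p hhom, h, mul_zero]
  by_cases hy0 : y = 0
  · have h1 : (ev ω b e2 (x • a) w).coeff 1 = 0 := by
      apply poly_zero_of_eval
      intro y hy1
      rw [coeff_one_eval, add_comm]
      exact hy x y hy1
    have h2 := coeff_one_eval (ω := ω) b e2 (x • a) w 0
    rw [h1, eval_zero, zero_smul, zero_add] at h2
    rw [hy0, zero_smul, add_zero]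
    exact h2.symm
  · exact hy x y hy0

theorem db_along (p a w0 : Fin 3 → ℂ)
    (h : ∀ y : ℂ, dot (evv ω (p + y • a)) w0 = 0) : db ω p a w0 = 0 := by
  have h0 : ev ω 0 a p w0 = 0 := by
    apply ev_zero_of_forall
    intro x y
    rw [smul_zero, zero_add, add_comm]
    exact h y
  have h2 := coeff_one_eval (ω := ω) 0 a p w0 0
  rw [h0, coeff_zero, eval_zero, smul_zero, zero_add] at h2
  exact h2.symm

/-- existence of the center of a line of multiplicity at least 2 -/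
theorem GData.center_exists (G : GData n ω ℓ) (l a b : Fin 3 → ℂ) (hl : InvLine ω l)
    (ha : dot l a = 0) (hb : dot l b = 0) (hab : cr a b ≠ 0) (he : 2 ≤ ec ℓ a b) :
    ∃ w0, IsCenter ω l w0 := by
  classical
  obtain ⟨e2, he2⟩ := exists_transversal hab
  have hA0 := ev_inv_y G.fol.euler l a e2 b hl ha hb
  have hB0 := G.B0_ne l a e2 b he2 hl ha hb
  obtain ⟨c, hc, hI⟩ := G.infl_frame a e2 b he2
  have hu0 : ∀ i, lc (ℓ i) a e2 b ≠ 0 := fun i => lc_ne he2 (G.inv i).1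
  obtain ⟨J, c', hc', hJ1, hJ2⟩ := lines_coeff c hc (fun i => lc (ℓ i) a e2 b) hu0 (ec ℓ a b) (by
    unfold ec
    refine congrArg Finset.card (Finset.filter_congr ?_)
    intro i _
    simp only [lc]
    constructor
    · rintro ⟨h1, h2⟩; exact ⟨by simpa using h2, by simpa using h1⟩
    · rintro ⟨h1, h2⟩; exact ⟨by simpa using h2, by simpa using h1⟩)
  have hI1 : (Infl (ev ω a e2 b a) (ev ω a e2 b e2)).coeff 1 = 0 := by
    rw [hI, hJ1]
    obtain ⟨k, hk⟩ : ∃ k, ec ℓ a b = k + 2 := ⟨ec ℓ a b - 2, by omega⟩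
    rw [hk, pow_succ, pow_succ, mul_assoc, mul_assoc, ← mul_assoc, mul_comm (X ^ k) X,
      mul_assoc, coeff_X_mul, mul_left_comm, coeff_X_mul_zero]
  obtain ⟨-, h2⟩ := Infl_coeff _ (ev ω a e2 b e2) hA0
  rw [hI1] at h2
  have h3 := (mul_eq_zero.mp h2.symm).resolve_left hB0
  -- conclusion from a vector w0 on the line
  have key : ∀ w0 : Fin 3 → ℂ, w0 ≠ 0 → dot l w0 = 0 → (∀ x : ℂ, db ω (x • a + b) e2 w0 = 0) →
      IsCenter ω l w0 := by
    intro w0 hw hlw h
    refine ⟨hw, hlw, ?_⟩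
    intro p e hp
    obtain ⟨x, y, rfl⟩ := line_span hl.1 ha hb hab hp
    obtain ⟨u, v, w, rfl⟩ := frame_decomp he2 e
    have hz : ∀ q, dot l q = 0 → dot (evv ω q) w0 = 0 := by
      intro q hq
      obtain ⟨c, hc⟩ := hl.2 q hq
      rw [hc, smul_dot, hlw, mul_zero]
    rw [db_add_e, db_add_e, db_smul_e, db_smul_e, db_smul_e,
      cen_ext G.fol.hom a b e2 w0 h x y,
      db_along (x • a + y • b) a w0 (fun t => hz _ (by
        rw [dot_add, dot_add, dot_smul, dot_smul, dot_smul, ha, hb]; ring)),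
      db_along (x • a + y • b) b w0 (fun t => hz _ (by
        rw [dot_add, dot_add, dot_smul, dot_smul, dot_smul, ha, hb]; ring))]
    ring
  by_cases hα : (ev ω a e2 b a).coeff 1 = 0
  · refine ⟨a, key a (ne_zero_of_cr_left hab) ha ?_⟩
    intro x
    rw [← coeff_one_eval, hα, eval_zero]
  · obtain ⟨x0, hx0⟩ := center_uni _ _ hα h3
    refine ⟨b + x0 • a, key _ ?_ ?_ ?_⟩
    · intro h
      apply hab
      have hb' : b = (-x0) • a := by
        rw [neg_smul, eq_neg_iff_add_eq_zero]; exact h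
      rw [hb']
      funext j; fin_cases j <;> simp [cr] <;> ring
    · rw [dot_add, dot_smul, ha, hb]; ring
    · intro x
      rw [← coeff_one_eval, ev_add, ev_smul]
      have h4 := congrArg (fun f => f.coeff 1) (ev_euler G.fol.euler a e2 b)
      simp only [coeff_add, coeff_C_mul, coeff_X_mul, coeff_zero, hx0] at h4
      have h5 : (ev ω a e2 b b).coeff 1 = - (C x0 * (ev ω a e2 b a).coeff 1) := by
        linear_combination h4
      rw [coeff_add, h5, coeff_C_mul]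
      simp

end Pool.Agent.Lib.MP_5bde83_ag
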