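import Pool.Agent.Lib.MP_5bde83_ag.InflEv

namespace Pool.Agent.Lib.MP_5bde83_ag

open MvPolynomial

noncomputable section

/-- `ω` is convex: the tangent line at every nonsingular inflection point is invariant -/
def Convex (ω : Fin 3 → MvPolynomial (Fin 3) ℂ) : Prop :=
  ∀ p : Fin 3 → ℂ, evv ω p ≠ 0 → (∀ w, dot (evv ω p) w = 0 → dd ω p w = 0) →
    InvLine ω (evv ω p)

variable {n : ℕ} {ω : Fin 3 → MvPolynomial (Fin 3) ℂ}

theorem eval_lform (l p : Fin 3 → ℂ) :
    eval p (∑ j, C (l j) * X j : MvPolynomial (Fin 3) ℂ) = dot l p := by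
  simp [dot]

theorem coeff_lform (l : Fin 3 → ℂ) (i : Fin 3) :
    coeff (Finsupp.single i 1) (∑ j, C (l j) * X j : MvPolynomial (Fin 3) ℂ) = l i := by
  classical
  rw [coeff_sum, Finset.sum_eq_single i]
  · simp
  · intro j _ hji
    rw [coeff_C_mul, coeff_X, if_neg]
    · simp
    · rwa [Finsupp.single_left_inj Nat.one_ne_zero]
  · simp

theorem lform_hom (l : Fin 3 → ℂ) :
    (∑ j, C (l j) * X j : MvPolynomial (Fin 3) ℂ).IsHomogeneous 1 := by
  refine IsHomogeneous.sum _ _ _ fun j _ => ?_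
  simpa using (isHomogeneous_C (Fin 3) (l j)).mul (isHomogeneous_X ℂ j)

theorem lform_ne_zero (l : Fin 3 → ℂ) (hl : l ≠ 0) :
    (∑ j, C (l j) * X j : MvPolynomial (Fin 3) ℂ) ≠ 0 := by
  intro h
  apply hl
  funext i
  have := coeff_lform l i
  rw [h] at this
  simpa using this.symm

theorem lform_irr (l : Fin 3 → ℂ) (hl : l ≠ 0) :
    Irreducible (∑ j, C (l j) * X j : MvPolynomial (Fin 3) ℂ) := by
  apply irreducible_of_totalDegree_eq_one
  · exact (lform_hom l).totalDegree (lform_ne_zero l hl)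
  · intro x hx
    obtain ⟨i, hi⟩ := Function.ne_iff.1 hl
    have h := hx (Finsupp.single i 1)
    rw [coeff_lform] at h
    have hx0 : x ≠ 0 := by
      rintro rfl
      exact hi (zero_dvd_iff.1 h)
    exact isUnit_iff_ne_zero.2 hx0

/-- an irreducible polynomial divides every polynomial which vanishes on its zero set -/
theorem irr_dvd_of_vanish {h F : MvPolynomial (Fin 3) ℂ} (hh : Irreducible h)
    (H : ∀ p, eval p h = 0 → eval p F = 0) : h ∣ F := by
  have hp : Prime h := hh.prime
  have hP : (Ideal.span {h}).IsPrime := (Ideal.span_singleton_prime hh.ne_zero).2 hp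
  rw [← Ideal.mem_span_singleton, ← IsPrime.vanishingIdeal_zeroLocus (K := ℂ) (Ideal.span {h}),
    mem_vanishingIdeal_iff]
  intro x hx
  have hx1 : eval x h = 0 := hx h (Ideal.mem_span_singleton_self h)
  exact H x hx1

/-- a polynomial vanishing on the plane `l = 0` is divisible by the linear form -/
theorem dvd_of_vanish (l : Fin 3 → ℂ) (hl : l ≠ 0) (F : MvPolynomial (Fin 3) ℂ)
    (h : ∀ p, dot l p = 0 → eval p F = 0) : (∑ j, C (l j) * X j) ∣ F := by
  refine irr_dvd_of_vanish (lform_irr l hl) fun p hp => h p ?_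
  rwa [eval_lform] at hp

theorem noline_of_fol (h : IsFol n ω) (l : Fin 3 → ℂ) (hl : l ≠ 0) :
    ∃ p, dot l p = 0 ∧ evv ω p ≠ 0 := by
  by_contra hc
  push Not at hc
  refine (lform_irr l hl).not_isUnit (h.cop _ fun j => dvd_of_vanish l hl _ fun p hp => ?_)
  exact congrFun (hc p hp) j

theorem dot_evv_self (h : IsFol n ω) (p : Fin 3 → ℂ) : dot (evv ω p) p = 0 := by
  have := congrArg (eval p) h.euler
  simp only [map_sum, map_mul, eval_X, map_zero] at this
  rw [← this, dot]
  exact Finset.sum_congr rfl fun j _ => mul_comm _ _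

/-- splitting off all invariant linear factors -/
theorem split_lines (ω : Fin 3 → MvPolynomial (Fin 3) ℂ) (d : ℕ) :
    ∀ F : MvPolynomial (Fin 3) ℂ, F ≠ 0 → F.totalDegree ≤ d →
      ∃ (L : List (Fin 3 → ℂ)) (G : MvPolynomial (Fin 3) ℂ), (∀ l ∈ L, InvLine ω l) ∧
        F = (L.map fun l => (∑ j, C (l j) * X j : MvPolynomial (Fin 3) ℂ)).prod * G ∧
        ∀ l, InvLine ω l → ¬ (∑ j, C (l j) * X j : MvPolynomial (Fin 3) ℂ) ∣ G := by
  induction d with
  | zero =>
    intro F hF hd
    refine ⟨[], F, by simp, by simp, fun l hl hdv => ?_⟩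
    obtain ⟨G, rfl⟩ := hdv
    have hG : G ≠ 0 := right_ne_zero_of_mul hF
    rw [totalDegree_mul_of_isDomain (lform_ne_zero l hl.1) hG,
      (lform_hom l).totalDegree (lform_ne_zero l hl.1)] at hd
    omega
  | succ d ih =>
    intro F hF hd
    by_cases hc : ∃ l, InvLine ω l ∧ (∑ j, C (l j) * X j : MvPolynomial (Fin 3) ℂ) ∣ F
    · obtain ⟨l, hl, G, rfl⟩ := hc
      have hG : G ≠ 0 := right_ne_zero_of_mul hF
      rw [totalDegree_mul_of_isDomain (lform_ne_zero l hl.1) hG,
        (lform_hom l).totalDegree (lform_ne_zero l hl.1)] at hd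
      obtain ⟨L, G', h1, h2, h3⟩ := ih G hG (by omega)
      refine ⟨l :: L, G', ?_, ?_, h3⟩
      · intro l' hl'
        rcases List.mem_cons.1 hl' with rfl | h
        · exact hl
        · exact h1 _ h
      · rw [List.map_cons, List.prod_cons, mul_assoc, ← h2]
    · push Not at hc
      exact ⟨[], F, by simp, by simp, hc⟩

theorem prod_lform_hom (L : List (Fin 3 → ℂ)) :
    ((L.map fun l => (∑ j, C (l j) * X j : MvPolynomial (Fin 3) ℂ)).prod).IsHomogeneous
      L.length := by
  induction L with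
  | nil => simpa using isHomogeneous_one (Fin 3) ℂ
  | cons l L ih =>
    rw [List.map_cons, List.prod_cons, List.length_cons, add_comm]
    exact (lform_hom l).mul ih

/-- factorization of the inflection polynomial of a convex foliation -/
theorem I3_factor (h : IsFol n ω) (hn : 1 ≤ n) (hc : Convex ω) :
    ∃ (ℓ : Fin (3 * n) → Fin 3 → ℂ) (c : ℂ), c ≠ 0 ∧ (∀ i, InvLine ω (ℓ i)) ∧
      I3 n ω = C c * ∏ i, (∑ j, C (ℓ i j) * X j) := by
  have hF := I3_ne_zero h hn
  obtain ⟨L, G, hL, hFG, hG⟩ := split_lines ω _ (I3 n ω) hF le_rfl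
  set P := (L.map fun l => (∑ j, C (l j) * X j : MvPolynomial (Fin 3) ℂ)).prod with hPdef
  have hG0 : G ≠ 0 := by
    rintro rfl
    rw [mul_zero] at hFG
    exact hF hFG
  have hP0 : P ≠ 0 := by
    intro h0
    rw [h0, zero_mul] at hFG
    exact hF hFG
  -- `G` is a unit
  have hGu : IsUnit G := by
    by_contra hGn
    obtain ⟨g, hg, hgG⟩ := WfDvdMonoid.exists_irreducible_factor hGn hG0
    have hgP : ¬ g ∣ P := by
      intro hd
      obtain ⟨q, hq, hgq⟩ := (hg.prime.dvd_prod_iff).1 hd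
      obtain ⟨l, hl, rfl⟩ := List.mem_map.1 hq
      have hirr := lform_irr l (hL l hl).1
      have hass : Associated g (∑ j, C (l j) * X j : MvPolynomial (Fin 3) ℂ) :=
        hg.associated_of_dvd hirr hgq
      exact hG l (hL l hl) (hass.symm.dvd.trans hgG)
    have hall : ∀ j, g ∣ ω j := by
      intro j
      have h1 : g ∣ ω j * P := by
        refine irr_dvd_of_vanish hg fun p hp => ?_
        by_cases hev : evv ω p = 0
        · have : eval p (ω j) = 0 := congrFun hev j
          rw [map_mul, this, zero_mul]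
        · have hI : eval p (I3 n ω) = 0 := by
            obtain ⟨q, hq⟩ := hgG
            rw [hFG, hq, map_mul, map_mul, hp]
            ring
          have hinv : InvLine ω (evv ω p) :=
            hc p hev fun w hw => inflection_of_I3 h p hev hI w hw
          have hdv : (∑ j, C (evv ω p j) * X j : MvPolynomial (Fin 3) ℂ) ∣ I3 n ω :=
            dvd_of_vanish _ hinv.1 _ fun q hq => I3_of_invLine h hn _ hinv q hq
          rw [hFG] at hdv
          rcases (lform_irr _ hinv.1).prime.dvd_or_dvd hdv with h2 | h2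
          · obtain ⟨Q, hQ⟩ := h2
            rw [hQ, map_mul, map_mul, eval_lform, dot_evv_self h]
            ring
          · exact absurd h2 (hG _ hinv)
      rcases hg.prime.dvd_or_dvd h1 with h2 | h2
      · exact h2
      · exact absurd h2 hgP
    exact hg.not_isUnit (h.cop g hall)
  obtain ⟨c, hcu, hcG⟩ : ∃ c : ℂ, c ≠ 0 ∧ G = C c := by
    obtain ⟨h1, h2⟩ := MvPolynomial.isUnit_iff_totalDegree_of_isReduced.1 hGu
    have := (totalDegree_eq_zero_iff_eq_C (p := G)).1 h2
    refine ⟨_, ?_, this⟩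
    exact h1.ne_zero
  have hlen : L.length = 3 * n := by
    have h1 : (P * C c).IsHomogeneous (L.length + 0) :=
      (prod_lform_hom L).mul (isHomogeneous_C (Fin 3) c)
    rw [← hcG, ← hFG, add_zero] at h1
    exact h1.inj_right (I3_hom h) hF
  refine ⟨fun i => L.get (i.cast hlen.symm), c, hcu, fun i => hL _ (List.get_mem _ _), ?_⟩
  rw [hFG, hcG, mul_comm, hPdef]
  congr 1
  have h1 : (L.map fun l => (∑ j, C (l j) * X j : MvPolynomial (Fin 3) ℂ)).prod =
      ∏ i : Fin L.length, (∑ j, C (L.get i j) * X j : MvPolynomial (Fin 3) ℂ) := by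
    rw [← List.prod_ofFn]
    congr 1
    conv_lhs => rw [← List.ofFn_get L, List.map_ofFn]
    rfl
  rw [h1]
  exact (Fintype.prod_equiv (finCongr hlen.symm) _ _ fun i => rfl).symm

theorem gdata_of_convex (h : IsFol n ω) (hn : 1 ≤ n) (hc : Convex ω) :
    ∃ ℓ : Fin (3 * n) → Fin 3 → ℂ, GData n ω ℓ := by
  obtain ⟨ℓ, c, hc0, hinv, hfac⟩ := I3_factor h hn hc
  refine ⟨ℓ, h, fun l hl => noline_of_fol h l hl, hinv, c, hc0, fun e1 e2 s => ?_⟩
  rw [Infl_ev h, hfac, map_mul, map_prod]
  have h1 : ∀ a : ℂ, aeval (pt e1 e2 s) (C a : MvPolynomial (Fin 3) ℂ) =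
      Polynomial.C (Polynomial.C a) := by
    intro a
    rw [aeval_C]
    rfl
  have h2 : ∀ i, aeval (pt e1 e2 s) (∑ j, C (ℓ i j) * X j : MvPolynomial (Fin 3) ℂ) =
      Lin (lc (ℓ i) e1 e2 s) := by
    intro i
    have h3 : ∀ j, aeval (pt e1 e2 s) (C (ℓ i j) * X j : MvPolynomial (Fin 3) ℂ) =
        Polynomial.C (Polynomial.C (ℓ i j)) * (Polynomial.C (Polynomial.C (e1 j)) *
          Polynomial.C Polynomial.X + Polynomial.C (Polynomial.C (e2 j)) * Polynomial.X +
          Polynomial.C (Polynomial.C (s j))) := by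
      intro j
      rw [map_mul, h1, aeval_X]
      rfl
    rw [map_sum, Finset.sum_congr rfl fun j _ => h3 j]
    simp only [Lin, lc, dot, Fin.sum_univ_three]
    simp only [Matrix.cons_val_zero, Matrix.cons_val_one, Matrix.cons_val, map_add, map_mul]
    ring
  rw [h1, Finset.prod_congr rfl fun i _ => h2 i, map_mul, map_mul]
  ring

end

end Pool.Agent.Lib.MP_5bde83_ag
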