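import Mathlib

namespace Pool.Agent.Lib.MP_5bde83_ag

open Polynomial

noncomputable section

/-- The ring of polynomials in two variables: `R2 = ℂ[x][y]`, so `x = C X` and `y = X`. -/
abbrev R2 := Polynomial (Polynomial ℂ)

/-- derivative with respect to `y` -/
def Dy (f : R2) : R2 := derivative f

/-- derivative with respect to `x` (coefficientwise) -/
def Dx (f : R2) : R2 := f.sum (fun j a => monomial j (derivative a))

/-- inflection polynomial of `A dx + B dy` -/
def Infl (A B : R2) : R2 :=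
  A * (Dy A * B - A * Dy B) - B * (Dx A * B - A * Dx B)

/-- `kap m = m_x + m m_y` -/
def kap (m : R2) : R2 := Dx m + m * Dy m

/-- every monomial `x^i y^j` of `f` has weight `N i + D j ≥ k` -/
def Ord (N D k : ℕ) (f : R2) : Prop :=
  ∀ i j : ℕ, (f.coeff j).coeff i ≠ 0 → k ≤ N * i + D * j

/-- every monomial `x^i y^j` of `f` has degree `i + j ≤ k` -/
def Deg (k : ℕ) (f : R2) : Prop :=
  ∀ i j : ℕ, (f.coeff j).coeff i ≠ 0 → i + j ≤ k

/-- substitution `x ↦ x s^N, y ↦ s^D` into `ℂ[x][s]` -/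
def phi (N D : ℕ) : R2 →+* Polynomial (Polynomial ℂ) :=
  eval₂RingHom (eval₂RingHom ((C : Polynomial ℂ →+* Polynomial (Polynomial ℂ)).comp C)
    (C X * X ^ N)) (X ^ D)

/-- weighted component of weight `k`, with `y = 1` -/
def wc (N D k : ℕ) (f : R2) : Polynomial ℂ := (phi N D f).coeff k

/-- the linear polynomial `u 0 x + u 1 y + u 2` -/
def Lin (u : Fin 3 → ℂ) : R2 := C (C (u 0)) * C X + C (C (u 1)) * X + C (C (u 2))

end

end Pool.Agent.Lib.MP_5bde83_ag
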