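import Pool.Agent.Lib.MP_5bde83_ag.Mg.G005

/-!
The total degree of polynomials in two variables.
-/

namespace Pool.Agent.Lib.MP_5bde83_ag

open Polynomial

theorem phi_coeff (k : ℕ) (f : R2) : (phi 1 1 f).coeff k = wc 1 1 k f := rfl

theorem wc_one_coeff (i j : ℕ) (f : R2) : (wc 1 1 (i + j) f).coeff i = (f.coeff j).coeff i := by
  have := wc_coeff_eq (N := 1) (D := 1) one_pos i j f
  simpa using this

theorem Deg_iff {k : ℕ} {f : R2} : Deg k f ↔ (phi 1 1 f).natDegree ≤ k := by
  constructor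
  · intro h
    rw [natDegree_le_iff_coeff_eq_zero]
    intro m hm
    rw [phi_coeff]
    ext i
    by_contra hne
    obtain ⟨j, hj, hj2⟩ := wc_coeff_ne m i f (by simpa using hne)
    rw [wc_coeff_eq one_pos] at hj2
    have := h i j (by rw [← hj2]; simpa using hne)
    omega
  · intro h i j hij
    by_contra hlt
    push Not at hlt
    have h1 : (phi 1 1 f).coeff (i + j) = 0 := coeff_eq_zero_of_natDegree_lt (by omega)
    rw [phi_coeff] at h1
    apply hij
    rw [← wc_one_coeff, h1, coeff_zero]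

theorem phi_ne_zero {f : R2} (h : f ≠ 0) : phi 1 1 f ≠ 0 := by
  intro h0
  apply h
  ext j i
  rw [← wc_one_coeff, ← phi_coeff, h0]
  simp

theorem Deg.mono' {k l : ℕ} {f : R2} (h : Deg k f) (hl : k ≤ l) : Deg l f :=
  fun i j hij => (h i j hij).trans hl

theorem Deg.add' {k : ℕ} {f g : R2} (hf : Deg k f) (hg : Deg k g) : Deg k (f + g) := by
  rw [Deg_iff] at *
  rw [map_add]
  exact (natDegree_add_le _ _).trans (max_le hf hg)

theorem Deg.neg' {k : ℕ} {f : R2} (hf : Deg k f) : Deg k (-f) := by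
  rw [Deg_iff] at *
  rwa [map_neg, natDegree_neg]

theorem Deg.sub' {k : ℕ} {f g : R2} (hf : Deg k f) (hg : Deg k g) : Deg k (f - g) := by
  rw [sub_eq_add_neg]
  exact hf.add' hg.neg'

theorem Deg.zero' (k : ℕ) : Deg k (0 : R2) := by
  intro i j h
  simp at h

theorem Deg.sum' {k : ℕ} {ι : Type*} (s : Finset ι) (f : ι → R2) (h : ∀ i ∈ s, Deg k (f i)) :
    Deg k (∑ i ∈ s, f i) := by
  classical
  induction s using Finset.induction_on with
  | empty => simpa using Deg.zero' k
  | insert a s ha ih =>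
    rw [Finset.sum_insert ha]
    exact (h a (Finset.mem_insert_self a s)).add' (ih fun i hi => h i (Finset.mem_insert_of_mem hi))

theorem Deg.mul' {k l : ℕ} {f g : R2} (hf : Deg k f) (hg : Deg l g) : Deg (k + l) (f * g) := by
  rw [Deg_iff] at *
  rw [map_mul]
  exact natDegree_mul_le.trans (add_le_add hf hg)

theorem Deg.cc' (c : ℂ) : Deg 0 (C (C c) : R2) := by
  rw [Deg_iff, phi_CC]
  simp

theorem Deg.cc_mul' {k : ℕ} {f : R2} (c : ℂ) (hf : Deg k f) : Deg k (C (C c) * f) := by
  simpa using (Deg.cc' c).mul' hf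

theorem Deg.dx' {k : ℕ} {f : R2} (hf : Deg k f) : Deg (k - 1) (Dx f) := by
  intro i j h
  rw [Dx_coeff, coeff_derivative] at h
  have h1 : (f.coeff j).coeff (i + 1) ≠ 0 := left_ne_zero_of_mul h
  have := hf _ _ h1
  omega

theorem Deg.dy' {k : ℕ} {f : R2} (hf : Deg k f) : Deg (k - 1) (Dy f) := by
  intro i j h
  rw [Dy_coeff] at h
  have h1 : (f.coeff (j + 1)).coeff i ≠ 0 := by
    intro h0
    apply h
    have : (f.coeff (j + 1) * ((j : Polynomial ℂ) + 1)).coeff i =
        (f.coeff (j + 1)).coeff i * ((j : ℂ) + 1) := by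
      have e : ((j : Polynomial ℂ) + 1) = C ((j : ℂ) + 1) := by simp
      rw [e, coeff_mul_C]
    rw [this, h0, zero_mul]
  have := hf _ _ h1
  omega

theorem Deg.eq_cc' {f : R2} (hf : Deg 0 f) : ∃ c : ℂ, f = C (C c) := by
  refine ⟨(f.coeff 0).coeff 0, ?_⟩
  ext j i
  rw [coeff_C]
  by_cases h : (f.coeff j).coeff i = 0
  · rw [h]
    split_ifs with hj
    · subst hj
      rw [coeff_C]
      split_ifs with hi
      · subst hi; exact h.symm
      · rfl
    · simp
  · have := hf _ _ h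
    have hi : i = 0 := by omega
    have hj : j = 0 := by omega
    subst hi hj
    simp

/-- division and degree -/
theorem Deg.of_mul' {a b : ℕ} {f g : R2} (h : Deg (a + b) (f * g)) (hf : f ≠ 0)
    (hfa : a ≤ (phi 1 1 f).natDegree) : Deg b g := by
  by_cases hg : g = 0
  · rw [hg]; exact Deg.zero' b
  rw [Deg_iff] at *
  rw [map_mul, natDegree_mul (phi_ne_zero hf) (phi_ne_zero hg)] at h
  omega

theorem Deg.hom' (e1 e2 s : Fin 3 → ℂ) {m : ℕ} {F : MvPolynomial (Fin 3) ℂ}
    (hF : F.IsHomogeneous m) : Deg m (MvPolynomial.aeval (pt e1 e2 s) F) :=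
  (evAux_homog e1 e2 s hF).1

/-- derivative along the vector field `Q ∂x + P ∂y` -/
noncomputable def xd (P Q f : R2) : R2 := Q * Dx f + P * Dy f

section

variable (P Q : R2)

theorem xd_add (f g : R2) : xd P Q (f + g) = xd P Q f + xd P Q g := by
  unfold xd
  rw [Dx_add, Dy_add]; ring

theorem xd_sub (f g : R2) : xd P Q (f - g) = xd P Q f - xd P Q g := by
  unfold xd
  rw [Dx_sub, Dy_sub]; ring

theorem xd_neg (f : R2) : xd P Q (-f) = - xd P Q f := by
  unfold xd
  rw [Dx_neg, Dy_neg]; ring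

theorem xd_mul (f g : R2) : xd P Q (f * g) = xd P Q f * g + f * xd P Q g := by
  unfold xd
  rw [Dx_mul, Dy_mul]; ring

theorem xd_cc (c : ℂ) : xd P Q (C (C c)) = 0 := by
  unfold xd
  rw [Dx_CC, Dy_C]; ring

theorem xd_cc_mul (c : ℂ) (f : R2) : xd P Q (C (C c) * f) = C (C c) * xd P Q f := by
  rw [xd_mul, xd_cc]; ring

/-- a product of invariant factors is invariant -/
theorem xd_prod {ι : Type*} (s : Finset ι) (f k : ι → R2)
    (h : ∀ i ∈ s, xd P Q (f i) = k i * f i) :
    xd P Q (∏ i ∈ s, f i) = (∑ i ∈ s, k i) * ∏ i ∈ s, f i := by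
  classical
  induction s using Finset.induction_on with
  | empty =>
    rw [Finset.prod_empty, Finset.sum_empty, zero_mul]
    simpa using xd_cc P Q 1
  | insert a s ha ih =>
    rw [Finset.prod_insert ha, Finset.sum_insert ha, xd_mul,
      h a (Finset.mem_insert_self a s), ih fun i hi => h i (Finset.mem_insert_of_mem hi)]
    ring

variable {P Q}

theorem Deg.xd' {n a : ℕ} (hn : 1 ≤ n) (hP : Deg n P) (hQ : Deg n Q) {f : R2} (hf : Deg a f) :
    Deg (a + n - 1) (xd P Q f) := by
  rcases Nat.eq_zero_or_pos a with h0 | h0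
  · subst h0
    obtain ⟨c, rfl⟩ := hf.eq_cc'
    rw [xd_cc]
    exact Deg.zero' _
  · refine Deg.add' ?_ ?_
    · exact (hQ.mul' hf.dx').mono' (by omega)
    · exact (hP.mul' hf.dy').mono' (by omega)

end

end Pool.Agent.Lib.MP_5bde83_ag
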