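import Pool.Agent.Lib.MP_5bde83_ag.Geo

namespace Pool.Agent.Lib.MP_5bde83_ag

open MvPolynomial

noncomputable section

/-- generic point `X0 e1 + X1 e2 + X2 s` -/
def lin3 (e1 e2 s : Fin 3 → ℂ) : Fin 3 → MvPolynomial (Fin 3) ℂ :=
  fun j => C (e1 j) * X 0 + C (e2 j) * X 1 + C (s j) * X 2

/-- value of `ω` at the generic point on the vector `w` -/
def ev3 (ω : Fin 3 → MvPolynomial (Fin 3) ℂ) (e1 e2 s w : Fin 3 → ℂ) : MvPolynomial (Fin 3) ℂ :=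
  ∑ j, C (w j) * aeval (lin3 e1 e2 s) (ω j)

/-- pull-back of `ω` by the linear map with columns `e1, e2, s` -/
def pb (ω : Fin 3 → MvPolynomial (Fin 3) ℂ) (e1 e2 s : Fin 3 → ℂ) :
    Fin 3 → MvPolynomial (Fin 3) ℂ :=
  ![ev3 ω e1 e2 s e1, ev3 ω e1 e2 s e2, ev3 ω e1 e2 s s]

/-- in suitable linear coordinates `ω = z (P dx + Q dy) - (x P + y Q) dz` with `P, Q` binary forms
of degree `n` in `x, y` -/
def HomogType (n : ℕ) (ω : Fin 3 → MvPolynomial (Fin 3) ℂ) : Prop :=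
  ∃ e1 e2 s : Fin 3 → ℂ, tri e1 e2 s ≠ 0 ∧ ∃ P Q : MvPolynomial (Fin 2) ℂ,
    P.IsHomogeneous n ∧ Q.IsHomogeneous n ∧
    pb ω e1 e2 s = ![X 2 * rename ![0, 1] P, X 2 * rename ![0, 1] Q,
      - (X 0 * rename ![0, 1] P + X 1 * rename ![0, 1] Q)]

/-- in suitable linear coordinates `ω` is a multiple of the homogenization of
`y^n dx + x^n (x dy - y dx)` -/
def F1Type (n : ℕ) (ω : Fin 3 → MvPolynomial (Fin 3) ℂ) : Prop :=
  ∃ e1 e2 s : Fin 3 → ℂ, tri e1 e2 s ≠ 0 ∧ ∃ c : ℂ, c ≠ 0 ∧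
    pb ω e1 e2 s = ![C c * (X 1 ^ n * X 2 - X 0 ^ n * X 1), C c * X 0 ^ (n + 1),
      - (C c * (X 0 * X 1 ^ n))]

end

end Pool.Agent.Lib.MP_5bde83_ag
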