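import Pool.Agent.Lib.MP_5bde83_ag.FinDefs
import Pool.Agent.Lib.MP_5bde83_ag.Mg.G005
import Pool.Agent.Lib.MP_5bde83_ag.Mg.G006

namespace Pool.Agent.Lib.MP_5bde83_ag

section

open Polynomial

theorem finish_uni (n : ℕ) (hn : 2 ≤ n) (G H : Polynomial ℂ) (hG0 : G ≠ 0) (hGn : G.natDegree ≤ n)
    (hHn : H.natDegree ≤ n) (hcop : ∀ r, G.IsRoot r → ¬ H.IsRoot r)
    (hinf : ¬ (G.coeff n = 0 ∧ H.coeff n = 0))
    (hW : derivative G * H - G * derivative H ≠ 0)
    (hroot : ∀ r, (derivative G * H - G * derivative H).IsRoot r → G.IsRoot r) :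
    ∃ t g0 c c1 : ℂ, g0 ≠ 0 ∧ c1 ≠ 0 ∧ G = C g0 * (X - C t) ^ n ∧ H = C c * G + C c1 := by
  classical
  have hH0 : H ≠ 0 := by
    intro h; apply hW; rw [h]; simp
  have hdeg : (derivative G * H - G * derivative H).natDegree + G.roots.toFinset.card
      = G.natDegree := by
    rw [lemR_natDegree_eq_sum _ hW G.roots.toFinset (fun r hr => by
      rw [Multiset.mem_toFinset, mem_roots hG0]; exact hroot r hr),
      lemR_natDegree_eq_sum _ hG0 G.roots.toFinset (fun r hr => by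
      rw [Multiset.mem_toFinset, mem_roots hG0]; exact hr), Finset.card_eq_sum_ones,
      ← Finset.sum_add_distrib]
    refine Finset.sum_congr rfl fun r hr => ?_
    rw [Multiset.mem_toFinset, mem_roots hG0] at hr
    have h1 : H.rootMultiplicity r = 0 := rootMultiplicity_eq_zero (hcop r hr)
    have h2 : 0 < G.rootMultiplicity r := (rootMultiplicity_pos hG0).2 hr
    have h3 := (lemR_mult G H r hG0 hH0 hW).1 (by omega)
    omega
  have hGdeg : G.natDegree = n := by
    by_contra hne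
    have hlt : G.natDegree < n := lt_of_le_of_ne hGn hne
    have hH : H.natDegree = n := by
      apply le_antisymm hHn
      apply le_natDegree_of_ne_zero
      intro h
      exact hinf ⟨coeff_eq_zero_of_natDegree_lt hlt, h⟩
    have := lemR_le_natDegree G H hG0 hH0 (by omega)
    omega
  have hGc : G.coeff n ≠ 0 := by
    rw [← hGdeg, coeff_natDegree]; exact leadingCoeff_ne_zero.2 hG0
  set c : ℂ := H.coeff n / G.coeff n with hc
  set h1 : Polynomial ℂ := H - C c * G with hh1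
  have hWeq : derivative G * H - G * derivative H = derivative G * h1 - G * derivative h1 := by
    rw [hh1, derivative_sub, derivative_C_mul]; ring
  have hh0 : h1 ≠ 0 := by
    intro h; apply hW; rw [hWeq, h]; simp
  have hh1n : h1.natDegree < n := by
    have hle : h1.natDegree ≤ n := by
      refine (natDegree_sub_le _ _).trans (max_le hHn ?_)
      exact (natDegree_C_mul_le _ _).trans hGn
    refine lt_of_le_of_ne hle ?_
    intro he
    have : h1.coeff n = 0 := by
      rw [hh1, coeff_sub, coeff_C_mul, hc]; field_simp; ring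
    rw [← he, coeff_natDegree, leadingCoeff_eq_zero] at this
    exact hh0 this
  have h2 := lemR_le_natDegree G h1 hG0 hh0 (by omega)
  rw [← hWeq] at h2
  obtain ⟨t, ht⟩ : ∃ t, G.IsRoot t := by
    apply IsAlgClosed.exists_root
    intro h
    rw [degree_eq_natDegree hG0, hGdeg] at h
    have : n = 0 := by exact_mod_cast h
    omega
  have hmem : t ∈ G.roots.toFinset := by rw [Multiset.mem_toFinset, mem_roots hG0]; exact ht
  have hpos : 0 < G.roots.toFinset.card := Finset.card_pos.2 ⟨t, hmem⟩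
  have hcard : G.roots.toFinset.card = 1 := by omega
  have hh1d : h1.natDegree = 0 := by omega
  obtain ⟨t', ht'⟩ := Finset.card_eq_one.1 hcard
  have htt : t = t' := by rw [ht'] at hmem; simpa using hmem
  subst htt
  refine ⟨t, G.leadingCoeff, c, h1.coeff 0, leadingCoeff_ne_zero.2 hG0, ?_, ?_, ?_⟩
  · intro h
    apply hh0
    rw [eq_C_of_natDegree_eq_zero hh1d, h, C_0]
  · have hr : G.roots = Multiset.replicate n t := by
      rw [Multiset.eq_replicate]
      refine ⟨?_, ?_⟩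
      · rw [IsAlgClosed.card_roots_eq_natDegree, hGdeg]
      · intro b hb
        have : b ∈ G.roots.toFinset := by simpa using hb
        rw [ht'] at this
        simpa using this
    have hs := C_leadingCoeff_mul_prod_multiset_X_sub_C (p := G)
      (by rw [IsAlgClosed.card_roots_eq_natDegree])
    rw [← hs, hr]
    simp
  · have : h1 = C (h1.coeff 0) := eq_C_of_natDegree_eq_zero hh1d
    rw [← this, hh1]; ring

end

open MvPolynomial

noncomputable section

namespace Fin15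

theorem aeval_smul {σ A : Type*} [Fintype σ] [CommRing A] [Algebra ℂ A] {P : MvPolynomial σ ℂ}
    {n : ℕ} (hP : P.IsHomogeneous n) (c : A) (f : σ → A) :
    aeval (fun i => c * f i) P = c ^ n * aeval f P := by
  rw [aeval_def, aeval_def, eval₂_eq', eval₂_eq', Finset.mul_sum]
  refine Finset.sum_congr rfl fun d hd => ?_
  have h : ∑ i, d i = n := by
    rw [hP.degree_eq_sum_deg_support hd]
    exact (Finset.sum_subset (Finset.subset_univ _) (fun x _ hx => by simpa using hx)).symm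
  rw [← h]
  simp only [mul_pow, Finset.prod_mul_distrib, Finset.prod_pow_eq_pow_sum]
  ring

/-- dehomogenization of ternary forms -/
def dh : MvPolynomial (Fin 3) ℂ →ₐ[ℂ] R2 :=
  aeval ![Polynomial.C Polynomial.X, Polynomial.X, 1]

/-- binary polynomials in `R2` -/
def d2 : MvPolynomial (Fin 2) ℂ →ₐ[ℂ] R2 :=
  aeval ![Polynomial.C Polynomial.X, Polynomial.X]

/-- dehomogenization of binary forms -/
def d1 : MvPolynomial (Fin 2) ℂ →ₐ[ℂ] Polynomial ℂ :=
  aeval ![Polynomial.X, 1]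

theorem algMap (c : ℂ) : algebraMap ℂ R2 c = Polynomial.C (Polynomial.C c) := rfl

theorem dh_X0 : dh (X 0) = Polynomial.C Polynomial.X := by simp [dh]
theorem dh_X1 : dh (X 1) = Polynomial.X := by simp [dh]
theorem dh_X2 : dh (X 2) = 1 := by simp [dh]
theorem d2_X0 : d2 (X 0) = Polynomial.C Polynomial.X := by simp [d2]
theorem d2_X1 : d2 (X 1) = Polynomial.X := by simp [d2]
theorem d1_X0 : d1 (X 0) = Polynomial.X := by simp [d1]
theorem d1_X1 : d1 (X 1) = 1 := by simp [d1]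
theorem d1_C (c : ℂ) : d1 (C c) = Polynomial.C c := by simp [d1]
theorem dh_C (c : ℂ) : dh (C c) = Polynomial.C (Polynomial.C c) := by simp [dh]

theorem dh_em (P : MvPolynomial (Fin 2) ℂ) : dh (rename ![0, 1] P) = d2 P := by
  unfold dh d2
  rw [aeval_rename]
  congr 2
  funext i
  fin_cases i <;> simp

theorem dh_ev3 (ω : Fin 3 → MvPolynomial (Fin 3) ℂ) (e1 e2 s w : Fin 3 → ℂ) :
    dh (ev3 ω e1 e2 s w) = ev ω e1 e2 s w := by
  unfold ev3 ev
  rw [map_sum]
  refine Finset.sum_congr rfl fun j _ => ?_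
  rw [map_mul, dh_C]
  congr 1
  have h : (dh.comp (aeval (lin3 e1 e2 s))) (ω j) = aeval (pt e1 e2 s) (ω j) := by
    rw [comp_aeval]
    congr 2
    funext i
    simp only [lin3, pt, map_add, map_mul, dh_C, dh_X0, dh_X1, dh_X2, mul_one]
  exact h

theorem ev3_hom {ω : Fin 3 → MvPolynomial (Fin 3) ℂ} {n : ℕ}
    (h : ∀ j, (ω j).IsHomogeneous (n + 1)) (e1 e2 s w : Fin 3 → ℂ) :
    (ev3 ω e1 e2 s w).IsHomogeneous (n + 1) := by
  unfold ev3
  apply IsHomogeneous.sum
  intro j _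
  apply IsHomogeneous.C_mul
  have := (h j).aeval (lin3 e1 e2 s) (n := 1) (fun i => by
    unfold lin3
    exact ((isHomogeneous_C_mul_X _ _).add (isHomogeneous_C_mul_X _ _)).add
      (isHomogeneous_C_mul_X _ _))
  simpa using this

theorem eval_dh (F : MvPolynomial (Fin 3) ℂ) (x y : ℂ) :
    ((dh F).eval (Polynomial.C y)).eval x = eval ![x, y, 1] F := by
  induction F using MvPolynomial.induction_on with
  | C a => simp
  | add p q hp hq => simp [hp, hq]
  | mul_X p i hp =>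
    simp only [map_mul, Polynomial.eval_mul, hp, eval_X]
    congr 1
    fin_cases i
    · simp [dh_X0]
    · simp [dh_X1]
    · simp [dh_X2]

theorem eval_d1 (F : MvPolynomial (Fin 2) ℂ) (x : ℂ) :
    (d1 F).eval x = eval ![x, 1] F := by
  induction F using MvPolynomial.induction_on with
  | C a => simp
  | add p q hp hq => simp [hp, hq]
  | mul_X p i hp =>
    simp only [map_mul, Polynomial.eval_mul, hp, eval_X]
    congr 1
    fin_cases i
    · simp [d1_X0]
    · simp [d1_X1]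

theorem eval_smul {σ : Type*} [Fintype σ] {P : MvPolynomial σ ℂ}
    {n : ℕ} (hP : P.IsHomogeneous n) (c : ℂ) (f : σ → ℂ) :
    eval (fun i => c * f i) P = c ^ n * eval f P := by
  have e : ∀ g : σ → ℂ, eval g P = aeval g P := fun g => by
    rw [aeval_eq_eval]
  rw [e, e]
  exact aeval_smul hP c f

theorem dh_inj {F : MvPolynomial (Fin 3) ℂ} {n : ℕ} (hF : F.IsHomogeneous n) (h : dh F = 0) :
    F = 0 := by
  have h1 : X 2 * F = 0 := by
    apply MvPolynomial.funext
    intro p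
    rw [map_mul, eval_X, map_zero]
    by_cases hp : p 2 = 0
    · rw [hp, zero_mul]
    · have h2 := eval_dh F (p 0 / p 2) (p 1 / p 2)
      rw [h] at h2
      have h3 : p = fun i => p 2 * (![p 0 / p 2, p 1 / p 2, 1] : Fin 3 → ℂ) i := by
        funext i
        fin_cases i
        · simp; field_simp
        · simp; field_simp
        · simp
      have h4 := eval_smul hF (p 2) ![p 0 / p 2, p 1 / p 2, 1]
      rw [← h3, ← h2] at h4
      rw [h4]; simp
  rcases mul_eq_zero.1 h1 with h2 | h2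
  · exact absurd h2 (X_ne_zero 2)
  · exact h2

theorem eval_form {P : MvPolynomial (Fin 2) ℂ} {n : ℕ} (hP : P.IsHomogeneous n) (x y : ℂ)
    (hy : y ≠ 0) : eval ![x, y] P = y ^ n * (d1 P).eval (x / y) := by
  have h3 : (![x, y] : Fin 2 → ℂ) = fun i => y * (![x / y, 1] : Fin 2 → ℂ) i := by
    funext i
    fin_cases i
    · simp; field_simp
    · simp
  rw [eval_d1, ← eval_smul hP, ← h3]

theorem d1_inj {P : MvPolynomial (Fin 2) ℂ} {n : ℕ} (hP : P.IsHomogeneous n) (h : d1 P = 0) :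
    P = 0 := by
  have h1 : X 1 * P = 0 := by
    apply MvPolynomial.funext
    intro p
    rw [map_mul, eval_X, map_zero]
    by_cases hp : p 1 = 0
    · rw [hp, zero_mul]
    · have h2 := eval_form hP (p 0) (p 1) hp
      have h3 : p = ![p 0, p 1] := by
        funext i
        fin_cases i <;> simp
      rw [h, ← h3] at h2
      rw [h2]; simp
  rcases mul_eq_zero.1 h1 with h2 | h2
  · exact absurd h2 (X_ne_zero 1)
  · exact h2

theorem phi_d2_aux (P : MvPolynomial (Fin 2) ℂ) :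
    phi 1 1 (d2 P) = aeval (fun i => (Polynomial.X : R2) *
      (![Polynomial.C Polynomial.X, 1] : Fin 2 → R2) i) P := by
  induction P using MvPolynomial.induction_on with
  | C a => simp [d2, phi_CC]
  | add p q hp hq => simp only [map_add, hp, hq]
  | mul_X p i hp =>
    simp only [map_mul, hp, aeval_X]
    congr 1
    fin_cases i
    · simp [d2_X0, phi_CX]
    · simp [d2_X1, phi_X]

theorem C_d1 (P : MvPolynomial (Fin 2) ℂ) :
    aeval (![Polynomial.C Polynomial.X, 1] : Fin 2 → R2) P = Polynomial.C (d1 P) := by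
  induction P using MvPolynomial.induction_on with
  | C a => simp
  | add p q hp hq => simp only [map_add, hp, hq]
  | mul_X p i hp =>
    simp only [map_mul, hp, aeval_X]
    congr 1
    fin_cases i
    · simp [d1_X0]
    · simp [d1_X1]

theorem phi_d2 {P : MvPolynomial (Fin 2) ℂ} {n : ℕ} (hP : P.IsHomogeneous n) :
    phi 1 1 (d2 P) = Polynomial.X ^ n * Polynomial.C (d1 P) := by
  rw [phi_d2_aux, aeval_smul hP, C_d1]

theorem wc_d2 {P : MvPolynomial (Fin 2) ℂ} {n : ℕ} (hP : P.IsHomogeneous n) :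
    wc 1 1 n (d2 P) = d1 P := by
  unfold wc
  rw [phi_d2 hP]
  simp

theorem wc_d2_ne {P : MvPolynomial (Fin 2) ℂ} {n k : ℕ} (hP : P.IsHomogeneous n) (h : k ≠ n) :
    wc 1 1 k (d2 P) = 0 := by
  unfold wc
  rw [phi_d2 hP, mul_comm, Polynomial.C_mul_X_pow_eq_monomial, Polynomial.coeff_monomial, if_neg]
  exact fun h' => h h'.symm

theorem Ord_d2 {P : MvPolynomial (Fin 2) ℂ} {n : ℕ} (hP : P.IsHomogeneous n) :
    Ord 1 1 n (d2 P) := by
  apply Ord_of_wc one_pos
  intro l hl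
  exact wc_d2_ne hP (by omega)

theorem natDegree_d1 {P : MvPolynomial (Fin 2) ℂ} {n : ℕ} (hP : P.IsHomogeneous n) :
    (d1 P).natDegree ≤ n := by
  rw [← wc_d2 hP]
  exact wc_natDegree_le n _

/-- value at points with `y = 0` -/
theorem eval_form0 {P : MvPolynomial (Fin 2) ℂ} {n : ℕ} (hP : P.IsHomogeneous n) (x : ℂ) :
    eval ![x, 0] P = x ^ n * (d1 P).coeff n := by
  have h3 : (![x, 0] : Fin 2 → ℂ) = fun i => x * (![1, 0] : Fin 2 → ℂ) i := by
    funext i
    fin_cases i <;> simp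
  rw [h3, eval_smul hP]
  congr 1
  rw [eval_eq', d1, aeval_def, eval₂_eq', Polynomial.finsetSum_coeff]
  refine Finset.sum_congr rfl fun d hd => ?_
  have h : d 0 + d 1 = n := by
    rw [hP.degree_eq_sum_deg_support hd]
    rw [Finset.sum_subset (Finset.subset_univ _) (fun x _ hx => by simpa using hx)]
    simp
  simp only [Fin.prod_univ_two]
  simp only [Matrix.cons_val_zero, Matrix.cons_val_one, one_pow, mul_one, one_mul,
    Polynomial.algebraMap_apply, Algebra.algebraMap_self, RingHom.id_apply,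
    Polynomial.coeff_C_mul, Polynomial.coeff_X_pow]
  congr 1
  by_cases h1 : d 1 = 0
  · rw [h1, pow_zero, if_pos (by omega)]
  · rw [zero_pow h1, if_neg (by omega)]

/-- binary form with given dehomogenization -/
def bh (n : ℕ) (a : Polynomial ℂ) : MvPolynomial (Fin 2) ℂ :=
  ∑ i ∈ Finset.range (n + 1), C (a.coeff i) * (X 0 ^ i * X 1 ^ (n - i))

theorem bh_hom (n : ℕ) (a : Polynomial ℂ) : (bh n a).IsHomogeneous n := by
  unfold bh
  apply IsHomogeneous.sum
  intro i hi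
  rw [Finset.mem_range] at hi
  apply IsHomogeneous.C_mul
  have h := (isHomogeneous_X_pow (R := ℂ) (0 : Fin 2) i).mul
    (isHomogeneous_X_pow (R := ℂ) (1 : Fin 2) (n - i))
  have e : i + (n - i) = n := by omega
  rwa [e] at h

theorem d1_bh_coeff (n : ℕ) (a : Polynomial ℂ) (i : ℕ) (hi : i ≤ n) :
    (d1 (bh n a)).coeff i = a.coeff i := by
  unfold bh
  rw [map_sum, Polynomial.finsetSum_coeff]
  simp only [map_mul, map_pow, d1_C, d1_X0, d1_X1, one_pow, mul_one, Polynomial.coeff_C_mul,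
    Polynomial.coeff_X_pow]
  rw [Finset.sum_eq_single i]
  · simp
  · intro b _ hb
    rw [if_neg (fun h => hb h.symm), mul_zero]
  · intro h
    exact absurd (Finset.mem_range.2 (by omega)) h

theorem d2_bh_coeff (n : ℕ) (a : Polynomial ℂ) (i j : ℕ) :
    ((d2 (bh n a)).coeff j).coeff i = if i + j = n then a.coeff i else 0 := by
  rw [← wc_coeff_eq (N := 1) one_pos i j, one_mul, one_mul]
  split_ifs with h
  · rw [h, wc_d2 (bh_hom n a), d1_bh_coeff n a i (by omega)]
  · rw [wc_d2_ne (bh_hom n a) h, Polynomial.coeff_zero]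

/-- `ω = P (z dx - x dz) + Q (z dy - y dz) + H (x dy - y dx)` in the frame `e1, e2, s` -/
structure Shape (n : ℕ) (ω : Fin 3 → MvPolynomial (Fin 3) ℂ) (e1 e2 s : Fin 3 → ℂ)
    (P Q H : MvPolynomial (Fin 2) ℂ) : Prop where
  hP : P.IsHomogeneous n
  hQ : Q.IsHomogeneous n
  hH : H.IsHomogeneous n
  E1 : ev3 ω e1 e2 s e1 = X 2 * rename ![0, 1] P - X 1 * rename ![0, 1] H
  E2 : ev3 ω e1 e2 s e2 = X 2 * rename ![0, 1] Q + X 0 * rename ![0, 1] H
  E3 : ev3 ω e1 e2 s s = - (X 0 * rename ![0, 1] P + X 1 * rename ![0, 1] Q)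

theorem X_mul_em_hom (i : Fin 3) {P : MvPolynomial (Fin 2) ℂ} {n : ℕ} (hP : P.IsHomogeneous n) :
    (X i * rename ![0, 1] P : MvPolynomial (Fin 3) ℂ).IsHomogeneous (n + 1) := by
  have h : (rename ![0, 1] P : MvPolynomial (Fin 3) ℂ).IsHomogeneous n := hP.rename_isHomogeneous
  rw [add_comm]
  exact (isHomogeneous_X ℂ i).mul h

theorem shape_of_ord {n : ℕ} {ω : Fin 3 → MvPolynomial (Fin 3) ℂ} (h : IsFol n ω)
    (e1 e2 s : Fin 3 → ℂ) (hA : Ord 1 1 n (ev ω e1 e2 s e1)) (hB : Ord 1 1 n (ev ω e1 e2 s e2)) :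
    ∃ P Q H, Shape n ω e1 e2 s P Q H := by
  have dA := ev_deg h.hom e1 e2 s e1
  have dB := ev_deg h.hom e1 e2 s e2
  have dS := ev_deg h.hom e1 e2 s s
  have hE := ev_euler h.euler e1 e2 s
  have c1 := dh_ev3 ω e1 e2 s e1
  have c2 := dh_ev3 ω e1 e2 s e2
  have c3 := dh_ev3 ω e1 e2 s s
  have m1 := ev3_hom h.hom e1 e2 s e1
  have m2 := ev3_hom h.hom e1 e2 s e2
  have m3 := ev3_hom h.hom e1 e2 s s
  generalize ev ω e1 e2 s e1 = A at *
  generalize ev ω e1 e2 s e2 = B at *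
  generalize ev ω e1 e2 s s = S at *
  have R : ∀ i j, ((Polynomial.C Polynomial.X * A + Polynomial.X * B + S : R2).coeff j).coeff i
      = 0 := by
    intro i j; rw [hE]; simp
  have zS : ∀ i j, n + 1 < i + j → (S.coeff j).coeff i = 0 := by
    intro i j hij
    by_contra hne
    have := dS i j hne
    omega
  have R1 : (A.coeff 0).coeff (n + 1) = 0 := by
    have := R (n + 2) 0
    simpa [Polynomial.coeff_C_mul, zS (n + 2) 0 (by omega)] using this
  have R2' : (B.coeff (n + 1)).coeff 0 = 0 := by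
    have := R 0 (n + 2)
    simpa [Polynomial.coeff_C_mul, zS 0 (n + 2) (by omega)] using this
  have R3 : ∀ i j, i + j = n → (A.coeff (j + 1)).coeff i + (B.coeff j).coeff (i + 1) = 0 := by
    intro i j hij
    have := R (i + 1) (j + 1)
    simpa [Polynomial.coeff_C_mul, zS (i + 1) (j + 1) (by omega)] using this
  have wA : ∀ i j k, i + j = k → (wc 1 1 k A).coeff i = (A.coeff j).coeff i := by
    rintro i j k rfl
    rw [← wc_coeff_eq (N := 1) one_pos i j, one_mul, one_mul]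
  have wB : ∀ i j k, i + j = k → (wc 1 1 k B).coeff i = (B.coeff j).coeff i := by
    rintro i j k rfl
    rw [← wc_coeff_eq (N := 1) one_pos i j, one_mul, one_mul]
  have zA : ∀ i j, i + j ≠ n → i + j ≠ n + 1 → (A.coeff j).coeff i = 0 := by
    intro i j h1 h2
    by_contra hne
    have := hA i j hne
    have := dA i j hne
    omega
  have zB : ∀ i j, i + j ≠ n → i + j ≠ n + 1 → (B.coeff j).coeff i = 0 := by
    intro i j h1 h2
    by_contra hne
    have := hB i j hne
    have := dB i j hne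
    omega
  have EA : A = d2 (bh n (wc 1 1 n A)) - Polynomial.X * d2 (bh n (-wc 1 1 (n + 1) A)) := by
    ext j i
    rw [Polynomial.coeff_sub, Polynomial.coeff_sub, d2_bh_coeff]
    rcases j with _ | j
    · rw [Polynomial.coeff_X_mul_zero]
      simp only [add_zero, Polynomial.coeff_zero, sub_zero]
      split_ifs with h1
      · rw [wA i 0 n (by omega)]
      · by_cases h2 : i = n + 1
        · subst h2; exact R1
        · exact zA i 0 (by omega) (by omega)
    · rw [Polynomial.coeff_X_mul, d2_bh_coeff]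
      by_cases h1 : i + (j + 1) = n
      · rw [if_pos h1, if_neg (by omega), wA i (j + 1) n h1, sub_zero]
      · rw [if_neg h1]
        by_cases h2 : i + j = n
        · rw [if_pos h2, Polynomial.coeff_neg, wA i (j + 1) (n + 1) (by omega)]
          ring
        · rw [if_neg h2, sub_zero]
          exact zA i (j + 1) (by omega) (by omega)
  have EB : B = d2 (bh n (wc 1 1 n B)) +
      Polynomial.C Polynomial.X * d2 (bh n (-wc 1 1 (n + 1) A)) := by
    ext j i
    rw [Polynomial.coeff_add, Polynomial.coeff_add, Polynomial.coeff_C_mul, d2_bh_coeff]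
    rcases i with _ | i
    · rw [Polynomial.coeff_X_mul_zero]
      simp only [zero_add, add_zero]
      split_ifs with h1
      · rw [wB 0 j n (by omega)]
      · by_cases h2 : j = n + 1
        · subst h2; exact R2'
        · exact zB 0 j (by omega) (by omega)
    · rw [Polynomial.coeff_X_mul, d2_bh_coeff]
      by_cases h1 : i + 1 + j = n
      · rw [if_pos h1, if_neg (by omega), wB (i + 1) j n h1, add_zero]
      · rw [if_neg h1]
        by_cases h2 : i + j = n
        · rw [if_pos h2, Polynomial.coeff_neg, wA i (j + 1) (n + 1) (by omega)]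
          have := R3 i j h2
          linear_combination this
        · rw [if_neg h2, add_zero]
          exact zB (i + 1) j (by omega) (by omega)
  refine ⟨bh n (wc 1 1 n A), bh n (wc 1 1 n B), bh n (-wc 1 1 (n + 1) A), bh_hom _ _,
    bh_hom _ _, bh_hom _ _, ?_, ?_, ?_⟩
  · rw [← sub_eq_zero]
    apply dh_inj (m1.sub ((X_mul_em_hom _ (bh_hom _ _)).sub (X_mul_em_hom _ (bh_hom _ _))))
    rw [map_sub, map_sub, map_mul, map_mul, dh_em, dh_em, dh_X2, dh_X1, c1, one_mul]
    exact sub_eq_zero.2 EA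
  · rw [← sub_eq_zero]
    apply dh_inj (m2.sub ((X_mul_em_hom _ (bh_hom _ _)).add (X_mul_em_hom _ (bh_hom _ _))))
    rw [map_sub, map_add, map_mul, map_mul, dh_em, dh_em, dh_X2, dh_X0, c2, one_mul]
    exact sub_eq_zero.2 EB
  · rw [← sub_eq_zero]
    apply dh_inj (m3.sub ((X_mul_em_hom _ (bh_hom _ _)).add (X_mul_em_hom _ (bh_hom _ _))).neg)
    rw [map_sub, map_neg, map_add, map_mul, map_mul, dh_em, dh_em, dh_X1, dh_X0, c3]
    linear_combination hE - Polynomial.C Polynomial.X * EA - Polynomial.X * EB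

theorem eval_ev3 (ω : Fin 3 → MvPolynomial (Fin 3) ℂ) (e1 e2 s w : Fin 3 → ℂ) (x y z : ℂ) :
    eval ![x, y, z] (ev3 ω e1 e2 s w) = dot (evv ω (x • e1 + y • e2 + z • s)) w := by
  unfold ev3 dot evv
  rw [map_sum]
  refine Finset.sum_congr rfl fun j _ => ?_
  rw [map_mul, eval_C, mul_comm]
  congr 1
  have h : ((aeval (![x, y, z] : Fin 3 → ℂ)).comp (aeval (lin3 e1 e2 s))) (ω j) =
      aeval (x • e1 + y • e2 + z • s : Fin 3 → ℂ) (ω j) := by
    rw [comp_aeval]
    congr 2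
    funext i
    simp only [lin3, map_add, map_mul, aeval_C, aeval_X, Pi.add_apply, Pi.smul_apply, smul_eq_mul,
      Algebra.algebraMap_self, RingHom.id_apply]
    simp only [Matrix.cons_val_zero, Matrix.cons_val_one, Matrix.cons_val]
    ring
  simpa [aeval_eq_eval] using h

theorem ev3_add (ω : Fin 3 → MvPolynomial (Fin 3) ℂ) (e1 e2 s w w' : Fin 3 → ℂ) :
    ev3 ω e1 e2 s (w + w') = ev3 ω e1 e2 s w + ev3 ω e1 e2 s w' := by
  unfold ev3
  rw [← Finset.sum_add_distrib]
  refine Finset.sum_congr rfl fun j _ => ?_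
  rw [Pi.add_apply, C_add]; ring

theorem ev3_smul (ω : Fin 3 → MvPolynomial (Fin 3) ℂ) (e1 e2 s w : Fin 3 → ℂ) (c : ℂ) :
    ev3 ω e1 e2 s (c • w) = C c * ev3 ω e1 e2 s w := by
  unfold ev3
  rw [Finset.mul_sum]
  refine Finset.sum_congr rfl fun j _ => ?_
  rw [Pi.smul_apply, smul_eq_mul, C_mul]; ring

/-- the substitution of a change of frame -/
def chg (a b c : Fin 3 → ℂ) : Fin 3 → MvPolynomial (Fin 3) ℂ :=
  fun k => C (a k) * X 0 + C (b k) * X 1 + C (c k) * X 2

theorem lin3_change (e1 e2 s : Fin 3 → ℂ) (a b c : Fin 3 → ℂ) (i : Fin 3) :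
    aeval (chg a b c) (lin3 e1 e2 s i) =
      lin3 (a 0 • e1 + a 1 • e2 + a 2 • s) (b 0 • e1 + b 1 • e2 + b 2 • s)
      (c 0 • e1 + c 1 • e2 + c 2 • s) i := by
  simp only [chg, lin3, map_add, map_mul, aeval_C, aeval_X, Pi.add_apply, Pi.smul_apply,
    smul_eq_mul, algebraMap_eq]
  ring

/-- change of frame -/
theorem ev3_change (ω : Fin 3 → MvPolynomial (Fin 3) ℂ) (e1 e2 s w : Fin 3 → ℂ)
    (a b c : Fin 3 → ℂ) :
    ev3 ω (a 0 • e1 + a 1 • e2 + a 2 • s) (b 0 • e1 + b 1 • e2 + b 2 • s)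
      (c 0 • e1 + c 1 • e2 + c 2 • s) w =
    aeval (chg a b c) (ev3 ω e1 e2 s w) := by
  unfold ev3
  rw [map_sum]
  refine Finset.sum_congr rfl fun j _ => ?_
  rw [map_mul, aeval_C, algebraMap_eq, ← AlgHom.comp_apply, comp_aeval]
  congr 3
  funext i
  exact (lin3_change e1 e2 s a b c i).symm

theorem tri_change (e1 e2 s : Fin 3 → ℂ) (a b c : Fin 3 → ℂ) :
    tri (a 0 • e1 + a 1 • e2 + a 2 • s) (b 0 • e1 + b 1 • e2 + b 2 • s)
      (c 0 • e1 + c 1 • e2 + c 2 • s) = tri a b c * tri e1 e2 s := by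
  simp only [tri, Pi.add_apply, Pi.smul_apply, smul_eq_mul]
  ring

theorem dot_smul_left (c : ℂ) (u v : Fin 3 → ℂ) : dot (c • u) v = c * dot u v := by
  simp only [dot, Pi.smul_apply, smul_eq_mul, Finset.mul_sum, mul_assoc]

theorem dot_comb (l e1 e2 s : Fin 3 → ℂ) (x y z : ℂ) :
    dot l (x • e1 + y • e2 + z • s) = x * dot l e1 + y * dot l e2 + z * dot l s := by
  simp only [dot, Fin.sum_univ_three, Pi.add_apply, Pi.smul_apply, smul_eq_mul]
  ring

theorem eval_em (P : MvPolynomial (Fin 2) ℂ) (x y z : ℂ) :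
    eval ![x, y, z] (rename ![0, 1] P : MvPolynomial (Fin 3) ℂ) = eval ![x, y] P := by
  rw [eval_rename]
  congr 2
  funext i
  fin_cases i <;> simp

theorem aeval_em (P : MvPolynomial (Fin 2) ℂ) (f : Fin 3 → MvPolynomial (Fin 3) ℂ) :
    aeval f (rename ![0, 1] P : MvPolynomial (Fin 3) ℂ) = aeval ![f 0, f 1] P := by
  rw [aeval_rename]
  congr 2
  funext i
  fin_cases i <;> simp

theorem em_eq (P : MvPolynomial (Fin 2) ℂ) :
    (aeval ![X 0, X 1] P : MvPolynomial (Fin 3) ℂ) = rename ![0, 1] P := by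
  rw [rename_eq_aeval]
  congr 2
  funext i
  fin_cases i <;> simp

theorem case1 {n : ℕ} {ω : Fin 3 → MvPolynomial (Fin 3) ℂ} {e1 e2 s : Fin 3 → ℂ}
    {P Q H : MvPolynomial (Fin 2) ℂ} (ht : tri e1 e2 s ≠ 0) (S : Shape n ω e1 e2 s P Q H)
    (l : Fin 3 → ℂ) (hl : InvLine ω l) (hs : dot l s ≠ 0) : HomogType n ω := by
  obtain ⟨μ, hμ⟩ : ∃ μ, μ = dot l e2 / dot l s := ⟨_, rfl⟩
  obtain ⟨lam, hlam⟩ : ∃ lam, lam = dot l e1 / dot l s := ⟨_, rfl⟩
  have h1 : dot l e1 = lam * dot l s := by rw [hlam]; field_simp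
  have h2 : dot l e2 = μ * dot l s := by rw [hμ]; field_simp
  have T : C μ * P - C lam * Q + H = 0 := by
    have h3 : X 1 * (C μ * P - C lam * Q + H) = 0 := by
      apply MvPolynomial.funext
      intro p
      obtain ⟨x, hx⟩ : ∃ x, x = p 0 := ⟨_, rfl⟩
      obtain ⟨y, hy⟩ : ∃ y, y = p 1 := ⟨_, rfl⟩
      have hp : p = ![x, y] := by
        funext i; fin_cases i
        · simp [hx]
        · simp [hy]
      have hz : dot l (x • e1 + y • e2 + (-(lam * x + μ * y)) • s) = 0 := by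
        rw [dot_comb, h1, h2]; ring
      obtain ⟨c, hc⟩ := hl.2 _ hz
      have k1 := eval_ev3 ω e1 e2 s e1 x y (-(lam * x + μ * y))
      have k3 := eval_ev3 ω e1 e2 s s x y (-(lam * x + μ * y))
      rw [hc, dot_smul_left, S.E1] at k1
      rw [hc, dot_smul_left, S.E3] at k3
      rw [h1] at k1
      simp only [map_sub, map_mul, map_neg, map_add, eval_em, eval_X, Matrix.cons_val_zero,
        Matrix.cons_val_one, Matrix.cons_val] at k1 k3
      rw [hp]
      simp only [map_sub, map_mul, map_add, eval_X, eval_C, Matrix.cons_val_one, map_zero,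
        Matrix.cons_val_zero]
      linear_combination (-1) * k1 + lam * k3
    rcases mul_eq_zero.1 h3 with h2 | h2
    · exact absurd h2 (X_ne_zero 1)
    · exact h2
  have T3 : C μ * rename ![0, 1] P - C lam * rename ![0, 1] Q + rename ![0, 1] H
      = (0 : MvPolynomial (Fin 3) ℂ) := by
    have := congrArg (rename ![0, 1] : MvPolynomial (Fin 2) ℂ → MvPolynomial (Fin 3) ℂ) T
    simpa using this
  have key : ∀ w, ev3 ω (e1 - lam • s) (e2 - μ • s) s w =
      aeval (![X 0, X 1, X 2 - C lam * X 0 - C μ * X 1] : Fin 3 → MvPolynomial (Fin 3) ℂ)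
        (ev3 ω e1 e2 s w) := by
    intro w
    have := ev3_change ω e1 e2 s w ![1, 0, -lam] ![0, 1, -μ] ![0, 0, 1]
    simp only [Matrix.cons_val_zero, Matrix.cons_val_one, Matrix.cons_val, one_smul, zero_smul,
      zero_add, add_zero, neg_smul] at this
    rw [← sub_eq_add_neg, ← sub_eq_add_neg] at this
    rw [this]
    congr 2
    funext k
    fin_cases k
    · simp [chg]
    · simp [chg]
    · simp [chg]; ring
  refine ⟨e1 - lam • s, e2 - μ • s, s, ?_, P, Q, S.hP, S.hQ, ?_⟩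
  · have := tri_change e1 e2 s ![1, 0, -lam] ![0, 1, -μ] ![0, 0, 1]
    simp only [Matrix.cons_val_zero, Matrix.cons_val_one, Matrix.cons_val, one_smul, zero_smul,
      zero_add, add_zero, neg_smul] at this
    rw [← sub_eq_add_neg, ← sub_eq_add_neg] at this
    rw [this]
    simpa [tri] using ht
  · have k1 := key e1
    have k2 := key e2
    have k3 := key s
    rw [S.E1] at k1
    rw [S.E2] at k2
    rw [S.E3] at k3
    simp only [map_sub, map_mul, map_neg, map_add, aeval_em, aeval_X, Matrix.cons_val_zero,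
        Matrix.cons_val_one, Matrix.cons_val, em_eq] at k1 k2 k3
    have f1 : ev3 ω (e1 - lam • s) (e2 - μ • s) s (e1 - lam • s) = X 2 * rename ![0, 1] P := by
      have : e1 - lam • s = e1 + (-lam) • s := by rw [neg_smul, sub_eq_add_neg]
      rw [show ev3 ω (e1 - lam • s) (e2 - μ • s) s (e1 - lam • s) =
        ev3 ω (e1 - lam • s) (e2 - μ • s) s (e1 + (-lam) • s) by rw [← this], ev3_add, ev3_smul,
        k1, k3, C_neg]
      linear_combination (-(X 1 : MvPolynomial (Fin 3) ℂ)) * T3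
    have f2 : ev3 ω (e1 - lam • s) (e2 - μ • s) s (e2 - μ • s) = X 2 * rename ![0, 1] Q := by
      have : e2 - μ • s = e2 + (-μ) • s := by rw [neg_smul, sub_eq_add_neg]
      rw [show ev3 ω (e1 - lam • s) (e2 - μ • s) s (e2 - μ • s) =
        ev3 ω (e1 - lam • s) (e2 - μ • s) s (e2 + (-μ) • s) by rw [← this], ev3_add, ev3_smul,
        k2, k3, C_neg]
      linear_combination (X 0 : MvPolynomial (Fin 3) ℂ) * T3
    unfold pb
    rw [f1, f2, k3]

theorem f1_of_shape {n : ℕ} {ω : Fin 3 → MvPolynomial (Fin 3) ℂ} {e1 e2 s : Fin 3 → ℂ}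
    {g H : MvPolynomial (Fin 2) ℂ} (ht : tri e1 e2 s ≠ 0) (S : Shape n ω e1 e2 s 0 g H)
    (t g0 c c1 : ℂ) (hg0 : g0 ≠ 0) (hc1 : c1 ≠ 0) (hg : g = C g0 * (X 0 - C t * X 1) ^ n)
    (hH : H = C c * g + C c1 * X 1 ^ n) : F1Type n ω := by
  have key : ∀ w, ev3 ω (t • e1 + e2) (e1 + (-c) • s) ((-(c1 / g0)) • s) w =
      aeval (![C t * X 0 + X 1, X 0, - C c * X 1 - C (c1 / g0) * X 2] :
        Fin 3 → MvPolynomial (Fin 3) ℂ) (ev3 ω e1 e2 s w) := by
    intro w
    have := ev3_change ω e1 e2 s w ![t, 1, 0] ![1, 0, -c] ![0, 0, -(c1 / g0)]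
    simp only [Matrix.cons_val_zero, Matrix.cons_val_one, Matrix.cons_val, one_smul, zero_smul,
      zero_add, add_zero] at this
    rw [this]
    congr 2
    funext k
    fin_cases k
    · simp [chg]
    · simp [chg]
    · simp [chg]; ring
  refine ⟨t • e1 + e2, e1 + (-c) • s, (-(c1 / g0)) • s, ?_, -c1, neg_ne_zero.2 hc1, ?_⟩
  · have := tri_change e1 e2 s ![t, 1, 0] ![1, 0, -c] ![0, 0, -(c1 / g0)]
    simp only [Matrix.cons_val_zero, Matrix.cons_val_one, Matrix.cons_val, one_smul, zero_smul,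
      zero_add, add_zero] at this
    rw [this]
    simpa [tri, hg0, hc1] using ht
  · have k1 := key e1
    have k2 := key e2
    have k3 := key s
    rw [S.E1] at k1
    rw [S.E2] at k2
    rw [S.E3] at k3
    have hgM : aeval (![C t * X 0 + X 1, X 0] : Fin 2 → MvPolynomial (Fin 3) ℂ) g
        = C g0 * X 1 ^ n := by
      rw [hg]
      simp only [map_mul, map_pow, map_sub, aeval_C, aeval_X, Matrix.cons_val_zero,
        Matrix.cons_val_one, algebraMap_eq]
      congr 2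
      ring
    have hHM : aeval (![C t * X 0 + X 1, X 0] : Fin 2 → MvPolynomial (Fin 3) ℂ) H
        = C c * (C g0 * X 1 ^ n) + C c1 * X 0 ^ n := by
      rw [hH]
      simp only [map_mul, map_pow, map_add, aeval_C, aeval_X, Matrix.cons_val_one, algebraMap_eq,
        hgM, Matrix.cons_val_zero]
    simp only [map_mul, map_neg, map_add, aeval_em, aeval_X, Matrix.cons_val_zero,
        Matrix.cons_val_one, Matrix.cons_val, hgM, hHM, map_zero, mul_zero, zero_add,
        zero_sub] at k1 k2 k3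
    have hc : (C (c1 / g0) * C g0 : MvPolynomial (Fin 3) ℂ) = C c1 := by
      rw [← C_mul]; congr 1; field_simp
    unfold pb
    rw [ev3_add, ev3_smul, ev3_add, ev3_smul, ev3_smul, k1, k2, k3]
    funext j
    fin_cases j
    · simp only [C_neg]
      simp
      linear_combination (-(X 2 * X 1 ^ n : MvPolynomial (Fin 3) ℂ)) * hc
    · simp only [C_neg]
      simp
      ring
    · simp only [C_neg]
      simp
      linear_combination ((X 0 * X 1 ^ n : MvPolynomial (Fin 3) ℂ)) * hc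

theorem comb_of_tri (e1 e2 s : Fin 3 → ℂ) (ht : tri e1 e2 s ≠ 0) (p : Fin 3 → ℂ) :
    ∃ x y z : ℂ, p = x • e1 + y • e2 + z • s := by
  refine ⟨tri p e2 s / tri e1 e2 s, tri e1 p s / tri e1 e2 s, tri e1 e2 p / tri e1 e2 s, ?_⟩
  funext j
  simp only [Pi.add_apply, Pi.smul_apply, smul_eq_mul]
  field_simp
  fin_cases j
  · simp [tri]; ring
  · simp [tri]; ring
  · simp [tri]; ring

theorem eq_zero_of_dot (e1 e2 s : Fin 3 → ℂ) (ht : tri e1 e2 s ≠ 0) (l : Fin 3 → ℂ)
    (h1 : dot l e1 = 0) (h2 : dot l e2 = 0) (h3 : dot l s = 0) : l = 0 := by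
  have key : ∀ j, tri e1 e2 s * l j = 0 := by
    intro j
    simp only [dot, Fin.sum_univ_three] at h1 h2 h3
    fin_cases j
    · simp only [tri, Fin.zero_eta]
      linear_combination (e2 1 * s 2 - e2 2 * s 1) * h1 + (s 1 * e1 2 - s 2 * e1 1) * h2 +
        (e1 1 * e2 2 - e1 2 * e2 1) * h3
    · simp only [tri, Fin.mk_one]
      linear_combination (e2 2 * s 0 - e2 0 * s 2) * h1 + (s 2 * e1 0 - s 0 * e1 2) * h2 +
        (e1 2 * e2 0 - e1 0 * e2 2) * h3
    · simp only [tri, Fin.reduceFinMk]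
      linear_combination (e2 0 * s 1 - e2 1 * s 0) * h1 + (s 0 * e1 1 - s 1 * e1 0) * h2 +
        (e1 0 * e2 1 - e1 1 * e2 0) * h3
  funext j
  exact (mul_eq_zero.1 (key j)).resolve_left ht

/-- no common zero of `g` and `H` -/
theorem nocommon {n : ℕ} {ω : Fin 3 → MvPolynomial (Fin 3) ℂ} {e1 e2 s : Fin 3 → ℂ}
    {g H : MvPolynomial (Fin 2) ℂ} (ht : tri e1 e2 s ≠ 0) (S : Shape n ω e1 e2 s 0 g H)
    (hno : ∀ l : Fin 3 → ℂ, l ≠ 0 → ∃ p, dot l p = 0 ∧ evv ω p ≠ 0)
    (u v : ℂ) (huv : u ≠ 0 ∨ v ≠ 0) (hg : eval ![u, v] g = 0) (hH : eval ![u, v] H = 0) :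
    False := by
  obtain ⟨q, hq⟩ : ∃ q, q = u • e1 + v • e2 := ⟨_, rfl⟩
  obtain ⟨l, hl⟩ : ∃ l : Fin 3 → ℂ, l = ![q 1 * s 2 - q 2 * s 1, q 2 * s 0 - q 0 * s 2,
    q 0 * s 1 - q 1 * s 0] := ⟨_, rfl⟩
  have hd : ∀ x y z : ℂ, dot l (x • e1 + y • e2 + z • s) = (v * x - u * y) * tri e1 e2 s := by
    intro x y z
    simp only [dot, Fin.sum_univ_three, hl, hq, tri, Pi.add_apply, Pi.smul_apply, smul_eq_mul,
      Matrix.cons_val_zero, Matrix.cons_val_one, Matrix.cons_val]
    ring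
  have hl0 : l ≠ 0 := by
    intro h0
    have d1 := hd 1 0 0
    have d2 := hd 0 1 0
    rw [h0] at d1 d2
    have z : ∀ w, dot 0 w = 0 := by intro w; simp [dot]
    rw [z] at d1 d2
    rcases huv with h | h
    · have := (mul_eq_zero.1 d2.symm).resolve_right ht
      apply h; linear_combination -this
    · have := (mul_eq_zero.1 d1.symm).resolve_right ht
      apply h; linear_combination this
  obtain ⟨p, hp, hpe⟩ := hno l hl0
  obtain ⟨x, y, z, rfl⟩ := comb_of_tri e1 e2 s ht p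
  rw [hd] at hp
  have hxy : v * x - u * y = 0 := (mul_eq_zero.1 hp).resolve_right ht
  obtain ⟨τ, hτ1, hτ2⟩ : ∃ τ, x = τ * u ∧ y = τ * v := by
    rcases huv with h | h
    · refine ⟨x / u, by field_simp, ?_⟩
      field_simp; linear_combination -hxy
    · refine ⟨y / v, ?_, by field_simp⟩
      field_simp; linear_combination hxy
  have hpt : (![x, y] : Fin 2 → ℂ) = fun i => τ * (![u, v] : Fin 2 → ℂ) i := by
    funext i
    fin_cases i
    · simp [hτ1]
    · simp [hτ2]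
  have hg' : eval ![x, y] g = 0 := by rw [hpt, eval_smul S.hQ, hg, mul_zero]
  have hH' : eval ![x, y] H = 0 := by rw [hpt, eval_smul S.hH, hH, mul_zero]
  apply hpe
  apply eq_zero_of_dot e1 e2 s ht
  · rw [← eval_ev3, S.E1]
    simp [eval_em, hH']
  · rw [← eval_ev3, S.E2]
    simp [eval_em, hH', hg']
  · rw [← eval_ev3, S.E3]
    simp [eval_em, hg']

theorem infl_form {n : ℕ} {ω : Fin 3 → MvPolynomial (Fin 3) ℂ} {ℓ : Fin (3 * n) → Fin 3 → ℂ}
    (G : GData n ω ℓ) {e1 e2 s : Fin 3 → ℂ} (ht : tri e1 e2 s ≠ 0)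
    (hall : ∀ i, dot (ℓ i) s = 0) :
    Ord 1 1 (3 * n) (Infl (ev ω e1 e2 s e1) (ev ω e1 e2 s e2)) ∧
    ∃ c' : ℂ, c' ≠ 0 ∧ wc 1 1 (3 * n) (Infl (ev ω e1 e2 s e1) (ev ω e1 e2 s e2)) =
      Polynomial.C c' * ∏ i, (Polynomial.C (dot (ℓ i) e1) * Polynomial.X +
        Polynomial.C (dot (ℓ i) e2)) := by
  obtain ⟨c, hc, hI⟩ := G.infl
  rw [hI]
  have hu : ∀ i, lc (ℓ i) e1 e2 s ≠ 0 := by
    intro i h0
    apply (G.inv i).1
    apply eq_zero_of_dot e1 e2 s ht
    · simpa [lc] using congrFun h0 0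
    · simpa [lc] using congrFun h0 1
    · simpa [lc] using congrFun h0 2
  have h := lines_one (c * tri e1 e2 s ^ 2) (mul_ne_zero hc (pow_ne_zero 2 ht))
    (fun i => lc (ℓ i) e1 e2 s) hu
  have hf : (Finset.univ.filter (fun i => (fun i => lc (ℓ i) e1 e2 s) i 2 = 0)) =
      Finset.univ := by
    rw [Finset.filter_eq_self]
    intro i _
    simp [lc, hall i]
  rw [hf] at h
  simp only [Finset.card_univ, Fintype.card_fin] at h
  refine ⟨h.1, ?_⟩
  obtain ⟨c', hc', h2⟩ := h.2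
  refine ⟨c', hc', ?_⟩
  rw [h2]
  simp [lc]

theorem prod_ne {n : ℕ} {ω : Fin 3 → MvPolynomial (Fin 3) ℂ} {ℓ : Fin (3 * n) → Fin 3 → ℂ}
    (G : GData n ω ℓ) {e1 e2 s : Fin 3 → ℂ} (ht : tri e1 e2 s ≠ 0)
    (hall : ∀ i, dot (ℓ i) s = 0) :
    (∏ i, (Polynomial.C (dot (ℓ i) e1) * Polynomial.X + Polynomial.C (dot (ℓ i) e2)) :
      Polynomial ℂ) ≠ 0 := by
  rw [Finset.prod_ne_zero_iff]
  intro i _
  apply linesProd_factor_ne
  by_contra hcon
  push Not at hcon
  exact (G.inv i).1 (eq_zero_of_dot e1 e2 s ht (ℓ i) hcon.1 hcon.2 (hall i))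

theorem case2_core {n : ℕ} {ω : Fin 3 → MvPolynomial (Fin 3) ℂ} {ℓ : Fin (3 * n) → Fin 3 → ℂ}
    (G : GData n ω ℓ) (hn : 2 ≤ n) {e1 e2 s : Fin 3 → ℂ} (ht : tri e1 e2 s ≠ 0)
    {g H : MvPolynomial (Fin 2) ℂ} (hg : g ≠ 0) (S : Shape n ω e1 e2 s 0 g H)
    (hall : ∀ i, dot (ℓ i) s = 0) : F1Type n ω := by
  obtain ⟨hO, c', hc', hw⟩ := infl_form G ht hall
  have hp := prod_ne G ht hall
  have eA : ev ω e1 e2 s e1 = - (Polynomial.X * d2 H) := by
    rw [← dh_ev3, S.E1, map_sub, map_mul, map_mul, dh_em, dh_em, dh_X1, map_zero]; ring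
  have eB : ev ω e1 e2 s e2 = d2 g + Polynomial.C Polynomial.X * d2 H := by
    rw [← dh_ev3, S.E2, map_add, map_mul, map_mul, dh_em, dh_em, dh_X2, dh_X0]; ring
  obtain ⟨m, rfl⟩ : ∃ m, n = m + 1 := ⟨n - 1, by omega⟩
  have e3 : 3 * (m + 1) = (m + 1) + ((m + 1) + (m + 1)) := by ring
  have oA : Ord 1 1 ((m + 1) + 1) (ev ω e1 e2 s e1) := by
    rw [eA, add_comm (m + 1) 1]; exact ((Ord_X 1 1).mul (Ord_d2 S.hH)).neg
  have oxH : Ord 1 1 (1 + (m + 1)) (Polynomial.C Polynomial.X * d2 H) :=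
    (Ord_CX 1 1).mul (Ord_d2 S.hH)
  have oB : Ord 1 1 (m + 1) (ev ω e1 e2 s e2) := by
    rw [eB]; exact (Ord_d2 S.hQ).add (oxH.mono (by omega))
  have wA : wc 1 1 ((m + 1) + 1) (ev ω e1 e2 s e1) = - d1 H := by
    rw [eA, add_comm (m + 1) 1, wc_neg, wc_mul one_pos (Ord_X 1 1) (Ord_d2 S.hH), wc_X,
      wc_d2 S.hH, one_mul]
  have wB : wc 1 1 (m + 1) (ev ω e1 e2 s e2) = d1 g := by
    rw [eB, wc_add, wc_d2 S.hQ, wc_eq_zero_of_Ord one_pos oxH (by omega), add_zero]
  generalize ev ω e1 e2 s e1 = A at *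
  generalize ev ω e1 e2 s e2 = B at *
  have oAx : Ord 1 1 (m + 1) (Dx A) := by simpa using oA.dx
  have oAy : Ord 1 1 (m + 1) (Dy A) := by simpa using oA.dy
  have oBx : Ord 1 1 m (Dx B) := by simpa using oB.dx
  have oBy : Ord 1 1 m (Dy B) := by simpa using oB.dy
  have eo : (m + 1) + (m + 1) = (m + 1 + 1) + m := by ring
  have o1 : Ord 1 1 ((m + 1) + (m + 1)) (A * Dx B) := by
    rw [eo]; exact oA.mul oBx
  have o2 : Ord 1 1 ((m + 1) + (m + 1)) (A * Dy B) := by
    rw [eo]; exact oA.mul oBy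
  have o3 : Ord 1 1 ((m + 1) + (m + 1)) (Dx A * B - A * Dx B) := (oAx.mul oB).sub o1
  have o4 : Ord 1 1 ((m + 1) + (m + 1)) (Dy A * B - A * Dy B) := (oAy.mul oB).sub o2
  have hwI : wc 1 1 (3 * (m + 1)) (Infl A B) =
      - (d1 g * (Polynomial.derivative (d1 g) * d1 H - d1 g * Polynomial.derivative (d1 H))) := by
    unfold Infl
    rw [wc_sub, wc_eq_zero_of_Ord (k := (m + 1 + 1) + ((m + 1) + (m + 1))) one_pos (oA.mul o4)
      (by omega), e3, wc_mul one_pos oB o3, wc_sub, wc_mul one_pos oAx oB]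
    rw [show wc 1 1 (m + 1 + (m + 1)) (A * Dx B) = wc 1 1 (m + 1 + 1) A * wc 1 1 m (Dx B) by
      rw [eo]; exact wc_mul one_pos oA oBx]
    rw [wc_Dx, wc_Dx, wA, wB]
    simp only [Polynomial.derivative_neg]
    ring
  rw [hwI] at hw
  have hne : (Polynomial.C c' * ∏ i, (Polynomial.C (dot (ℓ i) e1) * Polynomial.X +
        Polynomial.C (dot (ℓ i) e2)) : Polynomial ℂ) ≠ 0 :=
    mul_ne_zero (by simpa using hc') hp
  have hG0 : d1 g ≠ 0 := fun h => hg (d1_inj S.hQ h)
  have hW : Polynomial.derivative (d1 g) * d1 H - d1 g * Polynomial.derivative (d1 H) ≠ 0 := by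
    intro h0
    rw [h0, mul_zero, neg_zero] at hw
    exact hne hw.symm
  have hroot : ∀ r, (Polynomial.derivative (d1 g) * d1 H -
      d1 g * Polynomial.derivative (d1 H)).IsRoot r → (d1 g).IsRoot r := by
    intro r hr
    have h1 := congrArg (Polynomial.eval r) hw
    rw [Polynomial.IsRoot.def] at hr
    rw [Polynomial.eval_neg, Polynomial.eval_mul, hr, mul_zero, neg_zero, Polynomial.eval_mul,
      Polynomial.eval_C, Polynomial.eval_prod] at h1
    have h2 := (mul_eq_zero.1 h1.symm).resolve_left hc'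
    rw [Finset.prod_eq_zero_iff] at h2
    obtain ⟨i, _, hi⟩ := h2
    simp only [Polynomial.eval_add, Polynomial.eval_mul, Polynomial.eval_C,
      Polynomial.eval_X] at hi
    have hz : dot (ℓ i) (r • e1 + (1 : ℂ) • e2 + (1 : ℂ) • s) = 0 := by
      rw [dot_comb, hall i]; linear_combination hi
    obtain ⟨c, hc⟩ := (G.inv i).2 _ hz
    have k1 := eval_ev3 ω e1 e2 s e1 r 1 1
    have k2 := eval_ev3 ω e1 e2 s e2 r 1 1
    rw [hc, dot_smul_left, S.E1] at k1
    rw [hc, dot_smul_left, S.E2] at k2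
    simp only [map_sub, map_mul, map_add, eval_em, eval_X, Matrix.cons_val_zero,
      Matrix.cons_val_one, Matrix.cons_val, map_zero] at k1 k2
    rw [Polynomial.IsRoot.def, eval_d1]
    linear_combination r * k1 + k2 + c * hi
  have hcop : ∀ r, (d1 g).IsRoot r → ¬ (d1 H).IsRoot r := by
    intro r h1 h2
    rw [Polynomial.IsRoot.def, eval_d1] at h1 h2
    exact nocommon ht S G.noline r 1 (Or.inr one_ne_zero) h1 h2
  have hinf : ¬ ((d1 g).coeff (m + 1) = 0 ∧ (d1 H).coeff (m + 1) = 0) := by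
    rintro ⟨h1, h2⟩
    refine nocommon ht S G.noline 1 0 (Or.inl one_ne_zero) ?_ ?_
    · rw [eval_form0 S.hQ, h1, mul_zero]
    · rw [eval_form0 S.hH, h2, mul_zero]
  obtain ⟨t, g0, c, c1, hg0, hc1, hg1, hH1⟩ := finish_uni (m + 1) hn (d1 g) (d1 H) hG0
    (natDegree_d1 S.hQ) (natDegree_d1 S.hH) hcop hinf hW hroot
  have hlin : ((X 0 - C t * X 1) ^ (m + 1) : MvPolynomial (Fin 2) ℂ).IsHomogeneous (m + 1) := by
    have := ((isHomogeneous_X ℂ (0 : Fin 2)).sub (isHomogeneous_C_mul_X t 1)).pow (m + 1)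
    simpa using this
  refine f1_of_shape ht S t g0 c c1 hg0 hc1 ?_ ?_
  · rw [← sub_eq_zero]
    apply d1_inj (S.hQ.sub (hlin.C_mul g0))
    rw [map_sub, map_mul, map_pow, map_sub, map_mul, d1_C, d1_C, d1_X0, d1_X1, mul_one]
    exact sub_eq_zero.2 hg1
  · rw [← sub_eq_zero]
    apply d1_inj (S.hH.sub ((S.hQ.C_mul c).add ((isHomogeneous_X_pow 1 (m + 1)).C_mul c1)))
    rw [map_sub, map_add, map_mul, map_mul, map_pow, d1_C, d1_C, d1_X1, one_pow, mul_one]
    exact sub_eq_zero.2 hH1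

/-- linear change of the first two frame vectors -/
theorem shape_change {n : ℕ} {ω : Fin 3 → MvPolynomial (Fin 3) ℂ} {e1 e2 s : Fin 3 → ℂ}
    {g H : MvPolynomial (Fin 2) ℂ} {a0 b0 : ℂ} (hg : g.IsHomogeneous n)
    (S : Shape n ω e1 e2 s (C a0 * g) (C b0 * g) H) (c0 d0 : ℂ) (hd : a0 * c0 + b0 * d0 = 1) :
    ∃ g' H', Shape n ω (b0 • e1 + (-a0) • e2) (c0 • e1 + d0 • e2) s 0 g' H' ∧
      (g' = 0 → g = 0) := by
  have key : ∀ w, ev3 ω (b0 • e1 + (-a0) • e2) (c0 • e1 + d0 • e2) s w =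
      aeval (![C b0 * X 0 + C c0 * X 1, - C a0 * X 0 + C d0 * X 1, X 2] :
        Fin 3 → MvPolynomial (Fin 3) ℂ) (ev3 ω e1 e2 s w) := by
    intro w
    have := ev3_change ω e1 e2 s w ![b0, -a0, 0] ![c0, d0, 0] ![0, 0, 1]
    simp only [Matrix.cons_val_zero, Matrix.cons_val_one, Matrix.cons_val, one_smul, zero_smul,
      zero_add, add_zero] at this
    rw [this]
    congr 2
    funext k
    fin_cases k
    · simp [chg]
    · simp [chg]
    · simp [chg]
  obtain ⟨M, hM⟩ : ∃ M : Fin 2 → MvPolynomial (Fin 2) ℂ, M =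
    ![C b0 * X 0 + C c0 * X 1, - C a0 * X 0 + C d0 * X 1] := ⟨_, rfl⟩
  have hM1 : ∀ i, (M i).IsHomogeneous 1 := by
    intro i
    rw [hM]
    fin_cases i
    · exact (isHomogeneous_C_mul_X _ _).add (isHomogeneous_C_mul_X _ _)
    · have : (- C a0 * X 0 + C d0 * X 1 : MvPolynomial (Fin 2) ℂ) =
        C (-a0) * X 0 + C d0 * X 1 := by rw [C_neg]
      simp only [Fin.mk_one, Matrix.cons_val_one, Matrix.cons_val_zero]
      rw [this]
      exact (isHomogeneous_C_mul_X _ _).add (isHomogeneous_C_mul_X _ _)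
  have em_aeval : ∀ P : MvPolynomial (Fin 2) ℂ,
      (aeval ![C b0 * X 0 + C c0 * X 1, - C a0 * X 0 + C d0 * X 1] P : MvPolynomial (Fin 3) ℂ)
      = rename ![0, 1] (aeval M P) := by
    intro P
    have h : ((rename ![0, 1] : MvPolynomial (Fin 2) ℂ →ₐ[ℂ] MvPolynomial (Fin 3) ℂ).comp
        (aeval M)) P = aeval ![C b0 * X 0 + C c0 * X 1, - C a0 * X 0 + C d0 * X 1] P := by
      rw [comp_aeval]
      congr 2
      funext i
      rw [hM]
      fin_cases i <;> simp
    exact h.symm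
  have k1 := key e1
  have k2 := key e2
  have k3 := key s
  rw [S.E1] at k1
  rw [S.E2] at k2
  rw [S.E3] at k3
  simp only [map_sub, map_mul, map_neg, map_add, aeval_em, aeval_X, Matrix.cons_val_zero,
        Matrix.cons_val_one, Matrix.cons_val, em_aeval, aeval_C, algebraMap_eq, rename_C]
        at k1 k2 k3
  have hdC : (C a0 * C c0 + C b0 * C d0 : MvPolynomial (Fin 3) ℂ) = 1 := by
    rw [← C_mul, ← C_mul, ← C_add, hd, C_1]
  refine ⟨aeval M g, aeval M H, ⟨isHomogeneous_zero _ _ _, ?_, ?_, ?_, ?_, ?_⟩, ?_⟩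
  · simpa using hg.aeval M hM1
  · simpa using S.hH.aeval M hM1
  · rw [ev3_add, ev3_smul, ev3_smul, k1, k2, map_zero, C_neg]
    linear_combination (-(X 1 : MvPolynomial (Fin 3) ℂ) * rename ![0, 1] (aeval M H)) * hdC
  · rw [ev3_add, ev3_smul, ev3_smul, k1, k2]
    linear_combination ((X 2 : MvPolynomial (Fin 3) ℂ) * rename ![0, 1] (aeval M g) +
      (X 0 : MvPolynomial (Fin 3) ℂ) * rename ![0, 1] (aeval M H)) * hdC
  · rw [k3, map_zero]
    linear_combination (-(X 1 : MvPolynomial (Fin 3) ℂ) * rename ![0, 1] (aeval M g)) * hdC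
  · intro h0
    have h1 : aeval (![C d0 * X 0 - C c0 * X 1, C a0 * X 0 + C b0 * X 1] :
        Fin 2 → MvPolynomial (Fin 2) ℂ) (aeval M g) = g := by
      have h : ((aeval (![C d0 * X 0 - C c0 * X 1, C a0 * X 0 + C b0 * X 1] :
        Fin 2 → MvPolynomial (Fin 2) ℂ)).comp (aeval M)) g = aeval X g := by
        rw [comp_aeval]
        congr 2
        have hdC2 : (C a0 * C c0 + C b0 * C d0 : MvPolynomial (Fin 2) ℂ) = 1 := by
          rw [← C_mul, ← C_mul, ← C_add, hd, C_1]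
        funext i
        rw [hM]
        fin_cases i
        · simp only [Fin.zero_eta, Matrix.cons_val_zero, map_add, map_mul, aeval_C, aeval_X,
            Matrix.cons_val_one, algebraMap_eq]
          linear_combination (X 0 : MvPolynomial (Fin 2) ℂ) * hdC2
        · simp only [Fin.mk_one, Matrix.cons_val_zero, map_add, map_mul, aeval_C, aeval_X,
            Matrix.cons_val_one, algebraMap_eq, map_neg]
          linear_combination (X 1 : MvPolynomial (Fin 2) ℂ) * hdC2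
      rw [aeval_X_left_apply] at h
      exact h
    rw [← h1, h0, map_zero]

theorem case2 {n : ℕ} {ω : Fin 3 → MvPolynomial (Fin 3) ℂ} {ℓ : Fin (3 * n) → Fin 3 → ℂ}
    (G : GData n ω ℓ) (hn : 2 ≤ n) {e1 e2 s : Fin 3 → ℂ} (ht : tri e1 e2 s ≠ 0)
    {P Q H : MvPolynomial (Fin 2) ℂ} (S : Shape n ω e1 e2 s P Q H)
    (hall : ∀ i, dot (ℓ i) s = 0) : F1Type n ω := by
  obtain ⟨hO, c', hc', hw⟩ := infl_form G ht hall
  have hp := prod_ne G ht hall
  have hI0 : Infl (ev ω e1 e2 s e1) (ev ω e1 e2 s e2) ≠ 0 := by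
    intro h0
    rw [h0, wc_zero] at hw
    exact (mul_ne_zero (by simpa using hc') hp) hw.symm
  have eA : ev ω e1 e2 s e1 = d2 P - Polynomial.X * d2 H := by
    rw [← dh_ev3, S.E1, map_sub, map_mul, map_mul, dh_em, dh_em, dh_X1, dh_X2]; ring
  have eB : ev ω e1 e2 s e2 = d2 Q + Polynomial.C Polynomial.X * d2 H := by
    rw [← dh_ev3, S.E2, map_add, map_mul, map_mul, dh_em, dh_em, dh_X2, dh_X0]; ring
  have oyH : Ord 1 1 (1 + n) (Polynomial.X * d2 H) := (Ord_X 1 1).mul (Ord_d2 S.hH)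
  have oxH : Ord 1 1 (1 + n) (Polynomial.C Polynomial.X * d2 H) :=
    (Ord_CX 1 1).mul (Ord_d2 S.hH)
  have oA : Ord 1 1 n (ev ω e1 e2 s e1) := by
    rw [eA]; exact (Ord_d2 S.hP).sub (oyH.mono (by omega))
  have oB : Ord 1 1 n (ev ω e1 e2 s e2) := by
    rw [eB]; exact (Ord_d2 S.hQ).add (oxH.mono (by omega))
  have wA : wc 1 1 n (ev ω e1 e2 s e1) = d1 P := by
    rw [eA, wc_sub, wc_d2 S.hP, wc_eq_zero_of_Ord one_pos oyH (by omega), sub_zero]
  have wB : wc 1 1 n (ev ω e1 e2 s e2) = d1 Q := by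
    rw [eB, wc_add, wc_d2 S.hQ, wc_eq_zero_of_Ord one_pos oxH (by omega), add_zero]
  have hX : Polynomial.X * d1 P + d1 Q ≠ 0 := by
    intro h0
    have h1 : X 0 * P + X 1 * Q = 0 := by
      have hh : (X 0 * P + X 1 * Q).IsHomogeneous (1 + n) :=
        ((isHomogeneous_X ℂ 0).mul S.hP).add ((isHomogeneous_X ℂ 1).mul S.hQ)
      apply d1_inj hh
      rw [map_add, map_mul, map_mul, d1_X0, d1_X1, one_mul, h0]
    have h2 := congrArg d2 h1
    rw [map_add, map_mul, map_mul, d2_X0, d2_X1, map_zero] at h2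
    have h3 : Polynomial.C Polynomial.X * ev ω e1 e2 s e1 + Polynomial.X * ev ω e1 e2 s e2
        = 0 := by
      rw [eA, eB]; linear_combination h2
    have h4 := Infl_radial (ev ω e1 e2 s e1) (ev ω e1 e2 s e2)
    rw [h3, Dy_zero, Dx_zero] at h4
    have h5 : (Polynomial.C Polynomial.X : R2) ^ 2 *
        Infl (ev ω e1 e2 s e1) (ev ω e1 e2 s e2) = 0 := by
      rw [h4]; ring
    rcases mul_eq_zero.1 h5 with h6 | h6
    · have := pow_eq_zero_iff (two_ne_zero) |>.1 h6
      simp at this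
    · exact hI0 h6
  have hW := (wc_Infl n (by omega) _ _ oA oB).2
  rw [wc_eq_zero_of_Ord one_pos hO (by omega), wA, wB] at hW
  have hwr : Polynomial.derivative (d1 P) * d1 Q - d1 P * Polynomial.derivative (d1 Q) = 0 := by
    have h1 := neg_eq_zero.1 hW.symm
    exact (mul_eq_zero.1 h1).resolve_left hX
  obtain ⟨a0, b0, c0, d0, g, hd, hghom, hPg, hQg⟩ : ∃ (a0 b0 c0 d0 : ℂ)
      (g : MvPolynomial (Fin 2) ℂ), a0 * c0 + b0 * d0 = 1 ∧ g.IsHomogeneous n ∧
      P = C a0 * g ∧ Q = C b0 * g := by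
    by_cases hP0 : P = 0
    · exact ⟨0, 1, 0, 1, Q, by ring, S.hQ, by simp [hP0], by simp⟩
    · have ha : d1 P ≠ 0 := fun h => hP0 (d1_inj S.hP h)
      obtain ⟨c, hc⟩ := wronskian_prop (d1 P) (d1 Q) ha hwr
      refine ⟨1, c, 1, 0, P, by ring, S.hP, by simp, ?_⟩
      rw [← sub_eq_zero]
      apply d1_inj (S.hQ.sub (S.hP.C_mul c))
      rw [map_sub, map_mul, d1_C, hc, sub_self]
  have hg : g ≠ 0 := by
    intro h0
    apply hX
    rw [hPg, hQg, h0]
    simp
  rw [hPg, hQg] at S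
  obtain ⟨g', H', S', hg'⟩ := shape_change hghom S c0 d0 hd
  refine case2_core G hn ?_ (fun h => hg (hg' h)) S' hall
  have := tri_change e1 e2 s ![b0, -a0, 0] ![c0, d0, 0] ![0, 0, 1]
  simp only [Matrix.cons_val_zero, Matrix.cons_val_one, Matrix.cons_val, one_smul, zero_smul,
    zero_add, add_zero] at this
  rw [this]
  have h1 : tri ![b0, -a0, 0] ![c0, d0, 0] ![0, 0, 1] = 1 := by
    simp [tri]; linear_combination hd
  rw [h1, one_mul]
  exact ht

end Fin15

theorem finish {n : ℕ} {ω : Fin 3 → MvPolynomial (Fin 3) ℂ} {ℓ : Fin (3 * n) → Fin 3 → ℂ}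
    (G : GData n ω ℓ) (hn : 2 ≤ n) (hs : Star n ω) : HomogType n ω ∨ F1Type n ω := by
  obtain ⟨e1, e2, s, ht, hA, hB⟩ := hs
  obtain ⟨P, Q, H, S⟩ := Fin15.shape_of_ord G.fol e1 e2 s hA hB
  by_cases hall : ∀ i, dot (ℓ i) s = 0
  · exact Or.inr (Fin15.case2 G hn ht S hall)
  · push Not at hall
    obtain ⟨i, hi⟩ := hall
    exact Or.inl (Fin15.case1 ht S (ℓ i) (G.inv i) hi)

end

end Pool.Agent.Lib.MP_5bde83_ag
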