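import Pool.Agent.Lib.MP_5bde83_ag.Biv

/-!
Part B (flatness), basic definitions: evaluation of `R2 = ℂ[x][y]` in a field extension `E` of `ℂ`
and restriction to the line `y = p x - q`.
-/

namespace Pool.Agent.Lib.MP_5bde83_ag

open Polynomial

noncomputable section

/-- the vector field `Q ∂x + P ∂y` -/
def Xd (Q P h : R2) : R2 := Q * Dx h + P * Dy h

section

variable {E : Type} [Field E] [Algebra ℂ E]

/-- value of `h ∈ ℂ[x][y]` at the point `(x, y)` -/
def evE (x y : E) : R2 →+* E :=
  eval₂RingHom (eval₂RingHom (algebraMap ℂ E) x) y

/-- restriction of `h ∈ ℂ[x][y]` to the line `y = p x - q` -/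
def onLine (p q : E) : R2 →+* E[X] :=
  eval₂RingHom (mapRingHom (algebraMap ℂ E)) (C p * X - C q)

@[simp] theorem evE_X (x y : E) : evE x y X = y := by simp [evE]
@[simp] theorem evE_CX (x y : E) : evE x y (C X) = x := by simp [evE]
@[simp] theorem evE_CC (x y : E) (c : ℂ) : evE x y (C (C c)) = algebraMap ℂ E c := by simp [evE]
theorem evE_C (x y : E) (a : ℂ[X]) : evE x y (C a) = aeval x a := by
  simp [evE, aeval_def]

@[simp] theorem onLine_X (p q : E) : onLine p q X = C p * X - C q := by simp [onLine]
@[simp] theorem onLine_CX (p q : E) : onLine p q (C X) = X := by simp [onLine]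
theorem onLine_C (p q : E) (a : ℂ[X]) : onLine p q (C a) = a.map (algebraMap ℂ E) := by
  simp [onLine]

theorem onLine_eval (p q x : E) (h : R2) : (onLine p q h).eval x = evE x (p * x - q) h := by
  have : (evalRingHom x).comp (onLine p q) = evE x (p * x - q) := by
    apply Polynomial.ringHom_ext'
    · apply Polynomial.ringHom_ext'
      · ext c
        simp [onLine, evE]
      · simp [onLine, evE]
    · simp [onLine, evE]
  rw [← this]
  simp

/-- chain rule for the restriction to the line -/
theorem onLine_derivative (p q : E) (h : R2) :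
    derivative (onLine p q h) = onLine p q (Dx h) + C p * onLine p q (Dy h) := by
  induction h using Polynomial.induction_on' with
  | add f g hf hg => rw [map_add, derivative_add, hf, hg, Dx_add, Dy_add, map_add, map_add]; ring
  | monomial j a =>
    rw [← C_mul_X_pow_eq_monomial]
    induction j with
    | zero =>
      simp only [pow_zero, mul_one, Dx_C, Dy_C, map_zero, mul_zero, add_zero, onLine_C]
      rw [derivative_map]
    | succ j ih =>
      have h1 : derivative (onLine p q (X : R2)) = C p := by
        rw [onLine_X]; simp
      rw [pow_succ, ← mul_assoc, map_mul, derivative_mul, ih, Dx_mul (C a * X ^ j) X,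
        Dy_mul (C a * X ^ j) X, Dx_X, Dy_X, h1, map_add, map_add]
      simp only [map_mul, map_zero, map_one, mul_zero, mul_one]
      ring

/-- chain rule for a derivation -/
theorem deriv_evE (d : Derivation ℂ E E) (x y : E) (h : R2) :
    d (evE x y h) = evE x y (Dx h) * d x + evE x y (Dy h) * d y := by
  induction h using Polynomial.induction_on' with
  | add f g hf hg => rw [map_add, map_add, hf, hg, Dx_add, Dy_add, map_add, map_add]; ring
  | monomial j a =>
    rw [← C_mul_X_pow_eq_monomial]
    induction j with
    | zero =>
      simp only [pow_zero, mul_one, Dx_C, Dy_C, map_zero, evE_C, add_zero, zero_mul]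
      rw [Derivation.map_aeval]
      simp
    | succ j ih =>
      rw [pow_succ, ← mul_assoc, map_mul, Derivation.leibniz, ih, Dx_mul (C a * X ^ j) X,
        Dy_mul (C a * X ^ j) X, Dx_X, Dy_X]
      simp only [map_add, map_mul, evE_X, map_zero, map_one, mul_zero, add_zero, mul_one,
        smul_eq_mul]
      ring

end

end

end Pool.Agent.Lib.MP_5bde83_ag
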