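import Pool.Agent.Lib.MP_5bde83_ag.FlatCore
import Pool.Agent.Lib.MP_5bde83_ag.ConvG
import Pool.Agent.Lib.MP_5bde83_ag.DegApi

/-!
Part B (flatness): the core data in a frame whose line at infinity is one of the invariant lines.
-/

namespace Pool.Agent.Lib.MP_5bde83_ag

open Polynomial

noncomputable section

variable {n : ℕ} {ω : Fin 3 → MvPolynomial (Fin 3) ℂ} {ℓ : Fin (3 * n) → Fin 3 → ℂ}

/-- the curve `G = 0` is invariant -/
def InvCurve (ω : Fin 3 → MvPolynomial (Fin 3) ℂ) (G : MvPolynomial (Fin 3) ℂ) : Prop :=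
  ∀ i j, G ∣ ω i * MvPolynomial.pderiv j G - ω j * MvPolynomial.pderiv i G

/-! ### The linear forms -/

/-- linear form -/
abbrev lf (l : Fin 3 → ℂ) : MvPolynomial (Fin 3) ℂ := ∑ j, MvPolynomial.C (l j) * MvPolynomial.X j

theorem aeval_lf (l e1 e2 s : Fin 3 → ℂ) :
    MvPolynomial.aeval (pt e1 e2 s) (lf l) = Lin (lc l e1 e2 s) := by
  have h1 : ∀ a : ℂ, MvPolynomial.aeval (pt e1 e2 s) (MvPolynomial.C a : MvPolynomial (Fin 3) ℂ) =
      C (C a) := by
    intro a
    rw [MvPolynomial.aeval_C]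
    rfl
  have h3 : ∀ j, MvPolynomial.aeval (pt e1 e2 s)
      (MvPolynomial.C (l j) * MvPolynomial.X j : MvPolynomial (Fin 3) ℂ) =
      C (C (l j)) * (C (C (e1 j)) * C X + C (C (e2 j)) * X + C (C (s j))) := by
    intro j
    rw [map_mul, h1, MvPolynomial.aeval_X]
    rfl
  rw [lf, map_sum, Finset.sum_congr rfl fun j _ => h3 j]
  simp only [Lin, lc, dot, Fin.sum_univ_three]
  simp only [Matrix.cons_val_zero, Matrix.cons_val_one, Matrix.cons_val, map_add, map_mul]
  ring

theorem hom_quot {k m : ℕ} {a b : MvPolynomial (Fin 3) ℂ} (ha : a.IsHomogeneous k) (ha0 : a ≠ 0)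
    (hab : (a * b).IsHomogeneous (k + m)) : b.IsHomogeneous m := by
  classical
  by_cases hb : b = 0
  · subst hb; exact MvPolynomial.isHomogeneous_zero _ _ _
  -- compare homogeneous components
  have key : ∀ j, j ≠ m → MvPolynomial.homogeneousComponent j b = 0 := by
    intro j hj
    have h1 : MvPolynomial.homogeneousComponent (k + j) (a * b) =
        a * MvPolynomial.homogeneousComponent j b := by
      conv_lhs => rw [← MvPolynomial.sum_homogeneousComponent b]
      rw [Finset.mul_sum, map_sum]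
      have h2 : ∀ i, MvPolynomial.homogeneousComponent (k + j)
          (a * MvPolynomial.homogeneousComponent i b) =
          if i = j then a * MvPolynomial.homogeneousComponent i b else 0 := by
        intro i
        have hh : (a * MvPolynomial.homogeneousComponent i b).IsHomogeneous (k + i) :=
          ha.mul (MvPolynomial.homogeneousComponent_isHomogeneous i b)
        rw [MvPolynomial.homogeneousComponent_of_mem hh]
        by_cases hij : i = j
        · subst hij; simp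
        · rw [if_neg (by omega), if_neg hij]
      rw [Finset.sum_congr rfl fun i _ => h2 i, Finset.sum_ite_eq']
      split_ifs with hmem
      · rfl
      · rw [MvPolynomial.homogeneousComponent_eq_zero, mul_zero]
        rw [Finset.mem_range] at hmem
        omega
    rw [MvPolynomial.homogeneousComponent_of_mem hab, if_neg (by omega)] at h1
    exact (mul_eq_zero.1 h1.symm).resolve_left ha0
  have hb2 : b = MvPolynomial.homogeneousComponent m b := by
    conv_lhs => rw [← MvPolynomial.sum_homogeneousComponent b]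
    by_cases hm : m ∈ Finset.range (b.totalDegree + 1)
    · rw [Finset.sum_eq_single m (fun j _ hj => key j hj) (fun h => absurd hm h)]
    · rw [Finset.sum_eq_zero, MvPolynomial.homogeneousComponent_eq_zero]
      · rw [Finset.mem_range] at hm; omega
      · intro j hj
        apply key
        rintro rfl
        exact hm hj
  rw [hb2]
  exact MvPolynomial.homogeneousComponent_isHomogeneous m b

/-- `ω(w)` is divisible by an invariant linear form vanishing on `w` -/
theorem inv_dvd (h : IsFol n ω) (l w : Fin 3 → ℂ) (hl : InvLine ω l) (hw : dot l w = 0) :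
    ∃ G : MvPolynomial (Fin 3) ℂ, G.IsHomogeneous n ∧
      ∑ j, MvPolynomial.C (w j) * ω j = lf l * G := by
  have hdvd : lf l ∣ ∑ j, MvPolynomial.C (w j) * ω j := by
    refine dvd_of_vanish l hl.1 _ fun p hp => ?_
    obtain ⟨c, hc⟩ := hl.2 p hp
    rw [map_sum]
    have : ∀ j, MvPolynomial.eval p (MvPolynomial.C (w j) * ω j) = c * (l j * w j) := by
      intro j
      rw [map_mul, MvPolynomial.eval_C]
      have : MvPolynomial.eval p (ω j) = c * l j := congrFun hc j
      rw [this]; ring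
    rw [Finset.sum_congr rfl fun j _ => this j, ← Finset.mul_sum]
    have : ∑ j, l j * w j = 0 := hw
    rw [this, mul_zero]
  obtain ⟨G, hG⟩ := hdvd
  refine ⟨G, ?_, hG⟩
  have h1 : (∑ j, MvPolynomial.C (w j) * ω j).IsHomogeneous (1 + n) := by
    refine MvPolynomial.IsHomogeneous.sum _ _ _ fun j _ => ?_
    have := (MvPolynomial.isHomogeneous_C (Fin 3) (w j)).mul (h.hom j)
    rw [zero_add, add_comm] at this
    exact this
  rw [hG] at h1
  exact hom_quot (lform_hom l) (lform_ne_zero l hl.1) h1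

theorem ev_eq_aeval (e1 e2 s w : Fin 3 → ℂ) :
    ev ω e1 e2 s w = MvPolynomial.aeval (pt e1 e2 s) (∑ j, MvPolynomial.C (w j) * ω j) := by
  rw [map_sum]
  unfold ev
  refine Finset.sum_congr rfl fun j _ => ?_
  rw [map_mul, MvPolynomial.aeval_C]
  rfl

theorem ev_dvd (h : IsFol n ω) (l e1 e2 s w : Fin 3 → ℂ) (hl : InvLine ω l) (hw : dot l w = 0) :
    ∃ g : R2, Deg n g ∧ ev ω e1 e2 s w = Lin (lc l e1 e2 s) * g := by
  obtain ⟨G, hG, hW⟩ := inv_dvd h l w hl hw
  refine ⟨MvPolynomial.aeval (pt e1 e2 s) G, Deg.hom' e1 e2 s hG, ?_⟩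
  rw [ev_eq_aeval, hW, map_mul, aeval_lf]

/-- degree drop, if the line at infinity is invariant -/
theorem deg_of_inv (h : IsFol n ω) (l e1 e2 s : Fin 3 → ℂ) (hl : InvLine ω l) (h1 : dot l e1 = 0)
    (h2 : dot l e2 = 0) (w : Fin 3 → ℂ) (hw : dot l w = 0) : Deg n (ev ω e1 e2 s w) := by
  obtain ⟨g, hg, he⟩ := ev_dvd h l e1 e2 s w hl hw
  rw [he]
  have : Lin (lc l e1 e2 s) = C (C (dot l s)) := by
    simp [Lin, lc, h1, h2]
  rw [this]
  exact hg.cc_mul' _

/-! ### Linear algebra in `ℂ^3` -/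

theorem tri_decomp (e1 e2 s p : Fin 3 → ℂ) (ht : tri e1 e2 s ≠ 0) :
    ∃ a b c : ℂ, p = a • e1 + b • e2 + c • s := by
  refine ⟨tri p e2 s / tri e1 e2 s, tri e1 p s / tri e1 e2 s, tri e1 e2 p / tri e1 e2 s, ?_⟩
  funext j
  simp only [Pi.add_apply, Pi.smul_apply, smul_eq_mul]
  field_simp
  simp only [tri]
  fin_cases j <;> simp <;> ring

theorem dot_basis_zero (e1 e2 s w : Fin 3 → ℂ) (ht : tri e1 e2 s ≠ 0) (h1 : dot w e1 = 0)
    (h2 : dot w e2 = 0) (h3 : dot w s = 0) : w = 0 := by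
  have key : ∀ j, tri e1 e2 s * w j = 0 := by
    intro j
    simp only [dot, Fin.sum_univ_three] at h1 h2 h3
    simp only [tri]
    fin_cases j
    · simp only [Fin.zero_eta]
      linear_combination (e2 1 * s 2 - e2 2 * s 1) * h1 + (s 1 * e1 2 - s 2 * e1 1) * h2 +
        (e1 1 * e2 2 - e1 2 * e2 1) * h3
    · simp only [Fin.mk_one]
      linear_combination (e2 2 * s 0 - e2 0 * s 2) * h1 + (s 2 * e1 0 - s 0 * e1 2) * h2 +
        (e1 2 * e2 0 - e1 0 * e2 2) * h3
    · simp only [Fin.reduceFinMk]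
      linear_combination (e2 0 * s 1 - e2 1 * s 0) * h1 + (s 0 * e1 1 - s 1 * e1 0) * h2 +
        (e1 0 * e2 1 - e1 1 * e2 0) * h3
  funext j
  exact (mul_eq_zero.1 (key j)).resolve_left ht

theorem dot_s_ne {l e1 e2 s : Fin 3 → ℂ} (ht : tri e1 e2 s ≠ 0) (hl : l ≠ 0) (h1 : dot l e1 = 0)
    (h2 : dot l e2 = 0) : dot l s ≠ 0 := fun h3 => hl (dot_basis_zero e1 e2 s l ht h1 h2 h3)

theorem dot_add_smul (l u v w : Fin 3 → ℂ) (a b c : ℂ) :
    dot l (a • u + b • v + c • w) = a * dot l u + b * dot l v + c * dot l w := by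
  simp only [dot, Fin.sum_univ_three, Pi.add_apply, Pi.smul_apply, smul_eq_mul]
  ring

/-! ### Cofactors of lines -/

theorem phi_Lin (u : Fin 3 → ℂ) :
    phi 1 1 (Lin u) = C (C (u 0) * X + C (u 1)) * X + C (C (u 2)) := by
  simp only [Lin, map_add, map_mul, phi_CC, phi_CX, phi_X]
  ring

theorem one_le_phi_Lin {u : Fin 3 → ℂ} (h : u 0 ≠ 0 ∨ u 1 ≠ 0) :
    1 ≤ (phi 1 1 (Lin u)).natDegree := by
  apply le_natDegree_of_ne_zero
  rw [phi_Lin]
  simp only [coeff_add, coeff_mul_X, coeff_C_zero, coeff_C_succ, add_zero]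
  intro h0
  have h1 := congrArg (fun p : ℂ[X] => p.coeff 1) h0
  have h2 := congrArg (fun p : ℂ[X] => p.coeff 0) h0
  simp at h1 h2
  rcases h with h | h
  · exact h h1
  · exact h h2

theorem Lin_ne_zero {u : Fin 3 → ℂ} (h : u 0 ≠ 0 ∨ u 1 ≠ 0) : Lin u ≠ 0 := by
  intro h0
  have := one_le_phi_Lin h
  rw [h0, map_zero] at this
  simp at this

theorem Xd_Lin (P Q : R2) (u : Fin 3 → ℂ) :
    Xd Q P (Lin u) = C (C (u 0)) * Q + C (C (u 1)) * P := by
  unfold Xd Lin
  rw [Dx_add, Dx_add, Dy_add, Dy_add, Dx_CC_mul, Dx_CC_mul, Dx_CC, Dx_CX, Dx_X, Dy_C_mul, Dy_C_mul,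
    Dy_C, Dy_C, Dy_X]
  ring

theorem lin_cof (h : IsFol n ω) (hn : 1 ≤ n) (l0 l e1 e2 s : Fin 3 → ℂ) (hl0 : InvLine ω l0)
    (hl : InvLine ω l) (h1 : dot l0 e1 = 0) (h2 : dot l0 e2 = 0) :
    ∃ k : R2, Deg (n - 1) k ∧ Xd (ev ω e1 e2 s e2) (-ev ω e1 e2 s e1) (Lin (lc l e1 e2 s)) =
      k * Lin (lc l e1 e2 s) := by
  have hX : Xd (ev ω e1 e2 s e2) (-ev ω e1 e2 s e1) (Lin (lc l e1 e2 s)) =
      ev ω e1 e2 s ((dot l e1) • e2 + (-(dot l e2)) • e1) := by
    rw [Xd_Lin, ev_add, ev_smul, ev_smul]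
    simp only [lc, Matrix.cons_val_zero, Matrix.cons_val_one, C_neg]
    ring
  by_cases hc : dot l e1 ≠ 0 ∨ dot l e2 ≠ 0
  · have hw : dot l ((dot l e1) • e2 + (-(dot l e2)) • e1) = 0 := by
      simp only [dot, Fin.sum_univ_three, Pi.add_apply, Pi.smul_apply, smul_eq_mul]
      ring
    have hw0 : dot l0 ((dot l e1) • e2 + (-(dot l e2)) • e1) = 0 := by
      have : dot l0 ((dot l e1) • e2 + (-(dot l e2)) • e1) =
          dot l e1 * dot l0 e2 - dot l e2 * dot l0 e1 := by
        simp only [dot, Fin.sum_univ_three, Pi.add_apply, Pi.smul_apply, smul_eq_mul]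
        ring
      rw [this, h1, h2]; ring
    obtain ⟨g, -, hg2⟩ := ev_dvd h l e1 e2 s _ hl hw
    have hd := deg_of_inv h l0 e1 e2 s hl0 h1 h2 _ hw0
    rw [hg2] at hd
    refine ⟨g, ?_, ?_⟩
    · have hu : (lc l e1 e2 s) 0 ≠ 0 ∨ (lc l e1 e2 s) 1 ≠ 0 := by simpa [lc] using hc
      have hd' : Deg (1 + (n - 1)) (Lin (lc l e1 e2 s) * g) := hd.mono' (by omega)
      exact Deg.of_mul' hd' (Lin_ne_zero hu) (one_le_phi_Lin hu)
    · rw [hX, hg2, mul_comm]
  · push Not at hc
    refine ⟨0, Deg.zero' _, ?_⟩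
    rw [hX, hc.1, hc.2]
    simp [ev]

/-! ### The line at infinity is not a common zero -/

/-- if the restriction of `F` to the chart has degree `< m` then `F` vanishes at infinity -/
theorem lf_dvd_of_deg {m : ℕ} (l e1 e2 s : Fin 3 → ℂ) (ht : tri e1 e2 s ≠ 0) (hl : l ≠ 0)
    (h1 : dot l e1 = 0) (h2 : dot l e2 = 0) {F : MvPolynomial (Fin 3) ℂ}
    (hF : F.IsHomogeneous (m + 1)) (hd : Deg m (MvPolynomial.aeval (pt e1 e2 s) F)) :
    lf l ∣ F := by
  obtain ⟨-, hR2, hR3⟩ := evAux_homog e1 e2 s hF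
  -- values at `e1 + y e2`
  have hval : ∀ y : ℂ, MvPolynomial.eval (fun j => y * e2 j + e1 j) F = 0 := by
    intro y
    have hz : ∀ j, ((MvPolynomial.aeval (pt s e2 e1) F : R2).coeff j).coeff 0 = 0 := by
      intro j
      by_cases hj : j ≤ m + 1
      · rw [← hR3 (m + 1 - j) j 0 (by omega)]
        by_contra hne
        have := hd _ _ hne
        omega
      · by_contra hne
        have := hR2 _ _ hne
        omega
    let σ : R2 →+* ℂ := (evalRingHom y).comp (mapRingHom (evalRingHom (0 : ℂ)))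
    have hC : ∀ c : ℂ, σ (C (C c)) = algebraMap ℂ ℂ c := by
      intro c
      simp [σ]
    have h3 := evAux_hom σ hC s e2 e1 F
    have h4 : (fun j => σ (pt s e2 e1 j)) = fun j => y * e2 j + e1 j := by
      funext j
      simp [σ, pt]
      ring
    have h5 : (MvPolynomial.aeval (pt s e2 e1) F : R2).map (evalRingHom (0 : ℂ)) = 0 := by
      ext j
      rw [coeff_map, coe_evalRingHom, ← coeff_zero_eq_eval_zero, hz j, coeff_zero]
    have h6 : σ (MvPolynomial.aeval (pt s e2 e1) F) = 0 := by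
      show ((MvPolynomial.aeval (pt s e2 e1) F : R2).map (evalRingHom (0 : ℂ))).eval y = 0
      rw [h5, eval_zero]
    rw [h4] at h3
    rw [← MvPolynomial.coe_aeval_eq_eval]
    exact h3.symm.trans h6
  -- the linear form giving the coefficient of `e1`
  set a : Fin 3 → ℂ := ![e2 1 * s 2 - e2 2 * s 1, e2 2 * s 0 - e2 0 * s 2,
    e2 0 * s 1 - e2 1 * s 0] with ha
  have ha1 : dot a e1 = tri e1 e2 s := by
    simp only [dot, tri, Fin.sum_univ_three, ha, Matrix.cons_val_zero, Matrix.cons_val_one,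
      Matrix.cons_val]
    ring
  have ha2 : dot a e2 = 0 := by
    simp only [dot, Fin.sum_univ_three, ha, Matrix.cons_val_zero, Matrix.cons_val_one,
      Matrix.cons_val]
    ring
  have hdiv : lf l ∣ lf a * F := by
    refine dvd_of_vanish l hl _ fun p hp => ?_
    obtain ⟨α, β, γ, hp2⟩ := tri_decomp e1 e2 s p ht
    have hγ : γ = 0 := by
      rw [hp2, dot_add_smul, h1, h2] at hp
      have := dot_s_ne ht hl h1 h2
      have h7 : γ * dot l s = 0 := by linear_combination hp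
      exact (mul_eq_zero.1 h7).resolve_right this
    rw [map_mul]
    by_cases hα : α = 0
    · have : dot a p = 0 := by
        rw [hp2, dot_add_smul, ha2, hγ, hα]; ring
      rw [eval_lform, this, zero_mul]
    · have h8 : p = fun j => α * ((β / α) * e2 j + e1 j) := by
        funext j
        rw [hp2, hγ]
        simp only [Pi.add_apply, Pi.smul_apply, smul_eq_mul]
        field_simp
        ring
      have h9 : MvPolynomial.eval p F = 0 := by
        have h11 : MvPolynomial.eval (fun j => α * ((β / α) * e2 j + e1 j)) F =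
            α ^ (m + 1) * MvPolynomial.eval (fun j => (β / α) * e2 j + e1 j) F := by
          rw [MvPolynomial.eval_eq', MvPolynomial.eval_eq', Finset.mul_sum]
          refine Finset.sum_congr rfl fun d hd => ?_
          have hdeg : d 0 + d 1 + d 2 = m + 1 := by
            have h1 := hF (MvPolynomial.mem_support_iff.1 hd)
            rw [Finsupp.weight_apply, Finsupp.sum_fintype _ _ (by simp),
              Fin.sum_univ_three] at h1
            simpa using h1
          rw [Fin.prod_univ_three, Fin.prod_univ_three, mul_pow, mul_pow, mul_pow, ← hdeg,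
            pow_add, pow_add]
          ring
        rw [h8, h11, hval, mul_zero]
      rw [h9, mul_zero]
  rcases (lform_irr l hl).prime.dvd_or_dvd hdiv with h3 | h3
  · exfalso
    obtain ⟨G, hG⟩ := h3
    have h4 := congrArg (MvPolynomial.eval e1) hG
    rw [map_mul, eval_lform, eval_lform, ha1, h1, zero_mul] at h4
    exact ht h4
  · exact h3

theorem aeval_comb (e1 e2 s : Fin 3 → ℂ) (w : Fin 3 → ℂ) {m : ℕ} (ht : tri e1 e2 s ≠ 0)
    (h1 : Deg m (ev ω e1 e2 s e1)) (h2 : Deg m (ev ω e1 e2 s e2)) (h3 : Deg m (ev ω e1 e2 s s)) :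
    Deg m (ev ω e1 e2 s w) := by
  obtain ⟨a, b, c, rfl⟩ := tri_decomp e1 e2 s w ht
  rw [ev_add, ev_add, ev_smul, ev_smul, ev_smul]
  exact ((h1.cc_mul' a).add' (h2.cc_mul' b)).add' (h3.cc_mul' c)

theorem not_deg_s (h : IsFol n ω) (l e1 e2 s : Fin 3 → ℂ) (ht : tri e1 e2 s ≠ 0) (hl : InvLine ω l)
    (h1 : dot l e1 = 0) (h2 : dot l e2 = 0) : ¬ Deg n (ev ω e1 e2 s s) := by
  intro hs
  have hA := deg_of_inv h l e1 e2 s hl h1 h2 e1 h1
  have hB := deg_of_inv h l e1 e2 s hl h1 h2 e2 h2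
  refine (lform_irr l hl.1).not_isUnit (h.cop _ fun j => ?_)
  refine lf_dvd_of_deg l e1 e2 s ht hl.1 h1 h2 (h.hom j) ?_
  have hj := aeval_comb (ω := ω) e1 e2 s (Pi.single j 1) ht hA hB hs
  have : ev ω e1 e2 s (Pi.single j 1) = MvPolynomial.aeval (pt e1 e2 s) (ω j) := by
    unfold ev
    rw [Finset.sum_eq_single j]
    · simp
    · intro i _ hij
      simp [hij]
    · simp
  rw [← this]
  exact hj

theorem not_deg_AB (h : IsFol n ω) (hn : 1 ≤ n) (l e1 e2 s : Fin 3 → ℂ) (ht : tri e1 e2 s ≠ 0)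
    (hl : InvLine ω l) (h1 : dot l e1 = 0) (h2 : dot l e2 = 0)
    (hA : Deg (n - 1) (ev ω e1 e2 s e1)) (hB : Deg (n - 1) (ev ω e1 e2 s e2)) : False := by
  apply not_deg_s h l e1 e2 s ht hl h1 h2
  have he := ev_euler h.euler e1 e2 s
  have : ev ω e1 e2 s s = -(C X * ev ω e1 e2 s e1 + X * ev ω e1 e2 s e2) := by
    linear_combination he
  rw [this]
  have hx : Deg 1 (C X : R2) := by
    rw [Deg_iff, phi_CX, pow_one]
    exact (natDegree_C_mul_le _ _).trans natDegree_X_le
  have hy : Deg 1 (X : R2) := by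
    rw [Deg_iff, phi_X, pow_one]
    exact natDegree_X_le
  exact (((hx.mul' hA).add' (hy.mul' hB)).neg').mono' (by omega)

/-! ### The inflection polynomial is not zero, coprimality -/

theorem Lin_lc_ne_zero (l e1 e2 s : Fin 3 → ℂ) (ht : tri e1 e2 s ≠ 0) (hl : l ≠ 0) :
    Lin (lc l e1 e2 s) ≠ 0 := by
  by_cases hc : dot l e1 ≠ 0 ∨ dot l e2 ≠ 0
  · exact Lin_ne_zero (by simpa [lc] using hc)
  · push Not at hc
    have h3 := dot_s_ne ht hl hc.1 hc.2
    have : Lin (lc l e1 e2 s) = C (C (dot l s)) := by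
      simp [Lin, lc, hc.1, hc.2]
    rw [this]
    exact C_ne_zero.2 (C_ne_zero.2 h3)

theorem Infl_ne_zero' (G : GData n ω ℓ) (e1 e2 s : Fin 3 → ℂ) (ht : tri e1 e2 s ≠ 0) :
    Infl (ev ω e1 e2 s e1) (ev ω e1 e2 s e2) ≠ 0 := by
  obtain ⟨c, hc, hI⟩ := G.infl
  rw [hI]
  refine mul_ne_zero (C_ne_zero.2 (C_ne_zero.2 (mul_ne_zero hc (pow_ne_zero 2 ht))))
    (Finset.prod_ne_zero_iff.2 fun i _ => Lin_lc_ne_zero _ _ _ _ ht (G.inv i).1)

theorem isUnit_of_phi {f : R2} (h : f ≠ 0) (hd : (phi 1 1 f).natDegree = 0) : IsUnit f := by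
  have h1 : Deg 0 f := Deg_iff.2 hd.le
  obtain ⟨c, rfl⟩ := h1.eq_cc'
  have hc : c ≠ 0 := by rintro rfl; simp at h
  exact (isUnit_C.2 (isUnit_C.2 (isUnit_iff_ne_zero.2 hc)))

/-- no common factor of the components in the chart -/
theorem coprime_AB (G : GData n ω ℓ) (l e1 e2 s : Fin 3 → ℂ) (ht : tri e1 e2 s ≠ 0)
    (hl : l ≠ 0) (h1 : dot l e1 = 0) (h2 : dot l e2 = 0) (g : R2)
    (hgA : g ∣ ev ω e1 e2 s e1) (hgB : g ∣ ev ω e1 e2 s e2) : IsUnit g := by
  by_contra hgu
  have hI0 := Infl_ne_zero' G e1 e2 s ht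
  have hg0 : g ≠ 0 := by
    rintro rfl
    apply hI0
    rw [zero_dvd_iff.1 hgA, zero_dvd_iff.1 hgB]
    simp [Infl]
  obtain ⟨g', hg', hgg⟩ := WfDvdMonoid.exists_irreducible_factor hgu hg0
  have hA := hgg.trans hgA
  have hB := hgg.trans hgB
  have hI : g' ∣ Infl (ev ω e1 e2 s e1) (ev ω e1 e2 s e2) := by
    unfold Infl
    exact dvd_sub (hA.mul_right _) (hB.mul_right _)
  obtain ⟨c, hc, hIe⟩ := G.infl
  rw [hIe] at hI
  have hp := hg'.prime
  rcases hp.dvd_or_dvd hI with h3 | h3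
  · exact hg'.not_isUnit (isUnit_of_dvd_unit h3 (isUnit_C.2 (isUnit_C.2
      (isUnit_iff_ne_zero.2 (mul_ne_zero hc (pow_ne_zero 2 ht))))))
  obtain ⟨i, -, h4⟩ := (hp.dvd_finsetProd_iff _).1 h3
  have hli := G.inv i
  -- the line is not the line at infinity
  have hcc : dot (ℓ i) e1 ≠ 0 ∨ dot (ℓ i) e2 ≠ 0 := by
    by_contra hcc
    push Not at hcc
    have h5 := dot_s_ne ht hli.1 hcc.1 hcc.2
    have : Lin (lc (ℓ i) e1 e2 s) = C (C (dot (ℓ i) s)) := by
      simp [Lin, lc, hcc.1, hcc.2]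
    rw [this] at h4
    exact hg'.not_isUnit (isUnit_of_dvd_unit h4 (isUnit_C.2 (isUnit_C.2
      (isUnit_iff_ne_zero.2 h5))))
  have hLi : Lin (lc (ℓ i) e1 e2 s) ∣ g' := by
    obtain ⟨u, hu⟩ := h4
    have hu0 : u ≠ 0 := by
      rintro rfl
      rw [mul_zero] at hu
      exact Lin_lc_ne_zero _ _ _ _ ht hli.1 hu
    have hdeg : (phi 1 1 (Lin (lc (ℓ i) e1 e2 s))).natDegree ≤ 1 := by
      rw [phi_Lin]
      refine (natDegree_add_le _ _).trans (max_le ?_ ?_)
      · exact (natDegree_C_mul_le _ _).trans natDegree_X_le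
      · rw [natDegree_C]; exact Nat.zero_le _
    rw [hu, map_mul, natDegree_mul (phi_ne_zero hg'.ne_zero) (phi_ne_zero hu0)] at hdeg
    have hgd : (phi 1 1 g').natDegree ≠ 0 := fun h0 =>
      hg'.not_isUnit (isUnit_of_phi hg'.ne_zero h0)
    have huu : IsUnit u := isUnit_of_phi hu0 (by omega)
    rw [hu]
    obtain ⟨v, hv⟩ := huu.exists_right_inv
    exact ⟨v, by rw [mul_assoc, hv, mul_one]⟩
  have hAi := hLi.trans hA
  have hBi := hLi.trans hB
  -- `ω` vanishes on the line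
  have hvan : ∀ x y : ℂ, dot (ℓ i) (x • e1 + y • e2 + s) = 0 →
      evv ω (x • e1 + y • e2 + s) = 0 := by
    intro x y hxy
    have hLv : ((Lin (lc (ℓ i) e1 e2 s)).eval (C y)).eval x = 0 := by
      have h7 : dot (ℓ i) (x • e1 + y • e2 + s) =
          dot (ℓ i) e1 * x + dot (ℓ i) e2 * y + dot (ℓ i) s := by
        simp only [dot, Fin.sum_univ_three, Pi.add_apply, Pi.smul_apply, smul_eq_mul]
        ring
      rw [h7] at hxy
      rw [← hxy]
      simp [Lin, lc]
    have hz : ∀ w, Lin (lc (ℓ i) e1 e2 s) ∣ ev ω e1 e2 s w →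
        dot (evv ω (x • e1 + y • e2 + s)) w = 0 := by
      rintro w ⟨q, hq⟩
      rw [← ev_eval, hq, eval_mul, eval_mul, hLv, zero_mul]
    refine dot_basis_zero e1 e2 s _ ht (hz _ hAi) (hz _ hBi) (hz _ ?_)
    have he := ev_euler G.fol.euler e1 e2 s
    have : ev ω e1 e2 s s = -(C X * ev ω e1 e2 s e1 + X * ev ω e1 e2 s e2) := by
      linear_combination he
    rw [this]
    exact (dvd_neg).2 (dvd_add (hAi.mul_left _) (hBi.mul_left _))
  refine (lform_irr (ℓ i) hli.1).not_isUnit (G.fol.cop _ fun j => ?_)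
  have hdiv : lf (ℓ i) ∣ lf l * ω j := by
    refine dvd_of_vanish (ℓ i) hli.1 _ fun p hp => ?_
    obtain ⟨α, β, γ, hp2⟩ := tri_decomp e1 e2 s p ht
    rw [map_mul, eval_lform]
    by_cases hγ : γ = 0
    · have : dot l p = 0 := by
        rw [hp2, dot_add_smul, h1, h2, hγ]; ring
      rw [this, zero_mul]
    · have h8 : p = fun j => γ * ((α / γ) • e1 + (β / γ) • e2 + s) j := by
        funext j
        rw [hp2]
        simp only [Pi.add_apply, Pi.smul_apply, smul_eq_mul]
        field_simp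
      have h9 : dot (ℓ i) ((α / γ) • e1 + (β / γ) • e2 + s) = 0 := by
        rw [h8] at hp
        have : γ * dot (ℓ i) ((α / γ) • e1 + (β / γ) • e2 + s) = 0 := by
          rw [← hp]
          simp only [dot, Fin.sum_univ_three]
          ring
        exact (mul_eq_zero.1 this).resolve_left hγ
      have h10 := congrFun (hvan _ _ h9) j
      have h11 : MvPolynomial.eval p (ω j) = 0 := by
        have h12 : MvPolynomial.eval (fun j => γ * ((α / γ) • e1 + (β / γ) • e2 + s) j) (ω j) =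
            γ ^ (n + 1) * MvPolynomial.eval ((α / γ) • e1 + (β / γ) • e2 + s) (ω j) := by
          rw [MvPolynomial.eval_eq', MvPolynomial.eval_eq', Finset.mul_sum]
          refine Finset.sum_congr rfl fun d hd => ?_
          have hdeg : d 0 + d 1 + d 2 = n + 1 := by
            have h1 := (G.fol.hom j) (MvPolynomial.mem_support_iff.1 hd)
            rw [Finsupp.weight_apply, Finsupp.sum_fintype _ _ (by simp),
              Fin.sum_univ_three] at h1
            simpa using h1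
          rw [Fin.prod_univ_three, Fin.prod_univ_three, mul_pow, mul_pow, mul_pow, ← hdeg,
            pow_add, pow_add]
          ring
        rw [h8, h12]
        have : MvPolynomial.eval ((α / γ) • e1 + (β / γ) • e2 + s) (ω j) = 0 := h10
        rw [this, mul_zero]
      rw [h11, mul_zero]
  rcases (lform_irr _ hli.1).prime.dvd_or_dvd hdiv with h5 | h5
  · exfalso
    obtain ⟨q, hq⟩ := h5
    have h6 : ∀ v, dot (ℓ i) v = 0 → dot l v = 0 := by
      intro v hv
      have := congrArg (MvPolynomial.eval v) hq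
      rw [map_mul, eval_lform, eval_lform, hv, zero_mul] at this
      exact this
    have hls := dot_s_ne ht hl h1 h2
    rcases hcc with hcc | hcc
    · have h7 := h6 (dot (ℓ i) e1 • s + (-(dot (ℓ i) s)) • e1 + (0 : ℂ) • s) (by
        rw [dot_add_smul]; ring)
      rw [dot_add_smul, h1] at h7
      have : dot (ℓ i) e1 * dot l s = 0 := by linear_combination h7
      rcases mul_eq_zero.1 this with h | h
      · exact hcc h
      · exact hls h
    · have h7 := h6 (dot (ℓ i) e2 • s + (-(dot (ℓ i) s)) • e2 + (0 : ℂ) • s) (by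
        rw [dot_add_smul]; ring)
      rw [dot_add_smul, h2] at h7
      have : dot (ℓ i) e2 * dot l s = 0 := by linear_combination h7
      rcases mul_eq_zero.1 this with h | h
      · exact hcc h
      · exact hls h
  · exact h5

/-! ### The core data -/

theorem Xd_add (P Q f g : R2) : Xd Q P (f + g) = Xd Q P f + Xd Q P g := xd_add P Q f g

theorem Xd_mul (P Q f g : R2) : Xd Q P (f * g) = Xd Q P f * g + f * Xd Q P g := xd_mul P Q f g

theorem Xd_sub (P Q f g : R2) : Xd Q P (f - g) = Xd Q P f - Xd Q P g := xd_sub P Q f g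

/-- division with control of the degree, two factors -/
theorem deg_quot {n a : ℕ} {A B L Y Z : R2} (hA : ¬ (Deg (n - 1) A ∧ Deg (n - 1) B))
    (hn : 1 ≤ n) (hY : L * A = Y) (hZ : L * B = Z)
    (hYd : Deg (n + a) Y) (hZd : Deg (n + a) Z) : Deg a L := by
  have key : ∀ {A' Y' : R2}, ¬ Deg (n - 1) A' → L * A' = Y' → Deg (n + a) Y' → Deg a L := by
    intro A' Y' h1 h2 h3
    rw [← h2, mul_comm] at h3
    have hA0 : A' ≠ 0 := by
      rintro rfl
      exact h1 (Deg.zero' _)
    refine Deg.of_mul' h3 hA0 ?_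
    by_contra hlt
    exact h1 (Deg_iff.2 (by omega))
  by_cases h1 : Deg (n - 1) A
  · exact key (fun h2 => hA ⟨h1, h2⟩) hZ hZd
  · exact key h1 hY hYd

/-- the cofactor of a curve -/
theorem curve_cof (h : IsFol n ω) (hn : 1 ≤ n) (l e1 e2 s : Fin 3 → ℂ) (hl : InvLine ω l)
    (h1 : dot l e1 = 0) (h2 : dot l e2 = 0)
    (F : MvPolynomial (Fin 3) ℂ) (hF : InvCurve ω F) :
    ∃ κ : R2, Deg (n - 1) κ ∧
      Xd (ev ω e1 e2 s e2) (-ev ω e1 e2 s e1) (MvPolynomial.aeval (pt e1 e2 s) F) =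
        κ * MvPolynomial.aeval (pt e1 e2 s) F := by
  have hP : Deg n (-ev ω e1 e2 s e1) := (deg_of_inv h l e1 e2 s hl h1 h2 e1 h1).neg'
  have hQ := deg_of_inv h l e1 e2 s hl h1 h2 e2 h2
  set f : R2 := MvPolynomial.aeval (pt e1 e2 s) F with hf
  by_cases hf0 : f = 0
  · refine ⟨0, Deg.zero' _, ?_⟩
    rw [hf0]
    simp [Xd, Dx_zero, Dy_zero]
  have hdvd : f ∣ Xd (ev ω e1 e2 s e2) (-ev ω e1 e2 s e1) f := by
    have hsum : Xd (ev ω e1 e2 s e2) (-ev ω e1 e2 s e1) f =
        ∑ k, ∑ j, C (C (e1 k)) * C (C (e2 j)) * (MvPolynomial.aeval (pt e1 e2 s)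
          (ω j * MvPolynomial.pderiv k F - ω k * MvPolynomial.pderiv j F)) := by
      unfold Xd
      rw [hf, ie_Dx_aeval, ie_Dy_aeval]
      simp only [ie_Dx_pt, ie_Dy_pt]
      unfold ev
      simp only [Fin.sum_univ_three, map_sub, map_mul]
      ring
    rw [hsum]
    refine Finset.dvd_sum fun k _ => Finset.dvd_sum fun j _ => ?_
    obtain ⟨q, hq⟩ := hF j k
    rw [hq, map_mul]
    exact (Dvd.intro _ rfl).mul_left _
  obtain ⟨κ, hκ⟩ := hdvd
  refine ⟨κ, ?_, by rw [hκ, mul_comm]⟩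
  have hdf : Deg (phi 1 1 f).natDegree f := Deg_iff.2 le_rfl
  have hX : Deg ((phi 1 1 f).natDegree + n - 1) (Xd (ev ω e1 e2 s e2) (-ev ω e1 e2 s e1) f) :=
    Deg.xd' hn hP hQ hdf
  rw [hκ] at hX
  exact Deg.of_mul' (hX.mono' (by omega)) hf0 le_rfl

/-- the core data -/
theorem core_data (G : GData n ω ℓ) (hn : 1 ≤ n) (i0 : Fin (3 * n)) (e1 e2 s : Fin 3 → ℂ)
    (ht : tri e1 e2 s ≠ 0) (h1 : dot (ℓ i0) e1 = 0) (h2 : dot (ℓ i0) e2 = 0)
    (k : ℕ) (F : MvPolynomial (Fin 3) ℂ) (hF0 : F ≠ 0) (hF : InvCurve ω F)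
    (hk : Deg k (MvPolynomial.aeval (pt e1 e2 s) F : R2)) :
    ∃ κI Λ κ : R2, CoreData n k (-ev ω e1 e2 s e1) (ev ω e1 e2 s e2)
      (MvPolynomial.aeval (pt e1 e2 s) F) κI Λ κ := by
  have hl := G.inv i0
  have hA := deg_of_inv G.fol (ℓ i0) e1 e2 s hl h1 h2 e1 h1
  have hB := deg_of_inv G.fol (ℓ i0) e1 e2 s hl h1 h2 e2 h2
  obtain ⟨κ, hκd, hκ⟩ := curve_cof G.fol hn (ℓ i0) e1 e2 s hl h1 h2 F hF
  choose kl hkl1 hkl2 using fun i => lin_cof G.fol hn (ℓ i0) (ℓ i) e1 e2 s hl (G.inv i) h1 h2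
  obtain ⟨c, hc, hI⟩ := G.infl
  have hI' := hI e1 e2 s
  have hI0 := Infl_ne_zero' G e1 e2 s ht
  set A := ev ω e1 e2 s e1 with hAdef
  set B := ev ω e1 e2 s e2 with hBdef
  set I := Infl A B with hIdef
  have hXI : Xd B (-A) I = (∑ i, kl i) * I := by
    rw [hI']
    have e1' : Xd B (-A) (C (C (c * tri e1 e2 s ^ 2)) * ∏ i, Lin (lc (ℓ i) e1 e2 s)) =
        C (C (c * tri e1 e2 s ^ 2)) * Xd B (-A) (∏ i, Lin (lc (ℓ i) e1 e2 s)) :=
      xd_cc_mul (-A) B _ _
    have e2' : Xd B (-A) (∏ i, Lin (lc (ℓ i) e1 e2 s)) =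
        (∑ i, kl i) * ∏ i, Lin (lc (ℓ i) e1 e2 s) :=
      xd_prod (-A) B Finset.univ _ kl fun i _ => hkl2 i
    rw [e1', e2']
    ring
  set κI := ∑ i, kl i with hκI
  have hκId : Deg (n - 1) κI := Deg.sum' _ _ fun i _ => hkl1 i
  have hIe : I = B * Xd B (-A) (-A) - (-A) * Xd B (-A) B := by
    rw [hIdef]
    unfold Infl Xd
    rw [Dx_neg, Dy_neg]
    ring
  have hrel : B * (Xd B (-A) (Xd B (-A) (-A)) - κI * Xd B (-A) (-A)) =
      (-A) * (Xd B (-A) (Xd B (-A) B) - κI * Xd B (-A) B) := by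
    have h3 := hXI
    rw [hIe, Xd_sub, Xd_mul, Xd_mul] at h3
    linear_combination h3
  have hB0 : B ≠ 0 := by
    intro h0
    apply hI0
    rw [hIdef, h0]
    simp [Infl, Dx_zero, Dy_zero]
  have hA0 : A ≠ 0 := by
    intro h0
    apply hI0
    rw [hIdef, h0]
    simp [Infl, Dx_zero, Dy_zero]
  -- `B` divides the right factor
  have hdvd : B ∣ Xd B (-A) (Xd B (-A) B) - κI * Xd B (-A) B := by
    refine UniqueFactorizationMonoid.dvd_of_dvd_mul_right_of_no_prime_factors (b := -A) hB0 ?_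
      (Dvd.intro _ hrel)
    intro d hdB hdA hdp
    exact hdp.not_isUnit (coprime_AB G (ℓ i0) e1 e2 s ht hl.1 h1 h2 d ((dvd_neg).1 hdA) hdB)
  obtain ⟨Λ, hΛ⟩ := hdvd
  have hΛ1 : Λ * B = Xd B (-A) (Xd B (-A) B) - κI * Xd B (-A) B := by rw [hΛ]; ring
  have hΛ2 : Λ * (-A) = Xd B (-A) (Xd B (-A) (-A)) - κI * Xd B (-A) (-A) := by
    apply mul_left_cancel₀ hB0
    rw [hrel, ← hΛ1]
    ring
  have hd1 : ∀ {f : R2}, Deg n f →
      Deg (n + (2 * n - 2)) (Xd B (-A) (Xd B (-A) f) - κI * Xd B (-A) f) := by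
    intro f hf
    have h3 : Deg (n + n - 1) (Xd B (-A) f) := Deg.xd' hn hA.neg' hB hf
    have h4 : Deg (n + n - 1 + n - 1) (Xd B (-A) (Xd B (-A) f)) := Deg.xd' hn hA.neg' hB h3
    exact (h4.mono' (by omega)).sub' ((hκId.mul' h3).mono' (by omega))
  refine ⟨κI, Λ, κ, hn, hA.neg', hB, hk, hκId, ?_, hκd, ?_, ?_, hκ⟩
  · refine deg_quot (n := n) (A := B) (B := -A) ?_ hn hΛ1 hΛ2 (hd1 hB) (hd1 hA.neg')
    rintro ⟨h3, h4⟩
    have h5 := h4.neg'
    rw [neg_neg] at h5
    exact not_deg_AB G.fol hn (ℓ i0) e1 e2 s ht hl h1 h2 h5 h3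
  · rw [hΛ1]; ring
  · rw [hΛ2]; ring

/-! ### Generic lines -/

variable {E : Type} [Field E] [Algebra ℂ E]

theorem PQ.deriv_const {dp dq : Derivation ℂ E E} (z : E) (hz : IsAlgebraic ℂ z) :
    dp z = 0 ∧ dq z = 0 := by
  have h1 : z ∈ (algebraMap ℂ E).range := by
    apply minpoly.mem_range_of_degree_eq_one
    exact IsAlgClosed.degree_eq_one_of_irreducible ℂ (minpoly.irreducible hz.isIntegral)
  obtain ⟨c, rfl⟩ := h1
  exact ⟨dp.map_algebraMap c, dq.map_algebraMap c⟩

theorem PQ.p_transc {dp dq : Derivation ℂ E E} {p q : E} (hpq : PQ dp dq p q) (g : ℂ[X])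
    (hg : g ≠ 0) : aeval p g ≠ 0 := by
  intro h0
  have := (PQ.deriv_const (dp := dp) (dq := dq) p ⟨g, hg, h0⟩).1
  rw [hpq.pp] at this
  exact one_ne_zero this

/-- coefficients of the component of degree `m` -/
def topY (m : ℕ) (h : R2) : ℂ[X] := ∑ j ∈ Finset.range (m + 1), C ((h.coeff j).coeff (m - j)) * X ^ j

theorem topY_coeff (m : ℕ) (h : R2) (j : ℕ) (hj : j ≤ m) :
    (topY m h).coeff j = (h.coeff j).coeff (m - j) := by
  simp only [topY, finsetSum_coeff, coeff_C_mul, coeff_X_pow]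
  rw [Finset.sum_eq_single j]
  · simp
  · intro i _ hij
    rw [if_neg hij.symm, mul_zero]
  · intro h
    exact absurd (Finset.mem_range.2 (Nat.lt_succ_of_le hj)) h

theorem onLine_coeff_top (p q : E) (m : ℕ) (h : R2) (hd : Deg m h) :
    (onLine p q h).coeff m = aeval p (topY m h) := by
  have h1 : onLine p q h = ∑ j ∈ Finset.range (m + 1),
      (h.coeff j).map (algebraMap ℂ E) * (C p * X - C q) ^ j := by
    have h2 : onLine p q h = h.eval₂ (mapRingHom (algebraMap ℂ E)) (C p * X - C q) := rfl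
    rw [h2, eval₂_eq_sum_range' _ (n := m + 1)]
    · rfl
    · have : h.natDegree ≤ m := by
        rw [natDegree_le_iff_coeff_eq_zero]
        intro j hj
        ext i
        by_contra hne
        have := hd i j (by simpa using hne)
        omega
      omega
  rw [h1, finsetSum_coeff, topY, map_sum]
  refine Finset.sum_congr rfl fun j hj => ?_
  have hjm : j ≤ m := Nat.lt_succ_iff.1 (Finset.mem_range.1 hj)
  have hd1 : ((h.coeff j).map (algebraMap ℂ E)).natDegree ≤ m - j := by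
    refine natDegree_map_le.trans ?_
    rw [natDegree_le_iff_coeff_eq_zero]
    intro i hi
    by_contra hne
    have := hd i j hne
    omega
  have hd2 : (C p * X - C q : E[X]).natDegree ≤ 1 := by
    refine (natDegree_sub_le _ _).trans (max_le ?_ ?_)
    · exact (natDegree_C_mul_le _ _).trans natDegree_X_le
    · rw [natDegree_C]; exact Nat.zero_le _
  have hd3 : ((C p * X - C q : E[X]) ^ j).natDegree ≤ j := by
    refine (natDegree_pow_le).trans ?_
    calc j * (C p * X - C q : E[X]).natDegree ≤ j * 1 := Nat.mul_le_mul_left _ hd2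
      _ = j := mul_one j
  have h3 := coeff_mul_add_eq_of_natDegree_le hd1 hd3
  rw [Nat.sub_add_cancel hjm] at h3
  have h4 : ((C p * X - C q : E[X]) ^ j).coeff j = p ^ j := by
    have := coeff_pow_of_natDegree_le hd2 (m := j)
    rw [mul_one] at this
    rw [this]
    simp
  rw [h3, h4, coeff_map, map_mul, aeval_C, map_pow, aeval_X]

theorem topY_ne_zero {m : ℕ} {h : R2} (h1 : Deg (m + 1) h) (h2 : ¬ Deg m h) :
    topY (m + 1) h ≠ 0 := by
  intro h0
  apply h2
  intro i j hij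
  by_contra hlt
  have h3 := h1 i j hij
  have h4 := topY_coeff (m + 1) h j (by omega)
  rw [h0, coeff_zero] at h4
  apply hij
  rw [h4]
  congr 1
  omega

/-- the tangency polynomial is not zero on a generic line -/
theorem tangPoly_ne_zero (h : IsFol n ω) (l e1 e2 s : Fin 3 → ℂ) (hl : InvLine ω l)
    (ht : tri e1 e2 s ≠ 0) (h1 : dot l e1 = 0) (h2 : dot l e2 = 0)
    {dp dq : Derivation ℂ E E} {p q : E} (hpq : PQ dp dq p q) :
    (tangPoly (-ev ω e1 e2 s e1) (ev ω e1 e2 s e2) p q).coeff n ≠ 0 := by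
  have hA := deg_of_inv h l e1 e2 s hl h1 h2 e1 h1
  have hB := deg_of_inv h l e1 e2 s hl h1 h2 e2 h2
  have hS : Deg (n + 1) (ev ω e1 e2 s s) := ev_deg h.hom e1 e2 s s
  have hne := topY_ne_zero hS (not_deg_s h l e1 e2 s ht hl h1 h2)
  have hrel : onLine p q (ev ω e1 e2 s s) =
      X * tangPoly (-ev ω e1 e2 s e1) (ev ω e1 e2 s e2) p q + C q * onLine p q (ev ω e1 e2 s e2) := by
    have he := congrArg (onLine p q) (ev_euler h.euler e1 e2 s)
    rw [map_add, map_add, map_mul, map_mul, onLine_CX, onLine_X, map_zero] at he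
    unfold tangPoly
    rw [map_neg]
    linear_combination he
  have hco := congrArg (fun f : E[X] => f.coeff (n + 1)) hrel
  simp only [coeff_add, coeff_X_mul, coeff_C_mul] at hco
  have hBz : (onLine p q (ev ω e1 e2 s e2)).coeff (n + 1) = 0 := by
    have := onLine_coeff_top p q (n + 1) _ (hB.mono' (Nat.le_succ n))
    rw [this]
    have h3 : topY (n + 1) (ev ω e1 e2 s e2) = 0 := by
      rw [topY]
      apply Finset.sum_eq_zero
      intro j hj
      have hj' := Finset.mem_range.1 hj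
      have : ((ev ω e1 e2 s e2).coeff j).coeff (n + 1 - j) = 0 := by
        by_contra hne
        have := hB _ _ hne
        omega
      rw [this]; simp
    rw [h3, map_zero]
  rw [hBz, mul_zero, add_zero, onLine_coeff_top p q (n + 1) _ hS] at hco
  rw [← hco]
  exact hpq.p_transc _ hne

/-- restriction to a line `y = r(x)` -/
theorem evE_eval (t : E) (r : ℂ[X]) (h : R2) : evE t (aeval t r) h = aeval t (h.eval r) := by
  have : evE t (aeval t r) = (aeval t : ℂ[X] →ₐ[ℂ] E).toRingHom.comp (evalRingHom r) := by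
    apply Polynomial.ringHom_ext'
    · apply Polynomial.ringHom_ext'
      · ext c
        simp [evE]
      · simp [evE]
    · simp [evE]
  rw [this]
  rfl

/-- restriction to a line `x = x0` -/
theorem evE_const (x0 : ℂ) (y : E) (h : R2) :
    evE (algebraMap ℂ E x0) y h = aeval y (h.map (evalRingHom x0)) := by
  have : evE (algebraMap ℂ E x0) y =
      (aeval y : ℂ[X] →ₐ[ℂ] E).toRingHom.comp (mapRingHom (evalRingHom x0)) := by
    apply Polynomial.ringHom_ext'
    · apply Polynomial.ringHom_ext'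
      · ext c
        simp [evE]
      · simp [evE]
    · simp [evE]
  rw [this]
  rfl

theorem Lin_dvd_of_eval {u : Fin 3 → ℂ} (h1 : u 1 ≠ 0) (h : R2)
    (h0 : h.eval (C (-(u 0) / u 1) * X + C (-(u 2) / u 1)) = 0) : Lin u ∣ h := by
  have hd := dvd_iff_isRoot.2 h0
  have he : Lin u = C (C (u 1)) * (X - C (C (-(u 0) / u 1) * X + C (-(u 2) / u 1))) := by
    have e1 : C (C (u 0)) = (C (C (u 1)) * C (C (u 0 / u 1)) : R2) := by
      rw [← C_mul, ← C_mul, mul_div_cancel₀ _ h1]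
    have e2 : C (C (u 2)) = (C (C (u 1)) * C (C (u 2 / u 1)) : R2) := by
      rw [← C_mul, ← C_mul, mul_div_cancel₀ _ h1]
    simp only [Lin, map_add, map_mul, neg_div, map_neg]
    rw [e1, e2]
    ring
  rw [he]
  have hu : IsUnit (C (C (u 1)) : R2) := isUnit_C.2 (isUnit_C.2 (isUnit_iff_ne_zero.2 h1))
  exact (hu.mul_left_dvd).2 hd

theorem Lin_dvd_of_map {u : Fin 3 → ℂ} (h1 : u 1 = 0) (h0 : u 0 ≠ 0) (h : R2)
    (hm : h.map (evalRingHom (-(u 2) / u 0)) = 0) : Lin u ∣ h := by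
  have he : Lin u = C (C (u 0)) * C (X - C (-(u 2) / u 0)) := by
    have e2 : C (C (u 2)) = (C (C (u 0)) * C (C (u 2 / u 0)) : R2) := by
      rw [← C_mul, ← C_mul, mul_div_cancel₀ _ h0]
    simp only [Lin, h1, map_zero, zero_mul, add_zero, map_sub, neg_div, map_neg]
    rw [e2]
    ring
  rw [he]
  have hu : IsUnit (C (C (u 0)) : R2) := isUnit_C.2 (isUnit_C.2 (isUnit_iff_ne_zero.2 h0))
  refine (hu.mul_left_dvd).2 ?_
  rw [C_dvd_iff_dvd_coeff]
  intro i
  have := congrArg (fun f : ℂ[X] => f.coeff i) hm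
  simp only [coeff_map, coeff_zero, coe_evalRingHom] at this
  exact dvd_iff_isRoot.2 this

/-- a generic line contains no singular point -/
theorem no_sing (G : GData n ω ℓ) (hn : 1 ≤ n) (e1 e2 s : Fin 3 → ℂ)
    (ht : tri e1 e2 s ≠ 0) {dp dq : Derivation ℂ E E} {p q : E} (hpq : PQ dp dq p q) (t : E)
    (h1 : evE t (p * t - q) (-ev ω e1 e2 s e1) = 0) (h2 : evE t (p * t - q) (ev ω e1 e2 s e2) = 0) :
    False := by
  -- the line at infinity
  set l : Fin 3 → ℂ := ![e1 1 * e2 2 - e1 2 * e2 1, e1 2 * e2 0 - e1 0 * e2 2,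
    e1 0 * e2 1 - e1 1 * e2 0] with hl
  have hl1 : dot l e1 = 0 := by
    simp only [dot, Fin.sum_univ_three, hl, Matrix.cons_val_zero, Matrix.cons_val_one,
      Matrix.cons_val]
    ring
  have hl2 : dot l e2 = 0 := by
    simp only [dot, Fin.sum_univ_three, hl, Matrix.cons_val_zero, Matrix.cons_val_one,
      Matrix.cons_val]
    ring
  have hls : dot l s = tri e1 e2 s := by
    simp only [dot, tri, Fin.sum_univ_three, hl, Matrix.cons_val_zero, Matrix.cons_val_one,
      Matrix.cons_val]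
    ring
  have hl0 : l ≠ 0 := by
    intro h0
    apply ht
    rw [← hls, h0]
    simp [dot]
  have hcop := coprime_AB G l e1 e2 s ht hl0 hl1 hl2
  set A := ev ω e1 e2 s e1 with hA
  set B := ev ω e1 e2 s e2 with hB
  set y : E := p * t - q with hy
  have h1' : evE t y A = 0 := by
    rw [map_neg, neg_eq_zero] at h1
    exact h1
  -- contradiction from algebraic coordinates
  have halg : IsAlgebraic ℂ t → IsAlgebraic ℂ y → False := by
    intro ha hb
    have e1' := (PQ.deriv_const (dp := dp) (dq := dq) t ha).2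
    have e2' := (PQ.deriv_const (dp := dp) (dq := dq) y hb).2
    rw [hy, map_sub, Derivation.leibniz, e1', hpq.qp, hpq.qq] at e2'
    simp at e2'
  -- a line through the point
  obtain ⟨c, hc, hI⟩ := G.infl
  have hIe : evE t y (Infl A B) = 0 := by
    unfold Infl
    simp only [map_sub, map_mul, h1', h2]
    ring
  rw [hI, map_mul, map_prod, evE_CC] at hIe
  have hc0 : algebraMap ℂ E (c * tri e1 e2 s ^ 2) ≠ 0 := by
    rw [Ne, map_eq_zero]
    exact mul_ne_zero hc (pow_ne_zero 2 ht)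
  obtain ⟨i, -, hi⟩ := Finset.prod_eq_zero_iff.1 ((mul_eq_zero.1 hIe).resolve_left hc0)
  set u := lc (ℓ i) e1 e2 s with hu
  have hui : ∀ x y : E, evE x y (Lin u) =
      algebraMap ℂ E (u 0) * x + algebraMap ℂ E (u 1) * y + algebraMap ℂ E (u 2) := by
    intro x y
    simp [Lin]
  rw [hui] at hi
  have hLu : ¬ IsUnit (Lin u) := by
    intro hun
    have := hun.map (evE t y)
    rw [hui, hi] at this
    exact not_isUnit_zero this
  have hndvd : ¬ (Lin u ∣ A ∧ Lin u ∣ B) := fun h => hLu (hcop _ h.1 h.2)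
  by_cases hb : u 1 = 0
  · have ha : u 0 ≠ 0 := by
      intro ha
      rw [ha, hb] at hi
      simp only [map_zero, zero_mul, zero_add] at hi
      rw [map_eq_zero] at hi
      have : Lin u = 0 := by simp [Lin, ha, hb, hi]
      exact Lin_lc_ne_zero _ _ _ _ ht (G.inv i).1 this
    have htc : t = algebraMap ℂ E (-(u 2) / u 0) := by
      have ha' : algebraMap ℂ E (u 0) ≠ 0 := by rwa [Ne, map_eq_zero]
      rw [hb, map_zero, zero_mul, add_zero] at hi
      rw [map_div₀, map_neg]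
      field_simp
      linear_combination hi
    have hta : IsAlgebraic ℂ t := by rw [htc]; exact isAlgebraic_algebraMap _
    rw [htc, evE_const] at h1' h2
    by_cases hA0 : A.map (evalRingHom (-(u 2) / u 0)) = 0
    · have hB0 : B.map (evalRingHom (-(u 2) / u 0)) ≠ 0 := fun h =>
        hndvd ⟨Lin_dvd_of_map hb ha A hA0, Lin_dvd_of_map hb ha B h⟩
      exact halg hta ⟨_, hB0, h2⟩
    · exact halg hta ⟨_, hA0, h1'⟩
  · set r : ℂ[X] := C (-(u 0) / u 1) * X + C (-(u 2) / u 1) with hr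
    have hyr : y = aeval t r := by
      have hb' : algebraMap ℂ E (u 1) ≠ 0 := by rwa [Ne, map_eq_zero]
      rw [hr, map_add, map_mul, aeval_C, aeval_C, aeval_X, map_div₀, map_div₀, map_neg, map_neg]
      field_simp
      linear_combination hi
    rw [hyr, evE_eval] at h1' h2
    have hta : IsAlgebraic ℂ t := by
      by_cases hA0 : A.eval r = 0
      · have hB0 : B.eval r ≠ 0 := fun h =>
          hndvd ⟨Lin_dvd_of_eval hb A hA0, Lin_dvd_of_eval hb B h⟩
        exact ⟨_, hB0, h2⟩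
      · exact ⟨_, hA0, h1'⟩
    refine halg hta ?_
    rw [hyr, hr, map_add, map_mul, aeval_C, aeval_C, aeval_X]
    exact ((isAlgebraic_algebraMap _).mul hta).add (isAlgebraic_algebraMap _)

end

end Pool.Agent.Lib.MP_5bde83_ag
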