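import Pool.Agent.Lib.MP_5bde83_ag.Mg.G003
import Pool.Agent.Lib.MP_5bde83_ag.FlatData

/-!
Part B (flatness): characterization of the curvature, and the web polynomial of a chart.
-/

namespace Pool.Agent.Lib.MP_5bde83_ag

open Polynomial

noncomputable section

variable {E : Type} [Field E] [Algebra ℂ E]

/-- the Blaschke curvature is characterized by the structure equations -/
theorem blaschke_iff {dp dq : Derivation ℂ E E} (hc : ∀ z, dp (dq z) = dq (dp z))
    (x : Fin 3 → E) (h01 : x 0 ≠ x 1) (h12 : x 1 ≠ x 2) (h20 : x 2 ≠ x 0) (K : E) :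
    (∃ (g : Fin 3 → E) (η : E × E), (∀ i, g i ≠ 0) ∧
      ∑ i, ((-(g i * x i), g i) : E × E) = 0 ∧
      (∀ i, Web.dform dp dq (-(g i * x i), g i) = Web.wedge η (-(g i * x i), g i)) ∧
      K = Web.dform dp dq η) ↔
    K = Web.K3 dp dq (Web.sl (x 0)) (Web.sl (x 1)) (Web.sl (x 2)) := by
  have w01 : Web.wedge (Web.sl (x 0)) (Web.sl (x 1)) ≠ 0 := by
    rw [Web.wedge_sl]; exact sub_ne_zero.mpr h01.symm
  have w12 : Web.wedge (Web.sl (x 1)) (Web.sl (x 2)) ≠ 0 := by
    rw [Web.wedge_sl]; exact sub_ne_zero.mpr h12.symm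
  have w20 : Web.wedge (Web.sl (x 2)) (Web.sl (x 0)) ≠ 0 := by
    rw [Web.wedge_sl]; exact sub_ne_zero.mpr h20.symm
  have hsl : ∀ (g : Fin 3 → E) (i : Fin 3), ((-(g i * x i), g i) : E × E) = g i • Web.sl (x i) := by
    intro g i
    simp [Web.sl]
  constructor
  · rintro ⟨g, η, hg, hsum, hη, rfl⟩
    simp only [hsl] at hsum hη
    rw [Fin.sum_univ_three] at hsum
    rw [← Web.K3_smul hc _ _ _ w01 w12 w20 (g 0) (g 1) (g 2) (hg 0) (hg 1) (hg 2)]
    have v01 : Web.wedge (g 0 • Web.sl (x 0)) (g 1 • Web.sl (x 1)) ≠ 0 := by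
      rw [Web.wedge_smul_left, Web.wedge_smul_right]
      exact mul_ne_zero (hg 0) (mul_ne_zero (hg 1) w01)
    have v12 : Web.wedge (g 1 • Web.sl (x 1)) (g 2 • Web.sl (x 2)) ≠ 0 := by
      rw [Web.wedge_smul_left, Web.wedge_smul_right]
      exact mul_ne_zero (hg 1) (mul_ne_zero (hg 2) w12)
    have v20 : Web.wedge (g 2 • Web.sl (x 2)) (g 0 • Web.sl (x 0)) ≠ 0 := by
      rw [Web.wedge_smul_left, Web.wedge_smul_right]
      exact mul_ne_zero (hg 2) (mul_ne_zero (hg 0) w20)
    have hη0 := hη 0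
    have hη1 := hη 1
    set t0 := g 0 • Web.sl (x 0)
    set t1 := g 1 • Web.sl (x 1)
    set t2 := g 2 • Web.sl (x 2)
    have ht2 : t2 = -(t0 + t1) := by
      rw [eq_neg_iff_add_eq_zero, add_comm]; exact hsum
    have e12 : Web.wedge t1 t2 = Web.wedge t0 t1 := by
      rw [ht2]; simp only [Web.wedge, Prod.fst_neg, Prod.snd_neg, Prod.fst_add, Prod.snd_add]; ring
    have e20 : Web.wedge t2 t0 = Web.wedge t0 t1 := by
      rw [ht2]; simp only [Web.wedge, Prod.fst_neg, Prod.snd_neg, Prod.fst_add, Prod.snd_add]; ring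
    set ρ := Web.wedge t0 t1
    have key : ∀ t : E × E, Web.dform dp dq t = Web.wedge η t →
        Web.dform dp dq (ρ • t) = Web.wedge (η + ρ⁻¹ • Web.gr dp dq ρ) (ρ • t) := by
      intro t ht
      rw [Web.dform_smul, ht, Web.wedge_smul_right, Web.wedge_add_left, Web.wedge_smul_left,
        mul_add, ← mul_assoc, mul_inv_cancel₀ v01, one_mul]
    have heta : η + ρ⁻¹ • Web.gr dp dq ρ = Web.eta dp dq t0 t1 t2 := by
      apply Web.eta_unique _ _ _ v01 v12 v20
      · rw [e12]; exact key _ hη0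
      · rw [e20]; exact key _ hη1
    rw [Web.K3, ← heta, Web.dform_add, Web.dform_dlog hc, add_zero]
  · rintro rfl
    obtain ⟨s0, s1, s2⟩ := Web.eta_spec (Dp := dp) (Dq := dq) _ _ _ w01 w12 w20
    refine ⟨![Web.wedge (Web.sl (x 1)) (Web.sl (x 2)), Web.wedge (Web.sl (x 2)) (Web.sl (x 0)),
      Web.wedge (Web.sl (x 0)) (Web.sl (x 1))],
      Web.eta dp dq (Web.sl (x 0)) (Web.sl (x 1)) (Web.sl (x 2)), ?_, ?_, ?_, rfl⟩
    · intro i
      fin_cases i
      · exact w12
      · exact w20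
      · exact w01
    · simp only [hsl]
      rw [Fin.sum_univ_three]
      exact Web.sum_theta _ _ _
    · intro i
      rw [hsl]
      fin_cases i
      · exact s0
      · exact s1
      · exact s2

/-- substitution in a homogeneous polynomial commutes with the restriction to the line -/
theorem onLine_pt (p q : E) (e1 e2 s : Fin 3 → ℂ) (F : MvPolynomial (Fin 3) ℂ) :
    onLine p q (MvPolynomial.aeval (pt e1 e2 s) F) =
      MvPolynomial.aeval (fun i => C (algebraMap ℂ E (e1 i)) * X +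
        C (algebraMap ℂ E (e2 i)) * (C p * X - C q) + C (algebraMap ℂ E (s i)) : Fin 3 → E[X]) F := by
  rw [evAux_hom (onLine p q) (fun c => by simp [onLine_C])]
  congr 1
  congr 1
  funext i
  simp [pt, onLine_C]

end

end Pool.Agent.Lib.MP_5bde83_ag
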