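import Pool.Agent.Lib.MP_5bde83_ag.WrapD
import Pool.Agent.Lib.MP_5bde83_ag.FlatFin

/-!
Part B (flatness): the vanishing of the total curvature in an arbitrary affine chart.
-/

namespace Pool.Agent.Lib.MP_5bde83_ag

open Polynomial

noncomputable section

variable {E : Type} [Field E] [Algebra ℂ E]
variable {n : ℕ} {ω : Fin 3 → MvPolynomial (Fin 3) ℂ} {ℓ : Fin (3 * n) → Fin 3 → ℂ}

/-- column of a matrix -/
def col (g : Matrix (Fin 3) (Fin 3) ℂ) (j : Fin 3) : Fin 3 → ℂ := fun i => g i j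

theorem tri_col (g : Matrix (Fin 3) (Fin 3) ℂ) : tri (col g 0) (col g 1) (col g 2) = g.det := by
  rw [Matrix.det_fin_three]
  simp [tri, col]
  ring

/-- flatness in the chart `(x, y) ↦ g (x, y, 1)` -/
theorem chart_main (G : GData n ω ℓ) (hn : 1 ≤ n) {k : ℕ} {F : MvPolynomial (Fin 3) ℂ}
    (hFk : F.IsHomogeneous k) (hF0 : F ≠ 0) (hinv : InvCurve ω F)
    (g : Matrix (Fin 3) (Fin 3) ℂ) (hg : g.det ≠ 0)
    {dp dq : Derivation ℂ E E} {p q : E} (hpq : PQ dp dq p q)
    (x : Fin (n + k) → E) (hx : Function.Injective x)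
    (hroot : ∀ i, (webPoly (-ev ω (col g 0) (col g 1) (col g 2) (col g 0))
      (ev ω (col g 0) (col g 1) (col g 2) (col g 1))
      (MvPolynomial.aeval (pt (col g 0) (col g 1) (col g 2)) F) p q).eval (x i) = 0) :
    Web.Ktot dp dq (fun i => Web.sl (x i)) = 0 := by
  have hchar : CharZero E := charZero_of_injective_algebraMap (algebraMap ℂ E).injective
  have hunit : IsUnit g.det := isUnit_iff_ne_zero.mpr hg
  have hdet' : (g⁻¹).det ≠ 0 := by
    rw [Matrix.det_nonsing_inv]
    simpa using hg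
  have ht' : tri (col g⁻¹ 0) (col g⁻¹ 1) (col g⁻¹ 2) ≠ 0 := by rw [tri_col]; exact hdet'
  have h2ne : col g⁻¹ 1 ≠ 0 := by
    intro h
    apply ht'
    rw [h]
    simp [tri]
  have hV : lp p q (col g⁻¹ 1) ≠ 0 := lp_ne hpq _ h2ne
  obtain ⟨hJ, hPQ⟩ := wr_PQ hpq (col g⁻¹ 0) (col g⁻¹ 1) (col g⁻¹ 2) h2ne ht'
  set P := nP p q (col g⁻¹ 0) (col g⁻¹ 1) with hP
  set Q := nQ p q (col g⁻¹ 1) (col g⁻¹ 2) with hQ
  set f := algebraMap ℂ E with hf
  -- the points
  set m : Fin (n + k) → Fin 3 → E := fun i j =>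
    x i * f (g j 0) + (p * x i - q) * f (g j 1) + f (g j 2) with hm
  set r : Fin (n + k) → Fin 3 → E := fun i => ![x i, p * x i - q, 1] with hr
  have hgg : g⁻¹ * g = 1 := Matrix.nonsing_inv_mul g hunit
  have hgg' : g * g⁻¹ = 1 := Matrix.mul_nonsing_inv g hunit
  -- inverse matrix entries
  have hent : ∀ a b : Fin 3, f (g⁻¹ a 0) * f (g 0 b) + f (g⁻¹ a 1) * f (g 1 b) +
      f (g⁻¹ a 2) * f (g 2 b) = if a = b then 1 else 0 := by
    intro a b
    have h1 := congrFun (congrFun hgg a) b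
    rw [Matrix.mul_apply, Fin.sum_univ_three, Matrix.one_apply] at h1
    rw [← map_mul, ← map_mul, ← map_mul, ← map_add, ← map_add, h1]
    split_ifs <;> simp
  have hent' : ∀ a b : Fin 3, f (g a 0) * f (g⁻¹ 0 b) + f (g a 1) * f (g⁻¹ 1 b) +
      f (g a 2) * f (g⁻¹ 2 b) = if a = b then 1 else 0 := by
    intro a b
    have h1 := congrFun (congrFun hgg' a) b
    rw [Matrix.mul_apply, Fin.sum_univ_three, Matrix.one_apply] at h1
    rw [← map_mul, ← map_mul, ← map_mul, ← map_add, ← map_add, h1]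
    split_ifs <;> simp
  have hrm : ∀ i j, r i j = m i 0 * f (col g⁻¹ 0 j) + m i 1 * f (col g⁻¹ 1 j) +
      m i 2 * f (col g⁻¹ 2 j) := by
    intro i j
    have a0 := hent j 0
    have a1 := hent j 1
    have a2 := hent j 2
    simp only [hm, col]
    have e : (x i * f (g 0 0) + (p * x i - q) * f (g 0 1) + f (g 0 2)) * f (g⁻¹ j 0) +
        (x i * f (g 1 0) + (p * x i - q) * f (g 1 1) + f (g 1 2)) * f (g⁻¹ j 1) +
        (x i * f (g 2 0) + (p * x i - q) * f (g 2 1) + f (g 2 2)) * f (g⁻¹ j 2) =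
        x i * (f (g⁻¹ j 0) * f (g 0 0) + f (g⁻¹ j 1) * f (g 1 0) + f (g⁻¹ j 2) * f (g 2 0)) +
        (p * x i - q) * (f (g⁻¹ j 0) * f (g 0 1) + f (g⁻¹ j 1) * f (g 1 1) +
          f (g⁻¹ j 2) * f (g 2 1)) +
        (f (g⁻¹ j 0) * f (g 0 2) + f (g⁻¹ j 1) * f (g 1 2) + f (g⁻¹ j 2) * f (g 2 2)) := by
      ring
    rw [e, a0, a1, a2]
    fin_cases j <;> simp [hr]
  have hron : ∀ i, r i 1 = p * r i 0 - q * r i 2 := by
    intro i; simp [hr]
  have hmon : ∀ i, m i 1 = P * m i 0 - Q * m i 2 := by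
    intro i
    apply wr_y hV
    rw [← wr_line (hrm i), hron i]; ring
  have hform : ∀ i, (r i 0, - r i 2) = (- lp p q (col g⁻¹ 1)) •
      Web.pull dp dq P Q (m i 0, - m i 2) :=
    fun i => wr_form hpq hV (hrm i) (hron i)
  have hm0 : ∀ i, m i ≠ 0 := by
    intro i h0
    have h1 := hrm i 2
    rw [h0] at h1
    simp [hr] at h1
  have hdist : ∀ i j, i ≠ j → m i 0 * m j 2 - m i 2 * m j 0 ≠ 0 := by
    intro i j hij h0
    have a1 : Web.wedge (r i 0, - r i 2) (r j 0, - r j 2) = - (x i - x j) := by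
      simp only [Web.wedge, hr]
      simp
      ring
    have a2 : Web.wedge (r i 0, - r i 2) (r j 0, - r j 2) =
        lp p q (col g⁻¹ 1) ^ 2 *
          (Web.jac dp dq P Q * -(m i 0 * m j 2 - m i 2 * m j 0)) := by
      rw [hform i, hform j, Web.wedge_smul_left, Web.wedge_smul_right, Web.wedge_pull]
      simp only [Web.wedge]; ring
    rw [a1, h0] at a2
    rw [neg_zero, mul_zero, mul_zero, neg_eq_zero, sub_eq_zero] at a2
    exact hij (hx a2)
  have hevE : ∀ (i : Fin (n + k)) (H : MvPolynomial (Fin 3) ℂ),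
      evE (x i) (p * x i - q) (MvPolynomial.aeval (pt (col g 0) (col g 1) (col g 2)) H) =
        MvPolynomial.aeval (m i) H := by
    intro i H
    rw [wr_evE]
    rfl
  have hroot' : ∀ i, MvPolynomial.aeval (m i) F = 0 ∨
      ∀ w : Fin 3 → E, w 1 = P * w 0 - Q * w 2 →
        ∑ j, w j * MvPolynomial.aeval (m i) (ω j) = 0 := by
    intro i
    have h1 := hroot i
    rw [webPoly, eval_mul, onLine_eval, hevE] at h1
    rcases mul_eq_zero.mp h1 with h1 | h1
    · exact Or.inl h1
    · right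
      intro w hw
      rw [tang_eval] at h1
      -- tangency along `g1 + p g2`
      have h4 : ∀ v : Fin 3 → ℂ, evE (x i) (p * x i - q)
          (ev ω (col g 0) (col g 1) (col g 2) v) =
          ∑ j, f (v j) * MvPolynomial.aeval (m i) (ω j) := by
        intro v
        unfold ev
        rw [map_sum]
        refine Finset.sum_congr rfl fun j _ => ?_
        rw [map_mul, evE_CC, hevE]
      rw [map_neg, h4, h4] at h1
      have heul : ∑ j, m i j * MvPolynomial.aeval (m i) (ω j) = 0 := by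
        have := congrArg (MvPolynomial.aeval (m i)) G.fol.euler
        simpa [map_sum, map_mul] using this
      -- coordinates of w
      set a := w 0 * f (g⁻¹ 0 0) + w 1 * f (g⁻¹ 0 1) + w 2 * f (g⁻¹ 0 2) with ha
      set b := w 0 * f (g⁻¹ 1 0) + w 1 * f (g⁻¹ 1 1) + w 2 * f (g⁻¹ 1 2) with hb
      set c := w 0 * f (g⁻¹ 2 0) + w 1 * f (g⁻¹ 2 1) + w 2 * f (g⁻¹ 2 2) with hc
      have hwdec : ∀ j, w j = a * f (g j 0) + b * f (g j 1) + c * f (g j 2) := by
        intro j
        have a0 := hent' j 0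
        have a1 := hent' j 1
        have a2 := hent' j 2
        have e : a * f (g j 0) + b * f (g j 1) + c * f (g j 2) =
          w 0 * (f (g j 0) * f (g⁻¹ 0 0) + f (g j 1) * f (g⁻¹ 1 0) + f (g j 2) * f (g⁻¹ 2 0)) +
          w 1 * (f (g j 0) * f (g⁻¹ 0 1) + f (g j 1) * f (g⁻¹ 1 1) + f (g j 2) * f (g⁻¹ 2 1)) +
          w 2 * (f (g j 0) * f (g⁻¹ 0 2) + f (g j 1) * f (g⁻¹ 1 2) + f (g j 2) * f (g⁻¹ 2 2)) := by
          rw [ha, hb, hc]; ring
        rw [e, a0, a1, a2]
        fin_cases j <;> simp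
      have hbb : b = p * a - q * c := by
        have hw' : ∀ j, (![a, b, c] : Fin 3 → E) j = w 0 * f (col g⁻¹ 0 j) +
            w 1 * f (col g⁻¹ 1 j) + w 2 * f (col g⁻¹ 2 j) := by
          intro j
          fin_cases j <;> simp [ha, hb, hc, col]
        have a1 := wr_line (p := p) (q := q) hw'
        have b1 : P * lp p q (col g⁻¹ 1) = - lp p q (col g⁻¹ 0) := by
          rw [hP, nP, div_mul_cancel₀ _ hV]
        have b2 : Q * lp p q (col g⁻¹ 1) = lp p q (col g⁻¹ 2) := by
          rw [hQ, nQ, div_mul_cancel₀ _ hV]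
        simp only [Matrix.cons_val_zero, Matrix.cons_val_one, Matrix.cons_val] at a1
        rw [hw] at a1
        linear_combination -a1 - w 0 * b1 + w 2 * b2
      have hfin : ∑ j, w j * MvPolynomial.aeval (m i) (ω j) =
          (a - c * x i) * (∑ j, f (col g 0 j) * MvPolynomial.aeval (m i) (ω j) +
            p * ∑ j, f (col g 1 j) * MvPolynomial.aeval (m i) (ω j)) +
          c * ∑ j, m i j * MvPolynomial.aeval (m i) (ω j) := by
        rw [Finset.mul_sum, ← Finset.sum_add_distrib, Finset.mul_sum, Finset.mul_sum,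
          ← Finset.sum_add_distrib]
        refine Finset.sum_congr rfl fun j _ => ?_
        rw [hwdec j, hbb]
        simp only [hm, col]
        ring
      rw [hfin, heul]
      linear_combination -(a - c * x i) * h1
  have hK0 := wr_main G hn hFk hF0 hinv hPQ m hmon hm0 hdist hroot'
  have hT : Web.Transv (fun i => (m i 0, - m i 2)) := by
    intro i j hij
    simp only [Web.wedge]
    have := hdist i j hij
    intro h0
    apply this
    linear_combination -h0
  have hK := Web.Ktot_change (D1 := dp) (D2 := dq) (p := P) (q := Q) hpq.comm hJ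
    (fun i => (m i 0, - m i 2)) (fun i => Web.sl (x i)) hT (fun _ => lp p q (col g⁻¹ 1))
    (fun _ => hV) (fun i => by
      have h1 := hform i
      have h2 : Web.sl (x i) = - (r i 0, - r i 2) := by
        simp [Web.sl, hr]
      rw [h2, h1, neg_smul, neg_neg])
  rw [hK, hK0, mul_zero]

/-- the line at infinity of the chart is not contained in the curve -/
theorem infR_ne {k : ℕ} {F : MvPolynomial (Fin 3) ℂ} (hFk : F.IsHomogeneous k)
    (g : Matrix (Fin 3) (Fin 3) ℂ) (x y : ℂ)
    (h : MvPolynomial.eval (g.mulVec ![x, y, 0]) F ≠ 0) : infR (col g 0) (col g 1) F ≠ 0 := by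
  intro h0
  apply h
  have hv : g.mulVec ![x, y, 0] = x • col g 0 + y • col g 1 := by
    funext i
    simp [Matrix.mulVec, dotProduct, Fin.sum_univ_three, col]
    ring
  rw [hv]
  have key : ∀ x : ℂ, x ≠ 0 → MvPolynomial.eval (x • col g 0 + y • col g 1) F = 0 := by
    intro x hx
    have h5 : x • col g 0 + y • col g 1 = x • (col g 0 + (y / x) • col g 1) := by
      rw [smul_add, smul_smul, mul_div_cancel₀ _ hx]
    rw [h5, eval_smul_hom F k hFk, ← infR_eval, h0, eval_zero, mul_zero]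
  by_cases hx : x = 0
  · have h6 : infR (y • col g 1) (col g 0) F = 0 := by
      apply poly_zero_of_eval
      intro t ht0
      rw [infR_eval, add_comm]
      exact key t ht0
    have h7 := congrArg (eval 0) h6
    rw [infR_eval, eval_zero, add_comm] at h7
    rw [hx]
    exact h7
  · exact key x hx

end

end Pool.Agent.Lib.MP_5bde83_ag
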