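import Pool.Agent.Lib.MP_5bde83_ag.Mg.G002
import Pool.Agent.Lib.MP_5bde83_ag.Mg.G001
import Pool.Agent.Lib.MP_5bde83_ag.DegApi

/-!
Part B (flatness), core theorem in a chart whose line at infinity is invariant.
-/

namespace Pool.Agent.Lib.MP_5bde83_ag

open Polynomial

noncomputable section

variable {E : Type} [Field E] [Algebra ℂ E]

/-- the 1-form `d log g` is closed -/
theorem dlog_closed {dp dq : Derivation ℂ E E} (comm : ∀ z, dp (dq z) = dq (dp z)) (g : E)
    (hg : g ≠ 0) : dp (dq g / g) - dq (dp g / g) = 0 := by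
  rw [Derivation.leibniz_div, Derivation.leibniz_div, comm]
  simp only [smul_eq_mul]
  ring

/-- a sum of `g / D'` over the roots of `D` is killed by `dq` -/
theorem dq_lag {ι : Type} (dq : Derivation ℂ E E) (S : Finset ι) (x : ι → E)
    (hx : Set.InjOn x S) (D : E[X]) (hD : D ≠ 0)
    (hdeg : D.natDegree = S.card) (hroot : ∀ i ∈ S, D.eval (x i) = 0)
    (hDc : dq (D.coeff S.card) = 0) (g : E[X])
    (hg : g.natDegree ≤ S.card - 1) (hgc : dq (g.coeff (S.card - 1)) = 0) :
    dq (∑ i ∈ S, g.eval (x i) / (derivative D).eval (x i)) = 0 := by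
  rcases S.eq_empty_or_nonempty with rfl | hne
  · simp
  have hcard : 1 ≤ S.card := hne.card_pos
  have hlt : g.degree < (S.card : WithBot ℕ) := by
    refine degree_le_natDegree.trans_lt ?_
    exact_mod_cast (by omega : g.natDegree < S.card)
  rw [lag_sum S x hx D hD hdeg hroot g hlt, leadingCoeff, hdeg, Derivation.leibniz_div, hgc, hDc]
  simp

/-- the divergence -/
def dv (P Q : R2) : R2 := Dx Q + Dy P

/-- the polynomial `B` -/
def Bpoly (P Q κI Λ κ : R2) : R2 :=
  C (C (1 / 6)) * (Xd Q P κI + κI ^ 2 - κI * dv P Q - C (C 3) * Xd Q P (dv P Q) + C (C 3) * Λ) +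
    C (C (1 / 2)) * (κI * κ - C (C 2) * dv P Q * κ + Xd Q P κ + κ ^ 2)

theorem dv_deg {n : ℕ} {P Q : R2} (hP : Deg n P) (hQ : Deg n Q) : Deg (n - 1) (dv P Q) :=
  hQ.dx'.add' hP.dy'

theorem Bpoly_deg {n k : ℕ} {P Q f κI Λ κ : R2} (H : CoreData n k P Q f κI Λ κ) :
    Deg (2 * n - 2) (Bpoly P Q κI Λ κ) := by
  have hn := H.hn
  have hX : ∀ g : R2, Deg (n - 1) g → Deg (2 * n - 2) (Xd Q P g) := by
    intro g hg
    have h1 : Deg (n - 1 + n - 1) (Xd Q P g) := Deg.xd' hn H.degP H.degQ hg
    exact h1.mono' (by omega)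
  have hM : ∀ g h : R2, Deg (n - 1) g → Deg (n - 1) h → Deg (2 * n - 2) (g * h) := by
    intro g h hg hh
    exact (hg.mul' hh).mono' (by omega)
  have hd := dv_deg H.degP H.degQ
  unfold Bpoly
  refine Deg.add' (Deg.cc_mul' _ ?_) (Deg.cc_mul' _ ?_)
  · refine Deg.add' (Deg.sub' (Deg.sub' (Deg.add' (hX _ H.degκI) ?_) (hM _ _ H.degκI hd)) ?_) ?_
    · rw [pow_two]; exact hM _ _ H.degκI H.degκI
    · exact Deg.cc_mul' _ (hX _ hd)
    · exact Deg.cc_mul' _ H.degΛ
  · refine Deg.add' (Deg.add' (Deg.sub' (hM _ _ H.degκI H.degκ) ?_) (hX _ H.degκ)) ?_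
    · rw [mul_assoc]; exact Deg.cc_mul' _ (hM _ _ hd H.degκ)
    · rw [pow_two]; exact hM _ _ H.degκ H.degκ

/-- values at a tangency point -/
theorem Bpoly_eval {P Q : R2} (κI Λ κ : R2) (p q x : E)
    (hr : evE x (p * x - q) P = p * evE x (p * x - q) Q) :
    evE x (p * x - q) (Bpoly P Q κI Λ κ) =
      ((evE x (p * x - q) Q * del p x (p * x - q) κI + (evE x (p * x - q) κI) ^ 2
        - evE x (p * x - q) κI * (del p x (p * x - q) Q +
            (evE x (p * x - q) (Dy P) - p * evE x (p * x - q) (Dy Q)))
        - 3 * evE x (p * x - q) Q * ((del p x (p * x - q) (Dx Q) + p * del p x (p * x - q) (Dy Q)) +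
            (del p x (p * x - q) (Dy P) - p * del p x (p * x - q) (Dy Q)))
        + 3 * evE x (p * x - q) Λ) / 6 +
      (evE x (p * x - q) κI * evE x (p * x - q) κ
        - 2 * (del p x (p * x - q) Q +
            (evE x (p * x - q) (Dy P) - p * evE x (p * x - q) (Dy Q))) * evE x (p * x - q) κ
        + evE x (p * x - q) Q * del p x (p * x - q) κ + (evE x (p * x - q) κ) ^ 2) / 2) := by
  have h6 : algebraMap ℂ E (1 / 6) = 1 / 6 := by
    rw [map_div₀, map_one, map_ofNat]
  have h2 : algebraMap ℂ E (1 / 2) = 1 / 2 := by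
    rw [map_div₀, map_one, map_ofNat]
  have h3 : algebraMap ℂ E 3 = 3 := map_ofNat _ 3
  have h2' : algebraMap ℂ E 2 = 2 := map_ofNat _ 2
  unfold Bpoly Xd dv del
  simp only [map_add, map_mul, map_sub, map_pow, evE_CC, Dx_add, Dy_add, DyDx, hr, h6, h2, h3, h2']
  ring


section root

variable {n k : ℕ} {P Q f κI Λ κ : R2} {dp dq : Derivation ℂ E E} {p q : E}

theorem web_d1 (x : E) (hr : (tangPoly P Q p q).eval x = 0) :
    (derivative (webPoly P Q f p q)).eval x =
      evE x (p * x - q) f * (derivative (tangPoly P Q p q)).eval x := by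
  rw [webPoly, derivative_mul, eval_add, eval_mul, eval_mul, hr, onLine_eval]
  ring

theorem web_d2 (x : E) (hr : (tangPoly P Q p q).eval x = 0) :
    (derivative (derivative (webPoly P Q f p q))).eval x =
      evE x (p * x - q) f * (derivative (derivative (tangPoly P Q p q))).eval x +
      2 * del p x (p * x - q) f * (derivative (tangPoly P Q p q)).eval x := by
  rw [webPoly, derivative_mul, derivative_add, derivative_mul, derivative_mul]
  simp only [eval_add, eval_mul, hr, onLine_eval, onLine_d1]
  ring

theorem web_d3 (x : E) (hr : (tangPoly P Q p q).eval x = 0) :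
    (derivative (derivative (derivative (webPoly P Q f p q)))).eval x =
      evE x (p * x - q) f * (derivative (derivative (derivative (tangPoly P Q p q)))).eval x +
      3 * del p x (p * x - q) f * (derivative (derivative (tangPoly P Q p q))).eval x +
      3 * (del p x (p * x - q) (Dx f) + p * del p x (p * x - q) (Dy f)) *
        (derivative (tangPoly P Q p q)).eval x := by
  rw [webPoly]
  simp only [derivative_mul, derivative_add]
  simp only [eval_add, eval_mul, hr, onLine_eval, onLine_d1, onLine_d2]
  ring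

theorem jet3 (hf : Xd Q P f = κ * f) (x y : E) (hr : evE x y P = p * evE x y Q) :
    evE x y Q * del p x y f = evE x y κ * evE x y f := by
  have h := congrArg (evE x y) hf
  unfold Xd at h
  simp only [map_add, map_mul, hr] at h
  unfold del
  linear_combination h

theorem jet4 (hf : Xd Q P f = κ * f) (x y : E) (hr : evE x y P = p * evE x y Q) :
    evE x y Q * (del p x y (Dx f) + p * del p x y (Dy f)) + del p x y Q * del p x y f +
      (del p x y P - p * del p x y Q) * evE x y (Dy f) =
      del p x y κ * evE x y f + evE x y κ * del p x y f := by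
  have h1 := congrArg (fun g => evE x y (Dx g)) hf
  have h2 := congrArg (fun g => evE x y (Dy g)) hf
  unfold Xd at h1 h2
  simp only [Dx_add, Dx_mul, Dy_add, Dy_mul, DyDx, map_add, map_mul, hr] at h1 h2
  unfold del
  simp only [DyDx]
  linear_combination h1 + p * h2

/-- (L1) -/
theorem root_L1 [CharZero E] (H : CoreData n k P Q f κI Λ κ) (hpq : PQ dp dq p q) (x : E)
    (hT : (tangPoly P Q p q).eval x = 0) (hD : (derivative (tangPoly P Q p q)).eval x ≠ 0)
    (hQ : evE x (p * x - q) Q ≠ 0) (hf : evE x (p * x - q) f ≠ 0) :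
    (dp x + x * dq x) * ((derivative (derivative (webPoly P Q f p q))).eval x /
        (2 * (derivative (webPoly P Q f p q)).eval x)) =
      (C (1 / 2) * (onLine p q κI - onLine p q (dv P Q)) + onLine p q κ).eval x /
        (derivative (tangPoly P Q p q)).eval x := by
  have hr : evE x (p * x - q) P = p * evE x (p * x - q) Q := by
    rw [tang_eval] at hT; linear_combination hT
  have hs : dp x + x * dq x = evE x (p * x - q) Q / (derivative (tangPoly P Q p q)).eval x := by
    rw [eq_div_iff hD]; linear_combination slope_s hpq x hT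
  have h1 := jet1 P Q κI Λ H.hQ2 H.hP2 x (p * x - q) p hr hQ
  have h3 := jet3 (p := p) H.hf x (p * x - q) hr
  rw [web_d1 x hT, web_d2 x hT, hs]
  rw [← tang_d1, ← tang_d2] at h1
  have key := alg_L1 (evE x (p * x - q) Q) (del p x (p * x - q) Q)
    (evE x (p * x - q) (Dy P) - p * evE x (p * x - q) (Dy Q))
    ((derivative (tangPoly P Q p q)).eval x) ((derivative (derivative (tangPoly P Q p q))).eval x)
    (evE x (p * x - q) κI) (evE x (p * x - q) κ) (evE x (p * x - q) f)
    (del p x (p * x - q) f) hQ hD hf h1 h3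
  rw [key]
  congr 1
  simp only [eval_add, eval_mul, eval_sub, eval_C, onLine_eval, dv, map_add]
  unfold del
  ring

/-- (L2) -/
theorem root_L2 [CharZero E] (H : CoreData n k P Q f κI Λ κ) (hpq : PQ dp dq p q) (x : E)
    (hT : (tangPoly P Q p q).eval x = 0) (hD : (derivative (tangPoly P Q p q)).eval x ≠ 0)
    (hQ : evE x (p * x - q) Q ≠ 0) (hf : evE x (p * x - q) f ≠ 0) :
    (dp x + x * dq x) * ((derivative (derivative (derivative (webPoly P Q f p q)))).eval x /
        (6 * (derivative (webPoly P Q f p q)).eval x)) =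
      evE x (p * x - q) (Bpoly P Q κI Λ κ) /
        (evE x (p * x - q) Q * (derivative (tangPoly P Q p q)).eval x) +
      1 / 2 * (dq (evE x (p * x - q) f * evE x (p * x - q) Q) /
        (evE x (p * x - q) f * evE x (p * x - q) Q)) := by
  have hr : evE x (p * x - q) P = p * evE x (p * x - q) Q := by
    rw [tang_eval] at hT; linear_combination hT
  have hs : dp x + x * dq x = evE x (p * x - q) Q / (derivative (tangPoly P Q p q)).eval x := by
    rw [eq_div_iff hD]; linear_combination slope_s hpq x hT
  have hu : dq x = (evE x (p * x - q) (Dy P) - p * evE x (p * x - q) (Dy Q)) /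
      (derivative (tangPoly P Q p q)).eval x := by
    rw [eq_div_iff hD]; linear_combination slope_q hpq x hT
  have h1 := jet1 P Q κI Λ H.hQ2 H.hP2 x (p * x - q) p hr hQ
  have h2 := jet2 P Q κI Λ H.hQ2 H.hP2 x (p * x - q) p hr
  have h3 := jet3 (p := p) H.hf x (p * x - q) hr
  have h4 := jet4 (p := p) H.hf x (p * x - q) hr
  have h5 := jet5 P Q κI Λ H.hQ2 x (p * x - q) p hr hQ
  rw [web_d1 x hT, web_d3 x hT, hs, Bpoly_eval κI Λ κ p q x hr, Derivation.leibniz, dq_ev hpq,
    dq_ev hpq, hu]
  rw [← tang_d1, ← tang_d2] at h1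
  rw [← tang_d1, ← tang_d2, ← tang_d3] at h2
  rw [← tang_d1] at h4 h5
  simp only [smul_eq_mul]
  generalize evE x (p * x - q) Q = Qv at *
  generalize del p x (p * x - q) Q = a at *
  generalize del p x (p * x - q) (Dx Q) + p * del p x (p * x - q) (Dy Q) = Q2 at *
  generalize evE x (p * x - q) (Dy P) - p * evE x (p * x - q) (Dy Q) = c at *
  generalize del p x (p * x - q) (Dy P) - p * del p x (p * x - q) (Dy Q) = c1 at *
  generalize evE x (p * x - q) (Dy Q) = Qy at *
  generalize (derivative (tangPoly P Q p q)).eval x = D1 at *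
  generalize (derivative (derivative (tangPoly P Q p q))).eval x = D2 at *
  generalize (derivative (derivative (derivative (tangPoly P Q p q)))).eval x = D3 at *
  generalize evE x (p * x - q) κI = kI at *
  generalize del p x (p * x - q) κI = kI1 at *
  generalize evE x (p * x - q) Λ = Lam at *
  generalize evE x (p * x - q) κ = kk at *
  generalize del p x (p * x - q) κ = k1 at *
  generalize evE x (p * x - q) f = fv at *
  generalize del p x (p * x - q) f = f1 at *
  generalize del p x (p * x - q) (Dx f) + p * del p x (p * x - q) (Dy f) = f2 at *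
  generalize evE x (p * x - q) (Dy f) = fy at *
  have key := alg_L2 Qv a Q2 Qy c c1 D1 D2 D3 kI kI1 Lam kk k1 fv f1 f2 fy hQ hD hf h1 h2 h3 h4 h5
  rw [key]
  congr 2
  ring

/-- (L3) -/
theorem root_L3 [CharZero E] (H : CoreData n k P Q f κI Λ κ) (hpq : PQ dp dq p q) (x : E)
    (hT : (tangPoly P Q p q).eval x = 0) (hD : (derivative (tangPoly P Q p q)).eval x ≠ 0)
    (hQ : evE x (p * x - q) Q ≠ 0) (hf : evE x (p * x - q) f ≠ 0) :
    x * (dp x + x * dq x) * ((derivative (derivative (derivative (webPoly P Q f p q)))).eval x /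
        (6 * (derivative (webPoly P Q f p q)).eval x)) =
      x * (evE x (p * x - q) (Bpoly P Q κI Λ κ) /
        (evE x (p * x - q) Q * (derivative (tangPoly P Q p q)).eval x)) -
      1 / 2 * (dp (evE x (p * x - q) f * evE x (p * x - q) Q) /
        (evE x (p * x - q) f * evE x (p * x - q) Q)) +
      1 / 2 * ((onLine p q κ + derivative (onLine p q Q)).eval x /
        (derivative (tangPoly P Q p q)).eval x) := by
  have hr : evE x (p * x - q) P = p * evE x (p * x - q) Q := by
    rw [tang_eval] at hT; linear_combination hT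
  have hs : dp x + x * dq x = evE x (p * x - q) Q / (derivative (tangPoly P Q p q)).eval x := by
    rw [eq_div_iff hD]; linear_combination slope_s hpq x hT
  have h3 := jet3 (p := p) H.hf x (p * x - q) hr
  rw [mul_assoc, root_L2 H hpq x hT hD hQ hf, Derivation.leibniz, Derivation.leibniz, dq_ev hpq,
    dq_ev hpq, dp_ev hpq, dp_ev hpq, eval_add, onLine_d1, onLine_eval]
  simp only [smul_eq_mul]
  have hdp : dp x = evE x (p * x - q) Q / (derivative (tangPoly P Q p q)).eval x - x * dq x := by
    rw [← hs]; ring
  rw [hdp]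
  generalize evE x (p * x - q) Q = Qv at *
  generalize del p x (p * x - q) Q = a at *
  generalize evE x (p * x - q) (Dy Q) = Qy at *
  generalize (derivative (tangPoly P Q p q)).eval x = D1 at *
  generalize evE x (p * x - q) κ = kk at *
  generalize evE x (p * x - q) f = fv at *
  generalize del p x (p * x - q) f = f1 at *
  generalize evE x (p * x - q) (Dy f) = fy at *
  generalize evE x (p * x - q) (Bpoly P Q κI Λ κ) = Bv at *
  have hf1 : f1 = kk * fv / Qv := by rw [eq_div_iff hQ]; linear_combination h3
  subst hf1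
  field_simp
  ring

end root

/-- the core theorem: the three vanishing statements -/
theorem flat_core {n k : ℕ} {P Q f κI Λ κ : R2} (H : CoreData n k P Q f κI Λ κ)
    {dp dq : Derivation ℂ E E} {p q : E} (hpq : PQ dp dq p q)
    {ι : Type} [Fintype ι] (x : ι → E) (hx : Function.Injective x)
    (hcard : Fintype.card ι = n + k) (hW0 : webPoly P Q f p q ≠ 0)
    (hroot : ∀ i, (webPoly P Q f p q).eval (x i) = 0)
    (hsing : ∀ t : E, evE t (p * t - q) P = 0 → evE t (p * t - q) Q = 0 → False) :
    dq (∑ i, dq (x i)) = 0 ∧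
    dq (∑ i, (dp (x i) + x i * dq (x i)) *
      ((derivative (derivative (webPoly P Q f p q))).eval (x i) /
        (2 * (derivative (webPoly P Q f p q)).eval (x i)))) = 0 ∧
    dp (∑ i, (dp (x i) + x i * dq (x i)) *
      ((derivative (derivative (derivative (webPoly P Q f p q)))).eval (x i) /
        (6 * (derivative (webPoly P Q f p q)).eval (x i)))) +
    dq (∑ i, x i * (dp (x i) + x i * dq (x i)) *
      ((derivative (derivative (derivative (webPoly P Q f p q)))).eval (x i) /
        (6 * (derivative (webPoly P Q f p q)).eval (x i)))) = 0 := by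
  classical
  have hchar : CharZero E := charZero_of_injective_algebraMap (algebraMap ℂ E).injective
  have hn := H.hn
  set T := tangPoly P Q p q with hTdef
  set F := onLine p q f with hFdef
  have hW : webPoly P Q f p q = F * T := rfl
  have hF0 : F ≠ 0 := by intro h; apply hW0; rw [hW, h, zero_mul]
  have hT0 : T ≠ 0 := by intro h; apply hW0; rw [hW, h, mul_zero]
  have hTn : T.natDegree ≤ n := by
    rw [hTdef, tangPoly]
    refine (natDegree_sub_le _ _).trans (max_le (onLine_natDegree_le H.degP p q) ?_)
    exact (natDegree_C_mul_le _ _).trans (onLine_natDegree_le H.degQ p q)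
  have hFk : F.natDegree ≤ k := onLine_natDegree_le H.degf p q
  -- the two kinds of roots
  set SF := Finset.univ.filter (fun i => T.eval (x i) = 0) with hSF
  set SC := Finset.univ.filter (fun i => ¬ T.eval (x i) = 0) with hSC
  have hsplit : SF.card + SC.card = n + k := by
    rw [hSF, hSC, Finset.card_filter_add_card_filter_not, Finset.card_univ, hcard]
  have hcount : ∀ (S : Finset ι) (D : E[X]), D ≠ 0 → (∀ i ∈ S, D.eval (x i) = 0) →
      S.card ≤ D.natDegree := by
    intro S D hD hS
    rw [← Finset.card_image_of_injective S hx]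
    apply card_le_degree_of_subset_roots
    intro y hy
    rw [Finset.mem_val, Finset.mem_image] at hy
    obtain ⟨i, hi, rfl⟩ := hy
    rw [mem_roots hD]
    exact hS i hi
  have hSFroot : ∀ i ∈ SF, T.eval (x i) = 0 := fun i hi => (Finset.mem_filter.mp hi).2
  have hSCroot : ∀ i ∈ SC, F.eval (x i) = 0 := by
    intro i hi
    have h1 := (Finset.mem_filter.mp hi).2
    have h2 := hroot i
    rw [hW, eval_mul] at h2
    exact (mul_eq_zero.mp h2).resolve_right h1
  have hSF1 := hcount SF T hT0 hSFroot
  have hSC1 := hcount SC F hF0 hSCroot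
  have hSFc : SF.card = n := by omega
  have hSCc : SC.card = k := by omega
  have hTdeg : T.natDegree = SF.card := by omega
  have hFdeg : F.natDegree = SC.card := by omega
  have hxF : Set.InjOn x SF := hx.injOn
  have hxC : Set.InjOn x SC := hx.injOn
  have hFne : ∀ i ∈ SF, F.eval (x i) ≠ 0 := by
    intro i hi h
    have h1 : i ∉ SC := by
      rw [hSC, Finset.mem_filter]
      push Not
      intro _
      exact hSFroot i hi
    have h2 := hcount (insert i SC) F hF0 (by
      intro j hj
      rw [Finset.mem_insert] at hj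
      rcases hj with rfl | hj
      · exact h
      · exact hSCroot j hj)
    rw [Finset.card_insert_of_notMem h1] at h2
    omega
  have hD := eval_derivative_root_ne SF x hxF T hT0 hTdeg hSFroot
  have hDF := eval_derivative_root_ne SC x hxC F hF0 hFdeg hSCroot
  have hQne : ∀ i ∈ SF, evE (x i) (p * x i - q) Q ≠ 0 := by
    intro i hi h
    have h1 := hSFroot i hi
    rw [hTdef, tang_eval, h, mul_zero, sub_zero] at h1
    exact hsing (x i) h1 h
  have hfne : ∀ i ∈ SF, evE (x i) (p * x i - q) f ≠ 0 := by
    intro i hi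
    rw [← onLine_eval]
    exact hFne i hi
  -- the top coefficients
  have hTc : dq (T.coeff SF.card) = 0 := by
    rw [hSFc, hTdef, tangPoly, coeff_sub, coeff_C_mul, map_sub, Derivation.leibniz,
      dq_onLine_coeff H.degP hpq.qp, dq_onLine_coeff H.degQ hpq.qp, hpq.qp]
    simp
  have hFc : dq (F.coeff SC.card) = 0 := by
    rw [hSCc]
    exact dq_onLine_coeff H.degf hpq.qp
  have hQder : dq ((derivative (onLine p q Q)).coeff (n - 1)) = 0 := by
    rw [coeff_derivative, Nat.sub_add_cancel hn, Derivation.leibniz,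
      dq_onLine_coeff H.degQ hpq.qp]
    simp
  have hs0 : ∀ i ∈ SC, dp (x i) + x i * dq (x i) = 0 := by
    intro i hi
    have h1 := (slope_curve hpq f (x i) (hSCroot i hi)).2
    exact (mul_eq_zero.mp h1).resolve_left (hDF i hi)
  refine ⟨?_, ?_, ?_⟩
  · -- sum of u
    rw [← Finset.sum_filter_add_sum_filter_not Finset.univ (fun i => T.eval (x i) = 0), map_add]
    have h1 : dq (∑ i ∈ SF, dq (x i)) = 0 := by
      have e1 : ∑ i ∈ SF, dq (x i) = ∑ i ∈ SF,
          (onLine p q (Dy P) - C p * onLine p q (Dy Q)).eval (x i) / (derivative T).eval (x i) := by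
        refine Finset.sum_congr rfl fun i hi => ?_
        rw [eq_div_iff (hD i hi), mul_comm, slope_q hpq (x i) (hSFroot i hi), eval_sub, eval_mul,
          eval_C, onLine_eval, onLine_eval]
      rw [e1]
      apply dq_lag dq SF x hxF T hT0 hTdeg hSFroot hTc
      · rw [hSFc]
        refine (natDegree_sub_le _ _).trans (max_le (onLine_natDegree_le H.degP.dy' p q) ?_)
        exact (natDegree_C_mul_le _ _).trans (onLine_natDegree_le H.degQ.dy' p q)
      · rw [hSFc, coeff_sub, coeff_C_mul, map_sub, Derivation.leibniz,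
          dq_onLine_coeff H.degP.dy' hpq.qp, dq_onLine_coeff H.degQ.dy' hpq.qp, hpq.qp]
        simp
    have h2 : dq (∑ i ∈ SC, dq (x i)) = 0 := by
      have e1 : ∑ i ∈ SC, dq (x i) = ∑ i ∈ SC,
          (onLine p q (Dy f)).eval (x i) / (derivative F).eval (x i) := by
        refine Finset.sum_congr rfl fun i hi => ?_
        rw [eq_div_iff (hDF i hi), mul_comm, (slope_curve hpq f (x i) (hSCroot i hi)).1,
          onLine_eval]
      rw [e1]
      apply dq_lag dq SC x hxC F hF0 hFdeg hSCroot hFc
      · rw [hSCc]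
        exact onLine_natDegree_le H.degf.dy' p q
      · rw [hSCc]
        exact dq_onLine_coeff H.degf.dy' hpq.qp
    rw [h1, h2, add_zero]
  · -- sum of s e1
    rw [← Finset.sum_filter_add_sum_filter_not Finset.univ (fun i => T.eval (x i) = 0), map_add]
    have h2 : ∑ i ∈ SC, (dp (x i) + x i * dq (x i)) *
      ((derivative (derivative (webPoly P Q f p q))).eval (x i) /
        (2 * (derivative (webPoly P Q f p q)).eval (x i))) = 0 :=
      Finset.sum_eq_zero fun i hi => by rw [hs0 i hi, zero_mul]
    have h1 : dq (∑ i ∈ SF, (dp (x i) + x i * dq (x i)) *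
      ((derivative (derivative (webPoly P Q f p q))).eval (x i) /
        (2 * (derivative (webPoly P Q f p q)).eval (x i)))) = 0 := by
      have e1 : ∑ i ∈ SF, (dp (x i) + x i * dq (x i)) *
          ((derivative (derivative (webPoly P Q f p q))).eval (x i) /
          (2 * (derivative (webPoly P Q f p q)).eval (x i))) = ∑ i ∈ SF,
          (C (1 / 2) * (onLine p q κI - onLine p q (dv P Q)) + onLine p q κ).eval (x i) /
            (derivative T).eval (x i) :=
        Finset.sum_congr rfl fun i hi =>
          root_L1 H hpq (x i) (hSFroot i hi) (hD i hi) (hQne i hi) (hfne i hi)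
      rw [e1]
      have hdv := dv_deg H.degP H.degQ
      apply dq_lag dq SF x hxF T hT0 hTdeg hSFroot hTc
      · rw [hSFc]
        refine (natDegree_add_le _ _).trans (max_le ?_ (onLine_natDegree_le H.degκ p q))
        refine (natDegree_C_mul_le _ _).trans ?_
        refine (natDegree_sub_le _ _).trans (max_le (onLine_natDegree_le H.degκI p q) ?_)
        exact onLine_natDegree_le hdv p q
      · have h12 : dq (1 / 2 : E) = 0 := by
          have : (1 / 2 : E) = algebraMap ℂ E (1 / 2) := by rw [map_div₀, map_one, map_ofNat]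
          rw [this, Derivation.map_algebraMap]
        rw [hSFc, coeff_add, coeff_C_mul, coeff_sub, map_add, Derivation.leibniz, map_sub,
          dq_onLine_coeff H.degκI hpq.qp, dq_onLine_coeff H.degκ hpq.qp,
          dq_onLine_coeff hdv hpq.qp, h12]
        simp
    rw [h1, h2, map_zero, add_zero]
  · -- the main sum
    rw [← Finset.sum_filter_add_sum_filter_not Finset.univ (fun i => T.eval (x i) = 0),
      ← Finset.sum_filter_add_sum_filter_not Finset.univ (fun i => T.eval (x i) = 0), map_add,
      map_add]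
    have h2 : ∑ i ∈ SC, (dp (x i) + x i * dq (x i)) *
      ((derivative (derivative (derivative (webPoly P Q f p q)))).eval (x i) /
        (6 * (derivative (webPoly P Q f p q)).eval (x i))) = 0 :=
      Finset.sum_eq_zero fun i hi => by rw [hs0 i hi, zero_mul]
    have h3 : ∑ i ∈ SC, x i * (dp (x i) + x i * dq (x i)) *
      ((derivative (derivative (derivative (webPoly P Q f p q)))).eval (x i) /
        (6 * (derivative (webPoly P Q f p q)).eval (x i))) = 0 :=
      Finset.sum_eq_zero fun i hi => by rw [hs0 i hi, mul_zero, zero_mul]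
    have e2 : ∑ i ∈ SF, (dp (x i) + x i * dq (x i)) *
        ((derivative (derivative (derivative (webPoly P Q f p q)))).eval (x i) /
        (6 * (derivative (webPoly P Q f p q)).eval (x i))) =
        ∑ i ∈ SF, (evE (x i) (p * x i - q) (Bpoly P Q κI Λ κ) /
          (evE (x i) (p * x i - q) Q * (derivative T).eval (x i)) +
        1 / 2 * (dq (evE (x i) (p * x i - q) f * evE (x i) (p * x i - q) Q) /
        (evE (x i) (p * x i - q) f * evE (x i) (p * x i - q) Q))) :=
      Finset.sum_congr rfl fun i hi =>
        root_L2 H hpq (x i) (hSFroot i hi) (hD i hi) (hQne i hi) (hfne i hi)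
    have e3 : ∑ i ∈ SF, x i * (dp (x i) + x i * dq (x i)) *
        ((derivative (derivative (derivative (webPoly P Q f p q)))).eval (x i) /
        (6 * (derivative (webPoly P Q f p q)).eval (x i))) =
        ∑ i ∈ SF, (x i * (evE (x i) (p * x i - q) (Bpoly P Q κI Λ κ) /
          (evE (x i) (p * x i - q) Q * (derivative T).eval (x i))) -
        1 / 2 * (dp (evE (x i) (p * x i - q) f * evE (x i) (p * x i - q) Q) /
        (evE (x i) (p * x i - q) f * evE (x i) (p * x i - q) Q)) +
        1 / 2 * ((onLine p q κ + derivative (onLine p q Q)).eval (x i) /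
          (derivative T).eval (x i))) :=
      Finset.sum_congr rfl fun i hi =>
        root_L3 H hpq (x i) (hSFroot i hi) (hD i hi) (hQne i hi) (hfne i hi)
    have h4 : dq (∑ i ∈ SF, (onLine p q κ + derivative (onLine p q Q)).eval (x i) /
        (derivative T).eval (x i)) = 0 := by
      apply dq_lag dq SF x hxF T hT0 hTdeg hSFroot hTc
      · rw [hSFc]
        refine (natDegree_add_le _ _).trans (max_le (onLine_natDegree_le H.degκ p q) ?_)
        refine (natDegree_derivative_le _).trans ?_
        have := onLine_natDegree_le H.degQ p q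
        omega
      · rw [hSFc, coeff_add, map_add, dq_onLine_coeff H.degκ hpq.qp, hQder, add_zero]
    have h5 : ∑ i ∈ SF, (dp (evE (x i) (p * x i - q) (Bpoly P Q κI Λ κ) /
          (evE (x i) (p * x i - q) Q * (derivative T).eval (x i))) +
        dq (x i * (evE (x i) (p * x i - q) (Bpoly P Q κI Λ κ) /
          (evE (x i) (p * x i - q) Q * (derivative T).eval (x i))))) = 0 := by
      rw [← lag_res SF x hxF T hT0 hTdeg hSFroot (onLine p q (Bpoly P Q κI Λ κ)) (by
        rw [hSFc]; exact onLine_natDegree_le (Bpoly_deg H) p q)]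
      exact Finset.sum_congr rfl fun i hi =>
        res_identity hpq _ (x i) (hSFroot i hi) (hD i hi) (hQne i hi)
    have h6 : ∑ i ∈ SF, (dp (dq (evE (x i) (p * x i - q) f * evE (x i) (p * x i - q) Q) /
        (evE (x i) (p * x i - q) f * evE (x i) (p * x i - q) Q)) -
        dq (dp (evE (x i) (p * x i - q) f * evE (x i) (p * x i - q) Q) /
        (evE (x i) (p * x i - q) f * evE (x i) (p * x i - q) Q))) = 0 :=
      Finset.sum_eq_zero fun i hi =>
        dlog_closed hpq.comm _ (mul_ne_zero (hfne i hi) (hQne i hi))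
    have h12 : ∀ (d : Derivation ℂ E E) (z : E), d (1 / 2 * z) = 1 / 2 * d z := by
      intro d z
      have : (1 / 2 : E) = algebraMap ℂ E (1 / 2) := by rw [map_div₀, map_one, map_ofNat]
      rw [this, ← Algebra.smul_def, Derivation.map_smul, Algebra.smul_def]
    rw [h2, h3, e2, e3, map_zero, map_zero, add_zero, add_zero]
    rw [Finset.sum_add_distrib, Finset.sum_add_distrib, Finset.sum_sub_distrib, ← Finset.mul_sum,
      ← Finset.mul_sum, ← Finset.mul_sum, map_add, map_add, map_sub, h12, h12, h12, h4]
    rw [Finset.sum_add_distrib, ← map_sum, ← map_sum] at h5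
    rw [Finset.sum_sub_distrib, ← map_sum, ← map_sum] at h6
    linear_combination h5 + 1 / 2 * h6

end

end Pool.Agent.Lib.MP_5bde83_ag
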