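import Pool.Agent.Lib.MP_5bde83_ag.FlatBase

/-!
Part B (flatness), definitions for the core theorem.
-/

namespace Pool.Agent.Lib.MP_5bde83_ag

open Polynomial

noncomputable section

/-- Hypotheses on the chart: `X = Q ∂x + P ∂y` has degree `n` with `I = Q X(P) - P X(Q)` invariant
(in the form of the relations `hQ2`, `hP2`), `f` is an invariant curve of degree `≤ k`. -/
structure CoreData (n k : ℕ) (P Q f κI Λ κ : R2) : Prop where
  hn : 1 ≤ n
  degP : Deg n P
  degQ : Deg n Q
  degf : Deg k f
  degκI : Deg (n - 1) κI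
  degΛ : Deg (2 * n - 2) Λ
  degκ : Deg (n - 1) κ
  hQ2 : Xd Q P (Xd Q P Q) = κI * Xd Q P Q + Λ * Q
  hP2 : Xd Q P (Xd Q P P) = κI * Xd Q P P + Λ * P
  hf : Xd Q P f = κ * f

variable {E : Type} [Field E] [Algebra ℂ E]

/-- a field with two commuting derivations and coordinates `p, q` -/
structure PQ (dp dq : Derivation ℂ E E) (p q : E) : Prop where
  comm : ∀ z, dp (dq z) = dq (dp z)
  pp : dp p = 1
  pq : dp q = 0
  qp : dq p = 0
  qq : dq q = 1

/-- the polynomial `P - p Q` restricted to the line `y = p x - q` -/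
def tangPoly (P Q : R2) (p q : E) : E[X] := onLine p q P - C p * onLine p q Q

/-- the web polynomial -/
def webPoly (P Q f : R2) (p q : E) : E[X] := onLine p q f * tangPoly P Q p q

end

end Pool.Agent.Lib.MP_5bde83_ag
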