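import Mathlib

/-!
# An algebraically closed field with two commuting derivations

An algebraically closed field over `ℂ` with two commuting derivations `∂p`, `∂q` and elements
`p`, `q` with `∂p p = ∂q q = 1`, `∂p q = ∂q p = 0`: the algebraic closure of `ℂ(p, q)`.
-/

namespace Pool.Agent.Lib.MP_5bde83_ag

open KaehlerDifferential TensorProduct

/-- A derivation into a formally étale extension field (ring) extends. -/
theorem fv_extend {k R S : Type} [CommRing k] [CommRing R] [CommRing S] [Algebra k R]
    [Algebra k S] [Algebra R S] [IsScalarTower k R S] [Algebra.FormallyEtale R S]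
    (d : Derivation k R S) :
    ∃ D' : Derivation k S S, ∀ r : R, D' (algebraMap R S r) = d r := by
  let e := KaehlerDifferential.tensorKaehlerEquivOfFormallyEtale k R S
  let l : S ⊗[R] Ω[R⁄k] →ₗ[S] S := LinearMap.liftBaseChange S d.liftKaehlerDifferential
  refine ⟨(l ∘ₗ e.symm.toLinearMap).compDer (KaehlerDifferential.D k S), fun r => ?_⟩
  have h1 : ((l ∘ₗ e.symm.toLinearMap).compDer (KaehlerDifferential.D k S))
      (algebraMap R S r) = l (e.symm (KaehlerDifferential.D k S (algebraMap R S r))) := rfl
  rw [h1, KaehlerDifferential.tensorKaehlerEquivOfFormallyEtale_symm_D_algebraMap]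
  change (LinearMap.liftBaseChange S d.liftKaehlerDifferential) (1 ⊗ₜ[R] _) = _
  rw [LinearMap.liftBaseChange_tmul, Derivation.liftKaehlerDifferential_comp_D, one_smul]

/-- A derivation of a formally unramified extension is determined on the base. -/
theorem fv_zero {k R S : Type} [CommRing k] [CommRing R] [CommRing S] [Algebra k R]
    [Algebra k S] [Algebra R S] [IsScalarTower k R S] [Algebra.FormallyUnramified R S]
    (d : Derivation k S S) (h : ∀ r : R, d (algebraMap R S r) = 0) (z : S) : d z = 0 := by
  have hs : ∀ (r : R) (x : S), d (r • x) = r • d x := by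
    intro r x
    rw [Algebra.smul_def, Derivation.leibniz, h r, smul_zero, add_zero, algebraMap_smul]
  let d' : Derivation R S S :=
    { toFun := d
      map_add' := map_add d
      map_smul' := hs
      map_one_eq_zero' := d.map_one_eq_zero
      leibniz' := d.leibniz }
  have h1 : d' z = d'.liftKaehlerDifferential (KaehlerDifferential.D R S z) :=
    (Derivation.liftKaehlerDifferential_comp_D d' z).symm
  have := Algebra.FormallyUnramified.subsingleton_kaehlerDifferential (R := R) (A := S)
  rw [Subsingleton.elim (KaehlerDifferential.D R S z) 0, map_zero] at h1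
  exact h1

theorem exists_diff_field :
    ∃ (E : Type) (_ : Field E) (_ : Algebra ℂ E) (dp dq : Derivation ℂ E E) (p q : E),
      IsAlgClosed E ∧ (∀ z, dp (dq z) = dq (dp z)) ∧
        dp p = 1 ∧ dp q = 0 ∧ dq p = 0 ∧ dq q = 1 := by
  classical
  let R0 := MvPolynomial (Fin 2) ℂ
  let K := FractionRing R0
  let E := AlgebraicClosure K
  have : Algebra.FormallyEtale R0 K :=
    Algebra.FormallyEtale.of_isLocalization (nonZeroDivisors R0)
  have : Algebra.FormallyEtale K E := Algebra.FormallyEtale.of_isSeparable K E
  have : Algebra.FormallyEtale R0 E := Algebra.FormallyEtale.comp R0 K E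
  obtain ⟨dp, hp⟩ := fv_extend (k := ℂ) (R := R0) (S := E)
    (MvPolynomial.mkDerivation ℂ ![1, 0])
  obtain ⟨dq, hq⟩ := fv_extend (k := ℂ) (R := R0) (S := E)
    (MvPolynomial.mkDerivation ℂ ![0, 1])
  have hp0 : dp (algebraMap R0 E (MvPolynomial.X 0)) = 1 := by
    rw [hp, MvPolynomial.mkDerivation_X]; rfl
  have hp1 : dp (algebraMap R0 E (MvPolynomial.X 1)) = 0 := by
    rw [hp, MvPolynomial.mkDerivation_X]; rfl
  have hq0 : dq (algebraMap R0 E (MvPolynomial.X 0)) = 0 := by
    rw [hq, MvPolynomial.mkDerivation_X]; rfl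
  have hq1 : dq (algebraMap R0 E (MvPolynomial.X 1)) = 1 := by
    rw [hq, MvPolynomial.mkDerivation_X]; rfl
  refine ⟨E, inferInstance, inferInstance, dp, dq, algebraMap R0 E (MvPolynomial.X 0),
    algebraMap R0 E (MvPolynomial.X 1), inferInstance, ?_, hp0, hp1, hq0, hq1⟩
  have hbr : ∀ r : R0, (⁅dp, dq⁆ : Derivation ℂ E E) (algebraMap R0 E r) = 0 := by
    intro r
    have h2 : (⁅dp, dq⁆ : Derivation ℂ E E).compAlgebraMap R0 = 0 := by
      apply MvPolynomial.derivation_ext
      intro i
      fin_cases i
      · change (⁅dp, dq⁆ : Derivation ℂ E E) (algebraMap R0 E (MvPolynomial.X 0)) = 0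
        rw [Derivation.commutator_apply, hp0, hq0, map_zero, Derivation.map_one_eq_zero, sub_zero]
      · change (⁅dp, dq⁆ : Derivation ℂ E E) (algebraMap R0 E (MvPolynomial.X 1)) = 0
        rw [Derivation.commutator_apply, hp1, hq1, map_zero, Derivation.map_one_eq_zero, sub_zero]
    have h3 := congrArg (fun D : Derivation ℂ R0 E => D r) h2
    exact h3
  intro z
  have h4 := fv_zero (k := ℂ) (R := R0) (S := E) ⁅dp, dq⁆ hbr z
  rw [Derivation.commutator_apply] at h4
  exact sub_eq_zero.mp h4

end Pool.Agent.Lib.MP_5bde83_ag
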