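import Pool.Agent.Lib.MP_5bde83_ag.WrapA
import Pool.Agent.Lib.MP_5bde83_ag.ConvG
import Pool.Agent.Lib.MP_5bde83_ag.CenterEx

/-!
Points of the moving line in the chart of a frame.
-/

namespace Pool.Agent.Lib.MP_5bde83_ag

open Polynomial

noncomputable section

variable {E : Type} [Field E] [Algebra ℂ E]
variable {n : ℕ} {ω : Fin 3 → MvPolynomial (Fin 3) ℂ}

theorem wr_evE (x y : E) (e1 e2 s : Fin 3 → ℂ) (F : MvPolynomial (Fin 3) ℂ) :
    evE x y (MvPolynomial.aeval (pt e1 e2 s) F) =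
      MvPolynomial.aeval (fun j => x * algebraMap ℂ E (e1 j) + y * algebraMap ℂ E (e2 j) +
        algebraMap ℂ E (s j)) F := by
  rw [evAux_hom (evE x y) (fun c => evE_CC x y c)]
  have h : (fun j => (evE x y) (pt e1 e2 s j)) = fun j => x * algebraMap ℂ E (e1 j) +
      y * algebraMap ℂ E (e2 j) + algebraMap ℂ E (s j) := by
    funext j
    simp only [pt, map_add, map_mul, evE_CC, evE_CX, evE_X]
    ring
  rw [h]

theorem wr_hom {F : MvPolynomial (Fin 3) ℂ} {m : ℕ} (hF : F.IsHomogeneous m) (c : E)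
    (v : Fin 3 → E) :
    MvPolynomial.aeval (fun j => c * v j) F = c ^ m * MvPolynomial.aeval v F := by
  rw [MvPolynomial.aeval_def, MvPolynomial.aeval_def, MvPolynomial.eval₂_eq',
    MvPolynomial.eval₂_eq', Finset.mul_sum]
  refine Finset.sum_congr rfl fun d hd => ?_
  have hdm : d 0 + d 1 + d 2 = m := by
    have h1 := hF (MvPolynomial.mem_support_iff.mp hd)
    rw [Finsupp.weight_apply, Finsupp.sum_fintype _ _ (by simp)] at h1
    simpa [Fin.sum_univ_three] using h1
  simp only [Fin.prod_univ_three, mul_pow]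
  rw [← hdm, pow_add, pow_add]
  ring

/-- the restriction of a form to the line at infinity of a frame -/
def infR (e1 e2 : Fin 3 → ℂ) (F : MvPolynomial (Fin 3) ℂ) : ℂ[X] :=
  MvPolynomial.aeval (fun j => C (e2 j) * X + C (e1 j) : Fin 3 → ℂ[X]) F

theorem infR_aeval (e1 e2 : Fin 3 → ℂ) (F : MvPolynomial (Fin 3) ℂ) (t : E) :
    aeval t (infR e1 e2 F) = MvPolynomial.aeval (fun j => algebraMap ℂ E (e1 j) +
      t * algebraMap ℂ E (e2 j)) F := by
  have h : ((aeval t : ℂ[X] →ₐ[ℂ] E).comp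
      (MvPolynomial.aeval (fun j => C (e2 j) * X + C (e1 j) : Fin 3 → ℂ[X]))) =
      MvPolynomial.aeval (fun j => algebraMap ℂ E (e1 j) + t * algebraMap ℂ E (e2 j)) := by
    apply MvPolynomial.algHom_ext
    intro j
    simp
    ring
  exact congrArg (fun g : MvPolynomial (Fin 3) ℂ →ₐ[ℂ] E => g F) h

theorem infR_eval (e1 e2 : Fin 3 → ℂ) (F : MvPolynomial (Fin 3) ℂ) (t : ℂ) :
    (infR e1 e2 F).eval t = MvPolynomial.eval (e1 + t • e2) F := by
  have h := infR_aeval (E := ℂ) e1 e2 F t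
  rw [coe_aeval_eq_eval] at h
  rw [h, ← MvPolynomial.coe_aeval_eq_eval]
  rfl

/-- degree drop -/
theorem wr_deg_drop {F : MvPolynomial (Fin 3) ℂ} {k : ℕ} (hF : F.IsHomogeneous k)
    (e1 e2 s : Fin 3 → ℂ) (h0 : infR e1 e2 F = 0) :
    Deg (k - 1) (MvPolynomial.aeval (pt e1 e2 s) F) := by
  obtain ⟨h1, -, h3⟩ := evAux_homog e1 e2 s hF
  have h4 : (MvPolynomial.aeval (pt s e2 e1) F).map (evalRingHom (0 : ℂ)) = infR e1 e2 F := by
    have h5 := evAux_hom (mapRingHom (evalRingHom (0 : ℂ)) : R2 →+* ℂ[X])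
      (fun c => by simp) s e2 e1 F
    rw [coe_mapRingHom] at h5
    have h6 : (fun j => (pt s e2 e1 j).map (evalRingHom (0 : ℂ))) =
        fun j => C (e2 j) * X + C (e1 j) := by
      funext j
      simp [pt]
    rw [h5, infR, h6]
  intro i j hij
  have h6 := h1 i j hij
  by_contra hlt
  push Not at hlt
  have hk : i + j + 0 = k := by omega
  apply hij
  rw [h3 i j 0 hk]
  have h7 := congrArg (fun g : ℂ[X] => g.coeff j) h4
  simp only [coeff_map, h0, coeff_zero, coe_evalRingHom] at h7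
  rwa [coeff_zero_eq_eval_zero]

theorem wr_k_pos {F : MvPolynomial (Fin 3) ℂ} {k : ℕ} (hF : F.IsHomogeneous k) (hF0 : F ≠ 0)
    (e1 e2 : Fin 3 → ℂ) (h0 : infR e1 e2 F = 0) : 1 ≤ k := by
  by_contra hk
  have hk0 : k = 0 := by omega
  subst hk0
  have h1 : F = MvPolynomial.C (MvPolynomial.coeff 0 F) :=
    MvPolynomial.totalDegree_eq_zero_iff_eq_C.1 (Nat.le_zero.1 hF.totalDegree_le)
  rw [h1, infR, MvPolynomial.aeval_C] at h0
  have h2 : MvPolynomial.coeff 0 F = 0 := by
    have := (map_eq_zero_iff (algebraMap ℂ ℂ[X]) (algebraMap ℂ ℂ[X]).injective).1 h0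
    exact this
  apply hF0
  rw [h1, h2, map_zero]

/-- `ω` in the direction of an invariant line vanishes on it -/
theorem wr_inv_dir (l e1 e2 : Fin 3 → ℂ) (hl : InvLine ω l) (h1 : dot l e1 = 0)
    (h2 : dot l e2 = 0) (w : Fin 3 → ℂ) (hw : dot l w = 0) :
    ∑ j, C (w j) * infR e1 e2 (ω j) = 0 := by
  apply poly_zero_of_eval
  intro t _
  rw [eval_finsetSum]
  simp only [eval_mul, eval_C, infR_eval]
  obtain ⟨c, hc⟩ := hl.2 (e1 + t • e2) (by rw [dot_add, dot_smul, h1, h2]; ring)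
  have h3 : ∑ j, w j * MvPolynomial.eval (e1 + t • e2) (ω j) =
      dot (evv ω (e1 + t • e2)) w := by
    unfold dot evv
    exact Finset.sum_congr rfl fun j _ => mul_comm _ _
  rw [h3, hc, smul_dot, hw, mul_zero]

/-- `ω` does not vanish identically on an invariant line -/
theorem wr_inv_tr (h : IsFol n ω) (l e1 e2 s : Fin 3 → ℂ) (hl : InvLine ω l)
    (ht : tri e1 e2 s ≠ 0) (h1 : dot l e1 = 0) (h2 : dot l e2 = 0) :
    ∑ j, C (s j) * infR e1 e2 (ω j) ≠ 0 := by
  intro h0
  have hs : dot l s ≠ 0 := fun h3 => hl.1 (eq_zero_of_dots ht h1 h2 h3)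
  have key : ∀ t : ℂ, evv ω (e1 + t • e2) = 0 := by
    intro t
    obtain ⟨c, hc⟩ := hl.2 (e1 + t • e2) (by rw [dot_add, dot_smul, h1, h2]; ring)
    have h4 := congrArg (eval t) h0
    rw [eval_finsetSum, eval_zero] at h4
    simp only [eval_mul, eval_C, infR_eval] at h4
    have h3 : ∑ j, s j * MvPolynomial.eval (e1 + t • e2) (ω j) =
        dot (evv ω (e1 + t • e2)) s := by
      unfold dot evv
      exact Finset.sum_congr rfl fun j _ => mul_comm _ _
    rw [h3, hc, smul_dot] at h4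
    rw [hc, (mul_eq_zero.1 h4).resolve_right hs, zero_smul]
  have key2 : ∀ a b : ℂ, a ≠ 0 → evv ω (a • e1 + b • e2) = 0 := by
    intro a b ha
    have h5 : a • e1 + b • e2 = a • (e1 + (b / a) • e2) := by
      rw [smul_add, smul_smul, mul_div_cancel₀ _ ha]
    rw [h5, evv_smul h.hom, key, smul_zero]
  have key3 : ∀ a b : ℂ, evv ω (a • e1 + b • e2) = 0 := by
    intro a b
    by_cases ha : a = 0
    · subst ha
      funext j
      have h6 : infR (b • e2) e1 (ω j) = 0 := by
        apply poly_zero_of_eval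
        intro t ht0
        rw [infR_eval]
        have h7 := congrFun (key2 t b ht0) j
        rw [add_comm]
        exact h7
      have h8 := congrArg (eval 0) h6
      rw [infR_eval, eval_zero, zero_smul, add_zero] at h8
      rw [zero_smul, zero_add]
      exact h8
    · exact key2 a b ha
  obtain ⟨p, hp1, hp2⟩ := noline_of_fol h l hl.1
  obtain ⟨a, b, c, rfl⟩ := frame_decomp ht p
  have hc : c = 0 := by
    rw [dot_add, dot_add, dot_smul, dot_smul, dot_smul, h1, h2] at hp1
    simp only [mul_zero, zero_add] at hp1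
    exact (mul_eq_zero.mp hp1).resolve_right hs
  apply hp2
  rw [hc, zero_smul, add_zero, key3]

variable {dp dq : Derivation ℂ E E} {p q : E}

/-- a point at infinity is not a tangency point -/
theorem wr_inf_tang (h : IsFol n ω) (l e1 e2 s : Fin 3 → ℂ) (hl : InvLine ω l)
    (ht : tri e1 e2 s ≠ 0) (h1 : dot l e1 = 0) (h2 : dot l e2 = 0)
    {P Q : E} {dP dQ : Derivation ℂ E E} (hPQ : PQ dP dQ P Q) (x : E) (hx : x ≠ 0)
    (htan : ∑ j, (-Q * algebraMap ℂ E (e2 j) + algebraMap ℂ E (s j)) *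
      MvPolynomial.aeval (fun j => x * (algebraMap ℂ E (e1 j) + P * algebraMap ℂ E (e2 j)))
        (ω j) = 0) : False := by
  have a1 := congrArg (aeval P) (wr_inv_dir l e1 e2 hl h1 h2 e2 h2)
  have a2 := wr_aeval_ne hPQ (wr_inv_tr h l e1 e2 s hl ht h1 h2)
  rw [map_sum, map_zero] at a1
  rw [map_sum] at a2
  simp only [map_mul, aeval_C, infR_aeval] at a1 a2
  apply a2
  have h3 : ∀ j, MvPolynomial.aeval (fun j => x * (algebraMap ℂ E (e1 j) +
      P * algebraMap ℂ E (e2 j))) (ω j) = x ^ (n + 1) * MvPolynomial.aeval (fun j =>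
      algebraMap ℂ E (e1 j) + P * algebraMap ℂ E (e2 j)) (ω j) := fun j =>
    wr_hom (h.hom j) x _
  simp only [h3] at htan
  have h4 : x ^ (n + 1) * ∑ j, algebraMap ℂ E (s j) * MvPolynomial.aeval (fun j =>
      algebraMap ℂ E (e1 j) + P * algebraMap ℂ E (e2 j)) (ω j) = 0 := by
    rw [Fin.sum_univ_three] at htan a1 ⊢
    linear_combination htan + Q * x ^ (n + 1) * a1
  exact (mul_eq_zero.1 h4).resolve_left (pow_ne_zero _ hx)

/-- a point of the curve at infinity -/
theorem wr_inf_curve {F : MvPolynomial (Fin 3) ℂ} {k : ℕ} (hF : F.IsHomogeneous k)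
    (e1 e2 : Fin 3 → ℂ) {P Q : E} {dP dQ : Derivation ℂ E E} (hPQ : PQ dP dQ P Q) (x : E)
    (hx : x ≠ 0) (h0 : MvPolynomial.aeval (fun j => x * (algebraMap ℂ E (e1 j) +
      P * algebraMap ℂ E (e2 j))) F = 0) : infR e1 e2 F = 0 := by
  by_contra hne
  have a2 := wr_aeval_ne hPQ hne
  rw [infR_aeval] at a2
  rw [wr_hom hF] at h0
  exact a2 ((mul_eq_zero.1 h0).resolve_left (pow_ne_zero _ hx))

/-- degree of the restriction to a line -/
theorem wr_onLine_natDegree (p q : E) {k : ℕ} {h : R2} (hk : Deg k h) :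
    (onLine p q h).natDegree ≤ k := by
  have h1 : onLine p q h = ∑ j ∈ Finset.range (h.natDegree + 1),
      (h.coeff j).map (algebraMap ℂ E) * (C p * X - C q) ^ j := by
    conv_lhs => rw [h.as_sum_range_C_mul_X_pow]
    rw [map_sum]
    refine Finset.sum_congr rfl fun j _ => ?_
    rw [map_mul, map_pow, onLine_C, onLine_X]
  rw [h1]
  refine natDegree_sum_le_of_forall_le _ _ fun j _ => ?_
  by_cases hj : h.coeff j = 0
  · rw [hj, Polynomial.map_zero, zero_mul, natDegree_zero]; exact Nat.zero_le _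
  · refine natDegree_mul_le.trans ?_
    have h2 : ((C p * X - C q : E[X]) ^ j).natDegree ≤ j := by
      refine natDegree_pow_le.trans ?_
      have : (C p * X - C q : E[X]).natDegree ≤ 1 := by
        compute_degree
      nlinarith
    have h3 : ((h.coeff j).map (algebraMap ℂ E)).natDegree = (h.coeff j).natDegree :=
      natDegree_map _
    have h4 : (h.coeff j).natDegree + j ≤ k :=
      hk _ j (by rw [coeff_natDegree]; exact leadingCoeff_ne_zero.2 hj)
    omega

end

end Pool.Agent.Lib.MP_5bde83_ag
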