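import Pool.Agent.Lib.MP_5bde83_ag.Mg.G004
import Pool.Agent.Lib.MP_5bde83_ag.WrapB

/-!
Part B (flatness): the web polynomial on a generic line has degree `n + k` and distinct roots, in an
arbitrary chart whose line at infinity is not contained in the curve.
-/

namespace Pool.Agent.Lib.MP_5bde83_ag

open Polynomial

set_option linter.unusedSimpArgs false
set_option linter.unusedSectionVars false

noncomputable section

variable {E : Type} [Field E] [Algebra ℂ E]
variable {n : ℕ} {ω : Fin 3 → MvPolynomial (Fin 3) ℂ} {ℓ : Fin (3 * n) → Fin 3 → ℂ}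

theorem topY_eq_infR {F : MvPolynomial (Fin 3) ℂ} {k : ℕ} (hF : F.IsHomogeneous k)
    (e1 e2 s : Fin 3 → ℂ) :
    topY k (MvPolynomial.aeval (pt e1 e2 s) F) = infR e1 e2 F := by
  obtain ⟨h1, h2, h3⟩ := evAux_homog e1 e2 s hF
  have h4 : (MvPolynomial.aeval (pt s e2 e1) F).map (evalRingHom (0 : ℂ)) = infR e1 e2 F := by
    have h5 := evAux_hom (mapRingHom (evalRingHom (0 : ℂ)) : R2 →+* ℂ[X])
      (fun c => by simp) s e2 e1 F
    rw [coe_mapRingHom] at h5
    have h6 : (fun j => (pt s e2 e1 j).map (evalRingHom (0 : ℂ))) =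
        fun j => C (e2 j) * X + C (e1 j) := by
      funext j
      simp [pt]
    rw [h5, infR, h6]
  ext j
  rw [← h4, coeff_map, coe_evalRingHom, ← coeff_zero_eq_eval_zero]
  by_cases hj : j ≤ k
  · rw [topY_coeff _ _ _ hj]
    exact h3 (k - j) j 0 (by omega)
  · have e1' : (topY k (MvPolynomial.aeval (pt e1 e2 s) F)).coeff j = 0 := by
      simp only [topY, finsetSum_coeff, coeff_C_mul, coeff_X_pow]
      apply Finset.sum_eq_zero
      intro i hi
      have := Finset.mem_range.1 hi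
      rw [if_neg (by omega), mul_zero]
    rw [e1']
    by_contra hne
    have := h2 0 j (fun h => hne h.symm)
    omega

/-- degree of the equation of the curve on the generic line -/
theorem onLine_curve {F : MvPolynomial (Fin 3) ℂ} {k : ℕ} (hF : F.IsHomogeneous k)
    (e1 e2 s : Fin 3 → ℂ) (hinf : infR e1 e2 F ≠ 0)
    {dp dq : Derivation ℂ E E} {p q : E} (hpq : PQ dp dq p q) :
    (onLine p q (MvPolynomial.aeval (pt e1 e2 s) F)).coeff k ≠ 0 ∧
      (onLine p q (MvPolynomial.aeval (pt e1 e2 s) F)).natDegree = k := by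
  have hd := Deg.hom' e1 e2 s hF
  have h1 : (onLine p q (MvPolynomial.aeval (pt e1 e2 s) F)).coeff k ≠ 0 := by
    rw [onLine_coeff_top p q k _ hd, topY_eq_infR hF]
    exact hpq.p_transc _ hinf
  exact ⟨h1, le_antisymm (wr_onLine_natDegree p q hd) (le_natDegree_of_ne_zero h1)⟩

/-- degree of the tangency polynomial on the generic line, arbitrary chart -/
theorem tangPoly_deg (h : IsFol n ω) (e1 e2 s : Fin 3 → ℂ) (ht : tri e1 e2 s ≠ 0)
    {dp dq : Derivation ℂ E E} {p q : E} (hpq : PQ dp dq p q) :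
    (tangPoly (-ev ω e1 e2 s e1) (ev ω e1 e2 s e2) p q).coeff n ≠ 0 ∧
      (tangPoly (-ev ω e1 e2 s e1) (ev ω e1 e2 s e2) p q).natDegree = n := by
  have hA : Deg (n + 1) (ev ω e1 e2 s e1) := ev_deg h.hom e1 e2 s e1
  have hB : Deg (n + 1) (ev ω e1 e2 s e2) := ev_deg h.hom e1 e2 s e2
  have hS : Deg (n + 1) (ev ω e1 e2 s s) := ev_deg h.hom e1 e2 s s
  set T := tangPoly (-ev ω e1 e2 s e1) (ev ω e1 e2 s e2) p q with hT
  have hrel : X * T = onLine p q (ev ω e1 e2 s s) - C q * onLine p q (ev ω e1 e2 s e2) := by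
    have he := congrArg (onLine p q) (ev_euler h.euler e1 e2 s)
    rw [map_add, map_add, map_mul, map_mul, onLine_CX, onLine_X, map_zero] at he
    rw [hT]
    unfold tangPoly
    rw [map_neg]
    linear_combination (-1 : E[X]) * he
  have hcoeff : ∀ m, T.coeff m = (onLine p q (ev ω e1 e2 s s)).coeff (m + 1) -
      q * (onLine p q (ev ω e1 e2 s e2)).coeff (m + 1) := by
    intro m
    have := congrArg (fun f : E[X] => f.coeff (m + 1)) hrel
    simpa only [coeff_X_mul, coeff_sub, coeff_C_mul] using this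
  have hle : T.natDegree ≤ n := by
    rw [natDegree_le_iff_coeff_eq_zero]
    intro m hm
    rw [hcoeff, coeff_eq_zero_of_natDegree_lt, coeff_eq_zero_of_natDegree_lt, mul_zero, sub_zero]
    · exact (wr_onLine_natDegree p q hB).trans_lt (by omega)
    · exact (wr_onLine_natDegree p q hS).trans_lt (by omega)
  have hne : T.coeff n ≠ 0 := by
    rw [hcoeff, onLine_coeff_top p q (n + 1) _ hS, onLine_coeff_top p q (n + 1) _ hB]
    intro h0
    have hdqa : ∀ g : ℂ[X], dq (aeval p g) = 0 := by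
      intro g
      rw [Derivation.map_aeval, hpq.qp, smul_zero]
    have h1 := congrArg dq h0
    rw [map_sub, Derivation.leibniz, hdqa, hdqa, hpq.qq, map_zero] at h1
    simp only [smul_zero, smul_eq_mul, mul_one, mul_zero, zero_add, zero_sub, neg_eq_zero] at h1
    rw [h1, mul_zero, sub_zero] at h0
    have hB0 : topY (n + 1) (ev ω e1 e2 s e2) = 0 := by
      by_contra hne
      exact hpq.p_transc _ hne h1
    have hS0 : topY (n + 1) (ev ω e1 e2 s s) = 0 := by
      by_contra hne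
      exact hpq.p_transc _ hne h0
    have hBn : Deg n (ev ω e1 e2 s e2) := by
      by_contra hne
      exact topY_ne_zero hB hne hB0
    have hSn : Deg n (ev ω e1 e2 s s) := by
      by_contra hne
      exact topY_ne_zero hS hne hS0
    have hx : (phi 1 1 (C X : R2)).natDegree = 1 := by
      rw [phi_CX, pow_one]
      exact natDegree_C_mul_X _ X_ne_zero
    have hy : Deg 1 (X : R2) := by
      rw [Deg_iff, phi_X, pow_one]
      exact natDegree_X_le
    have hAn : Deg n (ev ω e1 e2 s e1) := by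
      have he := ev_euler h.euler e1 e2 s
      have h3 : C X * ev ω e1 e2 s e1 = -(X * ev ω e1 e2 s e2 + ev ω e1 e2 s s) := by
        linear_combination he
      have h4 : Deg (1 + n) (C X * ev ω e1 e2 s e1) := by
        rw [h3]
        exact ((hy.mul' hBn).add' (hSn.mono' (by omega))).neg'
      refine Deg.of_mul' h4 ?_ hx.ge
      exact C_ne_zero.2 X_ne_zero
    have hl : crs e1 e2 ≠ 0 := by
      intro h
      apply ht
      rw [← dot_crs, h]
      simp [dot]
    refine (lform_irr _ hl).not_isUnit (h.cop _ fun j => ?_)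
    refine lf_dvd_of_deg _ e1 e2 s ht hl (by rw [dot_crs, tri_self1]) (by rw [dot_crs, tri_self2])
      (h.hom j) ?_
    have hj := aeval_comb (ω := ω) e1 e2 s (Pi.single j 1) ht hAn hBn hSn
    have : ev ω e1 e2 s (Pi.single j 1) = MvPolynomial.aeval (pt e1 e2 s) (ω j) := by
      unfold ev
      rw [Finset.sum_eq_single j]
      · simp
      · intro i _ hij
        simp [hij]
      · simp
    rw [← this]
    exact hj
  exact ⟨hne, le_antisymm hle (le_natDegree_of_ne_zero hne)⟩

/-- tangency points are simple -/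
theorem tang_simple (G : GData n ω ℓ) (hn : 1 ≤ n) (e1 e2 s : Fin 3 → ℂ)
    (ht : tri e1 e2 s ≠ 0) {dp dq : Derivation ℂ E E} {p q : E} (hpq : PQ dp dq p q) (t : E)
    (h0 : (tangPoly (-ev ω e1 e2 s e1) (ev ω e1 e2 s e2) p q).eval t = 0) :
    (derivative (tangPoly (-ev ω e1 e2 s e1) (ev ω e1 e2 s e2) p q)).eval t ≠ 0 := by
  intro h1
  set A := ev ω e1 e2 s e1 with hA
  set B := ev ω e1 e2 s e2 with hB
  have a0 : evE t (p * t - q) A = -(p * evE t (p * t - q) B) := by
    unfold tangPoly at h0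
    rw [eval_sub, eval_mul, eval_C, onLine_eval, onLine_eval, map_neg] at h0
    linear_combination -h0
  have a1 : evE t (p * t - q) (Dx A) + p * evE t (p * t - q) (Dy A) +
      p * (evE t (p * t - q) (Dx B) + p * evE t (p * t - q) (Dy B)) = 0 := by
    unfold tangPoly at h1
    rw [derivative_sub, derivative_C_mul, onLine_derivative, onLine_derivative, eval_sub, eval_add,
      eval_mul, eval_mul, eval_C, eval_add, eval_mul, eval_C, onLine_eval, onLine_eval,
      onLine_eval, onLine_eval, Dx_neg, Dy_neg, map_neg, map_neg] at h1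
    linear_combination -h1
  have hI : evE t (p * t - q) (Infl A B) = 0 := by
    unfold Infl
    simp only [map_sub, map_mul]
    rw [a0]
    linear_combination (-(evE t (p * t - q) B) ^ 2) * a1
  obtain ⟨c, hc, hIe⟩ := G.infl
  rw [hIe, map_mul, map_prod, evE_CC] at hI
  have hc0 : algebraMap ℂ E (c * tri e1 e2 s ^ 2) ≠ 0 := by
    rw [Ne, map_eq_zero]
    exact mul_ne_zero hc (pow_ne_zero 2 ht)
  obtain ⟨i, -, hi⟩ := Finset.prod_eq_zero_iff.1 ((mul_eq_zero.1 hI).resolve_left hc0)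
  have hw : dot (ℓ i) ((dot (ℓ i) e1) • e2 + (-(dot (ℓ i) e2)) • e1) = 0 := by
    simp only [dot, Fin.sum_univ_three, Pi.add_apply, Pi.smul_apply, smul_eq_mul]
    ring
  obtain ⟨g, -, hg⟩ := ev_dvd G.fol (ℓ i) e1 e2 s _ (G.inv i) hw
  rw [ev_add, ev_smul, ev_smul] at hg
  have h3 := congrArg (evE t (p * t - q)) hg
  rw [map_mul, hi, zero_mul, map_add, map_mul, map_mul, evE_CC, evE_CC, ← hA, ← hB, a0] at h3
  have h4 : evE t (p * t - q) B * (algebraMap ℂ E (dot (ℓ i) e1) +
      algebraMap ℂ E (dot (ℓ i) e2) * p) = 0 := by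
    rw [map_neg] at h3
    linear_combination h3
  have h5 : algebraMap ℂ E (dot (ℓ i) e1) + algebraMap ℂ E (dot (ℓ i) e2) * p ≠ 0 := by
    intro h6
    by_cases hz : (C (dot (ℓ i) e2) * X + C (dot (ℓ i) e1) : ℂ[X]) = 0
    · have z1 := congrArg (fun f : ℂ[X] => f.coeff 1) hz
      have z2 := congrArg (fun f : ℂ[X] => f.coeff 0) hz
      simp at z1 z2
      have h7 := dot_s_ne ht (G.inv i).1 z2 z1
      have : evE t (p * t - q) (Lin (lc (ℓ i) e1 e2 s)) = algebraMap ℂ E (dot (ℓ i) s) := by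
        simp [Lin, lc, z1, z2]
      rw [this, map_eq_zero] at hi
      exact h7 hi
    · apply hpq.p_transc _ hz
      rw [map_add, map_mul, aeval_C, aeval_C, aeval_X]
      linear_combination h6
  have h8 := (mul_eq_zero.1 h4).resolve_right h5
  apply no_sing G hn e1 e2 s ht hpq t
  · rw [map_neg, ← hA, a0, h8]; ring
  · rw [← hB]; exact h8

/-- points of a reduced curve on the generic line are simple -/
theorem curve_simple {f : R2} (hf : f ≠ 0) (hsq : Squarefree f)
    {dp dq : Derivation ℂ E E} {p q : E} (hpq : PQ dp dq p q) (t : E)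
    (h0 : (onLine p q f).eval t = 0) : (derivative (onLine p q f)).eval t ≠ 0 := by
  intro h1
  rw [onLine_eval] at h0
  rw [onLine_derivative, eval_add, eval_mul, eval_C, onLine_eval, onLine_eval] at h1
  have h2 := congrArg dq h0
  rw [deriv_evE, map_sub, Derivation.leibniz, hpq.qp, hpq.qq, map_zero] at h2
  simp only [smul_zero, add_zero, smul_eq_mul] at h2
  have hy : evE t (p * t - q) (Dy f) = 0 := by linear_combination dq t * h1 - h2
  have hx : evE t (p * t - q) (Dx f) = 0 := by rw [hy] at h1; linear_combination h1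
  exact sqfree_no_sing hf hsq hpq t h0 hx hy

theorem curve_dvd (e1 e2 s : Fin 3 → ℂ) (F : MvPolynomial (Fin 3) ℂ) (hF : InvCurve ω F) :
    (MvPolynomial.aeval (pt e1 e2 s) F : R2) ∣
      Xd (ev ω e1 e2 s e2) (-ev ω e1 e2 s e1) (MvPolynomial.aeval (pt e1 e2 s) F) := by
  have hsum : Xd (ev ω e1 e2 s e2) (-ev ω e1 e2 s e1) (MvPolynomial.aeval (pt e1 e2 s) F) =
      ∑ k, ∑ j, C (C (e1 k)) * C (C (e2 j)) * (MvPolynomial.aeval (pt e1 e2 s)
        (ω j * MvPolynomial.pderiv k F - ω k * MvPolynomial.pderiv j F)) := by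
    unfold Xd
    rw [ie_Dx_aeval, ie_Dy_aeval]
    simp only [ie_Dx_pt, ie_Dy_pt]
    unfold ev
    simp only [Fin.sum_univ_three, map_sub, map_mul]
    ring
  rw [hsum]
  refine Finset.dvd_sum fun k _ => Finset.dvd_sum fun j _ => ?_
  obtain ⟨q, hq⟩ := hF j k
  rw [hq, map_mul]
  exact (Dvd.intro _ rfl).mul_left _

/-- the roots of the web polynomial are simple -/
theorem web_simple (G : GData n ω ℓ) (hn : 1 ≤ n) (e1 e2 s : Fin 3 → ℂ) (ht : tri e1 e2 s ≠ 0)
    (k : ℕ) (F : MvPolynomial (Fin 3) ℂ) (hF : F.IsHomogeneous k) (hsq : Squarefree F)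
    (hinv : InvCurve ω F) {dp dq : Derivation ℂ E E} {p q : E} (hpq : PQ dp dq p q) (t : E)
    (h0 : (webPoly (-ev ω e1 e2 s e1) (ev ω e1 e2 s e2) (MvPolynomial.aeval (pt e1 e2 s) F)
      p q).eval t = 0) :
    (derivative (webPoly (-ev ω e1 e2 s e1) (ev ω e1 e2 s e2) (MvPolynomial.aeval (pt e1 e2 s) F)
      p q)).eval t ≠ 0 := by
  have hf0 : (MvPolynomial.aeval (pt e1 e2 s) F : R2) ≠ 0 := fun h =>
    hsq.ne_zero (aeval_pt_inj e1 e2 s ht hF h)
  have hsf := sqfree_aeval e1 e2 s ht hF hsq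
  set f : R2 := MvPolynomial.aeval (pt e1 e2 s) F with hf
  set D := tangPoly (-ev ω e1 e2 s e1) (ev ω e1 e2 s e2) p q with hD
  have hnot : ¬ ((onLine p q f).eval t = 0 ∧ D.eval t = 0) := by
    rintro ⟨hz1, hz2⟩
    obtain ⟨κ, hκ⟩ := curve_dvd (ω := ω) e1 e2 s F hinv
    rw [← hf] at hκ
    have h3 := congrArg (evE t (p * t - q)) hκ
    rw [map_mul, ← onLine_eval p q t f, hz1, zero_mul] at h3
    unfold Xd at h3
    rw [map_add, map_mul, map_mul, map_neg] at h3
    have a0 : evE t (p * t - q) (ev ω e1 e2 s e1) =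
        -(p * evE t (p * t - q) (ev ω e1 e2 s e2)) := by
      rw [hD] at hz2
      unfold tangPoly at hz2
      rw [eval_sub, eval_mul, eval_C, onLine_eval, onLine_eval, map_neg] at hz2
      linear_combination -hz2
    rw [a0] at h3
    have h4 : evE t (p * t - q) (ev ω e1 e2 s e2) *
        (evE t (p * t - q) (Dx f) + p * evE t (p * t - q) (Dy f)) = 0 := by
      linear_combination h3
    rcases mul_eq_zero.1 h4 with h5 | h5
    · apply no_sing G hn e1 e2 s ht hpq t _ h5
      rw [map_neg, a0, h5]; ring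
    · apply curve_simple hf0 hsf hpq t hz1
      rw [onLine_derivative, eval_add, eval_mul, eval_C, onLine_eval, onLine_eval]
      exact h5
  unfold webPoly at h0 ⊢
  rw [← hD] at h0 ⊢
  rw [derivative_mul, eval_add, eval_mul, eval_mul]
  rw [eval_mul] at h0
  rcases mul_eq_zero.1 h0 with h1 | h1
  · rw [h1, zero_mul, add_zero]
    refine mul_ne_zero (curve_simple hf0 hsf hpq t h1) ?_
    intro h2
    exact hnot ⟨h1, h2⟩
  · rw [h1, mul_zero, zero_add]
    refine mul_ne_zero ?_ (tang_simple G hn e1 e2 s ht hpq t h1)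
    intro h2
    exact hnot ⟨h2, h1⟩

/-- a polynomial of degree `d` with simple roots has `d` distinct roots -/
theorem exists_inj_roots [IsAlgClosed E] (W : E[X]) (d : ℕ) (hd : W.natDegree = d) (hW : W ≠ 0)
    (hs : ∀ t, W.eval t = 0 → (derivative W).eval t ≠ 0) :
    ∃ x : Fin d → E, Function.Injective x ∧ ∀ i, W.eval (x i) = 0 := by
  classical
  have hnodup : W.roots.Nodup := by
    rw [Multiset.nodup_iff_count_le_one]
    intro a
    rw [count_roots]
    by_contra hlt
    push Not at hlt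
    have h1 := (one_lt_rootMultiplicity_iff_isRoot hW).1 hlt
    exact hs a h1.1 h1.2
  have hcard : W.roots.toFinset.card = d := by
    rw [Multiset.toFinset_card_of_nodup hnodup, ← hd]
    exact (splits_iff_card_roots.1 (IsAlgClosed.splits W))
  refine ⟨fun i => ((Finset.equivFinOfCardEq hcard).symm i : E), ?_, ?_⟩
  · intro i j hij
    exact (Finset.equivFinOfCardEq hcard).symm.injective (Subtype.ext hij)
  · intro i
    have := ((Finset.equivFinOfCardEq hcard).symm i).2
    rw [Multiset.mem_toFinset, mem_roots hW] at this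
    exact this

/-- the web polynomial in a chart whose line at infinity is not contained in the curve -/
theorem webPoly_deg (h : IsFol n ω) (e1 e2 s : Fin 3 → ℂ) (ht : tri e1 e2 s ≠ 0)
    (k : ℕ) (F : MvPolynomial (Fin 3) ℂ) (hF : F.IsHomogeneous k) (hinf : infR e1 e2 F ≠ 0)
    {dp dq : Derivation ℂ E E} {p q : E} (hpq : PQ dp dq p q) :
    webPoly (-ev ω e1 e2 s e1) (ev ω e1 e2 s e2) (MvPolynomial.aeval (pt e1 e2 s) F) p q ≠ 0 ∧
    (webPoly (-ev ω e1 e2 s e1) (ev ω e1 e2 s e2) (MvPolynomial.aeval (pt e1 e2 s) F)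
      p q).natDegree = n + k := by
  obtain ⟨a1, a2⟩ := onLine_curve hF e1 e2 s hinf hpq
  obtain ⟨b1, b2⟩ := tangPoly_deg h e1 e2 s ht hpq
  have a0 : onLine p q (MvPolynomial.aeval (pt e1 e2 s) F) ≠ 0 := by
    intro h0; rw [h0, coeff_zero] at a1; exact a1 rfl
  have b0 : tangPoly (-ev ω e1 e2 s e1) (ev ω e1 e2 s e2) p q ≠ 0 := by
    intro h0; rw [h0, coeff_zero] at b1; exact b1 rfl
  unfold webPoly
  exact ⟨mul_ne_zero a0 b0, by rw [natDegree_mul a0 b0, a2, b2, add_comm]⟩

/-- existence of the slopes -/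
theorem exists_roots [IsAlgClosed E] (G : GData n ω ℓ) (hn : 1 ≤ n) (e1 e2 s : Fin 3 → ℂ)
    (ht : tri e1 e2 s ≠ 0) (k : ℕ) (F : MvPolynomial (Fin 3) ℂ) (hF : F.IsHomogeneous k)
    (hsq : Squarefree F) (hinv : InvCurve ω F) {dp dq : Derivation ℂ E E} {p q : E}
    (hpq : PQ dp dq p q) :
    (infR e1 e2 F ≠ 0 → ∃ x : Fin (n + k) → E, Function.Injective x ∧ ∀ i,
      (webPoly (-ev ω e1 e2 s e1) (ev ω e1 e2 s e2) (MvPolynomial.aeval (pt e1 e2 s) F)
        p q).eval (x i) = 0) ∧
    (infR e1 e2 F = 0 → ∃ x : Fin (n + (k - 1)) → E, Function.Injective x ∧ ∀ i,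
      (webPoly (-ev ω e1 e2 s e1) (ev ω e1 e2 s e2) (MvPolynomial.aeval (pt e1 e2 s) F)
        p q).eval (x i) = 0) := by
  have hs := fun t => web_simple G hn e1 e2 s ht k F hF hsq hinv hpq t
  constructor
  · intro hinf
    obtain ⟨h1, h2⟩ := webPoly_deg G.fol e1 e2 s ht k F hF hinf hpq
    exact exists_inj_roots _ _ h2 h1 hs
  · intro hinf
    have hk := wr_k_pos hF hsq.ne_zero e1 e2 hinf
    obtain ⟨k', rfl⟩ : ∃ k', k = k' + 1 := ⟨k - 1, by omega⟩
    rw [Nat.add_sub_cancel]
    have hl : crs e1 e2 ≠ 0 := by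
      intro h
      apply ht
      rw [← dot_crs, h]
      simp [dot]
    have hl1 : dot (crs e1 e2) e1 = 0 := by rw [dot_crs, tri_self1]
    have hl2 : dot (crs e1 e2) e2 = 0 := by rw [dot_crs, tri_self2]
    have hd := wr_deg_drop hF e1 e2 s hinf
    rw [Nat.add_sub_cancel] at hd
    obtain ⟨F', hF'⟩ := lf_dvd_of_deg _ e1 e2 s ht hl hl1 hl2 hF hd
    have hF1 : F'.IsHomogeneous k' := by
      rw [hF', add_comm k' 1] at hF
      exact hom_quot (lform_hom _) (lform_ne_zero _ hl) hF
    have hinf' : infR e1 e2 F' ≠ 0 := by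
      intro h0
      have hk' := wr_k_pos hF1 (by rintro rfl; rw [mul_zero] at hF'; exact hsq.ne_zero hF') e1 e2 h0
      obtain ⟨k'', rfl⟩ : ∃ k'', k' = k'' + 1 := ⟨k' - 1, by omega⟩
      have hd' := wr_deg_drop hF1 e1 e2 s h0
      rw [Nat.add_sub_cancel] at hd'
      obtain ⟨F'', hF''⟩ := lf_dvd_of_deg _ e1 e2 s ht hl hl1 hl2 hF1 hd'
      have : lf (crs e1 e2) * lf (crs e1 e2) ∣ F := ⟨F'', by rw [hF', hF'']; ring⟩
      exact (lform_irr _ hl).not_isUnit (hsq _ this)
    obtain ⟨h1, h2⟩ := webPoly_deg G.fol e1 e2 s ht k' F' hF1 hinf' hpq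
    have hc : algebraMap ℂ E (tri e1 e2 s) ≠ 0 := by rwa [Ne, map_eq_zero]
    have hW : webPoly (-ev ω e1 e2 s e1) (ev ω e1 e2 s e2) (MvPolynomial.aeval (pt e1 e2 s) F)
        p q = C (algebraMap ℂ E (tri e1 e2 s)) *
        webPoly (-ev ω e1 e2 s e1) (ev ω e1 e2 s e2) (MvPolynomial.aeval (pt e1 e2 s) F') p q := by
      unfold webPoly
      rw [hF', map_mul, map_mul]
      have : onLine p q (MvPolynomial.aeval (pt e1 e2 s) (lf (crs e1 e2)) : R2) =
          C (algebraMap ℂ E (tri e1 e2 s)) := by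
        rw [aeval_lf]
        simp only [Lin, lc, dot_crs, tri_self1, tri_self2, Matrix.cons_val_zero,
          Matrix.cons_val_one, Matrix.cons_val, map_zero, zero_mul, zero_add]
        rw [onLine_C, map_C]
      rw [this]; ring
    refine exists_inj_roots _ _ ?_ ?_ hs
    · rw [hW, natDegree_C_mul hc, h2]
    · rw [hW]
      exact mul_ne_zero (C_ne_zero.2 hc) h1

end

end Pool.Agent.Lib.MP_5bde83_ag
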