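import Pool.Agent.Lib.MP_5bde83_ag.Biv

namespace Pool.Agent.Lib.MP_5bde83_ag

open Polynomial

noncomputable section

/-- the moving point `x e1 + y e2 + s` -/
def pt (e1 e2 s : Fin 3 → ℂ) : Fin 3 → R2 :=
  fun j => C (C (e1 j)) * C X + C (C (e2 j)) * X + C (C (s j))

/-- the value of the 1-form `ω` at the point `x e1 + y e2 + s` on the vector `w` -/
def ev (ω : Fin 3 → MvPolynomial (Fin 3) ℂ) (e1 e2 s w : Fin 3 → ℂ) : R2 :=
  ∑ j, C (C (w j)) * MvPolynomial.aeval (pt e1 e2 s) (ω j)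

/-- the value of `ω` at a point of `ℂ^3` -/
def evv (ω : Fin 3 → MvPolynomial (Fin 3) ℂ) (p : Fin 3 → ℂ) : Fin 3 → ℂ :=
  fun j => MvPolynomial.eval p (ω j)

/-- dot product -/
def dot (u v : Fin 3 → ℂ) : ℂ := ∑ j, u j * v j

/-- triple product (determinant) -/
def tri (a b c : Fin 3 → ℂ) : ℂ :=
  a 0 * (b 1 * c 2 - b 2 * c 1) - a 1 * (b 0 * c 2 - b 2 * c 0) + a 2 * (b 0 * c 1 - b 1 * c 0)

/-- the linear form `l` defines an invariant line of `ω` -/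
def InvLine (ω : Fin 3 → MvPolynomial (Fin 3) ℂ) (l : Fin 3 → ℂ) : Prop :=
  l ≠ 0 ∧ ∀ p, dot l p = 0 → ∃ c : ℂ, evv ω p = c • l

/-- two vectors are proportional (as points of the plane or as lines), both nonzero in practice -/
def Par (u v : Fin 3 → ℂ) : Prop := ∃ c : ℂ, c ≠ 0 ∧ u = c • v

/-- the line data of a chart -/
def lc (l e1 e2 s : Fin 3 → ℂ) : Fin 3 → ℂ := ![dot l e1, dot l e2, dot l s]

/-- a foliation of degree `n` given by a homogeneous 1-form -/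
structure IsFol (n : ℕ) (ω : Fin 3 → MvPolynomial (Fin 3) ℂ) : Prop where
  hom : ∀ j, (ω j).IsHomogeneous (n + 1)
  euler : ∑ j, MvPolynomial.X j * ω j = 0
  cop : ∀ d, (∀ j, d ∣ ω j) → IsUnit d

/-- `ω` with all its invariant lines, counted with multiplicity in the inflection divisor -/
structure GData (n : ℕ) (ω : Fin 3 → MvPolynomial (Fin 3) ℂ) (ℓ : Fin (3 * n) → Fin 3 → ℂ) :
    Prop where
  fol : IsFol n ω
  noline : ∀ l : Fin 3 → ℂ, l ≠ 0 → ∃ p, dot l p = 0 ∧ evv ω p ≠ 0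
  inv : ∀ i, InvLine ω (ℓ i)
  infl : ∃ c : ℂ, c ≠ 0 ∧ ∀ e1 e2 s : Fin 3 → ℂ,
    Infl (ev ω e1 e2 s e1) (ev ω e1 e2 s e2) =
      C (C (c * tri e1 e2 s ^ 2)) * ∏ i, Lin (lc (ℓ i) e1 e2 s)

/-- there is a point where `ω` vanishes to order `≥ n` -/
def Star (n : ℕ) (ω : Fin 3 → MvPolynomial (Fin 3) ℂ) : Prop :=
  ∃ e1 e2 s : Fin 3 → ℂ, tri e1 e2 s ≠ 0 ∧ Ord 1 1 n (ev ω e1 e2 s e1) ∧
    Ord 1 1 n (ev ω e1 e2 s e2)

end

end Pool.Agent.Lib.MP_5bde83_ag
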