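import Pool.Agent.Lib.MP_5bde83_ag.Geo

namespace Pool.Agent.Lib.MP_5bde83_ag

open MvPolynomial

noncomputable section

/-- vector field `v` with `ω = R × v` -/
def vf (n : ℕ) (ω : Fin 3 → MvPolynomial (Fin 3) ℂ) : Fin 3 → MvPolynomial (Fin 3) ℂ :=
  ![C (-1 / ((n : ℂ) + 2)) * (pderiv 1 (ω 2) - pderiv 2 (ω 1)),
    C (-1 / ((n : ℂ) + 2)) * (pderiv 2 (ω 0) - pderiv 0 (ω 2)),
    C (-1 / ((n : ℂ) + 2)) * (pderiv 0 (ω 1) - pderiv 1 (ω 0))]

/-- the homogeneous inflection polynomial, of degree `3 n` -/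
def I3 (n : ℕ) (ω : Fin 3 → MvPolynomial (Fin 3) ℂ) : MvPolynomial (Fin 3) ℂ :=
  - ∑ i, ∑ j, vf n ω i * vf n ω j * pderiv j (ω i)

variable {n : ℕ} {ω : Fin 3 → MvPolynomial (Fin 3) ℂ}

/-! ### Basic relations -/

/-- Euler's identity for the components of the form -/
theorem ie_euler (h : IsFol n ω) (i : Fin 3) :
    X 0 * pderiv 0 (ω i) + X 1 * pderiv 1 (ω i) + X 2 * pderiv 2 (ω i) =
      ((n : MvPolynomial (Fin 3) ℂ) + 1) * ω i := by
  have := (h.hom i).sum_X_mul_pderiv
  rw [Fin.sum_univ_three] at this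
  rw [this]
  simp [nsmul_eq_mul]

theorem ie_contr (h : IsFol n ω) : X 0 * ω 0 + X 1 * ω 1 + X 2 * ω 2 = 0 := by
  have := h.euler
  rwa [Fin.sum_univ_three] at this

theorem ie_contr_deriv (h : IsFol n ω) (k : Fin 3) :
    ω k + X 0 * pderiv k (ω 0) + X 1 * pderiv k (ω 1) + X 2 * pderiv k (ω 2) = 0 := by
  have h1 := congrArg (pderiv k) (ie_contr h)
  simp only [map_add, pderiv_mul, map_zero, pderiv_X] at h1
  fin_cases k <;> simp at h1 ⊢ <;> linear_combination h1

theorem ie_const (n : ℕ) : (C (-1 / ((n : ℂ) + 2)) : MvPolynomial (Fin 3) ℂ) *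
    ((n : MvPolynomial (Fin 3) ℂ) + 2) = -1 := by
  have h1 : ((n : MvPolynomial (Fin 3) ℂ) + 2) = C ((n : ℂ) + 2) := by
    rw [map_add, map_natCast, map_ofNat]
  have h2 : (n : ℂ) + 2 ≠ 0 := by
    have : ((n + 2 : ℕ) : ℂ) ≠ 0 := Nat.cast_ne_zero.2 (by omega)
    simpa using this
  rw [h1, ← C_mul, div_mul_cancel₀ _ h2]
  simp

theorem omega_eq_cross (h : IsFol n ω) :
    ω 0 = X 1 * vf n ω 2 - X 2 * vf n ω 1 ∧ ω 1 = X 2 * vf n ω 0 - X 0 * vf n ω 2 ∧
      ω 2 = X 0 * vf n ω 1 - X 1 * vf n ω 0 := by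
  have hc := ie_const n
  have e0 := ie_euler h 0
  have e1 := ie_euler h 1
  have e2 := ie_euler h 2
  have d0 := ie_contr_deriv h 0
  have d1 := ie_contr_deriv h 1
  have d2 := ie_contr_deriv h 2
  simp only [vf, Matrix.cons_val]
  set c : MvPolynomial (Fin 3) ℂ := C (-1 / ((n : ℂ) + 2)) with hcdef
  refine ⟨?_, ?_, ?_⟩
  · linear_combination (ω 0) * hc + c * e0 - c * d0
  · linear_combination (ω 1) * hc + c * e1 - c * d1
  · linear_combination (ω 2) * hc + c * e2 - c * d2

theorem ie_vf_hom (h : IsFol n ω) (i : Fin 3) : (vf n ω i).IsHomogeneous n := by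
  have hd : ∀ j k : Fin 3, (pderiv k (ω j)).IsHomogeneous n := fun j k => by
    simpa using (h.hom j).pderiv (i := k)
  fin_cases i <;> simp only [vf] <;> exact ((hd _ _).sub (hd _ _)).C_mul _

theorem I3_hom (h : IsFol n ω) : (I3 n ω).IsHomogeneous (3 * n) := by
  have hd : ∀ j k : Fin 3, (pderiv k (ω j)).IsHomogeneous n := fun j k => by
    simpa using (h.hom j).pderiv (i := k)
  have e : 3 * n = n + n + n := by ring
  rw [e]
  refine (IsHomogeneous.sum _ _ _ fun i _ => IsHomogeneous.sum _ _ _ fun j _ => ?_).neg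
  exact ((ie_vf_hom h i).mul (ie_vf_hom h j)).mul (hd _ _)

/-! ### The quadratic form -/

/-- quadratic form identity: `p` and `v` are orthogonal in a strong sense -/
theorem ie_quad {R : Type*} [CommRing R] (p v a : Fin 3 → R) (D : Fin 3 → Fin 3 → R) (N α β : R)
    (h0 : a 0 = p 1 * v 2 - p 2 * v 1) (h1 : a 1 = p 2 * v 0 - p 0 * v 2)
    (h2 : a 2 = p 0 * v 1 - p 1 * v 0)
    (hE : ∀ i, p 0 * D i 0 + p 1 * D i 1 + p 2 * D i 2 = N * a i)
    (hC : ∀ k, a k + p 0 * D 0 k + p 1 * D 1 k + p 2 * D 2 k = 0) :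
    ∑ i, ∑ j, (α * p i + β * v i) * (α * p j + β * v j) * D i j =
      β ^ 2 * ∑ i, ∑ j, v i * v j * D i j := by
  simp only [Fin.sum_univ_three]
  have e0 := hE 0
  have e1 := hE 1
  have e2 := hE 2
  have c0 := hC 0
  have c1 := hC 1
  have c2 := hC 2
  rw [h0] at e0 c0
  rw [h1] at e1 c1
  rw [h2] at e2 c2
  linear_combination (α ^ 2 * p 0 + α * β * v 0) * e0 + (α ^ 2 * p 1 + α * β * v 1) * e1 +
    (α ^ 2 * p 2 + α * β * v 2) * e2 + α * β * v 0 * c0 + α * β * v 1 * c1 + α * β * v 2 * c2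

/-- the values of the derivatives at a point -/
theorem ie_point (h : IsFol n ω) {R : Type*} [CommRing R] [Algebra ℂ R] (P : Fin 3 → R)
    (α β : R) :
    ∑ i, ∑ j, (α * P i + β * aeval P (vf n ω i)) * (α * P j + β * aeval P (vf n ω j)) *
        aeval P (pderiv j (ω i)) = - (β ^ 2 * aeval P (I3 n ω)) := by
  obtain ⟨h0, h1, h2⟩ := omega_eq_cross h
  have := ie_quad (R := R) P (fun i => aeval P (vf n ω i)) (fun i => aeval P (ω i))
    (fun i j => aeval P (pderiv j (ω i))) ((n : R) + 1) α β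
    (by have := congrArg (aeval P) h0; simpa using this)
    (by have := congrArg (aeval P) h1; simpa using this)
    (by have := congrArg (aeval P) h2; simpa using this)
    (by intro i; have := congrArg (aeval P) (ie_euler h i); simpa using this)
    (by intro k; have := congrArg (aeval P) (ie_contr_deriv h k); simpa using this)
  rw [this, I3]
  simp only [map_neg, map_sum, map_mul]
  ring

/-! ### Chain rule -/

theorem ie_chain {R : Type*} [CommRing R] [Algebra ℂ R] (δ : R → R)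
    (hadd : ∀ a b, δ (a + b) = δ a + δ b) (hmul : ∀ a b, δ (a * b) = δ a * b + a * δ b)
    (hC : ∀ c : ℂ, δ (algebraMap ℂ R c) = 0) (P : Fin 3 → R) (F : MvPolynomial (Fin 3) ℂ) :
    δ (aeval P F) = ∑ k, aeval P (pderiv k F) * δ (P k) := by
  induction F using MvPolynomial.induction_on with
  | C a =>
    rw [MvPolynomial.aeval_C, hC, Finset.sum_eq_zero]
    intro k _
    rw [pderiv_C, map_zero, zero_mul]
  | add p q hp hq =>
    rw [map_add, hadd, hp, hq, ← Finset.sum_add_distrib]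
    refine Finset.sum_congr rfl fun k _ => ?_
    rw [map_add, map_add, add_mul]
  | mul_X p i hp =>
    have e : ∀ k, aeval P (pderiv k (p * X i)) * δ (P k) =
        aeval P (pderiv k p) * δ (P k) * P i +
          (if k = i then aeval P p * δ (P k) else 0) := by
      intro k
      rw [pderiv_mul, map_add, map_mul, map_mul, aeval_X]
      by_cases hk : k = i
      · subst hk
        rw [pderiv_X_self, map_one, if_pos rfl]
        ring
      · rw [pderiv_X_of_ne (Ne.symm hk), map_zero, if_neg hk]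
        ring
    rw [map_mul, aeval_X, hmul, hp, Finset.sum_congr rfl (fun k _ => e k),
      Finset.sum_add_distrib, Finset.sum_mul, Finset.sum_ite_eq' Finset.univ i]
    simp

theorem ie_Dx_aeval (P : Fin 3 → R2) (F : MvPolynomial (Fin 3) ℂ) :
    Dx (aeval P F) = ∑ k, aeval P (pderiv k F) * Dx (P k) :=
  ie_chain Dx Dx_add Dx_mul Dx_CC P F

theorem ie_Dy_aeval (P : Fin 3 → R2) (F : MvPolynomial (Fin 3) ℂ) :
    Dy (aeval P F) = ∑ k, aeval P (pderiv k F) * Dy (P k) :=
  ie_chain Dy Dy_add Dy_mul (fun c => Dy_C (Polynomial.C c)) P F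

theorem ie_Dx_pt (e1 e2 s : Fin 3 → ℂ) (k : Fin 3) :
    Dx (pt e1 e2 s k) = Polynomial.C (Polynomial.C (e1 k)) := by
  unfold pt
  rw [Dx_add, Dx_add, Dx_CC, Dx_CC_mul, Dx_CC_mul, Dx_X, Dx_CX]
  ring

theorem ie_Dy_pt (e1 e2 s : Fin 3 → ℂ) (k : Fin 3) :
    Dy (pt e1 e2 s k) = Polynomial.C (Polynomial.C (e2 k)) := by
  unfold pt
  rw [Dy_add, Dy_add, Dy_C, Dy_C_mul, Dy_C_mul, Dy_X, Dy_C]
  ring

theorem ie_Dx_ev (e1 e2 s w : Fin 3 → ℂ) : Dx (ev ω e1 e2 s w) =
    ∑ i, Polynomial.C (Polynomial.C (w i)) * ∑ k, aeval (pt e1 e2 s) (pderiv k (ω i)) *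
      Polynomial.C (Polynomial.C (e1 k)) := by
  unfold ev
  rw [Dx_sum]
  refine Finset.sum_congr rfl fun i _ => ?_
  rw [Dx_CC_mul, ie_Dx_aeval]
  simp only [ie_Dx_pt]

theorem ie_Dy_ev (e1 e2 s w : Fin 3 → ℂ) : Dy (ev ω e1 e2 s w) =
    ∑ i, Polynomial.C (Polynomial.C (w i)) * ∑ k, aeval (pt e1 e2 s) (pderiv k (ω i)) *
      Polynomial.C (Polynomial.C (e2 k)) := by
  unfold ev
  rw [Dy_sum]
  refine Finset.sum_congr rfl fun i _ => ?_
  rw [Dy_C_mul, ie_Dy_aeval]
  simp only [ie_Dy_pt]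

/-- the inflection polynomial in every chart -/
theorem Infl_ev (h : IsFol n ω) (e1 e2 s : Fin 3 → ℂ) :
    Infl (ev ω e1 e2 s e1) (ev ω e1 e2 s e2) =
      Polynomial.C (Polynomial.C (tri e1 e2 s ^ 2)) * aeval (pt e1 e2 s) (I3 n ω) := by
  set P := pt e1 e2 s with hP
  set K : ℂ → R2 := fun c => Polynomial.C (Polynomial.C c) with hK
  have hKm : ∀ a b, K (a * b) = K a * K b := fun a b => by simp [hK]
  have hKa : ∀ a b, K (a + b) = K a + K b := fun a b => by simp [hK]
  have hKs : ∀ a b, K (a - b) = K a - K b := fun a b => by simp [hK]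
  set u : Fin 3 → R2 := ![K (e1 1) * K (e2 2) - K (e1 2) * K (e2 1),
    K (e1 2) * K (e2 0) - K (e1 0) * K (e2 2), K (e1 0) * K (e2 1) - K (e1 1) * K (e2 0)] with hu
  set d : R2 := K (tri e1 e2 s) with hd
  set v : Fin 3 → R2 := fun i => aeval P (vf n ω i) with hv
  set t : R2 := v 0 * u 0 + v 1 * u 1 + v 2 * u 2 with ht
  have hq := ie_point h P (-t) d
  obtain ⟨h0, h1, h2⟩ := omega_eq_cross h
  have a0 : aeval P (ω 0) = P 1 * v 2 - P 2 * v 1 := by
    have := congrArg (aeval P) h0; simpa using this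
  have a1 : aeval P (ω 1) = P 2 * v 0 - P 0 * v 2 := by
    have := congrArg (aeval P) h1; simpa using this
  have a2 : aeval P (ω 2) = P 0 * v 1 - P 1 * v 0 := by
    have := congrArg (aeval P) h2; simpa using this
  have hA : ev ω e1 e2 s e1 = K (e1 0) * aeval P (ω 0) + K (e1 1) * aeval P (ω 1) +
      K (e1 2) * aeval P (ω 2) := by
    simp only [ev, Fin.sum_univ_three, hK, hP]
  have hB : ev ω e1 e2 s e2 = K (e2 0) * aeval P (ω 0) + K (e2 1) * aeval P (ω 1) +
      K (e2 2) * aeval P (ω 2) := by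
    simp only [ev, Fin.sum_univ_three, hK, hP]
  set A := ev ω e1 e2 s e1 with hAd
  set B := ev ω e1 e2 s e2 with hBd
  -- the vector `w = B e1 - A e2`
  have hw : ∀ i, B * K (e1 i) - A * K (e2 i) = -t * P i + d * v i := by
    intro i
    have hPi : ∀ j, P j = K (e1 j) * Polynomial.C Polynomial.X + K (e2 j) * Polynomial.X + K (s j) :=
      fun j => rfl
    rw [hA, hB, a0, a1, a2, hd, ht, hu, tri]
    simp only [hKa, hKs, hKm, Matrix.cons_val]
    rw [hPi 0, hPi 1, hPi 2]
    fin_cases i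
    · simp only [Fin.zero_eta, hPi 0]
      ring
    · simp only [Fin.mk_one, hPi 1]
      ring
    · simp only [Fin.reduceFinMk, hPi 2]
      ring
  have hKd : Polynomial.C (Polynomial.C (tri e1 e2 s ^ 2)) = d ^ 2 := by
    simp [hd, hK]
  rw [hKd, ← neg_neg (d ^ 2 * _), ← hq]
  have hq2 : ∑ i, ∑ j, (-t * P i + d * v i) * (-t * P j + d * v j) * aeval P (pderiv j (ω i)) =
      ∑ i, ∑ j, (B * K (e1 i) - A * K (e2 i)) * (B * K (e1 j) - A * K (e2 j)) *
        aeval P (pderiv j (ω i)) := by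
    simp only [hw]
  rw [hq2]
  unfold Infl
  rw [hAd, hBd, ie_Dx_ev, ie_Dx_ev, ie_Dy_ev, ie_Dy_ev, ← hAd, ← hBd]
  simp only [Fin.sum_univ_three]
  ring

/-- `D_w ω (p) · w` -/
def dd (ω : Fin 3 → MvPolynomial (Fin 3) ℂ) (p w : Fin 3 → ℂ) : ℂ :=
  ∑ i, ∑ j, w i * w j * eval p (pderiv j (ω i))

theorem ie_aeval_eq (p : Fin 3 → ℂ) (F : MvPolynomial (Fin 3) ℂ) : aeval p F = eval p F := by
  rfl

theorem ie_dd (h : IsFol n ω) (p : Fin 3 → ℂ) (α β : ℂ) :
    dd ω p (fun i => α * p i + β * eval p (vf n ω i)) = - (β ^ 2 * eval p (I3 n ω)) := by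
  have := ie_point h p α β
  simp only [ie_aeval_eq] at this
  exact this

theorem ie_dd_smul (ω : Fin 3 → MvPolynomial (Fin 3) ℂ) (p w : Fin 3 → ℂ) (c : ℂ) :
    dd ω p (fun i => c * w i) = c ^ 2 * dd ω p w := by
  unfold dd
  rw [Finset.mul_sum]
  refine Finset.sum_congr rfl fun i _ => ?_
  rw [Finset.mul_sum]
  exact Finset.sum_congr rfl fun j _ => by ring

theorem ie_cross_pt (h : IsFol n ω) (p : Fin 3 → ℂ) :
    evv ω p 0 = p 1 * eval p (vf n ω 2) - p 2 * eval p (vf n ω 1) ∧
    evv ω p 1 = p 2 * eval p (vf n ω 0) - p 0 * eval p (vf n ω 2) ∧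
    evv ω p 2 = p 0 * eval p (vf n ω 1) - p 1 * eval p (vf n ω 0) := by
  obtain ⟨h0, h1, h2⟩ := omega_eq_cross h
  refine ⟨?_, ?_, ?_⟩
  · have := congrArg (eval p) h0; simpa [evv] using this
  · have := congrArg (eval p) h1; simpa [evv] using this
  · have := congrArg (eval p) h2; simpa [evv] using this

/-- at a nonsingular zero of `I3` the leaf has contact of order `≥ 3` with its tangent line -/
theorem inflection_of_I3 (h : IsFol n ω) (p : Fin 3 → ℂ) (hp : evv ω p ≠ 0)
    (h0 : eval p (I3 n ω) = 0) (w : Fin 3 → ℂ) (hw : dot (evv ω p) w = 0) : dd ω p w = 0 := by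
  obtain ⟨a0, a1, a2⟩ := ie_cross_pt h p
  obtain ⟨i, hi⟩ : ∃ i, evv ω p i ≠ 0 := by
    by_contra hcon
    push Not at hcon
    exact hp (funext hcon)
  simp only [dot, Fin.sum_univ_three] at hw
  set v : Fin 3 → ℂ := fun j => eval p (vf n ω j) with hv
  have key : ∃ α β : ℂ, ∀ k, evv ω p i * w k = α * p k + β * v k := by
    have hv0 : v 0 = eval p (vf n ω 0) := rfl
    have hv1 : v 1 = eval p (vf n ω 1) := rfl
    have hv2 : v 2 = eval p (vf n ω 2) := rfl
    rw [← hv0, ← hv1, ← hv2] at *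
    fin_cases i
    · refine ⟨w 1 * v 2 - w 2 * v 1, p 1 * w 2 - p 2 * w 1, fun k => ?_⟩
      simp only [Fin.zero_eta]
      fin_cases k
      · simp only [Fin.zero_eta]
        linear_combination hw - w 1 * a1 - w 2 * a2
      · simp only [Fin.mk_one]
        rw [a0]; ring
      · simp only [Fin.reduceFinMk]
        rw [a0]; ring
    · refine ⟨w 2 * v 0 - w 0 * v 2, p 2 * w 0 - p 0 * w 2, fun k => ?_⟩
      simp only [Fin.mk_one]
      fin_cases k
      · simp only [Fin.zero_eta]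
        rw [a1]; ring
      · simp only [Fin.mk_one]
        linear_combination hw - w 0 * a0 - w 2 * a2
      · simp only [Fin.reduceFinMk]
        rw [a1]; ring
    · refine ⟨w 0 * v 1 - w 1 * v 0, p 0 * w 1 - p 1 * w 0, fun k => ?_⟩
      simp only [Fin.reduceFinMk]
      fin_cases k
      · simp only [Fin.zero_eta]
        rw [a2]; ring
      · simp only [Fin.mk_one]
        rw [a2]; ring
      · simp only [Fin.reduceFinMk]
        linear_combination hw - w 0 * a0 - w 1 * a1
  obtain ⟨α, β, hk⟩ := key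
  have h1 := ie_dd h p α β
  have h2 : (fun k => α * p k + β * eval p (vf n ω k)) = fun k => evv ω p i * w k := by
    funext k; rw [hk k]
  rw [h2, ie_dd_smul, h0] at h1
  have h3 : evv ω p i ^ 2 * dd ω p w = 0 := by rw [h1]; ring
  rcases mul_eq_zero.1 h3 with h4 | h4
  · exact absurd (pow_eq_zero_iff (by norm_num) |>.1 h4) hi
  · exact h4

/-- derivative along a line -/
theorem ie_deriv_line (p v : Fin 3 → ℂ) (F : MvPolynomial (Fin 3) ℂ) :
    Polynomial.derivative (aeval (fun j => Polynomial.C (p j) + Polynomial.C (v j) *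
      Polynomial.X : Fin 3 → Polynomial ℂ) F) =
      ∑ k, aeval (fun j => Polynomial.C (p j) + Polynomial.C (v j) *
      Polynomial.X : Fin 3 → Polynomial ℂ) (pderiv k F) * Polynomial.C (v k) := by
  have := ie_chain (R := Polynomial ℂ) (fun q => Polynomial.derivative q)
    (fun a b => Polynomial.derivative_add) (fun a b => Polynomial.derivative_mul)
    (fun c => Polynomial.derivative_C) (fun j => Polynomial.C (p j) + Polynomial.C (v j) *
      Polynomial.X : Fin 3 → Polynomial ℂ) F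
  rw [this]
  refine Finset.sum_congr rfl fun k _ => ?_
  simp

theorem ie_eval_line (p v : Fin 3 → ℂ) (F : MvPolynomial (Fin 3) ℂ) (t : ℂ) :
    Polynomial.eval t (aeval (fun j => Polynomial.C (p j) + Polynomial.C (v j) *
      Polynomial.X : Fin 3 → Polynomial ℂ) F) = eval (fun j => p j + v j * t) F := by
  induction F using MvPolynomial.induction_on with
  | C a =>
    rw [MvPolynomial.aeval_C, MvPolynomial.eval_C]
    exact Polynomial.eval_C
  | add p q hp hq => simp only [map_add, Polynomial.eval_add, hp, hq]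
  | mul_X p i hp => simp only [map_mul, aeval_X, Polynomial.eval_mul, hp, eval_X,
      Polynomial.eval_add, Polynomial.eval_C, Polynomial.eval_X]

/-- `I3` vanishes on invariant lines -/
theorem I3_of_invLine (h : IsFol n ω) (hn : 1 ≤ n) (l : Fin 3 → ℂ) (hl : InvLine ω l) (p : Fin 3 → ℂ)
    (hp : dot l p = 0) : eval p (I3 n ω) = 0 := by
  obtain ⟨a0, a1, a2⟩ := ie_cross_pt h p
  set v : Fin 3 → ℂ := fun j => eval p (vf n ω j) with hv
  have hI : eval p (I3 n ω) = - dd ω p v := by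
    have := ie_dd h p 0 1
    simp only [zero_mul, one_mul, zero_add, one_pow] at this
    rw [hv, this]; ring
  rw [hI, neg_eq_zero]
  by_cases hz : evv ω p = 0
  · -- singular point
    have z0 : evv ω p 0 = 0 := by rw [hz]; rfl
    have z1 : evv ω p 1 = 0 := by rw [hz]; rfl
    have z2 : evv ω p 2 = 0 := by rw [hz]; rfl
    have hpv : ∀ i j, p i * v j = v i * p j := by
      intro i j
      have b0 : p 1 * v 2 = p 2 * v 1 := by rw [z0] at a0; linear_combination -a0
      have b1 : p 2 * v 0 = p 0 * v 2 := by rw [z1] at a1; linear_combination -a1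
      have b2 : p 0 * v 1 = p 1 * v 0 := by rw [z2] at a2; linear_combination -a2
      fin_cases i <;> fin_cases j <;> simp only [Fin.zero_eta, Fin.mk_one, Fin.reduceFinMk]
      · ring
      · linear_combination b2
      · linear_combination -b1
      · linear_combination -b2
      · ring
      · linear_combination b0
      · linear_combination b1
      · linear_combination -b0
      · ring
    by_cases hp0 : p = 0
    · have : v = 0 := by
        funext j
        simp only [hv, hp0, Pi.zero_apply]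
        have hh := congrArg (eval (0 : Fin 3 → ℂ)) (ie_vf_hom h j).sum_X_mul_pderiv
        simp only [map_sum, map_mul, eval_X, Pi.zero_apply, zero_mul, Finset.sum_const_zero,
          nsmul_eq_mul, map_natCast] at hh
        rcases mul_eq_zero.1 hh.symm with h5 | h5
        · exact absurd (Nat.cast_eq_zero.1 h5) (by omega)
        · exact h5
      rw [this]; simp [dd]
    · obtain ⟨i, hi⟩ : ∃ i, p i ≠ 0 := by
        by_contra hcon
        push Not at hcon
        exact hp0 (funext hcon)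
      have h1 := ie_dd h p (v i) 0
      have h2 : (fun k => v i * p k + 0 * eval p (vf n ω k)) = fun k => p i * v k := by
        funext k; rw [hpv i k]; ring
      rw [h2, ie_dd_smul] at h1
      have h3 : p i ^ 2 * dd ω p v = 0 := by rw [h1]; ring
      rcases mul_eq_zero.1 h3 with h4 | h4
      · exact absurd (pow_eq_zero_iff (by norm_num) |>.1 h4) hi
      · exact h4
  · obtain ⟨c, hc⟩ := hl.2 p hp
    have hc0 : c ≠ 0 := by
      rintro rfl
      exact hz (by rw [hc]; simp)
    -- `v` is on the line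
    have hlv : dot l v = 0 := by
      have h1 : dot (evv ω p) v = 0 := by
        simp only [dot, Fin.sum_univ_three]
        rw [a0, a1, a2]
        ring
      rw [hc] at h1
      have h2 : c * dot l v = 0 := by
        rw [← h1]
        simp only [dot, Fin.sum_univ_three, Pi.smul_apply, smul_eq_mul]
        ring
      rcases mul_eq_zero.1 h2 with h3 | h3
      · exact absurd h3 hc0
      · exact h3
    set P : Fin 3 → Polynomial ℂ := fun j => Polynomial.C (p j) + Polynomial.C (v j) * Polynomial.X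
      with hP
    set g : Polynomial ℂ := ∑ i, Polynomial.C (v i) * aeval P (ω i) with hg
    have hg0 : g = 0 := by
      refine Polynomial.funext fun t => ?_
      rw [hg, Polynomial.eval_finsetSum, Polynomial.eval_zero]
      simp only [Polynomial.eval_mul, Polynomial.eval_C, hP, ie_eval_line]
      have h3 : dot l (fun j => p j + v j * t) = 0 := by
        have : dot l (fun j => p j + v j * t) = dot l p + dot l v * t := by
          simp only [dot, Fin.sum_univ_three]; ring
        rw [this, hp, hlv]; ring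
      obtain ⟨c', hc'⟩ := hl.2 _ h3
      have h4 : ∀ i, eval (fun j => p j + v j * t) (ω i) = c' * l i := by
        intro i
        have := congrFun hc' i
        simpa [evv] using this
      simp only [h4]
      have h5 : ∑ i, v i * (c' * l i) = c' * dot l v := by
        simp only [dot, Fin.sum_univ_three]; ring
      rw [h5, hlv, mul_zero]
    have hd := congrArg (fun q => Polynomial.eval 0 (Polynomial.derivative q)) hg0
    simp only [hg, Polynomial.derivative_sum, Polynomial.derivative_C_mul, hP, ie_deriv_line,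
      Polynomial.eval_finsetSum, Polynomial.eval_mul, Polynomial.eval_C, ie_eval_line,
      Polynomial.derivative_zero, Polynomial.eval_zero, mul_zero, add_zero] at hd
    unfold dd
    rw [← hd]
    refine Finset.sum_congr rfl fun i _ => ?_
    rw [Finset.mul_sum]
    exact Finset.sum_congr rfl fun j _ => by ring

/-! ### `I3` is not zero -/

theorem ie_pderiv_comm (i j : Fin 3) (F : MvPolynomial (Fin 3) ℂ) :
    pderiv i (pderiv j F) = pderiv j (pderiv i F) := by
  induction F using MvPolynomial.induction_on with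
  | C a => simp
  | add p q hp hq => rw [map_add, map_add, hp, hq, map_add, map_add]
  | mul_X p k hp =>
    have hX : ∀ a b : Fin 3, pderiv a (pderiv b (X k : MvPolynomial (Fin 3) ℂ)) = 0 := by
      intro a b
      by_cases hb : k = b
      · subst hb; rw [pderiv_X_self, pderiv_one]
      · rw [pderiv_X_of_ne hb, map_zero]
    simp only [pderiv_mul, map_add]
    rw [hp, hX, hX]
    ring

theorem ie_hom_of_mul {k m : ℕ} {α : MvPolynomial (Fin 3) ℂ}
    (h : (X 2 ^ k * α).IsHomogeneous m) (hα : α ≠ 0) : k ≤ m ∧ α.IsHomogeneous (m - k) := by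
  have key : ∀ d, coeff d α ≠ 0 → k + Finsupp.degree d = m := by
    intro d hd
    have h1 : coeff (Finsupp.single 2 k + d) (X 2 ^ k * α) ≠ 0 := by
      rw [X_pow_eq_monomial, coeff_monomial_mul, one_mul]
      exact hd
    by_contra hne
    refine h1 (h.coeff_eq_zero ?_)
    rw [map_add, Finsupp.degree_single]
    exact hne
  obtain ⟨d, hd⟩ := MvPolynomial.ne_zero_iff.1 hα
  refine ⟨by have := key d hd; omega, ?_⟩
  intro e he
  have h1 := key e he
  have h2 : Finsupp.weight 1 e = Finsupp.degree e := by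
    rw [Finsupp.degree_eq_weight_one]
    rfl
  rw [h2]
  omega

theorem ie_dvd_pderiv {m : ℕ} {β : MvPolynomial (Fin 3) ℂ} (h : β.IsHomogeneous m) (hβ : β ≠ 0)
    (i : Fin 3) (hd : β ∣ pderiv i β) : pderiv i β = 0 := by
  by_contra hne
  obtain ⟨g, hg⟩ := hd
  have hg0 : g ≠ 0 := by rintro rfl; exact hne (by rw [hg, mul_zero])
  have h1 := congrArg MvPolynomial.totalDegree hg
  rw [totalDegree_mul_of_isDomain hβ hg0, h.totalDegree hβ, (h.pderiv (i := i)).totalDegree hne] at h1
  have hm : m ≠ 0 := by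
    rintro rfl
    have h2 : β = C (coeff 0 β) := by
      rw [← totalDegree_eq_zero_iff_eq_C]
      exact h.totalDegree hβ
    rw [h2, pderiv_C] at hne
    exact hne rfl
  omega

theorem ie_X2_dvd_of_natCast {m : ℕ} (hm : m ≠ 0) {f : MvPolynomial (Fin 3) ℂ}
    (h : X 2 ∣ (m : MvPolynomial (Fin 3) ℂ) * f) : X 2 ∣ f := by
  have hu : IsUnit (m : MvPolynomial (Fin 3) ℂ) := by
    have : (m : MvPolynomial (Fin 3) ℂ) = C (m : ℂ) := by simp
    rw [this]
    exact (IsUnit.mk0 _ (Nat.cast_ne_zero.2 hm)).map C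
  exact (hu.dvd_mul_left).1 h

/-- `I3` is not zero in degree `≥ 1` -/
theorem I3_ne_zero (h : IsFol n ω) (hn : 1 ≤ n) : I3 n ω ≠ 0 := by
  intro hI
  have hXp : Prime (X 2 : MvPolynomial (Fin 3) ℂ) := X_prime
  have hX0 : (X 2 : MvPolynomial (Fin 3) ℂ) ≠ 0 := hXp.ne_zero
  have hcontr := ie_contr h
  -- not both components vanish
  have hnz : ¬ (ω 0 = 0 ∧ ω 1 = 0) := by
    rintro ⟨h0, h1⟩
    rw [h0, h1] at hcontr
    have h2 : ω 2 = 0 := by
      have : X 2 * ω 2 = 0 := by linear_combination hcontr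
      rcases mul_eq_zero.1 this with h3 | h3
      · exact absurd h3 hX0
      · exact h3
    refine hXp.not_isUnit (h.cop _ fun j => ?_)
    fin_cases j
    · simp [h0]
    · simp [h1]
    · simp [h2]
  -- extract the power of `X 2`
  obtain ⟨k, α, β, hα, hβ, hmax⟩ : ∃ (k : ℕ) (α β : MvPolynomial (Fin 3) ℂ),
      ω 0 = X 2 ^ k * α ∧ ω 1 = X 2 ^ k * β ∧ ¬ (X 2 ∣ α ∧ X 2 ∣ β) := by
    classical
    have hex : ∃ k : ℕ, ¬ (X 2 ^ k ∣ ω 0 ∧ X 2 ^ k ∣ ω 1) := by
      refine ⟨n + 2, ?_⟩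
      rintro ⟨h0, h1⟩
      have hdeg : ∀ j, X 2 ^ (n + 2) ∣ ω j → ω j = 0 := by
        intro j hj
        by_contra hne
        obtain ⟨g, hg⟩ := hj
        have hg0 : g ≠ 0 := by rintro rfl; exact hne (by rw [hg, mul_zero])
        have h3 := (ie_hom_of_mul (k := n + 2) (m := n + 1) (by rw [← hg]; exact h.hom j) hg0).1
        omega
      exact hnz ⟨hdeg 0 h0, hdeg 1 h1⟩
    have hspec := Nat.find_spec hex
    have hk0 : Nat.find hex ≠ 0 := by
      intro h0
      rw [h0] at hspec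
      exact hspec (by simp)
    obtain ⟨k, hk⟩ := Nat.exists_eq_succ_of_ne_zero hk0
    have hmin := Nat.find_min hex (m := k) (by omega)
    rw [not_not] at hmin
    obtain ⟨⟨α, hα⟩, ⟨β, hβ⟩⟩ := hmin
    refine ⟨k, α, β, hα, hβ, ?_⟩
    rintro ⟨⟨a, ha⟩, ⟨b, hb⟩⟩
    apply hspec
    rw [hk, Nat.succ_eq_add_one]
    exact ⟨⟨a, by rw [hα, ha]; ring⟩, ⟨b, by rw [hβ, hb]; ring⟩⟩
  -- the final contradiction
  have hfin : ¬ (2 ≤ k ∨ (1 ≤ k ∧ X 2 ∣ X 0 * α + X 1 * β)) := by
    intro hk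
    have hk1 : 1 ≤ k := by
      rcases hk with h1 | h1
      · omega
      · exact h1.1
    obtain ⟨k', rfl⟩ : ∃ k', k = k' + 1 := ⟨k - 1, by omega⟩
    have h2 : ω 2 = - (X 2 ^ k' * (X 0 * α + X 1 * β)) := by
      have h3 : X 2 * (ω 2 + X 2 ^ k' * (X 0 * α + X 1 * β)) = 0 := by
        rw [hα, hβ] at hcontr
        linear_combination hcontr
      rcases mul_eq_zero.1 h3 with h4 | h4
      · exact absurd h4 hX0
      · linear_combination h4
    refine hXp.not_isUnit (h.cop _ fun j => ?_)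
    fin_cases j
    · simp only [Fin.zero_eta]
      rw [hα]
      exact Dvd.dvd.mul_right (dvd_pow_self _ (by omega)) _
    · simp only [Fin.mk_one]
      rw [hβ]
      exact Dvd.dvd.mul_right (dvd_pow_self _ (by omega)) _
    · simp only [Fin.reduceFinMk]
      rw [h2, dvd_neg]
      rcases hk with h5 | h5
      · exact Dvd.dvd.mul_right (dvd_pow_self _ (by omega)) _
      · exact Dvd.dvd.mul_left h5.2 _
  -- relative primality
  have hrel : IsRelPrime α β := by
    refine WfDvdMonoid.isRelPrime_of_no_irreducible_factors ?_ ?_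
    · rintro ⟨h0, h1⟩
      exact hnz ⟨by rw [hα, h0, mul_zero], by rw [hβ, h1, mul_zero]⟩
    · intro z hz hzα hzβ
      have hzp : Prime z := UniqueFactorizationMonoid.irreducible_iff_prime.1 hz
      have h1 : z ∣ X 2 * ω 2 := by
        have : X 2 * ω 2 = - (X 2 ^ k * (X 0 * α + X 1 * β)) := by
          rw [hα, hβ] at hcontr
          linear_combination hcontr
        rw [this, dvd_neg]
        exact Dvd.dvd.mul_left (dvd_add (Dvd.dvd.mul_left hzα _) (Dvd.dvd.mul_left hzβ _)) _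
      rcases hzp.dvd_or_dvd h1 with h2 | h2
      · have h3 : X 2 ∣ z := (hz.associated_of_dvd hXp.irreducible h2).symm.dvd
        exact hmax ⟨h3.trans hzα, h3.trans hzβ⟩
      · refine hz.not_isUnit (h.cop z fun j => ?_)
        fin_cases j
        · simp only [Fin.zero_eta]; rw [hα]; exact Dvd.dvd.mul_left hzα _
        · simp only [Fin.mk_one]; rw [hβ]; exact Dvd.dvd.mul_left hzβ _
        · simpa using h2
  have hunit : ∀ f : MvPolynomial (Fin 3) ℂ, IsUnit f → (X 2 ^ k * f).IsHomogeneous (n + 1) →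
      2 ≤ k := by
    intro f hf hh
    have hf0 : f ≠ 0 := hf.ne_zero
    obtain ⟨h1, h2⟩ := ie_hom_of_mul hh hf0
    have h3 := h2.totalDegree hf0
    have h4 : f.totalDegree = 0 := by
      obtain ⟨g, hg⟩ := hf.exists_right_inv
      have hg0 : g ≠ 0 := by rintro rfl; simp at hg
      have := congrArg MvPolynomial.totalDegree hg
      rw [totalDegree_mul_of_isDomain hf0 hg0, totalDegree_one] at this
      omega
    omega
  by_cases hα0 : α = 0
  · rw [hα0, isRelPrime_zero_left] at hrel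
    exact hfin (Or.inl (hunit β hrel (by rw [← hβ]; exact h.hom 1)))
  by_cases hβ0 : β = 0
  · rw [hβ0, isRelPrime_zero_right] at hrel
    exact hfin (Or.inl (hunit α hrel (by rw [← hα]; exact h.hom 0)))
  obtain ⟨hkn, hαh⟩ := ie_hom_of_mul (k := k) (m := n + 1) (by rw [← hα]; exact h.hom 0) hα0
  obtain ⟨-, hβh⟩ := ie_hom_of_mul (k := k) (m := n + 1) (by rw [← hβ]; exact h.hom 1) hβ0
  -- the key identity
  have hq := ie_point h (X : Fin 3 → MvPolynomial (Fin 3) ℂ) (-(vf n ω 2)) (X 2)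
  simp only [aeval_X_left_apply, hI, mul_zero, neg_zero] at hq
  obtain ⟨c0, c1, c2⟩ := omega_eq_cross h
  have hH : ω 1 * ω 1 * pderiv 0 (ω 0) - ω 1 * ω 0 * pderiv 1 (ω 0) - ω 0 * ω 1 * pderiv 0 (ω 1) +
      ω 0 * ω 0 * pderiv 1 (ω 1) = 0 := by
    have w0 : -(vf n ω 2) * X 0 + X 2 * vf n ω 0 = ω 1 := by rw [c1]; ring
    have w1 : -(vf n ω 2) * X 1 + X 2 * vf n ω 1 = - ω 0 := by rw [c0]; ring
    have w2 : -(vf n ω 2) * X 2 + X 2 * vf n ω 2 = 0 := by ring
    simp only [Fin.sum_univ_three, w0, w1, w2] at hq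
    linear_combination hq
  have hpow : ∀ (i : Fin 3) (f : MvPolynomial (Fin 3) ℂ), i ≠ 2 →
      pderiv i (X 2 ^ k * f) = X 2 ^ k * pderiv i f := by
    intro i f hi
    rw [pderiv_mul, pderiv_pow, pderiv_X_of_ne hi.symm]
    ring
  have hbr : β * β * pderiv 0 α - β * α * pderiv 1 α - α * β * pderiv 0 β +
      α * α * pderiv 1 β = 0 := by
    rw [hα, hβ, hpow 0 _ (by decide), hpow 1 _ (by decide), hpow 0 _ (by decide),
      hpow 1 _ (by decide)] at hH
    have h1 : (X 2 ^ k) ^ 3 * (β * β * pderiv 0 α - β * α * pderiv 1 α - α * β * pderiv 0 β +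
      α * α * pderiv 1 β) = 0 := by linear_combination hH
    rcases mul_eq_zero.1 h1 with h2 | h2
    · exact absurd h2 (pow_ne_zero _ (pow_ne_zero _ hX0))
    · exact h2
  have hβ1 : pderiv 1 β = 0 := by
    refine ie_dvd_pderiv hβh hβ0 1 ?_
    refine hrel.symm.dvd_of_dvd_mul_left (hrel.symm.dvd_of_dvd_mul_left (z := α * pderiv 1 β) ?_)
    refine ⟨-(β * pderiv 0 α - α * pderiv 1 α - α * pderiv 0 β), ?_⟩
    linear_combination hbr
  have hα1 : pderiv 0 α = 0 := by
    refine ie_dvd_pderiv hαh hα0 0 ?_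
    refine hrel.dvd_of_dvd_mul_left (hrel.dvd_of_dvd_mul_left (z := β * pderiv 0 α) ?_)
    refine ⟨-(α * pderiv 1 β - β * pderiv 1 α - β * pderiv 0 β), ?_⟩
    linear_combination hbr
  have hγ : pderiv 0 β = - pderiv 1 α := by
    rw [hβ1, hα1] at hbr
    have h1 : (α * β) * (pderiv 1 α + pderiv 0 β) = 0 := by linear_combination -hbr
    rcases mul_eq_zero.1 h1 with h2 | h2
    · exact absurd h2 (mul_ne_zero hα0 hβ0)
    · linear_combination h2
  have eα := hαh.sum_X_mul_pderiv
  have eβ := hβh.sum_X_mul_pderiv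
  rw [Fin.sum_univ_three, nsmul_eq_mul, hα1] at eα
  rw [Fin.sum_univ_three, nsmul_eq_mul, hβ1, hγ] at eβ
  set γ := pderiv 1 α with hγd
  rcases Nat.lt_or_ge k 2 with hk | hk
  swap
  · exact hfin (Or.inl hk)
  by_cases hm : n + 1 - k = 1
  · -- `m = 1`
    refine hfin (Or.inr ⟨by omega, ?_⟩)
    rw [hm, Nat.cast_one, one_mul] at eα eβ
    refine ⟨X 0 * pderiv 2 α + X 1 * pderiv 2 β, ?_⟩
    linear_combination -X 0 * eα - X 1 * eβ
  · -- `m ≥ 2`
    have hm2 : n + 1 - k - 1 ≠ 0 := by omega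
    have hγ0 : pderiv 0 γ = 0 := by
      rw [hγd, ie_pderiv_comm, hα1, map_zero]
    have hγ1 : pderiv 1 γ = 0 := by
      have : γ = - pderiv 0 β := by rw [hγ]; ring
      rw [this, map_neg, ie_pderiv_comm, hβ1, map_zero, neg_zero]
    have eγ := (hαh.pderiv (i := 1)).sum_X_mul_pderiv
    rw [Fin.sum_univ_three, nsmul_eq_mul, ← hγd, hγ0, hγ1] at eγ
    obtain ⟨g, hg⟩ : X 2 ∣ γ := by
      refine ie_X2_dvd_of_natCast hm2 ?_
      rw [← eγ]
      exact ⟨pderiv 2 γ, by ring⟩
    have hm0 : n + 1 - k ≠ 0 := by omega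
    refine hmax ⟨ie_X2_dvd_of_natCast hm0 ?_, ie_X2_dvd_of_natCast hm0 ?_⟩
    · rw [← eα, hg]
      exact ⟨X 1 * g + pderiv 2 α, by ring⟩
    · rw [← eβ, hg]
      exact ⟨-(X 0 * g) + pderiv 2 β, by ring⟩

end

end Pool.Agent.Lib.MP_5bde83_ag
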