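import Mathlib

/-!
Sums over the roots of a polynomial with simple roots: Lagrange's formula and the sum of the
residues of `B / D ^ 2`.
-/

namespace Pool.Agent.Lib.MP_5bde83_ag

open Polynomial Finset

section

variable {E ι : Type*} [Field E] [Fintype ι]

/-- the derivative of `c ∏ (X - x_j)` at `x_i` -/
theorem lagr_deriv [DecidableEq ι] (x : ι → E) (c : E) {D : E[X]}
    (hD : D = C c * ∏ i, (X - C (x i))) (i : ι) :
    (derivative D).eval (x i) = c * ∏ j ∈ univ.erase i, (x i - x j) := by
  have h1 : D = C c * Lagrange.nodal univ x := by rw [hD, Lagrange.nodal]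
  rw [h1, derivative_C_mul, eval_mul, eval_C,
    Lagrange.eval_nodal_derivative_eval_node_eq (Finset.mem_univ i), Lagrange.eval_nodal]

theorem lagr_deriv_ne (x : ι → E) (hx : Function.Injective x) (c : E) (hc : c ≠ 0) {D : E[X]}
    (hD : D = C c * ∏ i, (X - C (x i))) (i : ι) : (derivative D).eval (x i) ≠ 0 := by
  classical
  rw [lagr_deriv x c hD i]
  refine mul_ne_zero hc (Finset.prod_ne_zero_iff.2 fun j hj => ?_)
  exact sub_ne_zero_of_ne fun h => (Finset.ne_of_mem_erase hj) (hx h).symm

theorem lagr_eval (x : ι → E) (c : E) {D : E[X]}
    (hD : D = C c * ∏ i, (X - C (x i))) (i : ι) : D.eval (x i) = 0 := by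
  rw [hD, eval_mul, eval_prod, Finset.prod_eq_zero (Finset.mem_univ i) (by simp), mul_zero]

/-- Lagrange's formula: the sum of `g / D'` over the roots of `D` -/
theorem lagr_coeff (x : ι → E) (hx : Function.Injective x) (c : E) (_hc : c ≠ 0) {D : E[X]}
    (hD : D = C c * ∏ i, (X - C (x i))) (g : E[X]) (hg : g.natDegree < Fintype.card ι) :
    ∑ i, g.eval (x i) / (derivative D).eval (x i) = g.coeff (Fintype.card ι - 1) / c := by
  classical
  have h1 := Lagrange.coeff_eq_sum (s := (univ : Finset ι)) (v := x) hx.injOn (P := g) (by
    rw [Finset.card_univ]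
    exact lt_of_le_of_lt degree_le_natDegree (by exact_mod_cast hg))
  rw [Finset.card_univ] at h1
  rw [h1, Finset.sum_div]
  refine Finset.sum_congr rfl fun i _ => ?_
  rw [lagr_deriv x c hD i, div_div, mul_comm]

/-- Lagrange's formula in low degree -/
theorem lagr_zero (x : ι → E) (hx : Function.Injective x) (c : E) (hc : c ≠ 0) {D : E[X]}
    (hD : D = C c * ∏ i, (X - C (x i))) (g : E[X]) (hg : g.natDegree + 1 < Fintype.card ι) :
    ∑ i, g.eval (x i) / (derivative D).eval (x i) = 0 := by
  rw [lagr_coeff x hx c hc hD g (by omega), coeff_eq_zero_of_natDegree_lt (by omega), zero_div]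

/-- the sum of the residues of `B / D ^ 2` is zero -/
theorem lagr_res (x : ι → E) (hx : Function.Injective x) (c : E) (hc : c ≠ 0) {D : E[X]}
    (hD : D = C c * ∏ i, (X - C (x i))) (B : E[X])
    (hB : B.natDegree + 2 ≤ 2 * Fintype.card ι) :
    ∑ i, ((derivative B).eval (x i) / (derivative D).eval (x i) ^ 2 -
      B.eval (x i) * (derivative (derivative D)).eval (x i) / (derivative D).eval (x i) ^ 3) =
      0 := by
  classical
  set n := Fintype.card ι with hn
  have hd0 := lagr_deriv_ne x hx c hc hD
  have he0 := lagr_eval x c hD
  have hDdeg : D.natDegree = n := by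
    rw [hD, natDegree_C_mul hc, natDegree_prod _ _ fun i _ => X_sub_C_ne_zero _]
    simp [hn]
  have hD0 : D ≠ 0 := by
    rintro rfl
    rw [natDegree_zero] at hDdeg
    omega
  have hinj : Set.InjOn x ((univ : Finset ι) : Set ι) := hx.injOn
  -- the function `g` with `-g D' = B` at the roots
  set g : E[X] := Lagrange.interpolate univ x
    (fun i => - B.eval (x i) / (derivative D).eval (x i)) with hg
  have hgev : ∀ i, g.eval (x i) = - B.eval (x i) / (derivative D).eval (x i) := fun i => by
    rw [hg]
    exact Lagrange.eval_interpolate_at_node _ hinj (Finset.mem_univ i)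
  have hgdeg : g.natDegree + 1 ≤ n := by
    have h1 := Lagrange.degree_interpolate_lt (s := (univ : Finset ι)) (v := x)
      (fun i => - B.eval (x i) / (derivative D).eval (x i)) hinj
    rw [← hg, Finset.card_univ, ← hn] at h1
    by_cases hg0 : g = 0
    · rw [hg0, natDegree_zero]; omega
    · have := (natDegree_lt_iff_degree_lt hg0).2 h1
      omega
  -- the difference is divisible by `D`
  have hdvd : D ∣ B - (derivative g * D - g * derivative D) := by
    rw [hD, C_mul_dvd hc]
    refine Finset.prod_dvd_of_coprime (fun i _ j _ hij => ?_) fun i _ => ?_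
    · exact pairwise_coprime_X_sub_C hx hij
    · rw [dvd_iff_isRoot, IsRoot.def, ← hD]
      simp only [eval_sub, eval_mul, he0, mul_zero, hgev]
      have := hd0 i
      field_simp
      ring
  obtain ⟨h, hh⟩ := hdvd
  have hBeq : B = derivative g * D - g * derivative D + D * h := by rw [← hh]; ring
  have hhdeg : h = 0 ∨ h.natDegree + 1 < n := by
    by_cases h0 : h = 0
    · exact Or.inl h0
    · right
      have e1 : (D * h).natDegree = n + h.natDegree := by
        rw [natDegree_mul hD0 h0, hDdeg]
      have e2 : (B - (derivative g * D - g * derivative D)).natDegree ≤ 2 * n - 2 := by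
        refine (natDegree_sub_le _ _).trans (max_le (by omega) ?_)
        refine (natDegree_sub_le _ _).trans (max_le ?_ ?_)
        · by_cases hg1 : derivative g = 0
          · rw [hg1, zero_mul, natDegree_zero]; omega
          · refine natDegree_mul_le.trans ?_
            have h2 : g.natDegree ≠ 0 := by
              intro h3
              apply hg1
              rw [natDegree_eq_zero.1 h3 |>.choose_spec.symm, derivative_C]
            have := natDegree_derivative_lt h2
            omega
        · refine natDegree_mul_le.trans ?_
          have := natDegree_derivative_le D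
          omega
      rw [hh, e1] at e2
      omega
  have key : ∀ i, (derivative B).eval (x i) / (derivative D).eval (x i) ^ 2 -
      B.eval (x i) * (derivative (derivative D)).eval (x i) / (derivative D).eval (x i) ^ 3 =
      h.eval (x i) / (derivative D).eval (x i) := by
    intro i
    have e1 : B.eval (x i) = - g.eval (x i) * (derivative D).eval (x i) := by
      rw [hgev]
      have := hd0 i
      field_simp
    have e2 : (derivative B).eval (x i) = - g.eval (x i) * (derivative (derivative D)).eval (x i) +
        (derivative D).eval (x i) * h.eval (x i) := by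
      rw [hBeq]
      simp only [derivative_add, derivative_sub, derivative_mul, eval_add, eval_sub, eval_mul, he0]
      ring
    rw [e1, e2]
    have := hd0 i
    field_simp
    ring
  rw [Finset.sum_congr rfl fun i _ => key i]
  rcases hhdeg with h0 | h0
  · rw [h0]; simp
  · exact lagr_zero x hx c hc hD h h0

end

end Pool.Agent.Lib.MP_5bde83_ag
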