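import Pool.Agent.Lib.MP_5bde83_ag.Mg.G009

namespace Pool.Agent.Lib.MP_5bde83_ag

open Polynomial

variable {n : ℕ} {ω : Fin 3 → MvPolynomial (Fin 3) ℂ} {ℓ : Fin (3 * n) → Fin 3 → ℂ}

/-- the contradiction in case N: there are two different further lines through `s1`, one of them
of multiplicity at least two, and a line not through `s1` -/
theorem GData.caseN (G : GData n ω ℓ) (l w0 s1 f f' : Fin 3 → ℂ)
    (hl : InvLine ω l) (hw0 : w0 ≠ 0) (hlw : dot l w0 = 0) (hs : dot l s1 = 0)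
    (i' i'' i1 : Fin (3 * n)) (hfs : cr f s1 ≠ 0)
    (h1 : dot (ℓ i') s1 = 0) (h1w : dot (ℓ i') w0 ≠ 0) (h1f : dot (ℓ i') f = 0)
    (h2 : dot (ℓ i'') s1 = 0) (h2w : dot (ℓ i'') w0 ≠ 0) (h2f : dot (ℓ i'') f' = 0)
    (h12 : dot (ℓ i') f' ≠ 0)
    (hemul : 2 ≤ ec ℓ f s1)
    (h3 : dot (ℓ i1) s1 ≠ 0)
    (hQ : ∀ i, dot (ℓ i) w0 ≠ 0 → dot (ℓ i) s1 = 0)
    (hcount : Ec ℓ s1 + 2 ≤ 3 * n) : False := by
  classical
  have h3w : dot (ℓ i1) w0 = 0 := by
    by_contra h; exact h3 (hQ i1 h)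
  -- intersection points with the line i'
  have hsing : ∀ (j i : Fin (3 * n)) (g : Fin 3 → ℂ), dot (ℓ j) s1 = 0 → dot (ℓ j) w0 ≠ 0 →
      dot (ℓ j) g = 0 → dot (ℓ i) w0 = 0 →
      evv ω (dot (ℓ i) s1 • g - dot (ℓ i) g • s1) = 0 := by
    intro j i g hj1 hj2 hj3 hi
    refine inter_sing (G.inv i) (G.inv j) (w := w0) ?_ ?_ hi hj2
    · rw [dot_sub, dot_smul, dot_smul]; ring
    · rw [dot_sub, dot_smul, dot_smul, hj1, hj3]; ring
  set u := dot (ℓ i1) s1 • f - dot (ℓ i1) f • s1 with hu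
  set u3 := dot (ℓ i1) s1 • f' - dot (ℓ i1) f' • s1 with hu3
  have hsu : evv ω u = 0 := hsing i' i1 f h1 h1w h1f h3w
  have hsu3 : evv ω u3 = 0 := hsing i'' i1 f' h2 h2w h2f h3w
  have hs1 : evv ω s1 = 0 := inter_sing hl (G.inv i') hs h1 hlw h1w
  have hsw0 : evv ω w0 = 0 := inter_sing hl (G.inv i1) hlw h3w hs h3
  have hform : ∀ x y : ℂ, ∀ g : Fin 3 → ℂ, x • g - y • s1 = x • g + (-y) • s1 := by
    intro x y g; rw [neg_smul, sub_eq_add_neg]
  have hcrus : cr u s1 = dot (ℓ i1) s1 • cr f s1 := by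
    have h := cr_lin (dot (ℓ i1) s1) (-(dot (ℓ i1) f)) 0 1 f s1
    rw [hu, hform]
    rw [zero_smul, zero_add, one_smul] at h
    rw [h]; congr 1; ring
  have hcrus' : cr u s1 ≠ 0 := by
    rw [hcrus]; exact smul_ne_zero h3 hfs
  have hune : u ≠ 0 := ne_zero_of_cr_left hcrus'
  have hlu : dot (ℓ i') u = 0 := by rw [hu, dot_sub, dot_smul, dot_smul, h1, h1f]; ring
  have hl1u : dot (ℓ i1) u = 0 := by rw [hu, dot_sub, dot_smul, dot_smul]; ring
  have hl1u3 : dot (ℓ i1) u3 = 0 := by rw [hu3, dot_sub, dot_smul, dot_smul]; ring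
  -- every line not through s1 passes through u
  have hall : ∀ i, dot (ℓ i) s1 ≠ 0 → dot (ℓ i) u = 0 := by
    intro i hi
    by_contra hne
    have hiw : dot (ℓ i) w0 = 0 := by
      by_contra h; exact hi (hQ i h)
    set u2 := dot (ℓ i) s1 • f - dot (ℓ i) f • s1 with hu2
    have hsu2 : evv ω u2 = 0 := hsing i' i f h1 h1w h1f hiw
    have hlu2 : dot (ℓ i') u2 = 0 := by rw [hu2, dot_sub, dot_smul, dot_smul, h1, h1f]; ring
    have hcr2 : cr u2 s1 ≠ 0 := by
      have h := cr_lin (dot (ℓ i) s1) (-(dot (ℓ i) f)) 0 1 f s1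
      rw [hu2, hform]
      rw [zero_smul, zero_add, one_smul] at h
      rw [h]
      exact smul_ne_zero (by simpa using hi) hfs
    have hcr3 : cr u u2 ≠ 0 := by
      have h := cr_lin (dot (ℓ i1) s1) (-(dot (ℓ i1) f)) (dot (ℓ i) s1) (-(dot (ℓ i) f)) f s1
      rw [hu, hu2, hform, hform, h]
      refine smul_ne_zero ?_ hfs
      rw [hu, dot_sub, dot_smul, dot_smul] at hne
      intro h0; apply hne; linear_combination -h0
    have hec : 2 ≤ ec ℓ s1 u := by
      rw [ec_congr (G.inv i').1 h1 hlu (cr_swap_ne hcrus') h1f h1 hfs]; exact hemul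
    exact G.crux (ℓ i') s1 u u2 (G.inv i') h1 hlu hlu2 (cr_swap_ne hcrus') (cr_swap_ne hcr2) hcr3
      hs1 hsu hsu2 hec
  -- independence
  have hcrw : ∀ j g, dot (ℓ j) w0 ≠ 0 → dot (ℓ j) g = 0 → g ≠ 0 → cr w0 g ≠ 0 := by
    intro j g hj hg hg0 h
    obtain ⟨c, hc⟩ := eq_smul_of_cr h hg0
    apply hj
    rw [hc, dot_smul, hg, mul_zero]
  have hu3ne : u3 ≠ 0 := by
    intro h
    have h4 : dot (ℓ i') u3 = 0 := by rw [h]; simp [dot]
    rw [hu3, dot_sub, dot_smul, dot_smul, h1] at h4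
    have h5 : dot (ℓ i1) s1 * dot (ℓ i') f' = 0 := by linear_combination h4
    rcases mul_eq_zero.mp h5 with h6 | h6
    · exact h3 h6
    · exact h12 h6
  have hi''u3 : dot (ℓ i'') u3 = 0 := by rw [hu3, dot_sub, dot_smul, dot_smul, h2, h2f]; ring
  have hcwu := hcrw i' u h1w hlu hune
  have hcwu3 := hcrw i'' u3 h2w hi''u3 hu3ne
  have hcuu3 : cr u u3 ≠ 0 := by
    intro h
    have h' : cr u3 u = 0 := by rw [cr_swap, h, neg_zero]
    obtain ⟨c, hc⟩ := eq_smul_of_cr h' hune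
    have h4 : dot (ℓ i') u3 = 0 := by rw [hc, dot_smul, hlu, mul_zero]
    rw [hu3, dot_sub, dot_smul, dot_smul, h1] at h4
    have h5 : dot (ℓ i1) s1 * dot (ℓ i') f' = 0 := by linear_combination h4
    rcases mul_eq_zero.mp h5 with h6 | h6
    · exact h3 h6
    · exact h12 h6
  -- multiplicity of the line through w0 and u
  have hec2 : 2 ≤ ec ℓ w0 u := by
    have hsub : (Finset.univ.filter (fun i => ¬ (dot (ℓ i) s1 = 0))) ⊆
        Finset.univ.filter (fun i => dot (ℓ i) u = 0 ∧ dot (ℓ i) w0 = 0) := by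
      intro i hi
      simp only [Finset.mem_filter, Finset.mem_univ, true_and] at hi ⊢
      refine ⟨hall i hi, ?_⟩
      by_contra h; exact hi (hQ i h)
    have hc1 := Finset.card_le_card hsub
    have hc2 := Finset.card_filter_add_card_filter_not (s := (Finset.univ : Finset (Fin (3 * n))))
      (fun i => dot (ℓ i) s1 = 0)
    rw [Finset.card_univ, Fintype.card_fin] at hc2
    unfold Ec at hcount
    unfold ec
    omega
  exact G.crux (ℓ i1) w0 u u3 (G.inv i1) h3w hl1u hl1u3 hcwu hcwu3 hcuu3 hsw0 hsu hsu3 hec2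

theorem GData.star (G : GData n ω ℓ) (hn : 1 ≤ n) (i j : Fin (3 * n)) (hij : i ≠ j)
    (hpar : ∀ p, dot (ℓ i) p = 0 → dot (ℓ j) p = 0) : Star n ω := by
  classical
  have hl := G.inv i
  obtain ⟨a, b, ha, hb, hab⟩ := exists_line_basis hl.1
  have hec0 : 2 ≤ ec ℓ a b := by
    unfold ec
    have hsub : ({i, j} : Finset (Fin (3 * n))) ⊆
        Finset.univ.filter (fun i => dot (ℓ i) b = 0 ∧ dot (ℓ i) a = 0) := by
      intro k hk
      simp only [Finset.mem_insert, Finset.mem_singleton] at hk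
      simp only [Finset.mem_filter, Finset.mem_univ, true_and]
      rcases hk with rfl | rfl
      · exact ⟨hb, ha⟩
      · exact ⟨hpar b hb, hpar a ha⟩
    have h1 := Finset.card_le_card hsub
    rw [Finset.card_pair hij] at h1
    exact h1
  obtain ⟨w0, hcen⟩ := G.center_exists (ℓ i) a b hl ha hb hab hec0
  obtain ⟨b', hb', hwb'⟩ := exists_indep_on_line hl.1 hcen.2.1 hcen.1
  obtain ⟨e2, ht⟩ := exists_transversal hwb'
  have he : 2 ≤ ec ℓ w0 b' := by
    rw [ec_congr hl.1 hcen.2.1 hb' hwb' ha hb hab]; exact hec0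
  obtain ⟨hB0, J0, P, hJ0, hJP, hdeg, hroot, hlt⟩ := G.line_data (ℓ i) w0 e2 b' ht hl hcen hb' he
  have huniq := lemR _ _ P hB0 hJ0 hJP hroot hlt
  by_cases hx : ∃ x, ((ev ω w0 e2 b' e2).coeff 0).IsRoot x
  swap
  · -- no noncentral singular point
    push Not at hx
    have hJd : J0.natDegree = 0 := by
      by_contra h
      obtain ⟨z, hz⟩ := Complex.exists_root (f := J0) (natDegree_pos_iff_degree_pos.mp
        (Nat.pos_of_ne_zero h))
      exact hx z (hroot z hz)
    exact G.center_star hn (ℓ i) w0 e2 b' ht hl hcen hb' (Or.inl (by omega))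
  obtain ⟨x, hx⟩ := hx
  set s1 := b' + x • w0 with hs1def
  have hs : dot (ℓ i) s1 = 0 := by rw [hs1def, dot_add, dot_smul, hb', hcen.2.1]; ring
  have hts : tri w0 e2 s1 ≠ 0 := by rw [hs1def, tri_trans]; exact ht
  have hws : cr w0 s1 ≠ 0 := cr_ne_of_tri hts
  have hsing : evv ω s1 = 0 := by
    have := (B0_root_iff ht hl hcen.2.1 hb' x).mp hx
    rw [hs1def, add_comm]; exact this
  have hes : ec ℓ w0 s1 = ec ℓ w0 b' :=
    ec_congr hl.1 hcen.2.1 hs hws hcen.2.1 hb' hwb'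
  -- every line passes through w0 or s1
  have hQ : ∀ k, dot (ℓ k) w0 ≠ 0 → dot (ℓ k) s1 = 0 := by
    intro k hk
    set t := dot (ℓ k) s1 / dot (ℓ k) w0 with htdef
    have hp1 : dot (ℓ k) ((x - t) • w0 + b') = 0 := by
      have : dot (ℓ k) s1 = t * dot (ℓ k) w0 := by rw [htdef]; field_simp
      have h2 : dot (ℓ k) s1 = dot (ℓ k) b' + x * dot (ℓ k) w0 := by
        rw [hs1def, dot_add, dot_smul]
      rw [dot_add, dot_smul]
      linear_combination this - h2
    have hp2 : dot (ℓ i) ((x - t) • w0 + b') = 0 := by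
      rw [dot_add, dot_smul, hcen.2.1, hb']; ring
    have hsg : evv ω ((x - t) • w0 + b') = 0 :=
      inter_sing hl (G.inv k) hp2 hp1 hcen.2.1 hk
    have hrt := (B0_root_iff ht hl hcen.2.1 hb' (x - t)).mpr hsg
    have heq := huniq _ _ hrt hx
    have ht0 : t = 0 := by linear_combination -heq
    rw [htdef, div_eq_zero_iff] at ht0
    exact ht0.resolve_right hk
  have hcount : Ec ℓ w0 + Ec ℓ s1 = 3 * n + ec ℓ w0 s1 := by
    have h1 := Finset.card_union_add_card_inter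
      (Finset.univ.filter (fun k => dot (ℓ k) w0 = 0))
      (Finset.univ.filter (fun k => dot (ℓ k) s1 = 0))
    have h2 : (Finset.univ.filter (fun k => dot (ℓ k) w0 = 0)) ∪
      (Finset.univ.filter (fun k => dot (ℓ k) s1 = 0)) = Finset.univ := by
      ext k
      simp only [Finset.mem_union, Finset.mem_filter, Finset.mem_univ, true_and, iff_true]
      by_cases h : dot (ℓ k) w0 = 0
      · exact Or.inl h
      · exact Or.inr (hQ k h)
    have h3 : (Finset.univ.filter (fun k => dot (ℓ k) w0 = 0)) ∩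
      (Finset.univ.filter (fun k => dot (ℓ k) s1 = 0)) =
      Finset.univ.filter (fun k => dot (ℓ k) s1 = 0 ∧ dot (ℓ k) w0 = 0) := by
      ext k
      simp only [Finset.mem_inter, Finset.mem_filter, Finset.mem_univ, true_and]
      exact and_comm
    rw [h2, h3, Finset.card_univ, Fintype.card_fin] at h1
    unfold Ec ec
    omega
  obtain ⟨hA0, hA1⟩ := hcen.coeff G.fol.euler hl e2 s1 hs
  have hs0 : ((ev ω w0 e2 s1 e2).coeff 0).coeff 0 = 0 := by
    have : ((ev ω w0 e2 s1 e2).coeff 0).IsRoot 0 := by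
      rw [B0_root_iff hts hl hcen.2.1 hs, zero_smul, zero_add]; exact hsing
    rw [coeff_zero_eq_eval_zero]; exact this
  have hes2 : 2 ≤ ec ℓ w0 s1 := by rw [hes]; exact he
  obtain ⟨ν, hν, hAν, hBν, hEge, htyp⟩ := G.loc_types w0 e2 s1 hts hA0 hA1 hes2 hs0
  obtain ⟨-, hg0, hgdeg, hgm⟩ := G.chart_main w0 e2 s1 hts
  set g := wc 1 1 (Ec ℓ s1) (Infl (ev ω w0 e2 s1 w0) (ev ω w0 e2 s1 e2)) with hgdef
  -- a root of g gives a line
  have hline : ∀ r, g.IsRoot r → ∃ k, dot (ℓ k) s1 = 0 ∧ dot (ℓ k) w0 ≠ 0 ∧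
      dot (ℓ k) (e2 + r • w0) = 0 := by
    intro r hr
    have hpos := (rootMultiplicity_pos hg0).mpr hr
    rw [hgm r] at hpos
    unfold fc at hpos
    rw [Finset.card_pos] at hpos
    obtain ⟨k, hk⟩ := hpos
    simp only [Finset.mem_filter, Finset.mem_univ, true_and] at hk
    exact ⟨k, hk⟩
  have hcrf : ∀ r : ℂ, cr (e2 + r • w0) s1 ≠ 0 := by
    intro r h
    apply hts
    have h1 : tri w0 (e2 + r • w0) s1 = tri w0 e2 s1 := tri_shear w0 e2 s1 r
    rw [← h1]
    have h2 : tri w0 (e2 + r • w0) s1 = dot (cr (e2 + r • w0) s1) w0 := by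
      generalize e2 + r • w0 = q
      simp [tri, dot, cr, Fin.sum_univ_three]; ring
    rw [h2, h]; simp [dot]
  rcases htyp with ⟨hN1, ⟨r, hr⟩, r1, r2, hr1, hr2, hne⟩ | ⟨hII1, hII2⟩
  · -- type N
    by_cases hnν : n ≤ ν
    · exact ⟨w0, e2, s1, hts, hAν.mono hnν, hBν.mono hnν⟩
    push Not at hnν
    exfalso
    have hrroot : g.IsRoot r := by
      rw [← rootMultiplicity_pos hg0]; omega
    obtain ⟨i', hi's, hi'w, hi'f⟩ := hline r hrroot
    obtain ⟨r', hr', hrr'⟩ : ∃ r', g.IsRoot r' ∧ r' ≠ r := by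
      by_cases h : r1 = r
      · exact ⟨r2, hr2, fun h' => hne (h.trans h'.symm)⟩
      · exact ⟨r1, hr1, h⟩
    obtain ⟨i'', hi''s, hi''w, hi''f⟩ := hline r' hr'
    have hemul : 2 ≤ ec ℓ (e2 + r • w0) s1 := by
      rw [hgm r] at hr
      refine hr.trans ?_
      unfold fc ec
      apply Finset.card_le_card
      intro k hk
      simp only [Finset.mem_filter, Finset.mem_univ, true_and] at hk ⊢
      exact ⟨hk.1, hk.2.2⟩
    have h12 : dot (ℓ i') (e2 + r' • w0) ≠ 0 := by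
      rw [dot_add, dot_smul] at hi'f ⊢
      intro h
      have : (r' - r) * dot (ℓ i') w0 = 0 := by linear_combination h - hi'f
      rcases mul_eq_zero.mp this with h' | h'
      · exact hrr' (sub_eq_zero.mp h')
      · exact hi'w h'
    obtain ⟨i1, hi1⟩ : ∃ i1, dot (ℓ i1) s1 ≠ 0 := by
      by_contra hcon
      push Not at hcon
      have : Ec ℓ s1 = 3 * n := by
        unfold Ec
        rw [Finset.filter_true_of_mem (fun k _ => hcon k), Finset.card_univ, Fintype.card_fin]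
      omega
    exact G.caseN (ℓ i) w0 s1 (e2 + r • w0) (e2 + r' • w0) hl hcen.1 hcen.2.1 hs i' i'' i1
      (hcrf r) hi's hi'w hi'f hi''s hi''w hi''f h12 hemul hi1 hQ (by omega)
  · -- type II
    have hgd : g.natDegree ≠ 0 := by omega
    obtain ⟨r, hr⟩ := Complex.exists_root (f := g) (natDegree_pos_iff_degree_pos.mp
        (Nat.pos_of_ne_zero hgd))
    have hbroot : ∀ z, g.IsRoot z → (wc 1 1 ν (ev ω w0 e2 s1 e2)).IsRoot z := by
      intro z hz
      have := G.chart_root w0 e2 s1 hts ν hAν hBν z hz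
      rw [wc_eq_zero_of_Ord (by norm_num) hII1 (by omega), mul_zero, zero_add] at this
      exact this
    have hEO := (G.chart_main w0 e2 s1 hts).1
    have hsingle0 := II_single ν (Ec ℓ s1) hν _ _ hII1 hBν hII2 hEO hg0 hbroot
      (fun z hz => G.II_lt_all w0 e2 s1 hts ν hν hII1 hBν hII2 z hz)
    obtain ⟨k1, hk1s, hk1w, hk1f⟩ := hline r hr
    -- all other lines through s1 contain f
    have hallf : ∀ k, dot (ℓ k) s1 = 0 → dot (ℓ k) w0 ≠ 0 → dot (ℓ k) (e2 + r • w0) = 0 := by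
      intro k hks hkw
      set z := - dot (ℓ k) e2 / dot (ℓ k) w0 with hz
      have hzf : dot (ℓ k) (e2 + z • w0) = 0 := by
        rw [dot_add, dot_smul, hz]; field_simp; ring
      have hzroot : g.IsRoot z := by
        rw [← rootMultiplicity_pos hg0, hgm z]
        unfold fc
        rw [Finset.card_pos]
        exact ⟨k, by simp only [Finset.mem_filter, Finset.mem_univ, true_and]; exact ⟨hks, hkw, hzf⟩⟩
      have := hsingle0 _ _ (hbroot z hzroot) (hbroot r hr)
      rw [← this]; exact hzf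
    by_cases hbig : 2 ≤ ec ℓ (e2 + r • w0) s1
    · refine G.II_star (ℓ i) w0 s1 hl hcen hs hws hes2 hsing (ℓ k1) (e2 + r • w0) (G.inv k1)
        hk1s hk1w ?_ hk1f (hcrf r) hbig
      intro k hks hkw p hp
      obtain ⟨y, z, hyz⟩ := line_span (G.inv k1).1 hk1f hk1s (hcrf r) hp
      rw [hyz, dot_add, dot_smul, dot_smul, hallf k hks hkw, hks]; ring
    · have hle : Ec ℓ s1 ≤ ec ℓ w0 s1 + ec ℓ (e2 + r • w0) s1 := by
        have h1 : (Finset.univ.filter (fun k => dot (ℓ k) s1 = 0)) ⊆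
          (Finset.univ.filter (fun k => dot (ℓ k) s1 = 0 ∧ dot (ℓ k) w0 = 0)) ∪
          (Finset.univ.filter (fun k => dot (ℓ k) s1 = 0 ∧ dot (ℓ k) (e2 + r • w0) = 0)) := by
          intro k hk
          simp only [Finset.mem_union, Finset.mem_filter, Finset.mem_univ, true_and] at hk ⊢
          by_cases h : dot (ℓ k) w0 = 0
          · exact Or.inl ⟨hk, h⟩
          · exact Or.inr ⟨hk, hallf k hk h⟩
        have h2 := (Finset.card_le_card h1).trans (Finset.card_union_le _ _)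
        unfold Ec ec
        exact h2
      have hdegB : 1 ≤ ((ev ω w0 e2 b' e2).coeff 0).natDegree := by
        by_contra h
        have h0 : ((ev ω w0 e2 b' e2).coeff 0).natDegree = 0 := by omega
        rw [eq_C_of_natDegree_eq_zero h0] at hx hB0
        rw [IsRoot.def, eval_C] at hx
        apply hB0; rw [hx, C_0]
      exact G.center_star hn (ℓ i) w0 e2 b' ht hl hcen hb' (Or.inr ⟨by omega, hdegB⟩)

end Pool.Agent.Lib.MP_5bde83_ag
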