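import Mathlib

namespace Pool.Agent.Lib.MP_5bde83_ag.Web

open Polynomial

noncomputable section

variable {R E : Type*} [CommRing R] [Field E] [Algebra R E]

/-- wedge product of two 1-forms `a dp + b dq` -/
def wedge (v w : E × E) : E := v.1 * w.2 - v.2 * w.1

/-- exterior derivative of the 1-form `a dp + b dq` (coefficient of `dp ∧ dq`) -/
def dform (Dp Dq : Derivation R E E) (w : E × E) : E := Dp w.2 - Dq w.1

/-- the connection form of the 3-web given by `w1, w2, w3` -/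
def eta (Dp Dq : Derivation R E E) (w1 w2 w3 : E × E) : E × E :=
  let t1 : E × E := wedge w2 w3 • w1
  let t2 : E × E := wedge w3 w1 • w2
  (wedge t1 t2)⁻¹ • (dform Dp Dq t2 • t1 - dform Dp Dq t1 • t2)

/-- curvature of the 3-web given by `w1, w2, w3` -/
def K3 (Dp Dq : Derivation R E E) (w1 w2 w3 : E × E) : E :=
  dform Dp Dq (eta Dp Dq w1 w2 w3)

variable {Dp Dq : Derivation R E E}

theorem sum_theta (w1 w2 w3 : E × E) :
    wedge w2 w3 • w1 + wedge w3 w1 • w2 + wedge w1 w2 • w3 = 0 := by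
  ext <;> simp [wedge] <;> ring

theorem wedge_theta (w1 w2 w3 : E × E) :
    wedge (wedge w2 w3 • w1) (wedge w3 w1 • w2) = wedge w2 w3 * wedge w3 w1 * wedge w1 w2 := by
  simp [wedge]; ring

theorem wedge_add_left (u v w : E × E) : wedge (u + v) w = wedge u w + wedge v w := by
  simp [wedge]; ring

theorem wedge_add_right (u v w : E × E) : wedge u (v + w) = wedge u v + wedge u w := by
  simp [wedge]; ring

theorem wedge_neg_right (u v : E × E) : wedge u (-v) = - wedge u v := by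
  simp [wedge]; ring

theorem wedge_smul_left (c : E) (u w : E × E) : wedge (c • u) w = c * wedge u w := by
  simp [wedge]; ring

theorem wedge_smul_right (c : E) (u w : E × E) : wedge u (c • w) = c * wedge u w := by
  simp [wedge]; ring

theorem dform_add (v w : E × E) : dform Dp Dq (v + w) = dform Dp Dq v + dform Dp Dq w := by
  simp [dform]; ring

theorem dform_neg (v : E × E) : dform Dp Dq (-v) = - dform Dp Dq v := by
  simp [dform]; ring

/-- gradient 1-form of a function -/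
def gr (Dp Dq : Derivation R E E) (g : E) : E × E := (Dp g, Dq g)

theorem dform_smul (g : E) (w : E × E) :
    dform Dp Dq (g • w) = g * dform Dp Dq w + wedge (gr Dp Dq g) w := by
  simp [dform, wedge, gr]; ring

theorem solve_aux (t1 t2 : E × E) (d1 d2 : E) (hD : wedge t1 t2 ≠ 0) :
    wedge ((wedge t1 t2)⁻¹ • (d2 • t1 - d1 • t2)) t1 = d1 ∧
    wedge ((wedge t1 t2)⁻¹ • (d2 • t1 - d1 • t2)) t2 = d2 := by
  obtain ⟨a, b⟩ := t1
  obtain ⟨c, d⟩ := t2
  simp only [wedge] at hD ⊢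
  simp only [Prod.smul_mk, Prod.mk_sub_mk, smul_eq_mul]
  constructor <;> field_simp <;> ring

/-- defining property of the connection form -/
theorem eta_spec (w1 w2 w3 : E × E) (h12 : wedge w1 w2 ≠ 0) (h23 : wedge w2 w3 ≠ 0)
    (h31 : wedge w3 w1 ≠ 0) :
    dform Dp Dq (wedge w2 w3 • w1) = wedge (eta Dp Dq w1 w2 w3) (wedge w2 w3 • w1) ∧
    dform Dp Dq (wedge w3 w1 • w2) = wedge (eta Dp Dq w1 w2 w3) (wedge w3 w1 • w2) ∧
    dform Dp Dq (wedge w1 w2 • w3) = wedge (eta Dp Dq w1 w2 w3) (wedge w1 w2 • w3) := by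
  have hD : wedge (wedge w2 w3 • w1) (wedge w3 w1 • w2) ≠ 0 := by
    rw [wedge_theta]
    exact mul_ne_zero (mul_ne_zero h23 h31) h12
  obtain ⟨h1, h2⟩ := solve_aux (wedge w2 w3 • w1) (wedge w3 w1 • w2)
    (dform Dp Dq (wedge w2 w3 • w1)) (dform Dp Dq (wedge w3 w1 • w2)) hD
  have e : eta Dp Dq w1 w2 w3 = (wedge (wedge w2 w3 • w1) (wedge w3 w1 • w2))⁻¹ •
    (dform Dp Dq (wedge w3 w1 • w2) • (wedge w2 w3 • w1) -
      dform Dp Dq (wedge w2 w3 • w1) • (wedge w3 w1 • w2)) := rfl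
  rw [← e] at h1 h2
  refine ⟨h1.symm, h2.symm, ?_⟩
  have h3 : wedge w1 w2 • w3 = -(wedge w2 w3 • w1 + wedge w3 w1 • w2) := by
    have := sum_theta w1 w2 w3
    rw [eq_neg_iff_add_eq_zero, add_comm]
    exact this
  rw [h3, dform_neg, dform_add, wedge_neg_right, wedge_add_right, h1, h2]

/-- uniqueness of the connection form -/
theorem eta_unique (w1 w2 w3 : E × E) (h12 : wedge w1 w2 ≠ 0) (h23 : wedge w2 w3 ≠ 0)
    (h31 : wedge w3 w1 ≠ 0) (e : E × E)
    (h1 : dform Dp Dq (wedge w2 w3 • w1) = wedge e (wedge w2 w3 • w1))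
    (h2 : dform Dp Dq (wedge w3 w1 • w2) = wedge e (wedge w3 w1 • w2)) :
    e = eta Dp Dq w1 w2 w3 := by
  obtain ⟨g1, g2, -⟩ := eta_spec (Dp := Dp) (Dq := Dq) w1 w2 w3 h12 h23 h31
  set t1 : E × E := wedge w2 w3 • w1 with ht1
  set t2 : E × E := wedge w3 w1 • w2 with ht2
  have hD : wedge t1 t2 ≠ 0 := by
    rw [ht1, ht2, wedge_theta]
    exact mul_ne_zero (mul_ne_zero h23 h31) h12
  set n := eta Dp Dq w1 w2 w3
  have k1 : wedge e t1 = wedge n t1 := by rw [← h1, ← g1]
  have k2 : wedge e t2 = wedge n t2 := by rw [← h2, ← g2]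
  simp only [wedge] at k1 k2 hD
  have a1 : (e.1 - n.1) * (t1.1 * t2.2 - t1.2 * t2.1) = 0 := by
    linear_combination t1.1 * k2 - t2.1 * k1
  have a2 : (e.2 - n.2) * (t1.1 * t2.2 - t1.2 * t2.1) = 0 := by
    linear_combination t1.2 * k2 - t2.2 * k1
  have b1 := (mul_eq_zero.1 a1).resolve_right hD
  have b2 := (mul_eq_zero.1 a2).resolve_right hD
  ext
  · exact sub_eq_zero.1 b1
  · exact sub_eq_zero.1 b2

/-- the form of a slope -/
def sl (x : E) : E × E := (-x, 1)

theorem wedge_sl (x y : E) : wedge (sl x) (sl y) = y - x := by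
  simp [wedge, sl]; ring

/-- `D_p (D_q L / L) = D_q (D_p L / L)` -/
theorem dlog_closed (hc : ∀ z, Dp (Dq z) = Dq (Dp z)) (L : E) :
    Dp (Dq L / L) = Dq (Dp L / L) := by
  by_cases hL : L = 0
  · simp [hL]
  · rw [Derivation.leibniz_div, Derivation.leibniz_div, hc L]
    simp only [smul_eq_mul]
    ring

end

end Pool.Agent.Lib.MP_5bde83_ag.Web
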