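import Pool.Agent.Lib.MP_5bde83_ag.Web

namespace Pool.Agent.Lib.MP_5bde83_ag.Web

open Polynomial

noncomputable section

variable {R E : Type*} [CommRing R] [Field E] [Algebra R E]
variable {Dp Dq : Derivation R E E}

/-! ### Scaling of the three forms -/

theorem dform_dlog (hc : ∀ z, Dp (Dq z) = Dq (Dp z)) (G : E) :
    dform Dp Dq (G⁻¹ • gr Dp Dq G) = 0 := by
  have := dlog_closed hc G
  simp only [dform, gr, Prod.smul_mk, smul_eq_mul]
  rw [inv_mul_eq_div, inv_mul_eq_div, this, sub_self]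

theorem eta_smul (w1 w2 w3 : E × E) (h12 : wedge w1 w2 ≠ 0) (h23 : wedge w2 w3 ≠ 0)
    (h31 : wedge w3 w1 ≠ 0) (g1 g2 g3 : E) (hg1 : g1 ≠ 0) (hg2 : g2 ≠ 0) (hg3 : g3 ≠ 0) :
    eta Dp Dq (g1 • w1) (g2 • w2) (g3 • w3) =
      eta Dp Dq w1 w2 w3 + (g1 * g2 * g3)⁻¹ • gr Dp Dq (g1 * g2 * g3) := by
  obtain ⟨e1, e2, -⟩ := eta_spec (Dp := Dp) (Dq := Dq) w1 w2 w3 h12 h23 h31
  have hG : g1 * g2 * g3 ≠ 0 := mul_ne_zero (mul_ne_zero hg1 hg2) hg3
  have key : ∀ t : E × E, dform Dp Dq t = wedge (eta Dp Dq w1 w2 w3) t →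
      dform Dp Dq ((g1 * g2 * g3) • t) = wedge (eta Dp Dq w1 w2 w3 +
        (g1 * g2 * g3)⁻¹ • gr Dp Dq (g1 * g2 * g3)) ((g1 * g2 * g3) • t) := by
    intro t ht
    rw [dform_smul, ht, wedge_smul_right, wedge_add_left, wedge_smul_left, mul_add,
      ← mul_assoc, mul_inv_cancel₀ hG, one_mul]
  have t1 : wedge (g2 • w2) (g3 • w3) • (g1 • w1) = (g1 * g2 * g3) • (wedge w2 w3 • w1) := by
    rw [wedge_smul_left, wedge_smul_right, smul_smul, smul_smul]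
    congr 1; ring
  have t2 : wedge (g3 • w3) (g1 • w1) • (g2 • w2) = (g1 * g2 * g3) • (wedge w3 w1 • w2) := by
    rw [wedge_smul_left, wedge_smul_right, smul_smul, smul_smul]
    congr 1; ring
  symm
  apply eta_unique
  · rw [wedge_smul_left, wedge_smul_right]; exact mul_ne_zero hg1 (mul_ne_zero hg2 h12)
  · rw [wedge_smul_left, wedge_smul_right]; exact mul_ne_zero hg2 (mul_ne_zero hg3 h23)
  · rw [wedge_smul_left, wedge_smul_right]; exact mul_ne_zero hg3 (mul_ne_zero hg1 h31)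
  · rw [t1]; exact key _ e1
  · rw [t2]; exact key _ e2

theorem K3_smul (hc : ∀ z, Dp (Dq z) = Dq (Dp z)) (w1 w2 w3 : E × E)
    (h12 : wedge w1 w2 ≠ 0) (h23 : wedge w2 w3 ≠ 0)
    (h31 : wedge w3 w1 ≠ 0) (g1 g2 g3 : E) (hg1 : g1 ≠ 0) (hg2 : g2 ≠ 0) (hg3 : g3 ≠ 0) :
    K3 Dp Dq (g1 • w1) (g2 • w2) (g3 • w3) = K3 Dp Dq w1 w2 w3 := by
  rw [K3, K3, eta_smul w1 w2 w3 h12 h23 h31 g1 g2 g3 hg1 hg2 hg3, dform_add, dform_dlog hc,
    add_zero]

/-! ### Change of coordinates -/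

/-- pull-back of the form `w.1 dp + w.2 dq` in the coordinates of `D1, D2` -/
def pull (D1 D2 : Derivation R E E) (p q : E) (w : E × E) : E × E :=
  (w.1 * D1 p + w.2 * D1 q, w.1 * D2 p + w.2 * D2 q)

/-- Jacobian -/
def jac (D1 D2 : Derivation R E E) (p q : E) : E := D1 p * D2 q - D1 q * D2 p

/-- derivation dual to `dp` -/
def dualP (D1 D2 : Derivation R E E) (p q : E) : Derivation R E E :=
  (jac D1 D2 p q)⁻¹ • (D2 q • D1 - D1 q • D2)

/-- derivation dual to `dq` -/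
def dualQ (D1 D2 : Derivation R E E) (p q : E) : Derivation R E E :=
  (jac D1 D2 p q)⁻¹ • (D1 p • D2 - D2 p • D1)

variable {D1 D2 : Derivation R E E} {p q : E}

theorem dualP_apply (z : E) :
    dualP D1 D2 p q z = (jac D1 D2 p q)⁻¹ * (D2 q * D1 z - D1 q * D2 z) := by
  simp [dualP]

theorem dualQ_apply (z : E) :
    dualQ D1 D2 p q z = (jac D1 D2 p q)⁻¹ * (D1 p * D2 z - D2 p * D1 z) := by
  simp [dualQ]

theorem dual_fst (hJ : jac D1 D2 p q ≠ 0) (z : E) :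
    D1 z = D1 p * dualP D1 D2 p q z + D1 q * dualQ D1 D2 p q z := by
  rw [dualP_apply, dualQ_apply]
  have : D1 p * ((jac D1 D2 p q)⁻¹ * (D2 q * D1 z - D1 q * D2 z)) +
      D1 q * ((jac D1 D2 p q)⁻¹ * (D1 p * D2 z - D2 p * D1 z)) =
      (jac D1 D2 p q)⁻¹ * (jac D1 D2 p q * D1 z) := by
    simp only [jac]; ring
  rw [this, ← mul_assoc, inv_mul_cancel₀ hJ, one_mul]

theorem dual_snd (hJ : jac D1 D2 p q ≠ 0) (z : E) :
    D2 z = D2 p * dualP D1 D2 p q z + D2 q * dualQ D1 D2 p q z := by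
  rw [dualP_apply, dualQ_apply]
  have : D2 p * ((jac D1 D2 p q)⁻¹ * (D2 q * D1 z - D1 q * D2 z)) +
      D2 q * ((jac D1 D2 p q)⁻¹ * (D1 p * D2 z - D2 p * D1 z)) =
      (jac D1 D2 p q)⁻¹ * (jac D1 D2 p q * D2 z) := by
    simp only [jac]; ring
  rw [this, ← mul_assoc, inv_mul_cancel₀ hJ, one_mul]

theorem dualP_p (hJ : jac D1 D2 p q ≠ 0) : dualP D1 D2 p q p = 1 := by
  rw [dualP_apply]
  have : D2 q * D1 p - D1 q * D2 p = jac D1 D2 p q := by simp only [jac]; ring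
  rw [this, inv_mul_cancel₀ hJ]

theorem dualP_q : dualP D1 D2 p q q = 0 := by
  rw [dualP_apply]; ring

theorem dualQ_q (hJ : jac D1 D2 p q ≠ 0) : dualQ D1 D2 p q q = 1 := by
  rw [dualQ_apply]
  have : D1 p * D2 q - D2 p * D1 q = jac D1 D2 p q := by simp only [jac]; ring
  rw [this, inv_mul_cancel₀ hJ]

theorem dualQ_p : dualQ D1 D2 p q p = 0 := by
  rw [dualQ_apply]; ring

theorem dual_comm (hc : ∀ z, D1 (D2 z) = D2 (D1 z)) (hJ : jac D1 D2 p q ≠ 0) (z : E) :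
    dualP D1 D2 p q (dualQ D1 D2 p q z) = dualQ D1 D2 p q (dualP D1 D2 p q z) := by
  set P := dualP D1 D2 p q with hP
  set Q := dualQ D1 D2 p q with hQ
  have h1 : ∀ y, D1 y = D1 p * P y + D1 q * Q y := fun y => dual_fst hJ y
  have h2 : ∀ y, D2 y = D2 p * P y + D2 q * Q y := fun y => dual_snd hJ y
  have e := hc z
  rw [h2 z, h1 z] at e
  simp only [map_add, Derivation.leibniz, smul_eq_mul] at e
  have c1 := hc p
  have c2 := hc q
  have f1 := h1 (P z)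
  have f2 := h1 (Q z)
  have f3 := h2 (P z)
  have f4 := h2 (Q z)
  have : jac D1 D2 p q * (P (Q z) - Q (P z)) = 0 := by
    simp only [jac]
    rw [c1, c2, f1, f2, f3, f4] at e
    linear_combination e
  exact sub_eq_zero.1 ((mul_eq_zero.1 this).resolve_left hJ)

theorem wedge_pull (v w : E × E) :
    wedge (pull D1 D2 p q v) (pull D1 D2 p q w) = jac D1 D2 p q * wedge v w := by
  simp only [wedge, pull, jac]; ring

theorem pull_add (v w : E × E) :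
    pull D1 D2 p q (v + w) = pull D1 D2 p q v + pull D1 D2 p q w := by
  ext <;> simp [pull] <;> ring

theorem pull_smul (c : E) (w : E × E) : pull D1 D2 p q (c • w) = c • pull D1 D2 p q w := by
  ext <;> simp [pull] <;> ring

theorem dform_pull (hc : ∀ z, D1 (D2 z) = D2 (D1 z)) (hJ : jac D1 D2 p q ≠ 0) (w : E × E) :
    dform D1 D2 (pull D1 D2 p q w) =
      jac D1 D2 p q * dform (dualP D1 D2 p q) (dualQ D1 D2 p q) w := by
  simp only [dform, pull, map_add, Derivation.leibniz, smul_eq_mul]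
  rw [dual_fst hJ w.1, dual_fst hJ w.2, dual_snd hJ w.1, dual_snd hJ w.2, hc p, hc q]
  simp only [jac]
  ring

theorem eta_pull (hc : ∀ z, D1 (D2 z) = D2 (D1 z)) (hJ : jac D1 D2 p q ≠ 0)
    (w1 w2 w3 : E × E) (h12 : wedge w1 w2 ≠ 0) (h23 : wedge w2 w3 ≠ 0)
    (h31 : wedge w3 w1 ≠ 0) :
    eta D1 D2 (pull D1 D2 p q w1) (pull D1 D2 p q w2) (pull D1 D2 p q w3) =
      pull D1 D2 p q (eta (dualP D1 D2 p q) (dualQ D1 D2 p q) w1 w2 w3) +
        (jac D1 D2 p q)⁻¹ • gr D1 D2 (jac D1 D2 p q) := by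
  obtain ⟨e1, e2, -⟩ := eta_spec (Dp := dualP D1 D2 p q) (Dq := dualQ D1 D2 p q)
    w1 w2 w3 h12 h23 h31
  set n := eta (dualP D1 D2 p q) (dualQ D1 D2 p q) w1 w2 w3
  set J := jac D1 D2 p q with hJdef
  have key : ∀ t : E × E, dform (dualP D1 D2 p q) (dualQ D1 D2 p q) t = wedge n t →
      dform D1 D2 (J • pull D1 D2 p q t) =
        wedge (pull D1 D2 p q n + J⁻¹ • gr D1 D2 J) (J • pull D1 D2 p q t) := by
    intro t ht
    rw [dform_smul, dform_pull hc hJ, ht, wedge_smul_right, wedge_add_left, wedge_smul_left,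
      wedge_pull, mul_add, ← mul_assoc J J⁻¹, mul_inv_cancel₀ hJ, one_mul]
  have t1 : wedge (pull D1 D2 p q w2) (pull D1 D2 p q w3) • pull D1 D2 p q w1 =
      J • pull D1 D2 p q (wedge w2 w3 • w1) := by
    rw [wedge_pull, pull_smul, smul_smul]
  have t2 : wedge (pull D1 D2 p q w3) (pull D1 D2 p q w1) • pull D1 D2 p q w2 =
      J • pull D1 D2 p q (wedge w3 w1 • w2) := by
    rw [wedge_pull, pull_smul, smul_smul]
  symm
  apply eta_unique
  · rw [wedge_pull]; exact mul_ne_zero hJ h12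
  · rw [wedge_pull]; exact mul_ne_zero hJ h23
  · rw [wedge_pull]; exact mul_ne_zero hJ h31
  · rw [t1]; exact key _ e1
  · rw [t2]; exact key _ e2

theorem K3_pull (hc : ∀ z, D1 (D2 z) = D2 (D1 z)) (hJ : jac D1 D2 p q ≠ 0)
    (w1 w2 w3 : E × E) (h12 : wedge w1 w2 ≠ 0) (h23 : wedge w2 w3 ≠ 0)
    (h31 : wedge w3 w1 ≠ 0) :
    K3 D1 D2 (pull D1 D2 p q w1) (pull D1 D2 p q w2) (pull D1 D2 p q w3) =
      jac D1 D2 p q * K3 (dualP D1 D2 p q) (dualQ D1 D2 p q) w1 w2 w3 := by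
  rw [K3, K3, eta_pull hc hJ w1 w2 w3 h12 h23 h31, dform_add, dform_dlog hc, add_zero,
    dform_pull hc hJ]

end

end Pool.Agent.Lib.MP_5bde83_ag.Web
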