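import Pool.Agent.Lib.MP_5bde83_ag.Web2

namespace Pool.Agent.Lib.MP_5bde83_ag.Web

open Polynomial Finset

set_option linter.unusedSimpArgs false

noncomputable section

variable {R E : Type*} [CommRing R] [Field E] [Algebra R E]
variable {Dp Dq : Derivation R E E}

/-! ### The curvature of one triple of slopes -/

/-- derivative of the slope `x` along its own leaf -/
def sd (Dp Dq : Derivation R E E) (x : E) : E := Dp x + x * Dq x

/-- `dq`-part (with sign) of the reduced connection, first slope distinguished -/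
def fb (Dp Dq : Derivation R E E) (x y z : E) : E := sd Dp Dq x * ((x - y)⁻¹ * (x - z)⁻¹)

/-- `dp`-part of the reduced connection, first slope distinguished -/
def fa (Dp Dq : Derivation R E E) (x y z : E) : E :=
  Dq x + x * fb Dp Dq x y z - sd Dp Dq x * ((x - y)⁻¹ + (x - z)⁻¹)

theorem K3_sl (hc : ∀ z, Dp (Dq z) = Dq (Dp z)) (x y z : E) (hxy : x ≠ y) (hxz : x ≠ z)
    (hyz : y ≠ z) :
    K3 Dp Dq (sl x) (sl y) (sl z) =
      - Dp (fb Dp Dq x y z + fb Dp Dq y x z + fb Dp Dq z x y)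
      - Dq (fa Dp Dq x y z + fa Dp Dq y x z + fa Dp Dq z x y) := by
  have h1 : x - y ≠ 0 := sub_ne_zero.2 hxy
  have h2 : x - z ≠ 0 := sub_ne_zero.2 hxz
  have h3 : y - z ≠ 0 := sub_ne_zero.2 hyz
  have h1' : y - x ≠ 0 := sub_ne_zero.2 hxy.symm
  have h2' : z - x ≠ 0 := sub_ne_zero.2 hxz.symm
  have h3' : z - y ≠ 0 := sub_ne_zero.2 hyz.symm
  set L : E := (x - y) * (x - z) * (y - z) with hL
  have hL0 : L ≠ 0 := mul_ne_zero (mul_ne_zero h1 h2) h3
  set a : E := fa Dp Dq x y z + fa Dp Dq y x z + fa Dp Dq z x y with ha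
  set b : E := fb Dp Dq x y z + fb Dp Dq y x z + fb Dp Dq z x y with hb
  have e : L⁻¹ • gr Dp Dq L + (a, -b) = eta Dp Dq (sl x) (sl y) (sl z) := by
    apply eta_unique
    · rw [wedge_sl]; exact h1'
    · rw [wedge_sl]; exact h3'
    · rw [wedge_sl]; exact h2
    · rw [wedge_sl]
      simp only [wedge, dform, sl, gr, ha, hb, hL, fa, fb, sd, Prod.smul_mk, smul_eq_mul,
        Prod.mk_add_mk, Derivation.leibniz, map_add, map_sub, map_neg, map_mul, mul_one,
        Derivation.map_one_eq_zero, mul_neg]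
      field_simp
      ring
    · rw [wedge_sl]
      simp only [wedge, dform, sl, gr, ha, hb, hL, fa, fb, sd, Prod.smul_mk, smul_eq_mul,
        Prod.mk_add_mk, Derivation.leibniz, map_add, map_sub, map_neg, map_mul, mul_one,
        Derivation.map_one_eq_zero, mul_neg]
      field_simp
      ring
  rw [K3, ← e, dform_add, dform_dlog hc]
  simp only [dform, map_neg]
  ring

theorem K3_sl_inf (hc : ∀ z, Dp (Dq z) = Dq (Dp z)) (x y : E) (hxy : x ≠ y) :
    K3 Dp Dq (sl x) (sl y) (1, 0) =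
      - Dq ((Dq x - sd Dp Dq x * (x - y)⁻¹) + (Dq y - sd Dp Dq y * (y - x)⁻¹)) := by
  have h1 : x - y ≠ 0 := sub_ne_zero.2 hxy
  have h1' : y - x ≠ 0 := sub_ne_zero.2 hxy.symm
  set a : E := (Dq x - sd Dp Dq x * (x - y)⁻¹) + (Dq y - sd Dp Dq y * (y - x)⁻¹) with ha
  have w23 : wedge (sl y) ((1 : E), (0 : E)) = -1 := by simp [wedge, sl]
  have w31 : wedge ((1 : E), (0 : E)) (sl x) = 1 := by simp [wedge, sl]
  have e : (x - y)⁻¹ • gr Dp Dq (x - y) + (a, (0 : E)) = eta Dp Dq (sl x) (sl y) (1, 0) := by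
    apply eta_unique
    · rw [wedge_sl]; exact h1'
    · rw [w23]; simp
    · rw [w31]; simp
    · rw [w23]
      simp only [wedge, dform, sl, gr, ha, sd, Prod.smul_mk, smul_eq_mul,
        Prod.mk_add_mk, Derivation.leibniz, map_add, map_sub, map_neg, map_mul, mul_one,
        Derivation.map_one_eq_zero, mul_neg]
      field_simp
      ring
    · rw [w31]
      simp only [wedge, dform, sl, gr, ha, sd, Prod.smul_mk, smul_eq_mul,
        Prod.mk_add_mk, Derivation.leibniz, map_add, map_sub, map_neg, map_mul, mul_one,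
        Derivation.map_one_eq_zero, mul_neg]
      field_simp
      ring
  rw [K3, ← e, dform_add, dform_dlog hc]
  simp only [dform, map_zero]
  ring

/-! ### Symmetry -/

theorem eta_swap (w1 w2 w3 : E × E) (h12 : wedge w1 w2 ≠ 0) (h23 : wedge w2 w3 ≠ 0)
    (h31 : wedge w3 w1 ≠ 0) :
    eta Dp Dq w2 w1 w3 = eta Dp Dq w1 w2 w3 := by
  obtain ⟨e1, e2, e3⟩ := eta_spec (Dp := Dp) (Dq := Dq) w1 w2 w3 h12 h23 h31
  have anti : ∀ v w : E × E, wedge v w = - wedge w v := fun v w => by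
    simp only [wedge]; ring
  symm
  apply eta_unique
  · rw [anti]; exact neg_ne_zero.2 h12
  · rw [anti]; exact neg_ne_zero.2 h31
  · rw [anti]; exact neg_ne_zero.2 h23
  · rw [anti w1 w3, neg_smul, dform_neg, wedge_neg_right, e2]
  · rw [anti w3 w2, neg_smul, dform_neg, wedge_neg_right, e1]

theorem eta_rot (w1 w2 w3 : E × E) (h12 : wedge w1 w2 ≠ 0) (h23 : wedge w2 w3 ≠ 0)
    (h31 : wedge w3 w1 ≠ 0) :
    eta Dp Dq w2 w3 w1 = eta Dp Dq w1 w2 w3 := by
  obtain ⟨e1, e2, e3⟩ := eta_spec (Dp := Dp) (Dq := Dq) w1 w2 w3 h12 h23 h31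
  symm
  apply eta_unique
  · exact h23
  · exact h31
  · exact h12
  · exact e2
  · exact e3

theorem K3_swap (w1 w2 w3 : E × E) (h12 : wedge w1 w2 ≠ 0) (h23 : wedge w2 w3 ≠ 0)
    (h31 : wedge w3 w1 ≠ 0) : K3 Dp Dq w2 w1 w3 = K3 Dp Dq w1 w2 w3 := by
  rw [K3, K3, eta_swap w1 w2 w3 h12 h23 h31]

theorem K3_rot (w1 w2 w3 : E × E) (h12 : wedge w1 w2 ≠ 0) (h23 : wedge w2 w3 ≠ 0)
    (h31 : wedge w3 w1 ≠ 0) : K3 Dp Dq w2 w3 w1 = K3 Dp Dq w1 w2 w3 := by
  rw [K3, K3, eta_rot w1 w2 w3 h12 h23 h31]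

/-! ### Total curvature -/

/-- total curvature: sum over all 3-subwebs -/
def Ktot {ι : Type*} [Fintype ι] [LinearOrder ι] (Dp Dq : Derivation R E E) (w : ι → E × E) : E :=
  ∑ i, ∑ j, ∑ k, if i < j ∧ j < k then K3 Dp Dq (w i) (w j) (w k) else 0

/-- combinatorics of triples -/
theorem triple_sum {ι M : Type*} [Fintype ι] [LinearOrder ι] [AddCommMonoid M]
    (f : ι → ι → ι → M) :
    ∑ i, ∑ j, ∑ k, (if i < j ∧ j < k then f i j k + f j i k + f k i j else 0) =
      ∑ i, ∑ j, ∑ k, if j < k ∧ j ≠ i ∧ k ≠ i then f i j k else 0 := by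
  have h1 : ∀ i j k : ι, (if i < j ∧ j < k then f i j k + f j i k + f k i j else 0) =
      (if i < j ∧ j < k then f i j k else 0) + (if i < j ∧ j < k then f j i k else 0) +
        (if i < j ∧ j < k then f k i j else 0) := by
    intro i j k; split_ifs <;> simp
  have h2 : ∑ i, ∑ j, ∑ k, (if i < j ∧ j < k then f j i k else 0) =
      ∑ i, ∑ j, ∑ k, (if j < i ∧ i < k then f i j k else 0) := by
    rw [Finset.sum_comm]
  have h3 : ∑ i, ∑ j, ∑ k, (if i < j ∧ j < k then f k i j else 0) =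
      ∑ i, ∑ j, ∑ k, (if j < k ∧ k < i then f i j k else 0) := by
    calc ∑ i, ∑ j, ∑ k, (if i < j ∧ j < k then f k i j else 0)
        = ∑ i, ∑ k, ∑ j, (if i < j ∧ j < k then f k i j else 0) := by
          refine Finset.sum_congr rfl fun i _ => ?_
          rw [Finset.sum_comm]
      _ = ∑ k, ∑ i, ∑ j, (if i < j ∧ j < k then f k i j else 0) := by
          rw [Finset.sum_comm]
  simp_rw [h1, Finset.sum_add_distrib]
  rw [h2, h3]
  simp_rw [← Finset.sum_add_distrib]
  refine Finset.sum_congr rfl fun i _ => Finset.sum_congr rfl fun j _ =>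
    Finset.sum_congr rfl fun k _ => ?_
  rcases lt_trichotomy i j with h | h | h
  · rcases lt_trichotomy j k with g | g | g
    · simp [h, g, h.not_gt, (h.trans g).not_gt, h.ne', (h.trans g).ne']
    · subst g; simp [h.not_gt]
    · simp [g.not_gt, h.not_gt]
  · subst h; simp
    intro a b; exact absurd (a.trans b) (lt_irrefl _)
  · rcases lt_trichotomy j k with g | g | g
    · rcases lt_trichotomy i k with l | l | l
      · simp [h, g, l, h.not_gt, l.not_gt, h.ne, l.ne']
      · subst l; simp [h.not_gt]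
      · simp [h, g, l, h.not_gt, l.not_gt, h.ne, l.ne]
    · subst g; simp [h, h.not_gt]
    · simp [g.not_gt, h.not_gt, (g.trans h).not_gt]

/-- symmetric sums over pairs -/
theorem pair_sum {ι M : Type*} [Fintype ι] [LinearOrder ι] [AddCommMonoid M] (i : ι)
    (g : ι → ι → M) (hg : ∀ j k, g j k = g k j) :
    ∑ j, ∑ k, (if j < k ∧ j ≠ i ∧ k ≠ i then g j k else 0) +
    ∑ j, ∑ k, (if j < k ∧ j ≠ i ∧ k ≠ i then g j k else 0) =
      ∑ j ∈ univ.erase i, ∑ k ∈ (univ.erase i).erase j, g j k := by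
  have h2 : ∑ j, ∑ k, (if j < k ∧ j ≠ i ∧ k ≠ i then g j k else 0) =
      ∑ j, ∑ k, (if k < j ∧ j ≠ i ∧ k ≠ i then g j k else 0) := by
    rw [Finset.sum_comm]
    refine Finset.sum_congr rfl fun j _ => Finset.sum_congr rfl fun k _ => ?_
    rw [hg k j]
    congr 1
    simp only [eq_iff_iff]; tauto
  conv_lhs => rw [h2]
  rw [← h2]
  conv_lhs =>
    arg 2
    rw [h2]
  rw [← Finset.sum_add_distrib]
  have e1 : ∀ j, ∑ k ∈ (univ.erase i).erase j, g j k = ∑ k, if k ≠ j ∧ k ≠ i then g j k else 0 := by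
    intro j
    rw [← Finset.sum_filter]
    refine Finset.sum_congr ?_ fun _ _ => rfl
    ext k; simp
  have e2 : ∀ F : ι → M, ∑ j ∈ univ.erase i, F j = ∑ j, if j ≠ i then F j else 0 := by
    intro F
    rw [← Finset.sum_filter]
    refine Finset.sum_congr ?_ fun _ _ => rfl
    ext k; simp
  rw [e2]
  refine Finset.sum_congr rfl fun j _ => ?_
  rw [e1, ← Finset.sum_add_distrib]
  split_ifs with hj
  · refine Finset.sum_congr rfl fun k _ => ?_
    rcases lt_trichotomy j k with h | h | h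
    · by_cases hk : k = i <;> simp [h, h.not_gt, hj, hk, h.ne']
    · subst h; simp
    · by_cases hk : k = i <;> simp [h, h.not_gt, hj, hk, h.ne]
  · apply Finset.sum_eq_zero
    intro k _
    simp [hj]

end

end Pool.Agent.Lib.MP_5bde83_ag.Web
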