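import Pool.Agent.Lib.MP_5bde83_ag.Web3

namespace Pool.Agent.Lib.MP_5bde83_ag.Web

open Polynomial Finset

set_option linter.unusedSimpArgs false

noncomputable section

variable {R E : Type*} [CommRing R] [Field E] [Algebra R E] [CharZero E]
variable {Dp Dq : Derivation R E E}
variable {ι : Type*} [Fintype ι] [LinearOrder ι]

/-- first elementary symmetric function of `1/(x_i - x_j)`, `j ≠ i` -/
def e1 (x : ι → E) (i : ι) : E := ∑ j ∈ univ.erase i, (x i - x j)⁻¹

/-- second elementary symmetric function of `1/(x_i - x_j)`, `j ≠ i` -/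
def e2 (x : ι → E) (i : ι) : E :=
  ∑ j, ∑ k, if j < k ∧ j ≠ i ∧ k ≠ i then (x i - x j)⁻¹ * (x i - x k)⁻¹ else 0

/-- `dq`-part (with sign) of the total connection -/
def Tsum (Dp Dq : Derivation R E E) (x : ι → E) : E := ∑ i, sd Dp Dq (x i) * e2 x i

/-- `dp`-part of the total connection; `m` is the number of branches minus one -/
def Ssum (Dp Dq : Derivation R E E) (m : ℕ) (x : ι → E) : E :=
  (m.choose 2 : E) * ∑ i, Dq (x i) +
    ∑ i, sd Dp Dq (x i) * (x i * e2 x i - ((m : E) - 1) * e1 x i)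

theorem pair_const (i : ι) (c : E) :
    ∑ j, ∑ k, (if j < k ∧ j ≠ i ∧ k ≠ i then c else 0) =
      ((Fintype.card ι - 1).choose 2 : E) * c := by
  have h := pair_sum i (fun _ _ : ι => c) (fun _ _ => rfl)
  have hm : (univ.erase i).card = Fintype.card ι - 1 := by
    rw [Finset.card_erase_of_mem (Finset.mem_univ i), Finset.card_univ]
  have h2 : ∑ j ∈ univ.erase i, ∑ k ∈ (univ.erase i).erase j, c =
      ((Fintype.card ι - 1 : ℕ) : E) * (((Fintype.card ι - 1 : ℕ) : E) - 1) * c := by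
    have : ∀ j ∈ univ.erase i, ∑ k ∈ (univ.erase i).erase j, c =
        (((Fintype.card ι - 1 : ℕ) : E) - 1) * c := by
      intro j hj
      rw [Finset.sum_const, Finset.card_erase_of_mem hj, hm, nsmul_eq_mul]
      have h1 : 1 ≤ Fintype.card ι - 1 := by
        rw [← hm]; exact Finset.card_pos.2 ⟨j, hj⟩
      rw [Nat.cast_sub h1, Nat.cast_one]
    rw [Finset.sum_congr rfl this, Finset.sum_const, hm, nsmul_eq_mul, mul_assoc]
  rw [h2] at h
  rw [Nat.cast_choose_two]
  have h3 : (2 : E) * ∑ j, ∑ k, (if j < k ∧ j ≠ i ∧ k ≠ i then c else 0) =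
      ((Fintype.card ι - 1 : ℕ) : E) * (((Fintype.card ι - 1 : ℕ) : E) - 1) * c := by
    rw [two_mul]; exact h
  linear_combination (1 / 2 : E) * h3

theorem pair_add (i : ι) (v : ι → E) :
    ∑ j, ∑ k, (if j < k ∧ j ≠ i ∧ k ≠ i then v j + v k else 0) =
      ((Fintype.card ι : E) - 2) * ∑ j ∈ univ.erase i, v j := by
  have h := pair_sum i (fun j k : ι => v j + v k) (fun _ _ => add_comm _ _)
  have hm : (univ.erase i).card = Fintype.card ι - 1 := by
    rw [Finset.card_erase_of_mem (Finset.mem_univ i), Finset.card_univ]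
  have hc1 : 1 ≤ Fintype.card ι := Fintype.card_pos_iff.2 ⟨i⟩
  have hmE : (((univ.erase i).card : ℕ) : E) = (Fintype.card ι : E) - 1 := by
    rw [hm, Nat.cast_sub hc1, Nat.cast_one]
  have h2 : ∑ j ∈ univ.erase i, ∑ k ∈ (univ.erase i).erase j, (v j + v k) =
      2 * (((Fintype.card ι : E) - 2) * ∑ j ∈ univ.erase i, v j) := by
    have : ∀ j ∈ univ.erase i, ∑ k ∈ (univ.erase i).erase j, (v j + v k) =
        ((Fintype.card ι : E) - 3) * v j + ∑ k ∈ univ.erase i, v k := by
      intro j hj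
      rw [Finset.sum_add_distrib, Finset.sum_const, Finset.card_erase_of_mem hj, nsmul_eq_mul]
      have h1 : 1 ≤ (univ.erase i).card := Finset.card_pos.2 ⟨j, hj⟩
      rw [Nat.cast_sub h1, Nat.cast_one, hmE]
      have := Finset.add_sum_erase (univ.erase i) v hj
      rw [← this]; ring
    rw [Finset.sum_congr rfl this, Finset.sum_add_distrib, ← Finset.mul_sum, Finset.sum_const,
      nsmul_eq_mul, hmE]
    ring
  rw [h2] at h
  have h3 : (2 : E) * ∑ j, ∑ k, (if j < k ∧ j ≠ i ∧ k ≠ i then v j + v k else 0) =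
      2 * (((Fintype.card ι : E) - 2) * ∑ j ∈ univ.erase i, v j) := by
    rw [two_mul]; exact h
  exact mul_left_cancel₀ two_ne_zero h3

/-- total curvature of a web with finite slopes -/
theorem Ktot_sl (hc : ∀ z, Dp (Dq z) = Dq (Dp z)) (x : ι → E) (hx : Function.Injective x) :
    Ktot Dp Dq (fun i => sl (x i)) =
      - Dp (Tsum Dp Dq x) - Dq (Ssum Dp Dq (Fintype.card ι - 1) x) := by
  have h1 : Ktot Dp Dq (fun i => sl (x i)) =
      - Dp (∑ i, ∑ j, ∑ k, if i < j ∧ j < k then fb Dp Dq (x i) (x j) (x k) +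
        fb Dp Dq (x j) (x i) (x k) + fb Dp Dq (x k) (x i) (x j) else 0) -
      Dq (∑ i, ∑ j, ∑ k, if i < j ∧ j < k then fa Dp Dq (x i) (x j) (x k) +
        fa Dp Dq (x j) (x i) (x k) + fa Dp Dq (x k) (x i) (x j) else 0) := by
    simp only [Ktot, map_sum, ← Finset.sum_neg_distrib, ← Finset.sum_sub_distrib]
    refine Finset.sum_congr rfl fun i _ => Finset.sum_congr rfl fun j _ =>
      Finset.sum_congr rfl fun k _ => ?_
    split_ifs with h
    · exact K3_sl hc _ _ _ (hx.ne h.1.ne) (hx.ne (h.1.trans h.2).ne) (hx.ne h.2.ne)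
    · simp
  rw [h1, triple_sum (fun i j k => fb Dp Dq (x i) (x j) (x k)),
    triple_sum (fun i j k => fa Dp Dq (x i) (x j) (x k))]
  have hT : ∑ i, ∑ j, ∑ k, (if j < k ∧ j ≠ i ∧ k ≠ i then fb Dp Dq (x i) (x j) (x k) else 0) =
      Tsum Dp Dq x := by
    simp only [Tsum, e2, Finset.mul_sum]
    refine Finset.sum_congr rfl fun i _ => Finset.sum_congr rfl fun j _ =>
      Finset.sum_congr rfl fun k _ => ?_
    split_ifs <;> simp [fb]
  have hS : ∑ i, ∑ j, ∑ k, (if j < k ∧ j ≠ i ∧ k ≠ i then fa Dp Dq (x i) (x j) (x k) else 0) =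
      Ssum Dp Dq (Fintype.card ι - 1) x := by
    simp only [Ssum]
    rw [Finset.mul_sum, ← Finset.sum_add_distrib]
    refine Finset.sum_congr rfl fun i _ => ?_
    have hc1 : 1 ≤ Fintype.card ι := Fintype.card_pos_iff.2 ⟨i⟩
    have s1 : ∀ j k : ι, (if j < k ∧ j ≠ i ∧ k ≠ i then fa Dp Dq (x i) (x j) (x k) else 0) =
        (if j < k ∧ j ≠ i ∧ k ≠ i then Dq (x i) else 0) +
        x i * sd Dp Dq (x i) * (if j < k ∧ j ≠ i ∧ k ≠ i then
          (x i - x j)⁻¹ * (x i - x k)⁻¹ else 0) -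
        sd Dp Dq (x i) * (if j < k ∧ j ≠ i ∧ k ≠ i then
          (x i - x j)⁻¹ + (x i - x k)⁻¹ else 0) := by
      intro j k
      split_ifs
      · simp only [fa, fb]; ring
      · ring
    simp_rw [s1, Finset.sum_sub_distrib, Finset.sum_add_distrib, ← Finset.mul_sum]
    rw [pair_const, pair_add i (fun j => (x i - x j)⁻¹)]
    simp only [e2, e1]
    rw [Nat.cast_sub hc1, Nat.cast_one]
    ring
  rw [hT, hS]

end

end Pool.Agent.Lib.MP_5bde83_ag.Web
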