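import Pool.Agent.Lib.MP_5bde83_ag.FlatCore
import Pool.Agent.Lib.MP_5bde83_ag.Mg.G007
import Pool.Agent.Lib.MP_5bde83_ag.Mg.G003

/-!
Change of chart: from the standard chart `y = p x - q z` to the chart of a frame `e1, e2, s`.
-/

namespace Pool.Agent.Lib.MP_5bde83_ag

open Polynomial

noncomputable section

variable {E : Type} [Field E] [Algebra ℂ E]

/-- value of the linear form `(p, -1, -q)` on a vector of `ℂ^3` -/
def lp (p q : E) (v : Fin 3 → ℂ) : E :=
  algebraMap ℂ E (v 0) * p - algebraMap ℂ E (v 1) - algebraMap ℂ E (v 2) * q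

variable {dp dq : Derivation ℂ E E} {p q : E}

theorem wr_aeval_ne (h : PQ dp dq p q) {L : ℂ[X]} (hL : L ≠ 0) : aeval p L ≠ 0 := by
  induction hn : L.natDegree using Nat.strong_induction_on generalizing L with
  | _ n ih =>
    intro h0
    have h1 : dp (aeval p L) = aeval p (derivative L) := by
      rw [Derivation.map_aeval, h.pp]
      simp
    rw [h0, map_zero] at h1
    by_cases hd : L.natDegree = 0
    · obtain ⟨c, rfl⟩ := natDegree_eq_zero.1 hd
      rw [aeval_C] at h0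
      have hc : c = 0 := (map_eq_zero (algebraMap ℂ E)).1 h0
      apply hL
      rw [hc, C_0]
    · have hlt := natDegree_derivative_lt hd
      have hne : derivative L ≠ 0 := by
        intro h2
        exact hd (derivative_eq_zero.1 h2)
      exact ih _ (by omega) hne rfl h1.symm

theorem dp_lp (h : PQ dp dq p q) (v : Fin 3 → ℂ) : dp (lp p q v) = algebraMap ℂ E (v 0) := by
  simp [lp, h.pp, h.pq]

theorem dq_lp (h : PQ dp dq p q) (v : Fin 3 → ℂ) : dq (lp p q v) = - algebraMap ℂ E (v 2) := by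
  simp [lp, h.qp, h.qq]

theorem lp_ne (h : PQ dp dq p q) (v : Fin 3 → ℂ) (hv : v ≠ 0) : lp p q v ≠ 0 := by
  intro h0
  have h1 := dp_lp h v
  have h2 := dq_lp h v
  rw [h0, map_zero] at h1 h2
  have v0 : v 0 = 0 := (map_eq_zero (algebraMap ℂ E)).1 h1.symm
  have v2 : v 2 = 0 := (map_eq_zero (algebraMap ℂ E)).1 (neg_eq_zero.1 h2.symm)
  have v1 : v 1 = 0 := by
    rw [lp, v0, v2, map_zero, zero_mul, zero_mul, sub_zero, zero_sub, neg_eq_zero] at h0
    exact (map_eq_zero (algebraMap ℂ E)).1 h0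
  apply hv
  funext j
  fin_cases j
  · exact v0
  · exact v1
  · exact v2

/-- first coordinate of the moving line in the chart of the frame `e1, e2, s` -/
def nP (p q : E) (e1 e2 : Fin 3 → ℂ) : E := - lp p q e1 / lp p q e2

/-- second coordinate of the moving line in the chart of the frame `e1, e2, s` -/
def nQ (p q : E) (e2 s : Fin 3 → ℂ) : E := lp p q s / lp p q e2

theorem dp_nP (h : PQ dp dq p q) (e1 e2 : Fin 3 → ℂ) (h2 : lp p q e2 ≠ 0) :
    lp p q e2 * dp (nP p q e1 e2) = - algebraMap ℂ E (e1 0) -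
      nP p q e1 e2 * algebraMap ℂ E (e2 0) := by
  have h3 : nP p q e1 e2 * lp p q e2 = - lp p q e1 := by
    rw [nP, div_mul_cancel₀ _ h2]
  have h4 := congrArg dp h3
  rw [Derivation.leibniz, map_neg, dp_lp h, dp_lp h, smul_eq_mul, smul_eq_mul] at h4
  linear_combination h4

theorem dq_nP (h : PQ dp dq p q) (e1 e2 : Fin 3 → ℂ) (h2 : lp p q e2 ≠ 0) :
    lp p q e2 * dq (nP p q e1 e2) = algebraMap ℂ E (e1 2) +
      nP p q e1 e2 * algebraMap ℂ E (e2 2) := by
  have h3 : nP p q e1 e2 * lp p q e2 = - lp p q e1 := by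
    rw [nP, div_mul_cancel₀ _ h2]
  have h4 := congrArg dq h3
  rw [Derivation.leibniz, map_neg, dq_lp h, dq_lp h, smul_eq_mul, smul_eq_mul] at h4
  linear_combination h4

theorem dp_nQ (h : PQ dp dq p q) (e2 s : Fin 3 → ℂ) (h2 : lp p q e2 ≠ 0) :
    lp p q e2 * dp (nQ p q e2 s) = algebraMap ℂ E (s 0) -
      nQ p q e2 s * algebraMap ℂ E (e2 0) := by
  have h3 : nQ p q e2 s * lp p q e2 = lp p q s := by
    rw [nQ, div_mul_cancel₀ _ h2]
  have h4 := congrArg dp h3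
  rw [Derivation.leibniz, dp_lp h, dp_lp h, smul_eq_mul, smul_eq_mul] at h4
  linear_combination h4

theorem dq_nQ (h : PQ dp dq p q) (e2 s : Fin 3 → ℂ) (h2 : lp p q e2 ≠ 0) :
    lp p q e2 * dq (nQ p q e2 s) = - algebraMap ℂ E (s 2) +
      nQ p q e2 s * algebraMap ℂ E (e2 2) := by
  have h3 : nQ p q e2 s * lp p q e2 = lp p q s := by
    rw [nQ, div_mul_cancel₀ _ h2]
  have h4 := congrArg dq h3
  rw [Derivation.leibniz, dq_lp h, dq_lp h, smul_eq_mul, smul_eq_mul] at h4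
  linear_combination h4

/-- the Jacobian of the change of chart -/
theorem wr_jac (h : PQ dp dq p q) (e1 e2 s : Fin 3 → ℂ) (h2 : lp p q e2 ≠ 0) :
    Web.jac dp dq (nP p q e1 e2) (nQ p q e2 s) * lp p q e2 ^ 3 = - algebraMap ℂ E (tri e1 e2 s) := by
  have a1 := dp_nP h e1 e2 h2
  have a2 := dq_nP h e1 e2 h2
  have a3 := dp_nQ h e2 s h2
  have a4 := dq_nQ h e2 s h2
  have h3 : nP p q e1 e2 * lp p q e2 = - lp p q e1 := by
    rw [nP, div_mul_cancel₀ _ h2]
  have h4 : nQ p q e2 s * lp p q e2 = lp p q s := by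
    rw [nQ, div_mul_cancel₀ _ h2]
  set A := nP p q e1 e2
  set B := nQ p q e2 s
  set V := lp p q e2 with hV
  have key : Web.jac dp dq A B * V ^ 3 =
      V * ((V * dp A) * (V * dq B) - (V * dp B) * (V * dq A)) := by
    rw [Web.jac]; ring
  rw [key, a1, a2, a3, a4]
  have e : V * ((-(algebraMap ℂ E) (e1 0) - A * (algebraMap ℂ E) (e2 0)) *
        (-(algebraMap ℂ E) (s 2) + B * (algebraMap ℂ E) (e2 2)) -
      ((algebraMap ℂ E) (s 0) - B * (algebraMap ℂ E) (e2 0)) *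
        ((algebraMap ℂ E) (e1 2) + A * (algebraMap ℂ E) (e2 2))) =
      V * ((algebraMap ℂ E) (e1 0) * (algebraMap ℂ E) (s 2) -
        (algebraMap ℂ E) (s 0) * (algebraMap ℂ E) (e1 2)) +
      (A * V) * ((algebraMap ℂ E) (e2 0) * (algebraMap ℂ E) (s 2) -
        (algebraMap ℂ E) (s 0) * (algebraMap ℂ E) (e2 2)) +
      (B * V) * ((algebraMap ℂ E) (e2 0) * (algebraMap ℂ E) (e1 2) -
        (algebraMap ℂ E) (e1 0) * (algebraMap ℂ E) (e2 2)) := by ring
  rw [e, h3, h4, hV]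
  simp only [lp, tri, map_add, map_sub, map_mul]
  ring

/-- the new coordinates and derivations -/
theorem wr_PQ (h : PQ dp dq p q) (e1 e2 s : Fin 3 → ℂ) (h2 : e2 ≠ 0) (ht : tri e1 e2 s ≠ 0) :
    Web.jac dp dq (nP p q e1 e2) (nQ p q e2 s) ≠ 0 ∧
    PQ (Web.dualP dp dq (nP p q e1 e2) (nQ p q e2 s)) (Web.dualQ dp dq (nP p q e1 e2) (nQ p q e2 s))
      (nP p q e1 e2) (nQ p q e2 s) := by
  have hJ : Web.jac dp dq (nP p q e1 e2) (nQ p q e2 s) ≠ 0 := by
    intro h0
    have h1 := wr_jac h e1 e2 s (lp_ne h e2 h2)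
    rw [h0, zero_mul] at h1
    have h3 : algebraMap ℂ E (tri e1 e2 s) = 0 := neg_eq_zero.1 h1.symm
    exact ht ((map_eq_zero (algebraMap ℂ E)).1 h3)
  exact ⟨hJ, Web.dual_comm h.comm hJ, Web.dualP_p hJ, Web.dualP_q, Web.dualQ_p, Web.dualQ_q hJ⟩

/-- Cramer's rule over `E` -/
theorem wr_decomp {e1 e2 s : Fin 3 → ℂ} (ht : tri e1 e2 s ≠ 0) (m : Fin 3 → E) :
    ∃ x y z : E, ∀ j, m j = x * algebraMap ℂ E (e1 j) + y * algebraMap ℂ E (e2 j) +
      z * algebraMap ℂ E (s j) := by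
  have hT : algebraMap ℂ E (tri e1 e2 s) ≠ 0 := by
    intro h
    exact ht ((map_eq_zero (algebraMap ℂ E)).1 h)
  set f := algebraMap ℂ E with hf
  set T := f (tri e1 e2 s) with hTd
  have hTe : T = f (e1 0) * (f (e2 1) * f (s 2) - f (e2 2) * f (s 1)) -
      f (e1 1) * (f (e2 0) * f (s 2) - f (e2 2) * f (s 0)) +
      f (e1 2) * (f (e2 0) * f (s 1) - f (e2 1) * f (s 0)) := by
    rw [hTd]; simp only [tri, map_add, map_sub, map_mul]
  refine ⟨(m 0 * (f (e2 1) * f (s 2) - f (e2 2) * f (s 1)) -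
      m 1 * (f (e2 0) * f (s 2) - f (e2 2) * f (s 0)) +
      m 2 * (f (e2 0) * f (s 1) - f (e2 1) * f (s 0))) / T,
    (f (e1 0) * (m 1 * f (s 2) - m 2 * f (s 1)) -
      f (e1 1) * (m 0 * f (s 2) - m 2 * f (s 0)) +
      f (e1 2) * (m 0 * f (s 1) - m 1 * f (s 0))) / T,
    (f (e1 0) * (f (e2 1) * m 2 - f (e2 2) * m 1) -
      f (e1 1) * (f (e2 0) * m 2 - f (e2 2) * m 0) +
      f (e1 2) * (f (e2 0) * m 1 - f (e2 1) * m 0)) / T, fun j => ?_⟩
  rw [div_mul_eq_mul_div, div_mul_eq_mul_div, div_mul_eq_mul_div, ← add_div, ← add_div,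
    eq_div_iff hT, hTe]
  fin_cases j
  · simp only [Fin.zero_eta]; ring
  · simp only [Fin.mk_one]; ring
  · simp only [Fin.reduceFinMk]; ring

/-- the equation of the moving line in the frame -/
theorem wr_line {e1 e2 s : Fin 3 → ℂ} {m : Fin 3 → E} {x y z : E}
    (hm : ∀ j, m j = x * algebraMap ℂ E (e1 j) + y * algebraMap ℂ E (e2 j) +
      z * algebraMap ℂ E (s j)) :
    p * m 0 - m 1 - q * m 2 = x * lp p q e1 + y * lp p q e2 + z * lp p q s := by
  rw [hm 0, hm 1, hm 2]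
  simp only [lp]
  ring

theorem wr_y {e1 e2 s : Fin 3 → ℂ} {x y z : E} (h2 : lp p q e2 ≠ 0)
    (hl : x * lp p q e1 + y * lp p q e2 + z * lp p q s = 0) :
    y = nP p q e1 e2 * x - nQ p q e2 s * z := by
  rw [nP, nQ]
  field_simp
  linear_combination hl

/-- the web form in the new chart -/
theorem wr_form (h : PQ dp dq p q) {e1 e2 s : Fin 3 → ℂ} (h2 : lp p q e2 ≠ 0) {m : Fin 3 → E}
    {x y z : E} (hm : ∀ j, m j = x * algebraMap ℂ E (e1 j) + y * algebraMap ℂ E (e2 j) +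
      z * algebraMap ℂ E (s j)) (hon : m 1 = p * m 0 - q * m 2) :
    (m 0, - m 2) = (- lp p q e2) •
      Web.pull dp dq (nP p q e1 e2) (nQ p q e2 s) (x, -z) := by
  have hl : x * lp p q e1 + y * lp p q e2 + z * lp p q s = 0 := by
    rw [← wr_line hm, hon]; ring
  have hy := wr_y h2 hl
  have a1 := dp_nP h e1 e2 h2
  have a2 := dq_nP h e1 e2 h2
  have a3 := dp_nQ h e2 s h2
  have a4 := dq_nQ h e2 s h2
  ext
  · simp only [Web.pull, Prod.smul_mk, smul_eq_mul]
    rw [hm 0, hy]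
    linear_combination x * a1 - z * a3
  · simp only [Web.pull, Prod.smul_mk, smul_eq_mul]
    rw [hm 2, hy]
    linear_combination x * a2 - z * a4

end

end Pool.Agent.Lib.MP_5bde83_ag
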