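import Pool.Agent.Lib.MP_5bde83_ag.Mg.G004

/-!
Flatness of the dual web: assembly in an arbitrary chart.
-/

namespace Pool.Agent.Lib.MP_5bde83_ag

open Polynomial

noncomputable section

variable {E : Type} [Field E] [Algebra ℂ E]
variable {n : ℕ} {ω : Fin 3 → MvPolynomial (Fin 3) ℂ} {ℓ : Fin (3 * n) → Fin 3 → ℂ}

/-- a frame whose line at infinity is a given line -/
theorem frame_exists (l : Fin 3 → ℂ) (hl : l ≠ 0) :
    ∃ e1 e2 s : Fin 3 → ℂ, tri e1 e2 s ≠ 0 ∧ dot l e1 = 0 ∧ dot l e2 = 0 := by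
  by_cases h0 : l 0 = 0
  · by_cases h1 : l 1 = 0
    · have h2 : l 2 ≠ 0 := by
        intro h2
        apply hl
        funext j
        fin_cases j
        · exact h0
        · exact h1
        · exact h2
      refine ⟨![1, 0, 0], ![0, 1, 0], ![0, 0, 1], ?_, ?_, ?_⟩
      · simp [tri]
      · simp [dot, Fin.sum_univ_three, h0]
      · simp [dot, Fin.sum_univ_three, h1]
    · refine ⟨![1, 0, 0], ![0, -l 2, l 1], ![0, 1, 0], ?_, ?_, ?_⟩
      · simp [tri, h1]
      · simp [dot, Fin.sum_univ_three, h0]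
      · simp [dot, Fin.sum_univ_three]; ring
  · refine ⟨![-l 1, l 0, 0], ![-l 2, 0, l 0], ![1, 0, 0], ?_, ?_, ?_⟩
    · simp [tri, h0]
    · simp [dot, Fin.sum_univ_three]; ring
    · simp [dot, Fin.sum_univ_three]; ring

/-- the web polynomial is not zero -/
theorem wr_web_ne (G : GData n ω ℓ) (i0 : Fin (3 * n)) (e1 e2 s : Fin 3 → ℂ)
    (ht : tri e1 e2 s ≠ 0) (h1 : dot (ℓ i0) e1 = 0) (h2 : dot (ℓ i0) e2 = 0)
    {k : ℕ} {F : MvPolynomial (Fin 3) ℂ} (hFk : F.IsHomogeneous k) (hF0 : F ≠ 0)
    {dp dq : Derivation ℂ E E} {p q : E} (hpq : PQ dp dq p q) :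
    webPoly (-ev ω e1 e2 s e1) (ev ω e1 e2 s e2) (MvPolynomial.aeval (pt e1 e2 s) F) p q ≠ 0 := by
  refine mul_ne_zero ?_ ?_
  · intro h0
    have h3 := wr_onLine_ne hpq k _ (Deg.hom' e1 e2 s hFk) h0
    apply hF0
    apply MvPolynomial.funext
    intro v
    rw [map_zero]
    -- values at points with nonzero last coordinate
    have key : ∀ x y : ℂ, MvPolynomial.eval (x • e1 + y • e2 + s) F = 0 := by
      intro x y
      have h4 := wr_evE (E := ℂ) x y e1 e2 s F
      rw [h3, map_zero] at h4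
      rw [← MvPolynomial.coe_aeval_eq_eval]
      have h5 : (fun j => x * algebraMap ℂ ℂ (e1 j) + y * algebraMap ℂ ℂ (e2 j) +
          algebraMap ℂ ℂ (s j)) = x • e1 + y • e2 + s := by
        funext j
        simp
      rw [h5] at h4
      exact h4.symm
    obtain ⟨a, b, c, rfl⟩ := frame_decomp ht v
    have key2 : ∀ c : ℂ, c ≠ 0 → MvPolynomial.eval (a • e1 + b • e2 + c • s) F = 0 := by
      intro c hc
      have h5 : a • e1 + b • e2 + c • s = c • ((a / c) • e1 + (b / c) • e2 + s) := by
        rw [smul_add, smul_add, smul_smul, smul_smul, mul_div_cancel₀ _ hc, mul_div_cancel₀ _ hc]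
      rw [h5, eval_smul_hom F k hFk, key, mul_zero]
    by_cases hc : c = 0
    · have h6 : infR (a • e1 + b • e2) s F = 0 := by
        apply poly_zero_of_eval
        intro t ht0
        rw [infR_eval]
        exact key2 t ht0
      have h7 := congrArg (eval 0) h6
      rw [infR_eval, eval_zero] at h7
      rw [hc]
      exact h7
    · exact key2 c hc
  · intro h0
    have h3 := tangPoly_ne_zero G.fol (ℓ i0) e1 e2 s (G.inv i0) ht h1 h2 hpq
    rw [h0, coeff_zero] at h3
    exact h3 rfl

/-- a finite branch gives a root of the web polynomial -/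
theorem wr_root (h : IsFol n ω) (e1 e2 s : Fin 3 → ℂ) {k : ℕ} {F : MvPolynomial (Fin 3) ℂ}
    (hFk : F.IsHomogeneous k) {P Q : E} {m : Fin 3 → E} {x y z : E} (hz : z ≠ 0)
    (hm : ∀ j, m j = x * algebraMap ℂ E (e1 j) + y * algebraMap ℂ E (e2 j) +
      z * algebraMap ℂ E (s j)) (hy : y = P * x - Q * z)
    (hroot : MvPolynomial.aeval m F = 0 ∨
      ∑ j, (algebraMap ℂ E (e1 j) + P * algebraMap ℂ E (e2 j)) *
        MvPolynomial.aeval m (ω j) = 0) :
    (webPoly (-ev ω e1 e2 s e1) (ev ω e1 e2 s e2) (MvPolynomial.aeval (pt e1 e2 s) F) P Q).eval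
      (x / z) = 0 := by
  have hm2 : m = fun j => z * (x / z * algebraMap ℂ E (e1 j) +
      (P * (x / z) - Q) * algebraMap ℂ E (e2 j) + algebraMap ℂ E (s j)) := by
    funext j
    rw [hm j, hy]
    field_simp
  rw [webPoly, eval_mul, tangPoly, eval_sub, eval_mul, eval_C, onLine_eval, onLine_eval,
    onLine_eval]
  rcases hroot with h1 | h1
  · rw [hm2, wr_hom hFk] at h1
    have h2 := (mul_eq_zero.1 h1).resolve_left (pow_ne_zero _ hz)
    rw [wr_evE, h2, zero_mul]
  · have h3 : ∀ j, MvPolynomial.aeval m (ω j) = z ^ (n + 1) *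
        MvPolynomial.aeval (fun j => x / z * algebraMap ℂ E (e1 j) +
          (P * (x / z) - Q) * algebraMap ℂ E (e2 j) + algebraMap ℂ E (s j)) (ω j) := by
      intro j
      rw [hm2, wr_hom (h.hom j)]
    simp only [h3] at h1
    have h4 : ∀ w : Fin 3 → ℂ, evE (x / z) (P * (x / z) - Q) (ev ω e1 e2 s w) =
        ∑ j, algebraMap ℂ E (w j) * MvPolynomial.aeval (fun j => x / z * algebraMap ℂ E (e1 j) +
          (P * (x / z) - Q) * algebraMap ℂ E (e2 j) + algebraMap ℂ E (s j)) (ω j) := by
      intro w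
      unfold ev
      rw [map_sum]
      refine Finset.sum_congr rfl fun j _ => ?_
      rw [map_mul, evE_CC, wr_evE]
    rw [map_neg, h4 e1, h4 e2]
    have h5 : z ^ (n + 1) * (∑ j, algebraMap ℂ E (e1 j) * MvPolynomial.aeval
        (fun j => x / z * algebraMap ℂ E (e1 j) +
          (P * (x / z) - Q) * algebraMap ℂ E (e2 j) + algebraMap ℂ E (s j)) (ω j) +
        P * ∑ j, algebraMap ℂ E (e2 j) * MvPolynomial.aeval
        (fun j => x / z * algebraMap ℂ E (e1 j) +
          (P * (x / z) - Q) * algebraMap ℂ E (e2 j) + algebraMap ℂ E (s j)) (ω j)) = 0 := by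
      rw [← h1, Finset.mul_sum, ← Finset.sum_add_distrib, Finset.mul_sum]
      refine Finset.sum_congr rfl fun j _ => ?_
      ring
    have h6 := (mul_eq_zero.1 h5).resolve_left (pow_ne_zero _ hz)
    rw [← neg_eq_zero, ← mul_neg]
    have h7 : -(-(∑ j, algebraMap ℂ E (e1 j) * MvPolynomial.aeval
        (fun j => x / z * algebraMap ℂ E (e1 j) +
          (P * (x / z) - Q) * algebraMap ℂ E (e2 j) + algebraMap ℂ E (s j)) (ω j)) -
        P * ∑ j, algebraMap ℂ E (e2 j) * MvPolynomial.aeval
        (fun j => x / z * algebraMap ℂ E (e1 j) +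
          (P * (x / z) - Q) * algebraMap ℂ E (e2 j) + algebraMap ℂ E (s j)) (ω j)) = 0 := by
      rw [← h6]; ring
    rw [h7, mul_zero]

/-- the matrix `g` acting on vectors of `E^3` -/
def gE (g : Matrix (Fin 3) (Fin 3) ℂ) (v : Fin 3 → E) : Fin 3 → E :=
  fun j => ∑ a, algebraMap ℂ E (g j a) * v a

theorem gE_comb (g : Matrix (Fin 3) (Fin 3) ℂ) {e1 e2 s f1 f2 f3 : Fin 3 → ℂ}
    (h1 : g.mulVec f1 = e1) (h2 : g.mulVec f2 = e2) (h3 : g.mulVec f3 = s) {x y z : E}
    {m : Fin 3 → E} (hm : ∀ j, m j = x * algebraMap ℂ E (f1 j) + y * algebraMap ℂ E (f2 j) +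
      z * algebraMap ℂ E (f3 j)) (j : Fin 3) :
    gE g m j = x * algebraMap ℂ E (e1 j) + y * algebraMap ℂ E (e2 j) +
      z * algebraMap ℂ E (s j) := by
  have k1 := congrFun h1 j
  have k2 := congrFun h2 j
  have k3 := congrFun h3 j
  simp only [Matrix.mulVec, dotProduct, Fin.sum_univ_three] at k1 k2 k3
  rw [← k1, ← k2, ← k3]
  simp only [gE, Fin.sum_univ_three, hm, map_add, map_mul]
  ring

theorem tri_mulVec (g : Matrix (Fin 3) (Fin 3) ℂ) (a b c : Fin 3 → ℂ) :
    tri (g.mulVec a) (g.mulVec b) (g.mulVec c) = g.det * tri a b c := by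
  simp only [tri, Matrix.mulVec, dotProduct, Fin.sum_univ_three, Matrix.det_fin_three]
  ring

theorem gE_one (v : Fin 3 → E) : gE 1 v = v := by
  funext j
  simp only [gE, Matrix.one_apply]
  rw [Finset.sum_eq_single j]
  · simp
  · intro b _ hb
    rw [if_neg (Ne.symm hb)]
    simp
  · intro h
    exact absurd (Finset.mem_univ j) h

/-- the total curvature vanishes, in the chart given by the columns of a matrix `g` -/
theorem wr_main_frame (G : GData n ω ℓ) (hn : 1 ≤ n) {k : ℕ} {F : MvPolynomial (Fin 3) ℂ}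
    (hFk : F.IsHomogeneous k) (hF0 : F ≠ 0) (hinv : InvCurve ω F)
    (g : Matrix (Fin 3) (Fin 3) ℂ) (hg : g.det ≠ 0)
    {dp dq : Derivation ℂ E E} {p q : E} (hpq : PQ dp dq p q)
    (m : Fin (n + k) → Fin 3 → E) (hon : ∀ i, m i 1 = p * m i 0 - q * m i 2)
    (hm0 : ∀ i, m i ≠ 0)
    (hdist : ∀ i j, i ≠ j → m i 0 * m j 2 - m i 2 * m j 0 ≠ 0)
    (hroot : ∀ i, MvPolynomial.aeval (gE g (m i)) F = 0 ∨
      ∀ w : Fin 3 → E, w 1 = p * w 0 - q * w 2 →
        ∑ j, gE g w j * MvPolynomial.aeval (gE g (m i)) (ω j) = 0) :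
    Web.Ktot dp dq (fun i => (m i 0, - m i 2)) = 0 := by
  have hchar : CharZero E := charZero_of_injective_algebraMap (algebraMap ℂ E).injective
  have hi0 : 0 < 3 * n := by omega
  set i0 : Fin (3 * n) := ⟨0, hi0⟩ with hi0d
  obtain ⟨e1, e2, s, ht, h1, h2⟩ := frame_exists (ℓ i0) (G.inv i0).1
  have hgu : IsUnit g.det := isUnit_iff_ne_zero.2 hg
  have hgi : ∀ v : Fin 3 → ℂ, g.mulVec (g⁻¹.mulVec v) = v := by
    intro v
    rw [Matrix.mulVec_mulVec, Matrix.mul_nonsing_inv g hgu, Matrix.one_mulVec]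
  set f1 : Fin 3 → ℂ := g⁻¹.mulVec e1 with hf1
  set f2 : Fin 3 → ℂ := g⁻¹.mulVec e2 with hf2
  set f3 : Fin 3 → ℂ := g⁻¹.mulVec s with hf3
  have hg1 : g.mulVec f1 = e1 := hgi e1
  have hg2 : g.mulVec f2 = e2 := hgi e2
  have hg3 : g.mulVec f3 = s := hgi s
  have htf : tri f1 f2 f3 ≠ 0 := by
    intro h0
    apply ht
    rw [← hg1, ← hg2, ← hg3, tri_mulVec, h0, mul_zero]
  have he2 : f2 ≠ 0 := by
    intro h0
    apply htf
    rw [h0]
    simp [tri]
  have hV : lp p q f2 ≠ 0 := lp_ne hpq f2 he2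
  obtain ⟨hJ, hPQ⟩ := wr_PQ hpq f1 f2 f3 he2 htf
  set P := nP p q f1 f2 with hP
  set Q := nQ p q f2 f3 with hQ
  set D1 := Web.dualP dp dq P Q with hD1
  set D2 := Web.dualQ dp dq P Q with hD2
  choose x y z hm' using fun i => wr_decomp htf (m i)
  have hm : ∀ i, ∀ j, gE g (m i) j = x i * algebraMap ℂ E (e1 j) +
      y i * algebraMap ℂ E (e2 j) + z i * algebraMap ℂ E (s j) := fun i =>
    gE_comb g hg1 hg2 hg3 (hm' i)
  have hy : ∀ i, y i = P * x i - Q * z i := by
    intro i
    apply wr_y hV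
    rw [← wr_line (hm' i), hon i]; ring
  have hform : ∀ i, (m i 0, - m i 2) = (- lp p q f2) • Web.pull dp dq P Q (x i, - z i) :=
    fun i => wr_form hpq hV (hm' i) (hon i)
  have hdist2 : ∀ i j, i ≠ j → x i * z j - z i * x j ≠ 0 := by
    intro i j hij h0
    apply hdist i j hij
    have a1 : Web.wedge (m i 0, - m i 2) (m j 0, - m j 2) =
        - (m i 0 * m j 2 - m i 2 * m j 0) := by
      simp only [Web.wedge]; ring
    have a2 : Web.wedge (m i 0, - m i 2) (m j 0, - m j 2) =
        lp p q f2 ^ 2 * (Web.jac dp dq P Q * -(x i * z j - z i * x j)) := by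
      rw [hform i, hform j, Web.wedge_smul_left, Web.wedge_smul_right, Web.wedge_pull]
      simp only [Web.wedge]; ring
    rw [a1, h0] at a2
    rw [neg_zero, mul_zero, mul_zero, neg_eq_zero] at a2
    exact a2
  -- tangency condition in the new chart
  have hlineA : ∀ w : Fin 3 → E, ∀ a b c : E, (∀ j, w j = a * algebraMap ℂ E (f1 j) +
      b * algebraMap ℂ E (f2 j) + c * algebraMap ℂ E (f3 j)) → b = P * a - Q * c →
      w 1 = p * w 0 - q * w 2 := by
    intro w a b c hw hb
    have a1 := wr_line (p := p) (q := q) hw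
    have a2 : a * lp p q f1 + b * lp p q f2 + c * lp p q f3 = 0 := by
      have b1 : P * lp p q f2 = - lp p q f1 := by rw [hP, nP, div_mul_cancel₀ _ hV]
      have b2 : Q * lp p q f2 = lp p q f3 := by rw [hQ, nQ, div_mul_cancel₀ _ hV]
      rw [hb]
      linear_combination a * b1 - c * b2
    rw [a2] at a1
    linear_combination -a1
  have hroot1 : ∀ i, MvPolynomial.aeval (gE g (m i)) F = 0 ∨
      ∑ j, (algebraMap ℂ E (e1 j) + P * algebraMap ℂ E (e2 j)) *
        MvPolynomial.aeval (gE g (m i)) (ω j) = 0 := by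
    intro i
    refine (hroot i).imp id fun h => ?_
    have hw : ∀ j, (fun j => algebraMap ℂ E (f1 j) + P * algebraMap ℂ E (f2 j)) j =
        1 * algebraMap ℂ E (f1 j) + P * algebraMap ℂ E (f2 j) + 0 * algebraMap ℂ E (f3 j) :=
      fun j => by ring
    have a1 := h _ (hlineA _ 1 P 0 hw (by ring))
    have a2 := gE_comb g hg1 hg2 hg3 hw
    rw [← a1]
    refine Finset.sum_congr rfl fun j _ => ?_
    rw [a2 j]
    ring
  -- the case distinction
  by_cases hz : ∀ i, z i ≠ 0
  · -- no branch at infinity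
    set X : Fin (n + k) → E := fun i => x i / z i with hX
    have hXinj : Function.Injective X := by
      intro i j hij
      by_contra hne
      apply hdist2 i j hne
      have a1 : x i / z i = x j / z j := hij
      rw [div_eq_div_iff (hz i) (hz j)] at a1
      linear_combination a1
    obtain ⟨κI, Λ, κ, H⟩ := core_data G hn i0 e1 e2 s ht h1 h2 k F hF0 hinv
      (Deg.hom' e1 e2 s hFk)
    have hW := wr_web_ne G i0 e1 e2 s ht h1 h2 hFk hF0 hPQ
    have hc := core_zero H hPQ X hXinj (by rw [Fintype.card_fin]) hW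
      (fun i => wr_root G.fol e1 e2 s hFk (hz i) (hm i) (hy i) (hroot1 i))
      (fun t => no_sing G hn e1 e2 s ht hPQ t) (Fintype.card (Fin (n + k)) - 1)
    have hT : Web.Transv (fun i => Web.sl (X i)) := by
      intro i j hij
      rw [Web.wedge_sl]
      exact sub_ne_zero_of_ne fun h => hij (hXinj h).symm
    have hK := Web.Ktot_change (D1 := dp) (D2 := dq) (p := P) (q := Q) hpq.comm hJ
      (fun i => Web.sl (X i)) (fun i => (m i 0, - m i 2)) hT (fun i => lp p q f2 * z i)
      (fun i => mul_ne_zero hV (hz i)) (fun i => by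
        rw [hform i]
        have a1 : (x i, - z i) = (- z i) • Web.sl (X i) := by
          simp only [Web.sl, hX, Prod.smul_mk, smul_eq_mul, mul_one]
          congr 1
          have := hz i
          field_simp
        rw [a1, Web.pull_smul, smul_smul]
        congr 1
        ring)
    rw [hK, Web.Ktot_sl hPQ.comm X hXinj, hc, mul_zero]
  · -- one branch at infinity
    push Not at hz
    obtain ⟨i1, hi1⟩ := hz
    have hx1 : x i1 ≠ 0 := by
      intro h0
      apply hm0 i1
      funext j
      rw [hm' i1 j, hy i1, h0, hi1]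
      simp
    have hzo : ∀ i, i ≠ i1 → z i ≠ 0 := by
      intro i hi h0
      apply hdist2 i i1 hi
      rw [h0, hi1]; ring
    have hmi1 : gE g (m i1) =
        fun j => x i1 * (algebraMap ℂ E (e1 j) + P * algebraMap ℂ E (e2 j)) := by
      funext j
      rw [hm i1 j, hy i1, hi1]; ring
    have hinf : infR e1 e2 F = 0 := by
      rcases hroot i1 with h | h
      · rw [hmi1] at h
        exact wr_inf_curve hFk e1 e2 hPQ (x i1) hx1 h
      · exfalso
        have hw : ∀ j, (fun j => -Q * algebraMap ℂ E (f2 j) + algebraMap ℂ E (f3 j)) j =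
            0 * algebraMap ℂ E (f1 j) + (-Q) * algebraMap ℂ E (f2 j) +
              1 * algebraMap ℂ E (f3 j) := fun j => by ring
        have a1 := h _ (hlineA _ 0 (-Q) 1 hw (by ring))
        have a2 := gE_comb g hg1 hg2 hg3 hw
        have a3 : ∑ j, (-Q * algebraMap ℂ E (e2 j) + algebraMap ℂ E (s j)) *
            MvPolynomial.aeval (gE g (m i1)) (ω j) = 0 := by
          rw [← a1]
          refine Finset.sum_congr rfl fun j _ => ?_
          rw [a2 j]
          ring
        rw [hmi1] at a3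
        exact wr_inf_tang G.fol (ℓ i0) e1 e2 s (G.inv i0) ht h1 h2 hPQ (x i1) hx1 a3
    have hk : 1 ≤ k := wr_k_pos hFk hF0 e1 e2 hinf
    have hcard : n + (k - 1) + 1 = n + k := by omega
    obtain ⟨κI, Λ, κ, H⟩ := core_data G hn i0 e1 e2 s ht h1 h2 (k - 1) F hF0 hinv
      (wr_deg_drop hFk e1 e2 s hinf)
    have hW := wr_web_ne G i0 e1 e2 s ht h1 h2 hFk hF0 hPQ
    -- renumbering
    set e : Fin (n + (k - 1) + 1) ≃ Fin (n + k) :=
      (finCongr hcard).trans (Equiv.swap (finCongr hcard (Fin.last _)) i1) with he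
    have hel : e (Fin.last _) = i1 := by
      rw [he, Equiv.trans_apply, Equiv.swap_apply_left]
    have hec : ∀ i : Fin (n + (k - 1)), e (Fin.castSucc i) ≠ i1 := by
      intro i h0
      rw [← hel] at h0
      exact (Fin.castSucc_lt_last i).ne (e.injective h0)
    set X : Fin (n + (k - 1)) → E := fun i => x (e (Fin.castSucc i)) / z (e (Fin.castSucc i))
      with hX
    have hXinj : Function.Injective X := by
      intro i j hij
      by_contra hne
      have hne' : e (Fin.castSucc i) ≠ e (Fin.castSucc j) := fun h =>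
        hne (Fin.castSucc_injective _ (e.injective h))
      apply hdist2 _ _ hne'
      have a1 : x (e (Fin.castSucc i)) / z (e (Fin.castSucc i)) =
        x (e (Fin.castSucc j)) / z (e (Fin.castSucc j)) := hij
      rw [div_eq_div_iff (hzo _ (hec i)) (hzo _ (hec j))] at a1
      linear_combination a1
    have hc := core_zero H hPQ X hXinj (by rw [Fintype.card_fin]) hW
      (fun i => wr_root G.fol e1 e2 s hFk (hzo _ (hec i)) (hm _) (hy _) (hroot1 _))
      (fun t => no_sing G hn e1 e2 s ht hPQ t) (n + (k - 1))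
    -- the forms in the new chart
    set w : Fin (n + k) → E × E := fun i => if i = i1 then (1, 0) else Web.sl (x i / z i) with hw
    set g : Fin (n + k) → E := fun i => if i = i1 then - lp p q f2 * x i1 else lp p q f2 * z i
      with hg
    have hwi : ∀ i, i ≠ i1 → w i = Web.sl (x i / z i) := fun i hi => by rw [hw]; simp [hi]
    have hwi1 : w i1 = (1, 0) := by rw [hw]; simp
    have hTs : ∀ i, i ≠ i1 → Web.wedge (w i) (w i1) ≠ 0 := by
      intro i hi
      rw [hwi i hi, hwi1]
      simp [Web.wedge, Web.sl]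
    have hT : Web.Transv w := by
      intro i j hij
      by_cases hi : i = i1
      · subst hi
        have a1 : Web.wedge (w i) (w j) = - Web.wedge (w j) (w i) := by
          simp only [Web.wedge]; ring
        rw [a1]
        exact neg_ne_zero.2 (hTs j (Ne.symm hij))
      · by_cases hj : j = i1
        · subst hj
          exact hTs i hi
        · rw [hwi i hi, hwi j hj, Web.wedge_sl]
          intro h0
          apply hdist2 i j hij
          have a1 : x j / z j = x i / z i := sub_eq_zero.1 h0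
          rw [div_eq_div_iff (hzo j hj) (hzo i hi)] at a1
          linear_combination -a1
    have hK := Web.Ktot_change (D1 := dp) (D2 := dq) (p := P) (q := Q) hpq.comm hJ
      w (fun i => (m i 0, - m i 2)) hT g
      (fun i => by
        by_cases hi : i = i1
        · simp only [hg, if_pos hi]
          exact mul_ne_zero (neg_ne_zero.2 hV) hx1
        · simp only [hg, if_neg hi]
          exact mul_ne_zero hV (hzo i hi))
      (fun i => by
        rw [hform i]
        by_cases hi : i = i1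
        · subst hi
          simp only [hg, if_true]
          rw [hwi1, hi1]
          have a1 : (x i, - (0 : E)) = (x i) • ((1 : E), (0 : E)) := by
            simp
          rw [a1, Web.pull_smul, smul_smul]
        · simp only [hg, if_neg hi]
          rw [hwi i hi]
          have a1 : (x i, - z i) = (- z i) • Web.sl (x i / z i) := by
            simp only [Web.sl, Prod.smul_mk, smul_eq_mul, mul_one]
            congr 1
            have := hzo i hi
            field_simp
          rw [a1, Web.pull_smul, smul_smul]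
          congr 1
          ring)
    rw [hK, ← Web.Ktot_equiv e w hT, Web.Ktot_sl_inf hPQ.comm (n + (k - 1)) (fun i => w (e i)) X
      hXinj (fun i => hwi _ (hec i)) (by rw [hel]; exact hwi1), hc, mul_zero]

/-- the total curvature vanishes, in the standard chart -/
theorem wr_main (G : GData n ω ℓ) (hn : 1 ≤ n) {k : ℕ} {F : MvPolynomial (Fin 3) ℂ}
    (hFk : F.IsHomogeneous k) (hF0 : F ≠ 0) (hinv : InvCurve ω F)
    {dp dq : Derivation ℂ E E} {p q : E} (hpq : PQ dp dq p q)
    (m : Fin (n + k) → Fin 3 → E) (hon : ∀ i, m i 1 = p * m i 0 - q * m i 2)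
    (hm0 : ∀ i, m i ≠ 0)
    (hdist : ∀ i j, i ≠ j → m i 0 * m j 2 - m i 2 * m j 0 ≠ 0)
    (hroot : ∀ i, MvPolynomial.aeval (m i) F = 0 ∨
      ∀ w : Fin 3 → E, w 1 = p * w 0 - q * w 2 → ∑ j, w j * MvPolynomial.aeval (m i) (ω j) = 0) :
    Web.Ktot dp dq (fun i => (m i 0, - m i 2)) = 0 := by
  refine wr_main_frame G hn hFk hF0 hinv 1 (by simp) hpq m hon hm0 hdist fun i => ?_
  simpa only [gE_one] using hroot i

end

end Pool.Agent.Lib.MP_5bde83_ag
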