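import Pool.Agent.Lib.MP_5bde83_ag.Mg.G003

/-!
The Blaschke curvature of a 3-web does not depend on the normalization of the three forms.
-/

namespace Pool.Agent.Lib.MP_5bde83_ag.Web

noncomputable section

variable {R E : Type*} [CommRing R] [Field E] [Algebra R E]
variable {Dp Dq : Derivation R E E}

theorem blaschke_unique (hc : ∀ z, Dp (Dq z) = Dq (Dp z)) (w : Fin 3 → E × E)
    (h01 : wedge (w 0) (w 1) ≠ 0) (h12 : wedge (w 1) (w 2) ≠ 0) (h20 : wedge (w 2) (w 0) ≠ 0)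
    (g : Fin 3 → E) (hg : ∀ i, g i ≠ 0) (hs : ∑ i, g i • w i = 0) (η : E × E)
    (hη : ∀ i, dform Dp Dq (g i • w i) = wedge η (g i • w i)) :
    dform Dp Dq η = K3 Dp Dq (w 0) (w 1) (w 2) := by
  rw [Fin.sum_univ_three] at hs
  have a1 : g 1 * wedge (w 1) (w 2) = g 0 * wedge (w 2) (w 0) := by
    have h := congrArg (fun v => wedge v (w 2)) hs
    simp only [wedge, Prod.fst_add, Prod.snd_add, Prod.smul_fst, Prod.smul_snd, smul_eq_mul,
      Prod.fst_zero, Prod.snd_zero] at h ⊢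
    linear_combination h
  have a2 : g 2 * wedge (w 1) (w 2) = g 0 * wedge (w 0) (w 1) := by
    have h := congrArg (fun v => wedge v (w 1)) hs
    simp only [wedge, Prod.fst_add, Prod.snd_add, Prod.smul_fst, Prod.smul_snd, smul_eq_mul,
      Prod.fst_zero, Prod.snd_zero] at h ⊢
    linear_combination -h
  set c : E := g 0 / wedge (w 1) (w 2) with hcd
  have hc0 : c ≠ 0 := div_ne_zero (hg 0) h12
  have b0 : g 0 = c * wedge (w 1) (w 2) := by rw [hcd, div_mul_cancel₀ _ h12]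
  have b1 : g 1 = c * wedge (w 2) (w 0) := by
    rw [hcd, div_mul_eq_mul_div, ← a1, mul_div_cancel_right₀ _ h12]
  have key : ∀ t : E × E, dform Dp Dq (c • t) = wedge η (c • t) →
      dform Dp Dq t = wedge (η + (-c⁻¹) • gr Dp Dq c) t := by
    intro t ht
    rw [dform_smul, wedge_smul_right] at ht
    rw [wedge_add_left, wedge_smul_left]
    have h1 : c * (dform Dp Dq t - (wedge η t + -c⁻¹ * wedge (gr Dp Dq c) t)) = 0 := by
      have h2 : c * (-c⁻¹ * wedge (gr Dp Dq c) t) = - wedge (gr Dp Dq c) t := by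
        field_simp
      rw [mul_sub, mul_add, h2]
      linear_combination ht
    exact sub_eq_zero.1 ((mul_eq_zero.1 h1).resolve_left hc0)
  have e0 := key (wedge (w 1) (w 2) • w 0) (by
    rw [smul_smul, ← b0]; exact hη 0)
  have e1 := key (wedge (w 2) (w 0) • w 1) (by
    rw [smul_smul, ← b1]; exact hη 1)
  have e2 := eta_unique (w 0) (w 1) (w 2) h01 h12 h20 _ e0 e1
  have e3 : η = eta Dp Dq (w 0) (w 1) (w 2) + c⁻¹ • gr Dp Dq c := by
    rw [← e2, add_assoc, ← add_smul, neg_add_cancel, zero_smul, add_zero]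
  rw [e3, dform_add, dform_dlog hc, add_zero, K3]

theorem blaschke_exists (w : Fin 3 → E × E)
    (h01 : wedge (w 0) (w 1) ≠ 0) (h12 : wedge (w 1) (w 2) ≠ 0) (h20 : wedge (w 2) (w 0) ≠ 0) :
    ∃ g : Fin 3 → E, (∀ i, g i ≠ 0) ∧ ∑ i, g i • w i = 0 ∧ ∃ η : E × E,
      (∀ i, dform Dp Dq (g i • w i) = wedge η (g i • w i)) ∧
      K3 Dp Dq (w 0) (w 1) (w 2) = dform Dp Dq η := by
  obtain ⟨f0, f1, f2⟩ := eta_spec (Dp := Dp) (Dq := Dq) (w 0) (w 1) (w 2) h01 h12 h20
  refine ⟨![wedge (w 1) (w 2), wedge (w 2) (w 0), wedge (w 0) (w 1)], ?_, ?_,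
    eta Dp Dq (w 0) (w 1) (w 2), ?_, rfl⟩
  · intro i
    fin_cases i
    · exact h12
    · exact h20
    · exact h01
  · rw [Fin.sum_univ_three]
    exact sum_theta (w 0) (w 1) (w 2)
  · intro i
    fin_cases i
    · exact f0
    · exact f1
    · exact f2

end

end Pool.Agent.Lib.MP_5bde83_ag.Web
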